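import Pool.Agent.Helper954.Hopf.KR

set_option autoImplicit false

namespace Pool.Agent.Helper954.Hopf

open MeasureTheory Set
open scoped BigOperators
open scoped ENNReal
open KR (KR)

namespace TL

theorem TL_pow {α : Type*} [MeasurableSpace α] (μ : Measure α) [SigmaFinite μ] (f : α → ℝ≥0∞)
    (hf : Measurable f) (k : ℕ) :
    ∫⁻ w : Fin k → α, ∏ i, f (w i) ∂(Measure.pi (fun _ => μ)) = (∫⁻ x, f x ∂μ) ^ k := by
  induction k with
  | zero =>
    simp
  | succ n ih =>
    have h := (measurePreserving_piFinSuccAbove (fun _ : Fin (n+1) => μ) 0)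
    have h2 := (h.symm).lintegral_comp_emb (MeasurableEquiv.measurableEmbedding _) (fun w : Fin (n+1) → α => ∏ i, f (w i))
    rw [← h2]
    have h3 : ∀ p : α × (Fin n → α), (∏ i, f ((MeasurableEquiv.piFinSuccAbove (fun _ : Fin (n+1) => α) 0).symm p i)) =
        f p.1 * ∏ i, f (p.2 i) := by
      intro p
      rw [Fin.prod_univ_succ]
      simp [MeasurableEquiv.piFinSuccAbove]
    simp_rw [h3]
    rw [lintegral_prod_mul (f := f) (g := fun w : Fin n → α => ∏ i, f (w i)) hf.aemeasurable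
      (Finset.measurable_prod _ (fun i _ => hf.comp (measurable_pi_apply i))).aemeasurable]
    rw [ih, pow_succ, mul_comm]

/-- block assembly -/
noncomputable def TLas (J : Type) (k : ℕ) (w : Fin k → Cx J) : Cx (Fin k × J) :=
  WithLp.toLp 2 (fun q => w q.1.1 (q.1.2, q.2))

/-- the blocks -/
noncomputable def TLblk (J : Type) (k : ℕ) (i : Fin k) : Cx (Fin k × J) →ₗ[ℝ] Cx J where
  toFun x := WithLp.toLp 2 (fun q => x ((i, q.1), q.2))
  map_add' x y := by ext q; simp
  map_smul' c x := by ext q; simp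

theorem TLblk_apply (J : Type) (k : ℕ) (i : Fin k) (x : Cx (Fin k × J)) (q : J × Fin 2) :
    TLblk J k i x q = x ((i, q.1), q.2) := rfl

theorem TLblk_as (J : Type) (k : ℕ) (i : Fin k) (w : Fin k → Cx J) : TLblk J k i (TLas J k w) = w i := by
  ext q
  rw [TLblk_apply]
  rfl

theorem TLas_blk (J : Type) (k : ℕ) (x : Cx (Fin k × J)) : TLas J k (fun i => TLblk J k i x) = x := by
  ext q
  rfl

theorem TL_uncurry (J : Type) [Fintype J] (k : ℕ) :
    MeasurePreserving (fun (w : Fin k → (J × Fin 2 → ℝ)) (q : (Fin k × J) × Fin 2) => w q.1.1 (q.1.2, q.2))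
      (Measure.pi (fun _ => (volume : Measure (J × Fin 2 → ℝ)))) (volume : Measure ((Fin k × J) × Fin 2 → ℝ)) := by
  have hm : Measurable (fun (w : Fin k → (J × Fin 2 → ℝ)) (q : (Fin k × J) × Fin 2) => w q.1.1 (q.1.2, q.2)) := by
    fun_prop
  refine ⟨hm, ?_⟩
  symm
  apply Measure.pi_eq
  intro s hs
  rw [Measure.map_apply hm (MeasurableSet.univ_pi hs)]
  have h1 : (fun (w : Fin k → (J × Fin 2 → ℝ)) (q : (Fin k × J) × Fin 2) => w q.1.1 (q.1.2, q.2)) ⁻¹' (univ.pi s) =
      univ.pi (fun i : Fin k => univ.pi (fun q : J × Fin 2 => s ((i, q.1), q.2))) := by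
    ext w
    simp only [mem_preimage, mem_univ_pi]
    constructor
    · intro h i q
      exact h ((i, q.1), q.2)
    · intro h q
      exact h q.1.1 (q.1.2, q.2)
  rw [h1, Measure.pi_pi]
  simp_rw [volume_pi_pi]
  rw [Fintype.prod_prod_type, Fintype.prod_prod_type]
  apply Finset.prod_congr rfl
  intro i _
  rw [Fintype.prod_prod_type]

theorem TL_as_mp (J : Type) [Fintype J] (k : ℕ) :
    MeasurePreserving (TLas J k) (Measure.pi (fun _ => (volume : Measure (Cx J)))) (volume : Measure (Cx (Fin k × J))) := by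
  have h1 : MeasurePreserving (fun (w : Fin k → Cx J) (i : Fin k) => (WithLp.ofLp (w i) : J × Fin 2 → ℝ))
      (Measure.pi (fun _ => (volume : Measure (Cx J)))) (Measure.pi (fun _ => (volume : Measure (J × Fin 2 → ℝ)))) :=
    measurePreserving_pi (fun _ => (volume : Measure (Cx J))) (fun _ => (volume : Measure (J × Fin 2 → ℝ)))
      (fun _ => PiLp.volume_preserving_ofLp (J × Fin 2))
  have h2 := TL_uncurry J k
  have h3 := PiLp.volume_preserving_toLp ((Fin k × J) × Fin 2)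
  exact h3.comp (h2.comp h1)

/-- Fubini for blocks -/
theorem TL_fubini (J : Type) [Fintype J] (k : ℕ) (f : Cx J → ℝ≥0∞) (hf : Measurable f) :
    ∫⁻ x : Cx (Fin k × J), ∏ i, f (TLblk J k i x) = (∫⁻ x, f x) ^ k := by
  rw [← TL_pow volume f hf k]
  have h := (TL_as_mp J k).lintegral_comp (f := fun x => ∏ i, f (TLblk J k i x)) (by
    apply Finset.measurable_prod
    intro i _
    apply hf.comp
    have : Measurable (fun x : Cx (Fin k × J) => TLblk J k i x) := by
      exact (LinearMap.continuous_of_finiteDimensional (TLblk J k i)).measurable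
    exact this)
  rw [← h]
  simp_rw [TLblk_as]


theorem TL_inner {J : Type} [Fintype J] (x y : Cx J) : inner ℝ x y = ∑ q, x q * y q := by
  simp [PiLp.inner_apply, mul_comm]

/-- block diagonal linear map -/
noncomputable def TLdiag {J I : Type} [Fintype J] [Fintype I] (k : ℕ) (A : Fin k → (Cx J →L[ℝ] Cx I)) :
    Cx (Fin k × J) →ₗ[ℝ] Cx (Fin k × I) where
  toFun v := TLas I k (fun i => A i (TLblk J k i v))
  map_add' x y := by ext q; simp [TLas]
  map_smul' c x := by ext q; simp [TLas]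

theorem TL_normDet_diag {J I : Type} [Fintype J] [DecidableEq J] [Fintype I] (k : ℕ)
    (A : Fin k → (Cx J →L[ℝ] Cx I)) :
    (TLdiag k A).normDet = ∏ i, (A i : Cx J →ₗ[ℝ] Cx I).normDet := by
  have hnn : 0 ≤ ∏ i, (A i : Cx J →ₗ[ℝ] Cx I).normDet :=
    Finset.prod_nonneg (fun i _ => LinearMap.normDet_nonneg _)
  rw [← sq_eq_sq₀ (LinearMap.normDet_nonneg _) hnn, ← Finset.prod_pow]
  have h1 := LinearMap.normDet_sq_eq_det_gram (TLdiag k A) (EuclideanSpace.basisFun ((Fin k × J) × Fin 2) ℝ)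
  have h2 := fun i => LinearMap.normDet_sq_eq_det_gram (A i : Cx J →ₗ[ℝ] Cx I) (EuclideanSpace.basisFun (J × Fin 2) ℝ)
  simp only [RCLike.ofReal_real_eq_id, id] at h1 h2
  rw [h1]
  simp_rw [h2]
  rw [← Matrix.det_blockDiagonal]
  let e : ((Fin k × J) × Fin 2) ≃ ((J × Fin 2) × Fin k) :=
    { toFun := fun q => ((q.1.2, q.2), q.1.1)
      invFun := fun r => ((r.2, r.1.1), r.1.2)
      left_inv := fun q => rfl
      right_inv := fun r => rfl }
  rw [← Matrix.det_reindex_self e]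
  congr 1
  ext ⟨q, i⟩ ⟨q', i'⟩
  simp only [Matrix.reindex_apply, Matrix.submatrix_apply, Matrix.blockDiagonal_apply, Matrix.gram_apply]
  have hval : ∀ (i : Fin k) (q : J × Fin 2) (r : (Fin k × I) × Fin 2),
      (TLdiag k A (EuclideanSpace.basisFun ((Fin k × J) × Fin 2) ℝ (e.symm (q, i)))) r =
      if r.1.1 = i then (A i (EuclideanSpace.basisFun (J × Fin 2) ℝ q)) (r.1.2, r.2) else 0 := by
    intro i q r
    have hb : TLblk J k r.1.1 (EuclideanSpace.basisFun ((Fin k × J) × Fin 2) ℝ (e.symm (q, i))) =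
        if r.1.1 = i then EuclideanSpace.basisFun (J × Fin 2) ℝ q else 0 := by
      ext s
      rw [TLblk_apply]
      simp only [EuclideanSpace.basisFun_apply]
      split_ifs with h
      · subst h
        simp [e, Prod.ext_iff]
      · simp [e, Prod.ext_iff, h]
    change (A r.1.1 (TLblk J k r.1.1 _)) (r.1.2, r.2) = _
    rw [hb]
    split_ifs with h
    · rw [h]
    · simp
  rw [TL_inner]
  simp_rw [hval]
  split_ifs with h
  · subst h
    rw [TL_inner, Fintype.sum_prod_type, Fintype.sum_prod_type, Fintype.sum_prod_type]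
    rw [Finset.sum_eq_single i]
    · simp
    · intro j _ hj
      simp [hj]
    · intro h
      exact absurd (Finset.mem_univ i) h
  · apply Finset.sum_eq_zero
    intro r _
    by_cases h1 : r.1.1 = i
    · rw [if_pos h1, if_neg (by rw [h1]; exact h), mul_zero]
    · rw [if_neg h1, zero_mul]

/-- the block map -/
noncomputable def TLmap {J I : Type} (k : ℕ) (Z : Fin k → Cx J → Cx I) (x : Cx (Fin k × J)) : Cx (Fin k × I) :=
  TLas I k (fun i => Z i (TLblk J k i x))

noncomputable def TLasL (I : Type) [Fintype I] (k : ℕ) : (Fin k → Cx I) →ₗ[ℝ] Cx (Fin k × I) where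
  toFun := TLas I k
  map_add' x y := by ext q; simp [TLas]
  map_smul' c x := by ext q; simp [TLas]

theorem TLblk_cont (J : Type) [Fintype J] (k : ℕ) (i : Fin k) : Continuous (TLblk J k i) :=
  LinearMap.continuous_of_finiteDimensional (TLblk J k i)

theorem TLas_cont (I : Type) [Fintype I] (k : ℕ) : Continuous (TLas I k) :=
  LinearMap.continuous_of_finiteDimensional (TLasL I k)

theorem TLmap_cont {J I : Type} [Fintype J] [Fintype I] (k : ℕ) (Z : Fin k → Cx J → Cx I)
    (hZ : ∀ i, Continuous (Z i)) : Continuous (TLmap k Z) :=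
  (TLas_cont I k).comp (continuous_pi (fun i => (hZ i).comp (TLblk_cont J k i)))

theorem TLmap_fderiv {J I : Type} [Fintype J] [Fintype I] (k : ℕ) (Z : Fin k → Cx J → Cx I)
    (x : Cx (Fin k × J)) (hZ : ∀ i, DifferentiableAt ℝ (Z i) (TLblk J k i x)) :
    HasFDerivAt (TLmap k Z) (LinearMap.toContinuousLinearMap
      (TLdiag k (fun i => fderiv ℝ (Z i) (TLblk J k i x)))) x := by
  have h1 : HasFDerivAt (fun x => fun i => Z i (TLblk J k i x))
      (ContinuousLinearMap.pi (fun i => (fderiv ℝ (Z i) (TLblk J k i x)).comp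
        (LinearMap.toContinuousLinearMap (TLblk J k i)))) x := by
    rw [hasFDerivAt_pi]
    intro i
    have h2 : HasFDerivAt (fun x => TLblk J k i x) (LinearMap.toContinuousLinearMap (TLblk J k i)) x :=
      (LinearMap.toContinuousLinearMap (TLblk J k i)).hasFDerivAt
    exact (hZ i).hasFDerivAt.comp x h2
  have h3 : HasFDerivAt (TLas I k) (LinearMap.toContinuousLinearMap (TLasL I k))
      (fun i => Z i (TLblk J k i x)) := (LinearMap.toContinuousLinearMap (TLasL I k)).hasFDerivAt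
  have h4 := h3.comp x h1
  refine h4.congr_fderiv ?_
  ext v q
  rfl

theorem TLmap_contDiffAt {J I : Type} [Fintype J] [Fintype I] (k : ℕ) (Z : Fin k → Cx J → Cx I)
    (x : Cx (Fin k × J)) (hZ : ∀ i, ContDiffAt ℝ 1 (Z i) (TLblk J k i x)) :
    ContDiffAt ℝ 1 (TLmap k Z) x := by
  have h1 : ContDiffAt ℝ 1 (fun x => fun i => Z i (TLblk J k i x)) x := by
    rw [contDiffAt_pi]
    intro i
    have h2 : ContDiff ℝ 1 (fun x => TLblk J k i x) :=
      (LinearMap.toContinuousLinearMap (TLblk J k i)).contDiff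
    exact (hZ i).comp x h2.contDiffAt
  have h3 : ContDiff ℝ 1 (TLas I k) := (LinearMap.toContinuousLinearMap (TLasL I k)).contDiff
  exact h3.contDiffAt.comp x h1

theorem TLas_norm_sq (I : Type) [Fintype I] (k : ℕ) (w : Fin k → Cx I) :
    ‖TLas I k w‖ ^ 2 = ∑ i, ‖w i‖ ^ 2 := by
  rw [EuclideanSpace.norm_sq_eq]
  simp_rw [EuclideanSpace.norm_sq_eq]
  rw [Fintype.sum_prod_type, Fintype.sum_prod_type]
  apply Finset.sum_congr rfl
  intro i _
  rw [Fintype.sum_prod_type]
  rfl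

theorem TL_normDet_cont (J I : Type) [Fintype J] [DecidableEq J] [Fintype I] :
    Continuous (fun f : Cx J →L[ℝ] Cx I => (f : Cx J →ₗ[ℝ] Cx I).normDet) := by
  have h : ∀ f : Cx J →L[ℝ] Cx I, (f : Cx J →ₗ[ℝ] Cx I).normDet =
      Real.sqrt (Matrix.of (fun i j : J × Fin 2 => ∑ q, f (EuclideanSpace.basisFun (J × Fin 2) ℝ i) q *
        f (EuclideanSpace.basisFun (J × Fin 2) ℝ j) q)).det := by
    intro f
    have h1 := LinearMap.normDet_sq_eq_det_gram (f : Cx J →ₗ[ℝ] Cx I) (EuclideanSpace.basisFun (J × Fin 2) ℝ)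
    simp only [RCLike.ofReal_real_eq_id, id] at h1
    rw [← Real.sqrt_sq (LinearMap.normDet_nonneg _), h1]
    congr 2
    ext i j
    simp only [Matrix.gram_apply, Matrix.of_apply]
    rw [TL_inner]
    rfl
  simp_rw [h]
  apply Real.continuous_sqrt.comp
  apply Continuous.matrix_det
  apply continuous_matrix
  intro i j
  simp only [Matrix.of_apply]
  fun_prop

theorem TL_JZ_meas {J I : Type} [Fintype J] [DecidableEq J] [Fintype I] (Z : Cx J → Cx I) :
    Measurable (fun x => (fderiv ℝ Z x : Cx J →ₗ[ℝ] Cx I).normDet) := by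
  have h1 := measurable_fderiv ℝ Z
  exact (TL_normDet_cont J I).measurable.comp h1

theorem TL_fderiv_smul {J I : Type} [Fintype J] [Fintype I] (Z : Cx J → Cx I)
    (hhom : ∀ t : ℝ, 0 < t → ∀ x, Z (t • x) = t • Z x)
    (hdiff : ∀ x, x ≠ 0 → ContDiffAt ℝ 1 Z x) (t : ℝ) (ht : 0 < t) (x : Cx J) :
    fderiv ℝ Z (t • x) = fderiv ℝ Z x := by
  by_cases hx : x = 0
  · rw [hx, smul_zero]
  have h1 : HasFDerivAt Z (fderiv ℝ Z x) x := ((hdiff x hx).differentiableAt (by norm_num)).hasFDerivAt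
  have h2 : HasFDerivAt (fun y : Cx J => t⁻¹ • y) (t⁻¹ • ContinuousLinearMap.id ℝ (Cx J)) (t • x) :=
    (t⁻¹ • ContinuousLinearMap.id ℝ (Cx J)).hasFDerivAt
  have hx' : t⁻¹ • (t • x) = x := by rw [smul_smul, inv_mul_cancel₀ ht.ne', one_smul]
  have h3 : HasFDerivAt Z (fderiv ℝ Z x) (t⁻¹ • (t • x)) := by rw [hx']; exact h1
  have h4 := (h3.comp (t • x) h2).const_smul t
  have h6 : HasFDerivAt Z (t • (fderiv ℝ Z x).comp (t⁻¹ • ContinuousLinearMap.id ℝ (Cx J))) (t • x) := by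
    refine h4.congr_of_eventuallyEq (Filter.Eventually.of_forall fun y => ?_)
    change Z y = t • Z (t⁻¹ • y)
    rw [hhom t⁻¹ (inv_pos.2 ht), smul_smul, mul_inv_cancel₀ ht.ne', one_smul]
  rw [h6.fderiv]
  ext v q
  simp [← mul_assoc, mul_inv_cancel₀ ht.ne']

theorem TL_scale {J I : Type} [Fintype J] [DecidableEq J] [Fintype I] (Z : Cx J → Cx I)
    (hcont : Continuous Z)
    (hhom : ∀ t : ℝ, 0 < t → ∀ x, Z (t • x) = t • Z x)
    (hdiff : ∀ x, x ≠ 0 → ContDiffAt ℝ 1 Z x) (s : ℝ) (hs : 0 < s) :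
    ∫⁻ x : Cx J, ENNReal.ofReal (Real.exp (-(s * ‖Z x‖ ^ 2))) *
        ENNReal.ofReal ((fderiv ℝ Z x : Cx J →ₗ[ℝ] Cx I).normDet) =
      ENNReal.ofReal ((s ^ (Fintype.card J))⁻¹) *
    ∫⁻ x : Cx J, ENNReal.ofReal (Real.exp (-‖Z x‖ ^ 2)) *
        ENNReal.ofReal ((fderiv ℝ Z x : Cx J →ₗ[ℝ] Cx I).normDet) := by
  set c := Real.sqrt s with hc
  have hc0 : 0 < c := Real.sqrt_pos.2 hs
  have hc2 : c ^ 2 = s := Real.sq_sqrt hs.le
  set F : Cx J → ℝ≥0∞ := fun x => ENNReal.ofReal (Real.exp (-‖Z x‖ ^ 2)) *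
        ENNReal.ofReal ((fderiv ℝ Z x : Cx J →ₗ[ℝ] Cx I).normDet) with hF
  have hFm : Measurable F := by
    have m1 : Measurable (fun x => ENNReal.ofReal (Real.exp (-‖Z x‖ ^ 2))) := by
      apply ENNReal.measurable_ofReal.comp
      exact (by fun_prop : Continuous fun x => Real.exp (-‖Z x‖ ^ 2)).measurable
    have m2 : Measurable (fun x => ENNReal.ofReal ((fderiv ℝ Z x : Cx J →ₗ[ℝ] Cx I).normDet)) :=
      ENNReal.measurable_ofReal.comp (TL_JZ_meas Z)
    exact m1.mul m2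
  have h1 := Measure.map_addHaar_smul (volume : Measure (Cx J)) hc0.ne'
  have h2 : ∫⁻ x, F (c • x) = ∫⁻ x, F x ∂(Measure.map (c • ·) (volume : Measure (Cx J))) := by
    rw [lintegral_map hFm (measurable_const_smul c)]
  have h3 : (c ^ Module.finrank ℝ (Cx J)) = s ^ (Fintype.card J) := by
    rw [finrank_euclideanSpace, Fintype.card_prod, Fintype.card_fin, mul_comm, pow_mul, hc2]
  rw [h1, lintegral_smul_measure, h3, abs_of_pos (by positivity)] at h2
  rw [smul_eq_mul] at h2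
  rw [← h2]
  apply lintegral_congr
  intro x
  simp only [hF]
  rw [TL_fderiv_smul Z hhom hdiff c hc0, hhom c hc0, norm_smul, Real.norm_of_nonneg hc0.le, mul_pow, hc2]

theorem TL_gamma0 (a U : ℝ) (ha : 0 < a) (hU : 0 < U) :
    ∫⁻ s in Ioi (0:ℝ), ENNReal.ofReal (s ^ (a - 1) * Real.exp (-(U * s))) =
      ENNReal.ofReal ((1 / U) ^ a * Real.Gamma a) := by
  have h := Real.integral_rpow_mul_exp_neg_mul_Ioi ha hU
  have hpos : 0 < (1 / U) ^ a * Real.Gamma a := mul_pos (by positivity) (Real.Gamma_pos_of_pos ha)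
  have hint : IntegrableOn (fun s : ℝ => s ^ (a - 1) * Real.exp (-(U * s))) (Ioi 0) := by
    by_contra hcon
    have h2 := integral_undef hcon
    rw [h] at h2
    exact hpos.ne' h2
  rw [← h, ofReal_integral_eq_lintegral_ofReal hint]
  filter_upwards [ae_restrict_mem measurableSet_Ioi] with s hs
  have : (0:ℝ) < s := hs
  simp only [Pi.zero_apply]
  positivity

theorem TL_gamma (N : ℕ) (U : ℝ) (hU : 0 < U) :
    ENNReal.ofReal (2 / (U ^ N * Real.sqrt U)) = ENNReal.ofReal (2 / Real.Gamma (N + 1/2)) *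
      ∫⁻ s in Ioi (0:ℝ), ENNReal.ofReal (s ^ ((N:ℝ) + 1/2 - 1) * Real.exp (-(U * s))) := by
  have ha : (0:ℝ) < (N:ℝ) + 1/2 := by positivity
  have hG := Real.Gamma_pos_of_pos ha
  rw [TL_gamma0 _ U ha hU, ← ENNReal.ofReal_mul (by positivity)]
  congr 1
  have h1 : (1 / U) ^ ((N:ℝ) + 1/2) = 1 / (U ^ N * Real.sqrt U) := by
    rw [Real.rpow_add (by positivity), Real.rpow_natCast, ← Real.sqrt_eq_rpow, Real.sqrt_div zero_le_one,
      Real.sqrt_one, div_pow, one_pow]
    field_simp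
  rw [h1]
  field_simp

theorem TL_bound {J I : Type} [Fintype J] [DecidableEq J] [Fintype I] (k : ℕ) (Z : Cx J → Cx I)
    (hcont : Continuous Z)
    (hhom : ∀ t : ℝ, 0 < t → ∀ x, Z (t • x) = t • Z x)
    (hdiff : ∀ x, x ≠ 0 → ContDiffAt ℝ 1 Z x) :
    ∫⁻ x : Cx (Fin k × J), (∏ i, ENNReal.ofReal ((fderiv ℝ Z (TLblk J k i x) : Cx J →ₗ[ℝ] Cx I).normDet)) *
      ENNReal.ofReal (2 / ((1 + ‖TLmap k (fun _ => Z) x‖ ^ 2) ^ (k * Fintype.card J) *
        Real.sqrt (1 + ‖TLmap k (fun _ => Z) x‖ ^ 2))) =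
      ENNReal.ofReal (2 * Real.sqrt Real.pi / Real.Gamma ((k * Fintype.card J : ℕ) + 1/2)) *
      (∫⁻ x : Cx J, ENNReal.ofReal (Real.exp (-‖Z x‖ ^ 2)) *
        ENNReal.ofReal ((fderiv ℝ Z x : Cx J →ₗ[ℝ] Cx I).normDet)) ^ k := by
  set N := k * Fintype.card J with hN
  set G0 := ∫⁻ x : Cx J, ENNReal.ofReal (Real.exp (-‖Z x‖ ^ 2)) *
        ENNReal.ofReal ((fderiv ℝ Z x : Cx J →ₗ[ℝ] Cx I).normDet) with hG0
  set Y := TLmap k (fun _ => Z) with hY
  have hYc : Continuous Y := TLmap_cont k _ (fun _ => hcont)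
  set P : Cx (Fin k × J) → ℝ≥0∞ := fun x =>
    ∏ i, ENNReal.ofReal ((fderiv ℝ Z (TLblk J k i x) : Cx J →ₗ[ℝ] Cx I).normDet) with hP
  have hPm : Measurable P := by
    apply Finset.measurable_prod
    intro i _
    exact ENNReal.measurable_ofReal.comp ((TL_JZ_meas Z).comp (TLblk_cont J k i).measurable)
  have ha : (0:ℝ) < (N:ℝ) + 1/2 := by positivity
  have hGam := Real.Gamma_pos_of_pos ha
  have h1 : ∀ x, P x * ENNReal.ofReal (2 / ((1 + ‖Y x‖ ^ 2) ^ N * Real.sqrt (1 + ‖Y x‖ ^ 2))) =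
      ENNReal.ofReal (2 / Real.Gamma (N + 1/2)) * ∫⁻ s in Ioi (0:ℝ), P x *
        ENNReal.ofReal (s ^ ((N:ℝ) + 1/2 - 1) * Real.exp (-((1 + ‖Y x‖ ^ 2) * s))) := by
    intro x
    rw [TL_gamma N (1 + ‖Y x‖ ^ 2) (by positivity), lintegral_const_mul]
    · ring
    · apply ENNReal.measurable_ofReal.comp
      fun_prop
  have hmeas : Measurable (Function.uncurry (fun (x : Cx (Fin k × J)) (s : ℝ) => P x *
        ENNReal.ofReal (s ^ ((N:ℝ) + 1/2 - 1) * Real.exp (-((1 + ‖Y x‖ ^ 2) * s))))) := by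
    have m1 : Measurable (fun q : Cx (Fin k × J) × ℝ => P q.1) := hPm.comp measurable_fst
    have m2 : Measurable (fun q : Cx (Fin k × J) × ℝ =>
      ENNReal.ofReal (q.2 ^ ((N:ℝ) + 1/2 - 1) * Real.exp (-((1 + ‖Y q.1‖ ^ 2) * q.2)))) := by
      apply ENNReal.measurable_ofReal.comp
      have m3 : Measurable (fun q : Cx (Fin k × J) × ℝ => Y q.1) := hYc.measurable.comp measurable_fst
      fun_prop
    exact m1.mul m2
  refine (lintegral_congr h1).trans ?_
  have hm2 : Measurable (fun a : Cx (Fin k × J) => ∫⁻ s in Ioi (0:ℝ), P a *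
        ENNReal.ofReal (s ^ ((N:ℝ) + 1/2 - 1) * Real.exp (-((1 + ‖Y a‖ ^ 2) * s)))) :=
    Measurable.lintegral_prod_right' hmeas
  rw [lintegral_const_mul _ hm2]
  rw [lintegral_lintegral_swap hmeas.aemeasurable]
  have h2 : ∀ s ∈ Ioi (0:ℝ), ∫⁻ x, P x *
        ENNReal.ofReal (s ^ ((N:ℝ) + 1/2 - 1) * Real.exp (-((1 + ‖Y x‖ ^ 2) * s))) =
      G0 ^ k * ENNReal.ofReal (s ^ ((1/2:ℝ) - 1) * Real.exp (-(1 * s))) := by
    intro s hs
    have hs' : (0:ℝ) < s := hs
    have h3 : ∀ x, P x * ENNReal.ofReal (s ^ ((N:ℝ) + 1/2 - 1) * Real.exp (-((1 + ‖Y x‖ ^ 2) * s))) =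
        ENNReal.ofReal (s ^ ((N:ℝ) + 1/2 - 1) * Real.exp (-(1 * s))) *
        ∏ i, (ENNReal.ofReal (Real.exp (-(s * ‖Z (TLblk J k i x)‖ ^ 2))) *
          ENNReal.ofReal ((fderiv ℝ Z (TLblk J k i x) : Cx J →ₗ[ℝ] Cx I).normDet)) := by
      intro x
      rw [Finset.prod_mul_distrib]
      have h4 : ∏ i, ENNReal.ofReal (Real.exp (-(s * ‖Z (TLblk J k i x)‖ ^ 2))) =
          ENNReal.ofReal (Real.exp (-(s * ‖Y x‖ ^ 2))) := by
        rw [← ENNReal.ofReal_prod_of_nonneg (fun i _ => (Real.exp_pos _).le), ← Real.exp_sum]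
        congr 2
        rw [hY, TLmap, TLas_norm_sq, Finset.mul_sum, Finset.sum_neg_distrib]
      have h5 : ENNReal.ofReal (s ^ ((N:ℝ) + 1/2 - 1) * Real.exp (-((1 + ‖Y x‖ ^ 2) * s))) =
          ENNReal.ofReal (s ^ ((N:ℝ) + 1/2 - 1) * Real.exp (-(1 * s))) * ENNReal.ofReal (Real.exp (-(s * ‖Y x‖ ^ 2))) := by
        rw [← ENNReal.ofReal_mul (by positivity)]
        congr 1
        rw [mul_assoc, ← Real.exp_add]
        congr 2
        ring
      rw [h4, h5]
      ring
    simp_rw [h3]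
    have hfm : Measurable (fun y : Cx J => ENNReal.ofReal (Real.exp (-(s * ‖Z y‖ ^ 2))) *
          ENNReal.ofReal ((fderiv ℝ Z y : Cx J →ₗ[ℝ] Cx I).normDet)) := by
      have m1 : Measurable (fun x => ENNReal.ofReal (Real.exp (-(s * ‖Z x‖ ^ 2)))) := by
        apply ENNReal.measurable_ofReal.comp
        exact (by fun_prop : Continuous fun x => Real.exp (-(s * ‖Z x‖ ^ 2))).measurable
      have m2 : Measurable (fun x => ENNReal.ofReal ((fderiv ℝ Z x : Cx J →ₗ[ℝ] Cx I).normDet)) :=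
        ENNReal.measurable_ofReal.comp (TL_JZ_meas Z)
      exact m1.mul m2
    have hpm : Measurable (fun x : Cx (Fin k × J) => ∏ i, (ENNReal.ofReal (Real.exp (-(s * ‖Z (TLblk J k i x)‖ ^ 2))) *
          ENNReal.ofReal ((fderiv ℝ Z (TLblk J k i x) : Cx J →ₗ[ℝ] Cx I).normDet))) :=
      Finset.measurable_prod _ (fun i _ => hfm.comp (TLblk_cont J k i).measurable)
    rw [lintegral_const_mul _ hpm]
    have h6 := TL_fubini J k _ hfm
    rw [h6, TL_scale Z hcont hhom hdiff s hs', mul_pow, ← ENNReal.ofReal_pow (by positivity)]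
    have h7 : s ^ ((N:ℝ) + 1/2 - 1) * Real.exp (-(1 * s)) * ((s ^ Fintype.card J)⁻¹) ^ k =
        s ^ ((1/2:ℝ) - 1) * Real.exp (-(1 * s)) := by
      have h8 : s ^ ((N:ℝ) + 1/2 - 1) = s ^ N * s ^ ((1/2:ℝ) - 1) := by
        rw [← Real.rpow_natCast s N, ← Real.rpow_add hs']
        congr 1; ring
      have h9 : ((s ^ Fintype.card J)⁻¹) ^ k = (s ^ N)⁻¹ := by
        rw [inv_pow, ← pow_mul, hN, mul_comm k]
      rw [h8, h9]
      field_simp
    rw [← h7, ENNReal.ofReal_mul (p := s ^ ((N:ℝ) + 1/2 - 1) * Real.exp (-(1 * s))) (by positivity)]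
    ring
  rw [setLIntegral_congr_fun measurableSet_Ioi h2]
  rw [lintegral_const_mul]
  · rw [TL_gamma0 (1/2) 1 (by norm_num) one_pos]
    rw [show ((1:ℝ)/1)^(1/2:ℝ) * Real.Gamma (1/2) = Real.sqrt Real.pi by
      rw [div_one, Real.one_rpow, one_mul, Real.Gamma_one_half_eq]]
    have h10 : 2 * Real.sqrt Real.pi / Real.Gamma (N + 1/2) = 2 / Real.Gamma (N + 1/2) * Real.sqrt Real.pi := by ring
    rw [h10, ENNReal.ofReal_mul (by positivity)]
    ring
  · apply ENNReal.measurable_ofReal.comp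
    fun_prop

theorem TL_prod (C : ℝ) (hC : 0 ≤ C) (N : ℕ) :
    ∏ d ∈ Finset.range N, (2 * ((d:ℝ) + 1) + C * Real.sqrt (2 * ((d:ℝ) + 1)) + C) ≤
      2 ^ N * (N.factorial : ℝ) * Real.exp (4 * C * Real.sqrt N) := by
  induction N with
  | zero => simp
  | succ N ih =>
    rw [Finset.prod_range_succ]
    set w := Real.sqrt ((N:ℝ) + 1) with hw
    have hw2 : w ^ 2 = (N:ℝ) + 1 := Real.sq_sqrt (by positivity)
    have hw1 : 1 ≤ w := by
      rw [hw, Real.one_le_sqrt]; have : (0:ℝ) ≤ N := by positivity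
      linarith
    have h2 : Real.sqrt (2 * ((N:ℝ) + 1)) ≤ 2 * w := by
      rw [Real.sqrt_mul (by norm_num)]
      apply mul_le_mul_of_nonneg_right _ (by linarith)
      rw [Real.sqrt_le_left (by norm_num)]; norm_num
    have h3 : 2 * ((N:ℝ) + 1) + C * Real.sqrt (2 * ((N:ℝ) + 1)) + C ≤ 2 * ((N:ℝ) + 1) * Real.exp (2 * C / w) := by
      have h4 := Real.add_one_le_exp (2 * C / w)
      have h5 : 2 * ((N:ℝ) + 1) + C * Real.sqrt (2 * ((N:ℝ) + 1)) + C ≤ 2 * ((N:ℝ) + 1) * (2 * C / w + 1) := by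
        rw [← hw2]
        have h6 : 2 * w ^ 2 * (2 * C / w + 1) = 2 * w ^ 2 + 4 * C * w := by
          field_simp
          ring
        rw [h6, hw2]
        have h7 := mul_le_mul_of_nonneg_left h2 hC
        nlinarith
      refine h5.trans ?_
      exact mul_le_mul_of_nonneg_left h4 (by positivity)
    have h8 : 4 * C * Real.sqrt N + 2 * C / w ≤ 4 * C * w := by
      have h9 : Real.sqrt N ^ 2 = N := Real.sq_sqrt (by positivity)
      have h10 : Real.sqrt (N:ℝ) ≤ w := Real.sqrt_le_sqrt (by linarith)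
      have h11 : 1 ≤ 2 * w * (w - Real.sqrt N) := by nlinarith [Real.sqrt_nonneg (N:ℝ)]
      have h12 : 2 * C / w ≤ 4 * C * (w - Real.sqrt N) := by
        rw [div_le_iff₀ (by linarith)]
        nlinarith
      linarith
    calc _ ≤ (2 ^ N * (N.factorial : ℝ) * Real.exp (4 * C * Real.sqrt N)) * (2 * ((N:ℝ) + 1) * Real.exp (2 * C / w)) := by
          apply mul_le_mul ih h3 (by positivity) (by positivity)
      _ = 2 ^ (N+1) * ((N.factorial : ℝ) * ((N:ℝ)+1)) * Real.exp (4 * C * Real.sqrt N + 2 * C / w) := by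
          rw [Real.exp_add]; ring
      _ ≤ _ := by
          rw [Nat.factorial_succ]
          push_cast
          rw [mul_comm ((N:ℝ)+1) (N.factorial : ℝ), ← hw]
          apply mul_le_mul_of_nonneg_left _ (by positivity)
          exact Real.exp_le_exp.2 h8

theorem TL_fac (N : ℕ) (hN : 1 ≤ N) :
    (N.factorial : ℝ) * (2 * Real.sqrt Real.pi) ≤ 4 * N * Real.Gamma (N + 1/2) := by
  induction N, hN using Nat.le_induction with
  | base =>
    have h : Real.Gamma ((1:ℕ) + 1/2) = (1/2) * Real.sqrt Real.pi := by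
      push_cast
      rw [add_comm, Real.Gamma_add_one (by norm_num), Real.Gamma_one_half_eq]
    rw [h]
    simp
    linarith
  | succ N hN ih =>
    have h : Real.Gamma ((N+1:ℕ) + 1/2) = ((N:ℝ) + 1/2) * Real.Gamma (N + 1/2) := by
      push_cast
      rw [show (N:ℝ) + 1 + 1/2 = (N + 1/2) + 1 by ring, Real.Gamma_add_one (by positivity)]
    rw [h, Nat.factorial_succ]
    push_cast
    have hG : 0 < Real.Gamma ((N:ℝ) + 1/2) := Real.Gamma_pos_of_pos (by positivity)
    have hN' : (0:ℝ) ≤ N := by positivity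
    calc ((N:ℝ)+1) * (N.factorial : ℝ) * (2 * Real.sqrt Real.pi) = ((N:ℝ)+1) * ((N.factorial : ℝ) * (2 * Real.sqrt Real.pi)) := by ring
      _ ≤ ((N:ℝ)+1) * (4 * N * Real.Gamma (N + 1/2)) := mul_le_mul_of_nonneg_left ih (by positivity)
      _ ≤ _ := by nlinarith [mul_pos (show (0:ℝ) < (N:ℝ)+1 by positivity) hG]

/-- the tensor power trick -/
theorem TL_tensor (P g C : ℝ) (n1 : ℕ) (hn : 1 ≤ n1) (hP : 0 < P) (hg : 0 ≤ g) (hC : 0 ≤ C)
    (h : ∀ k : ℕ, 1 ≤ k → P ^ k ≤ 4 * ((k * n1 : ℕ) : ℝ) * Real.exp (4 * C * Real.sqrt ((k * n1 : ℕ) : ℝ)) * g ^ k) :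
    P ≤ g := by
  by_contra hcon
  push Not at hcon
  have hg0 : 0 < g := by
    rcases hg.eq_or_lt with h0 | h0
    · have := h 1 le_rfl
      rw [← h0] at this
      simp at this
      linarith
    · exact h0
  have hq : 0 < Real.log (P / g) := Real.log_pos ((one_lt_div hg0).2 hcon)
  set a : ℝ := 4 * n1 + 4 * C * Real.sqrt n1 with ha
  obtain ⟨m, hm⟩ := exists_nat_gt (max 1 (a / Real.log (P / g)))
  have hm1 : (1:ℝ) < m := (le_max_left _ _).trans_lt hm
  have hm2 := (le_max_right _ _).trans_lt hm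
  rw [div_lt_iff₀ hq] at hm2
  have hm1' : 1 ≤ m := by
    have : (0:ℝ) < m := by linarith
    exact_mod_cast this
  have hk := h (m ^ 2) (Nat.one_le_pow _ _ hm1')
  have h1 : (P / g) ^ (m ^ 2) ≤ Real.exp (a * m) := by
    rw [div_pow, div_le_iff₀ (by positivity)]
    refine hk.trans ?_
    apply mul_le_mul_of_nonneg_right _ (by positivity)
    have h2 : Real.sqrt (((m ^ 2 * n1 : ℕ) : ℝ)) = m * Real.sqrt n1 := by
      push_cast
      rw [Real.sqrt_mul (by positivity), Real.sqrt_sq (by positivity)]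
    rw [h2]
    have hn' : (1:ℝ) ≤ n1 := by exact_mod_cast hn
    have h3 : 4 * ((m ^ 2 * n1 : ℕ) : ℝ) ≤ Real.exp (4 * n1 * m) := by
      have h4 := Real.quadratic_le_exp_of_nonneg (show (0:ℝ) ≤ 4 * n1 * m by positivity)
      push_cast
      have h5 : (0:ℝ) ≤ 4 * n1 * m := by positivity
      have h6 : 4 * ((m:ℝ)^2 * n1) ≤ (4 * n1 * m)^2/2 := by
        have : (0:ℝ) ≤ (m:ℝ)^2 * n1 := by positivity
        nlinarith [mul_nonneg this (show (0:ℝ) ≤ n1 - 1 by linarith)]
      linarith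
    calc 4 * ((m ^ 2 * n1 : ℕ) : ℝ) * Real.exp (4 * C * (m * Real.sqrt n1))
        ≤ Real.exp (4 * n1 * m) * Real.exp (4 * C * (m * Real.sqrt n1)) :=
          mul_le_mul_of_nonneg_right h3 (Real.exp_pos _).le
      _ = Real.exp (a * m) := by
          rw [← Real.exp_add]; congr 1; rw [ha]; ring
  have h7 := Real.log_le_log (by positivity) h1
  rw [Real.log_exp, Real.log_pow] at h7
  push_cast at h7
  have : (m:ℝ) * (m * Real.log (P / g)) ≤ m * a := by linarith
  have h8 := le_of_mul_le_mul_left this (by linarith)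
  linarith

theorem TLblk_toL {J : Type} [Fintype J] (k : ℕ) (i : Fin k) : Continuous (TLblk J k i) := TLblk_cont J k i

/-- JOB: the area bound for maps between complex coordinate spaces -/
theorem area_cx {p : ℕ} [Fact p.Prime] (hp : p ≠ 2) {J I : Type} [Fintype J] [DecidableEq J]
    [Fintype I] [DecidableEq I] (κJ : J → ZMod p) (hκJ : ∀ j, κJ j ≠ 0) (κ : I → ZMod p)
    (hκ : ∀ i, κ i ≠ 0) (Z : Cx J → Cx I) (hcont : Continuous Z)
    (hhom : ∀ t : ℝ, 0 < t → ∀ x, Z (t • x) = t • Z x)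
    (hequi : ∀ x x', IsRot p κJ x x' → IsRot p κ (Z x) (Z x')) (hne : ∀ x, x ≠ 0 → Z x ≠ 0)
    (hdiff : ∀ x, x ≠ 0 → ContDiffAt ℝ 1 Z x) :
    ∫⁻ x : Cx J, ENNReal.ofReal (Real.exp (-‖x‖ ^ 2)) ≤
      ∫⁻ x : Cx J, ENNReal.ofReal (Real.exp (-‖Z x‖ ^ 2)) *
        ENNReal.ofReal ((fderiv ℝ Z x : Cx J →ₗ[ℝ] Cx I).normDet) := by
  classical
  have hZ0 : Z 0 = 0 := by
    have h := hhom 2 (by norm_num) 0
    rw [smul_zero, two_smul] at h
    exact left_eq_add.1 h
  rcases isEmpty_or_nonempty J with hJ | ⟨⟨j0⟩⟩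
  · apply lintegral_mono
    intro x
    have hx : x = 0 := Subsingleton.elim _ _
    simp only
    rw [LinearMap.normDet_of_subsingleton, hx, hZ0]
    simp
  set G0 := ∫⁻ x : Cx J, ENNReal.ofReal (Real.exp (-‖Z x‖ ^ 2)) *
        ENNReal.ofReal ((fderiv ℝ Z x : Cx J →ₗ[ℝ] Cx I).normDet) with hG0
  set n1 := Fintype.card J with hn1
  have hn1pos : 1 ≤ n1 := Fintype.card_pos_iff.2 ⟨j0⟩
  -- the left side
  have hleft : ∫⁻ x : Cx J, ENNReal.ofReal (Real.exp (-‖x‖ ^ 2)) = ENNReal.ofReal (Real.pi ^ n1) := by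
    have h1 := GaussianFourier.integral_rexp_neg_mul_sq_norm (V := Cx J) (b := 1) one_pos
    have h2 : (Real.pi / 1) ^ ((Module.finrank ℝ (Cx J) : ℝ) / 2) = Real.pi ^ n1 := by
      rw [finrank_euclideanSpace, Fintype.card_prod, Fintype.card_fin, div_one]
      push_cast
      rw [mul_div_assoc, div_self (by norm_num), mul_one, Real.rpow_natCast]
    rw [h2] at h1
    have h3 : (fun v : Cx J => Real.exp (-1 * ‖v‖ ^ 2)) = fun v => Real.exp (-‖v‖ ^ 2) := by
      ext v; congr 1; ring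
    rw [h3] at h1
    have hint : Integrable (fun v : Cx J => Real.exp (-‖v‖ ^ 2)) := by
      by_contra hcon
      have h4 := integral_undef hcon
      rw [h1] at h4
      exact (pow_pos Real.pi_pos n1).ne' h4
    rw [← h1, ofReal_integral_eq_lintegral_ofReal hint]
    exact Filter.Eventually.of_forall (fun v => (Real.exp_pos _).le)
  rw [hleft]
  by_cases htop : G0 = ⊤
  · rw [htop]; exact le_top
  set C : ℝ := 1000 * (p:ℝ) ^ 3 with hCdef
  have hC : 0 ≤ C := by positivity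
  set g := G0.toReal with hg
  have hgG : ENNReal.ofReal g = G0 := ENNReal.ofReal_toReal htop
  rw [← hgG]
  apply ENNReal.ofReal_le_ofReal
  apply TL_tensor (Real.pi ^ n1) g C n1 hn1pos (by positivity) ENNReal.toReal_nonneg hC
  intro k hk
  -- apply KR
  set Y := TLmap k (fun _ => Z) with hY
  set G : Set (Cx (Fin k × J)) := {x | ∀ i, TLblk J k i x ≠ 0} with hG
  have hGo : IsOpen G := by
    have : G = ⋂ i, {x | TLblk J k i x ≠ 0} := by
      ext x; simp [hG]
    rw [this]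
    apply isOpen_iInter_of_finite
    intro i
    exact isOpen_ne_fun (TLblk_cont J k i) continuous_const
  let YB : {S : Finset (Fin k) // S.Nonempty} → Cx (Fin k × J) → Cx (Fin k × I) :=
    fun S => TLmap k (fun i => if i ∈ S.1 then (fun _ => 0) else Z)
  let GB : {S : Finset (Fin k) // S.Nonempty} → Set (Cx (Fin k × J)) :=
    fun S => {x | ∀ i, i ∉ S.1 → TLblk J k i x ≠ 0}
  have hreg : Reg Y G YB GB := by
    refine ⟨hGo, ?_, ?_, ?_, ?_, ?_⟩
    · intro x hx
      exact (TLmap_contDiffAt k _ x (fun i => hdiff _ (hx i))).contDiffWithinAt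
    · intro S
      have : GB S = ⋂ i, {x | i ∉ S.1 → TLblk J k i x ≠ 0} := by
        ext x; simp [GB]
      rw [this]
      apply isOpen_iInter_of_finite
      intro i
      by_cases hi : i ∈ S.1
      · have : {x : Cx (Fin k × J) | i ∉ S.1 → TLblk J k i x ≠ 0} = univ := by
          ext x; simp [hi]
        rw [this]; exact isOpen_univ
      · have : {x : Cx (Fin k × J) | i ∉ S.1 → TLblk J k i x ≠ 0} = {x | TLblk J k i x ≠ 0} := by
          ext x; simp [hi]
        rw [this]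
        exact isOpen_ne_fun (TLblk_cont J k i) continuous_const
    · intro S x hx
      apply ContDiffAt.contDiffWithinAt
      apply TLmap_contDiffAt
      intro i
      by_cases hi : i ∈ S.1
      · simp only [hi, if_true]
        exact contDiffAt_const
      · simp only [hi, if_false]
        exact hdiff _ (hx i hi)
    · intro S x hx
      obtain ⟨i0, hi0⟩ := S.2
      refine ⟨EuclideanSpace.single ((i0, j0), 0) (1:ℝ), ?_, ?_⟩
      · intro h
        have := congrArg (fun v : Cx (Fin k × J) => v ((i0, j0), 0)) h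
        simp at this
      · have hd : ∀ i, DifferentiableAt ℝ ((fun i => if i ∈ S.1 then (fun _ : Cx J => (0 : Cx I)) else Z) i) (TLblk J k i x) := by
          intro i
          by_cases hi : i ∈ S.1
          · simp only [hi, if_true]
            exact differentiableAt_const _
          · simp only [hi, if_false]
            exact (hdiff _ (hx i hi)).differentiableAt (by norm_num)
        have h1 := TLmap_fderiv k _ x hd
        rw [h1.fderiv]
        change TLas I k (fun i => fderiv ℝ ((fun i => if i ∈ S.1 then (fun _ : Cx J => (0 : Cx I)) else Z) i) (TLblk J k i x)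
          (TLblk J k i (EuclideanSpace.single ((i0, j0), 0) (1:ℝ)))) = 0
        have h2 : ∀ i, fderiv ℝ ((fun i => if i ∈ S.1 then (fun _ : Cx J => (0 : Cx I)) else Z) i) (TLblk J k i x)
          (TLblk J k i (EuclideanSpace.single ((i0, j0), 0) (1:ℝ))) = 0 := by
          intro i
          by_cases hi : i = i0
          · subst hi
            simp [hi0]
          · have h3 : TLblk J k i (EuclideanSpace.single ((i0, j0), 0) (1:ℝ)) = 0 := by
              ext q
              rw [TLblk_apply]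
              simp [Prod.ext_iff, hi]
            rw [h3, map_zero]
        simp_rw [h2]
        rfl
    · intro x hx
      have hx' : ∃ i, TLblk J k i x = 0 := by
        by_contra hcon
        push Not at hcon
        exact hx hcon
      refine ⟨⟨Finset.univ.filter (fun i => TLblk J k i x = 0), ?_⟩, x, ?_, ?_⟩
      · obtain ⟨i, hi⟩ := hx'
        exact ⟨i, by simp [hi]⟩
      · intro i hi
        simpa using hi
      · change TLas I k _ = TLas I k _
        congr 1
        ext1 i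
        by_cases hi : TLblk J k i x = 0
        · simp [hi, hZ0]
        · simp [hi]
  have hYc : Continuous Y := TLmap_cont k _ (fun _ => hcont)
  have hYhom : ∀ t : ℝ, 0 < t → ∀ x, Y (t • x) = t • Y x := by
    intro t ht x
    ext q
    change (Z (TLblk J k q.1.1 (t • x))) (q.1.2, q.2) = t * (Z (TLblk J k q.1.1 x)) (q.1.2, q.2)
    rw [map_smul, hhom t ht]
    rfl
  have hYequi : ∀ x x', IsRot p (fun q : Fin k × J => κJ q.2) x x' → IsRot p (fun q : Fin k × I => κ q.2) (Y x) (Y x') := by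
    intro x x' hxx q
    have h1 : IsRot p κJ (TLblk J k q.1 x) (TLblk J k q.1 x') := by
      intro j
      exact hxx (q.1, j)
    exact hequi _ _ h1 q.2
  have hYne : ∀ x, x ≠ 0 → Y x ≠ 0 := by
    intro x hx h0
    apply hx
    have h1 : ∀ i, TLblk J k i x = 0 := by
      intro i
      by_contra hcon
      apply hne _ hcon
      have := TLblk_as I k i (fun i => Z (TLblk J k i x))
      change TLblk I k i (Y x) = _ at this
      rw [h0, map_zero] at this
      exact this.symm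
    rw [← TLas_blk J k x]
    simp_rw [h1]
    rfl
  have hKR := KR hp (fun q : Fin k × J => κJ q.2) (fun q => hκJ q.2) (fun q : Fin k × I => κ q.2)
    (fun q => hκ q.2) Y hYc hYhom hYequi hYne G YB GB hreg
  have hcard : Fintype.card (Fin k × J) = k * n1 := by
    rw [Fintype.card_prod, Fintype.card_fin]
  rw [hcard] at hKR
  set N := k * n1 with hN
  have hNpos : 1 ≤ N := Nat.one_le_iff_ne_zero.2 (by positivity)
  have hGam : 0 < Real.Gamma ((N:ℝ) + 1/2) := Real.Gamma_pos_of_pos (by positivity)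
  have hint : ∫⁻ x in G, ENNReal.ofReal ((fderiv ℝ Y x : Cx (Fin k × J) →ₗ[ℝ] Cx (Fin k × I)).normDet * (2 /
        ((1 + ‖Y x‖ ^ 2) ^ N * Real.sqrt (1 + ‖Y x‖ ^ 2)))) ≤
      ENNReal.ofReal (2 * Real.sqrt Real.pi / Real.Gamma ((N:ℝ) + 1/2)) * G0 ^ k := by
    have hb := TL_bound k Z hcont hhom hdiff
    rw [← hb]
    refine le_trans ?_ (setLIntegral_le_lintegral G _)
    apply le_of_eq
    apply setLIntegral_congr_fun hGo.measurableSet
    intro x hx
    have hd : ∀ i, DifferentiableAt ℝ Z (TLblk J k i x) := fun i => (hdiff _ (hx i)).differentiableAt (by norm_num)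
    have h1 := TLmap_fderiv k (fun _ => Z) x hd
    simp only
    rw [h1.fderiv]
    have h2 : ((LinearMap.toContinuousLinearMap (TLdiag k (fun i => fderiv ℝ Z (TLblk J k i x))) :
        Cx (Fin k × J) →L[ℝ] Cx (Fin k × I)) : Cx (Fin k × J) →ₗ[ℝ] Cx (Fin k × I)) =
        TLdiag k (fun i => fderiv ℝ Z (TLblk J k i x)) := by
      ext v; rfl
    rw [h2, TL_normDet_diag, ENNReal.ofReal_mul (Finset.prod_nonneg (fun i _ => LinearMap.normDet_nonneg _)),
      ENNReal.ofReal_prod_of_nonneg (fun i _ => LinearMap.normDet_nonneg _)]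
  have hprodpos : 0 ≤ ∏ d ∈ Finset.range N, (2 * ((d:ℝ) + 1) + 1000 * (p : ℝ) ^ 3 *
          Real.sqrt (2 * ((d:ℝ) + 1)) + 1000 * (p : ℝ) ^ 3) :=
    Finset.prod_nonneg (fun i _ => by positivity)
  have hKR2 : ENNReal.ofReal ((2 * Real.pi) ^ N) ≤ ENNReal.ofReal
      ((∏ d ∈ Finset.range N, (2 * ((d:ℝ) + 1) + 1000 * (p : ℝ) ^ 3 *
          Real.sqrt (2 * ((d:ℝ) + 1)) + 1000 * (p : ℝ) ^ 3)) *
        ((2 * Real.sqrt Real.pi / Real.Gamma ((N:ℝ) + 1/2)) * g ^ k)) := by
    refine hKR.trans ?_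
    rw [ENNReal.ofReal_mul hprodpos, ENNReal.ofReal_mul (by positivity), ENNReal.ofReal_pow ENNReal.toReal_nonneg, hgG]
    gcongr
  have hgk : 0 ≤ g ^ k := pow_nonneg ENNReal.toReal_nonneg k
  rw [ENNReal.ofReal_le_ofReal_iff (mul_nonneg hprodpos (mul_nonneg (by positivity) hgk))] at hKR2
  have h3 := TL_prod C hC N
  have h4 := TL_fac N hNpos
  have h5 : (2 * Real.pi) ^ N ≤ (2 ^ N * (N.factorial : ℝ) * Real.exp (4 * C * Real.sqrt N)) *
      ((2 * Real.sqrt Real.pi / Real.Gamma ((N:ℝ) + 1/2)) * g ^ k) := by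
    refine hKR2.trans ?_
    apply mul_le_mul_of_nonneg_right _ (mul_nonneg (by positivity) hgk)
    exact h3
  have h6 : (2 ^ N * (N.factorial : ℝ) * Real.exp (4 * C * Real.sqrt N)) *
      ((2 * Real.sqrt Real.pi / Real.Gamma ((N:ℝ) + 1/2)) * g ^ k) ≤
      2 ^ N * (4 * N * Real.exp (4 * C * Real.sqrt N) * g ^ k) := by
    have h7 : (N.factorial : ℝ) * (2 * Real.sqrt Real.pi / Real.Gamma ((N:ℝ) + 1/2)) ≤ 4 * N := by
      rw [← mul_div_assoc, div_le_iff₀ hGam]
      exact h4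
    calc _ = 2 ^ N * ((N.factorial : ℝ) * (2 * Real.sqrt Real.pi / Real.Gamma ((N:ℝ) + 1/2))) *
          (Real.exp (4 * C * Real.sqrt N) * g ^ k) := by ring
      _ ≤ 2 ^ N * (4 * N) * (Real.exp (4 * C * Real.sqrt N) * g ^ k) := by
          apply mul_le_mul_of_nonneg_right _ (mul_nonneg (Real.exp_pos _).le hgk)
          exact mul_le_mul_of_nonneg_left h7 (by positivity)
      _ = _ := by ring
  have h8 := h5.trans h6
  rw [mul_pow] at h8
  have h9 := le_of_mul_le_mul_left h8 (by positivity)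
  rw [← pow_mul, mul_comm n1 k]
  exact h9

end TL

end Pool.Agent.Helper954.Hopf
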