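import Pool.Agent.Helper954.Hopf.DIAG
import Pool.Agent.Helper954.Hopf.TL

set_option autoImplicit false

namespace Pool.Agent.Helper954.Hopf

open MeasureTheory Set
open scoped BigOperators
open DIAG (diag)
open TL (area_cx)

namespace AB

theorem normDet_conj {E F E' F' : Type} [NormedAddCommGroup E]
    [InnerProductSpace ℝ E] [FiniteDimensional ℝ E] [NormedAddCommGroup F] [InnerProductSpace ℝ F]
    [FiniteDimensional ℝ F] [NormedAddCommGroup E']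
    [InnerProductSpace ℝ E'] [FiniteDimensional ℝ E'] [NormedAddCommGroup F'] [InnerProductSpace ℝ F']
    [FiniteDimensional ℝ F'] (Φ : E ≃ₗᵢ[ℝ] E') (Ψ : F ≃ₗᵢ[ℝ] F') (f : E →ₗ[ℝ] F)
    (f' : E' →ₗ[ℝ] F') (hf : ∀ x, f' (Φ x) = Ψ (f x)) : f'.normDet = f.normDet := by
  have h1 := f.normDet_sq_eq_det_gram (stdOrthonormalBasis ℝ E)
  have h2 := f'.normDet_sq_eq_det_gram ((stdOrthonormalBasis ℝ E).map Φ)
  have h3 : Matrix.gram ℝ (fun i => f' (((stdOrthonormalBasis ℝ E).map Φ) i)) =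
      Matrix.gram ℝ (fun i => f ((stdOrthonormalBasis ℝ E) i)) := by
    ext i j
    simp only [Matrix.gram_apply, OrthonormalBasis.map_apply, hf, LinearIsometryEquiv.inner_map_map]
  rw [h3, ← h1] at h2
  have h4 : f'.normDet ^ 2 = f.normDet ^ 2 := by exact_mod_cast h2
  exact (sq_eq_sq₀ f'.normDet_nonneg f.normDet_nonneg).1 h4

theorem cx_ext {J : Type} {x y : Cx J} (h : ∀ j, cx x j = cx y j) : x = y := by
  ext ⟨j, i⟩
  have h1 := congrArg Complex.re (h j)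
  have h2 := congrArg Complex.im (h j)
  simp only [cx] at h1 h2
  fin_cases i
  · exact h1
  · exact h2

/-- JOB: the area bound -/
theorem area_bound (p : ℕ) [Fact p.Prime] (hp : p ≠ 2) {E F : Type} [NormedAddCommGroup E]
    [InnerProductSpace ℝ E] [FiniteDimensional ℝ E] [MeasurableSpace E] [BorelSpace E]
    [NormedAddCommGroup F] [InnerProductSpace ℝ F] [FiniteDimensional ℝ F]
    (g : E ≃ₗᵢ[ℝ] E) (h : F ≃ₗᵢ[ℝ] F) (hg : g ^ p = 1) (hh : h ^ p = 1)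
    (hgf : ∀ x, g x = x → x = 0) (hhf : ∀ x, h x = x → x = 0) (Z : E → F) (hZ : EqMap g h Z) :
    ∫⁻ x : E, ENNReal.ofReal (Real.exp (-‖x‖ ^ 2)) ≤
      ∫⁻ x : E, ENNReal.ofReal (Real.exp (-‖Z x‖ ^ 2)) *
        ENNReal.ofReal ((fderiv ℝ Z x : E →ₗ[ℝ] F).normDet) := by
  obtain ⟨n, κJ, Φ, hκJ, hΦ⟩ := diag p hp g hg hgf
  obtain ⟨m, κ, Ψ, hκ, hΨ⟩ := diag p hp h hh hhf
  set Z' : Cx (Fin n) → Cx (Fin m) := fun x => Ψ (Z (Φ.symm x)) with hZ'
  have hfd : ∀ x, ((fderiv ℝ Z' (Φ x) : Cx (Fin n) →ₗ[ℝ] Cx (Fin m)).normDet) =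
      (fderiv ℝ Z x : E →ₗ[ℝ] F).normDet := by
    intro x
    apply normDet_conj Φ Ψ
    intro y
    have e1 : Z' = (Ψ.toContinuousLinearEquiv ∘ Z) ∘ Φ.symm.toContinuousLinearEquiv := rfl
    have e2 : fderiv ℝ Z' (Φ x) =
        ((Ψ.toContinuousLinearEquiv : F →L[ℝ] Cx (Fin m)).comp (fderiv ℝ Z x)).comp
          (Φ.symm.toContinuousLinearEquiv : Cx (Fin n) →L[ℝ] E) := by
      rw [e1, ContinuousLinearEquiv.comp_right_fderiv, ContinuousLinearEquiv.comp_fderiv]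
      congr 3
      exact Φ.symm_apply_apply x
    show (fderiv ℝ Z' (Φ x)) (Φ y) = Ψ (fderiv ℝ Z x y)
    rw [e2]
    show Ψ (fderiv ℝ Z x (Φ.symm (Φ y))) = Ψ (fderiv ℝ Z x y)
    rw [Φ.symm_apply_apply]
  have key := area_cx hp κJ hκJ κ hκ Z' ?_ ?_ ?_ ?_ ?_
  · have hmp := Φ.measurePreserving
    have hme := Φ.toHomeomorph.measurableEmbedding
    have i1 := hmp.lintegral_comp_emb hme (fun x => ENNReal.ofReal (Real.exp (-‖x‖ ^ 2)))
    have i2 := hmp.lintegral_comp_emb hme (fun x => ENNReal.ofReal (Real.exp (-‖Z' x‖ ^ 2)) *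
        ENNReal.ofReal ((fderiv ℝ Z' x : Cx (Fin n) →ₗ[ℝ] Cx (Fin m)).normDet))
    rw [← i1, ← i2] at key
    have e3 : ∀ x : E, ‖Φ x‖ = ‖x‖ := fun x => Φ.norm_map x
    have e4 : ∀ x : E, ‖Z' (Φ x)‖ = ‖Z x‖ := fun x => by
      simp only [hZ', Φ.symm_apply_apply, Ψ.norm_map]
    simp only [e3, e4, hfd] at key
    exact key
  · exact Ψ.continuous.comp (hZ.cont.comp Φ.symm.continuous)
  · intro t ht x
    simp only [hZ', map_smul, hZ.hom t ht]
  · intro x x' hxx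
    have e1 : x' = Φ (g (Φ.symm x)) := by
      apply cx_ext
      intro j
      rw [hxx j, hΦ, Φ.apply_symm_apply]
    intro j
    have e2 : Z' x' = Ψ (h (Z (Φ.symm x))) := by
      simp only [hZ']
      rw [e1, Φ.symm_apply_apply, hZ.equi]
    rw [e2, hΨ]
  · intro x hx hx0
    have e1 : Z (Φ.symm x) = 0 := by
      have : Ψ (Z (Φ.symm x)) = 0 := hx0
      exact (map_eq_zero_iff Ψ Ψ.injective).1 this
    refine hZ.ne _ ?_ e1
    intro h0
    exact hx ((map_eq_zero_iff Φ.symm Φ.symm.injective).1 h0)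
  · intro x hx
    have h0 : Φ.symm x ≠ 0 := fun h0 => hx ((map_eq_zero_iff Φ.symm Φ.symm.injective).1 h0)
    have e1 := hZ.diff _ h0
    exact Ψ.contDiff.contDiffAt.comp x (e1.comp x Φ.symm.contDiff.contDiffAt)

end AB

end Pool.Agent.Helper954.Hopf
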