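import Pool.Agent.Helper954.Hopf.Defs

set_option autoImplicit false

namespace Pool.Agent.Helper954.Hopf

open MeasureTheory Set
open scoped BigOperators ENNReal

namespace AF

namespace AF

theorem area_weighted {E : Type*} [NormedAddCommGroup E] [NormedSpace ℝ E]
    [FiniteDimensional ℝ E] [MeasurableSpace E] [BorelSpace E] (μ : Measure E)
    [μ.IsAddHaarMeasure] (H : E → ℝ≥0∞) (hH : Measurable H) (s : Set E) (hs : MeasurableSet s)
    (f : E → E) (f' : E → E →L[ℝ] E) (hf : ∀ x ∈ s, HasFDerivWithinAt f (f' x) s x) :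
    (μ.withDensity H) (f '' s) ≤ ∫⁻ x in s, H (f x) * ENNReal.ofReal |(f' x).det| ∂μ := by
  have hcont : ContinuousOn f s := fun x hx => (hf x hx).continuousWithinAt
  have hfm : AEMeasurable f (μ.restrict s) := hcont.aemeasurable hs
  have hD := aemeasurable_ofReal_abs_det_fderivWithin μ hs hf
  set D : E → ℝ≥0∞ := fun x => ENNReal.ofReal |(f' x).det| with hDdef
  set ρ : Measure E := (μ.restrict s).withDensity D with hρ
  have hfm' : AEMeasurable f ρ := hfm.mono_ac (withDensity_absolutelyContinuous _ _)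
  have hle : μ.restrict (f '' s) ≤ Measure.map f ρ := by
    rw [Measure.le_iff]
    intro B hB
    rw [Measure.restrict_apply hB, Measure.map_apply_of_aemeasurable hfm' hB]
    have hmeas : MeasurableSet (s ∩ f ⁻¹' B) := by
      have h1 : Measurable (s.domRestrict f) := (continuousOn_iff_continuous_domRestrict.mp hcont).measurable
      have h2 := hs.subtype_image (h1 hB)
      have h3 : Subtype.val '' (s.domRestrict f ⁻¹' B) = s ∩ f ⁻¹' B := by
        ext x
        simp only [mem_image, mem_preimage, Subtype.exists, mem_inter_iff]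
        constructor
        · rintro ⟨a, ha, hb, rfl⟩; exact ⟨ha, hb⟩
        · rintro ⟨ha, hb⟩; exact ⟨x, ha, hb, rfl⟩
      rwa [h3] at h2
    have himg : B ∩ f '' s = f '' (s ∩ f ⁻¹' B) := by
      rw [Set.image_inter_preimage, inter_comm]
    rw [himg]
    have h4 := addHaar_image_le_lintegral_abs_det_fderiv μ hmeas
      (fun x hx => (hf x hx.1).mono inter_subset_left)
    refine h4.trans ?_
    rw [hρ, withDensity_apply', Measure.restrict_restrict' hs, inter_comm]
  rw [withDensity_apply']
  calc ∫⁻ a in f '' s, H a ∂μ ≤ ∫⁻ a, H a ∂(Measure.map f ρ) := lintegral_mono' hle le_rfl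
    _ = ∫⁻ x, H (f x) ∂ρ := lintegral_map' hH.aemeasurable hfm'
    _ = ∫⁻ x in s, (D * fun x => H (f x)) x ∂μ := by
        rw [hρ, lintegral_withDensity_eq_lintegral_mul₀' hD]
        exact hH.comp_aemeasurable hfm'
    _ = ∫⁻ x in s, H (f x) * ENNReal.ofReal |(f' x).det| ∂μ := by
        apply lintegral_congr
        intro x
        simp only [Pi.mul_apply, hDdef]
        rw [mul_comm]

theorem lintegral_fin_prod {n : ℕ} (μ : Fin n → Measure ℝ) [∀ i, SigmaFinite (μ i)]
    (f : Fin n → ℝ → ℝ≥0∞) (hf : ∀ i, Measurable (f i)) :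
    ∫⁻ x : Fin n → ℝ, ∏ i, f i (x i) ∂(Measure.pi μ) = ∏ i, ∫⁻ x, f i x ∂(μ i) := by
  induction n with
  | zero => simp
  | succ n n_ih =>
      calc
        _ = ∫⁻ x : ℝ × (Fin n → ℝ),
            f 0 x.1 * ∏ i : Fin n, f (Fin.succ i) (x.2 i)
            ∂((μ 0).prod (Measure.pi (fun i ↦ μ i.succ))) := by
          rw [← ((measurePreserving_piFinSuccAbove μ 0).symm).lintegral_comp_emb
            (MeasurableEquiv.measurableEmbedding _)]
          simp_rw [MeasurableEquiv.piFinSuccAbove_symm_apply, Fin.insertNthEquiv,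
            Fin.prod_univ_succ, Fin.insertNth_zero, Equiv.coe_fn_mk, Fin.cons_succ,
            Fin.zero_succAbove, cast_eq, Fin.cons_zero]
        _ = (∫⁻ x, f 0 x ∂μ 0)
            * ∏ i : Fin n, ∫⁻ (x : ℝ), f (Fin.succ i) x ∂(μ i.succ) := by
          rw [← n_ih (fun i => μ i.succ) (fun i => f i.succ) (fun i => hf _)]
          exact lintegral_prod_mul (hf 0).aemeasurable (Finset.measurable_prod _ (fun i _ =>
            (hf _).comp (measurable_pi_apply i))).aemeasurable
        _ = ∏ i, ∫⁻ x, f i x ∂(μ i) := by rw [Fin.prod_univ_succ]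

theorem lintegral_fintype_prod {ι : Type*} [Fintype ι] (μ : ι → Measure ℝ)
    [∀ i, SigmaFinite (μ i)] (f : ι → ℝ → ℝ≥0∞) (hf : ∀ i, Measurable (f i)) :
    ∫⁻ x : ι → ℝ, ∏ i, f i (x i) ∂(Measure.pi μ) = ∏ i, ∫⁻ x, f i x ∂(μ i) := by
  let e := (Fintype.equivFin ι).symm
  rw [← (measurePreserving_piCongrLeft _ e).lintegral_comp_emb
    (MeasurableEquiv.measurableEmbedding _)]
  simp_rw [← e.prod_comp, MeasurableEquiv.coe_piCongrLeft, Equiv.piCongrLeft_apply_apply]
  exact lintegral_fin_prod (fun i => μ (e i)) (fun i => f (e i)) (fun i => hf _)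

theorem pi_withDensity {ι : Type*} [Fintype ι] (g : ι → ℝ → ℝ≥0∞) (hg : ∀ i, Measurable (g i))
    [∀ i, SigmaFinite ((volume : Measure ℝ).withDensity (g i))] :
    Measure.pi (fun i => (volume : Measure ℝ).withDensity (g i)) =
      (Measure.pi (fun _ : ι => (volume : Measure ℝ))).withDensity (fun y => ∏ i, g i (y i)) := by
  apply Measure.pi_eq
  intro s hs
  rw [withDensity_apply _ (MeasurableSet.univ_pi hs), Measure.restrict_pi_pi,
    lintegral_fintype_prod _ _ hg]
  apply Finset.prod_congr rfl
  intro i _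
  rw [withDensity_apply _ (hs i)]

/-- resampling of some coordinates -/
def mixj {K : Type} [DecidableEq K] (T : Finset K) (p : (K → ℝ) × (K → ℝ)) : K → ℝ :=
  fun k => if k ∈ T then p.2 k else p.1 k

theorem mixj_mp {K : Type} [Fintype K] [DecidableEq K] (T : Finset K) (μ : K → Measure ℝ)
    [∀ k, IsProbabilityMeasure (μ k)] :
    MeasurePreserving (mixj T) ((Measure.pi μ).prod (Measure.pi μ)) (Measure.pi μ) := by
  have hm : Measurable (mixj T (K := K)) := by
    rw [measurable_pi_iff]
    intro k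
    by_cases hk : k ∈ T
    · have : (fun p : (K → ℝ) × (K → ℝ) => mixj T p k) = fun p => p.2 k := by
        funext p; simp [mixj, hk]
      rw [this]
      exact (measurable_pi_apply k).comp measurable_snd
    · have : (fun p : (K → ℝ) × (K → ℝ) => mixj T p k) = fun p => p.1 k := by
        funext p; simp [mixj, hk]
      rw [this]
      exact (measurable_pi_apply k).comp measurable_fst
  refine ⟨hm, ?_⟩
  symm
  apply Measure.pi_eq
  intro s hs
  rw [Measure.map_apply hm (MeasurableSet.univ_pi hs)]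
  have e : mixj T ⁻¹' (univ.pi s) = (univ.pi fun k => if k ∈ T then univ else s k) ×ˢ
      (univ.pi fun k => if k ∈ T then s k else univ) := by
    ext p
    simp only [mem_preimage, mem_pi, mem_univ, true_implies, mem_prod, mixj]
    constructor
    · intro h
      constructor
      · intro k
        by_cases hk : k ∈ T
        · simp [hk]
        · have := h k; simp [hk] at this; simpa [hk] using this
      · intro k
        by_cases hk : k ∈ T
        · have := h k; simp [hk] at this; simpa [hk] using this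
        · simp [hk]
    · rintro ⟨h1, h2⟩ k
      by_cases hk : k ∈ T
      · have := h2 k; simp [hk] at this; simpa [hk] using this
      · have := h1 k; simp [hk] at this; simpa [hk] using this
  rw [e, Measure.prod_prod, Measure.pi_pi, Measure.pi_pi, ← Finset.prod_mul_distrib]
  apply Finset.prod_congr rfl
  intro k _
  by_cases hk : k ∈ T
  · simp [hk]
  · simp [hk]

/-- resampling of some coordinates -/
def mix {J K : Type} [DecidableEq K] (T : J → Finset K) (p : (J → K → ℝ) × (J → K → ℝ)) :
    J → K → ℝ :=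
  fun j k => if k ∈ T j then p.2 j k else p.1 j k

theorem mix_mp {J K : Type} [Fintype J] [Fintype K] [DecidableEq K] (T : J → Finset K)
    (μ : K → Measure ℝ) [∀ k, IsProbabilityMeasure (μ k)] :
    MeasurePreserving (mix T)
      ((Measure.pi fun _ : J => Measure.pi μ).prod (Measure.pi fun _ : J => Measure.pi μ))
      (Measure.pi fun _ : J => Measure.pi μ) := by
  have h1 := (measurePreserving_arrowProdEquivProdArrow (K → ℝ) (K → ℝ) J
    (fun _ => Measure.pi μ) (fun _ => Measure.pi μ)).symm
  have h2 := measurePreserving_pi (fun _ : J => (Measure.pi μ).prod (Measure.pi μ))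
    (fun _ : J => Measure.pi μ) (f := fun j => mixj (T j)) (fun j => mixj_mp (T j) μ)
  exact h2.comp h1

/-- law of a family of different coordinates -/
theorem law_q0 {J K : Type} [Fintype J] [DecidableEq J] [Fintype K] [DecidableEq K]
    (μ : K → Measure ℝ) [∀ k, IsProbabilityMeasure (μ k)]
    (τ : J → Fin 2 → K) (hτ : ∀ j, Function.Injective (τ j)) :
    MeasurePreserving (fun (t : J → K → ℝ) (ji : J × Fin 2) => t ji.1 (τ ji.1 ji.2))
      (Measure.pi fun _ : J => Measure.pi μ)
      (Measure.pi fun ji : J × Fin 2 => μ (τ ji.1 ji.2)) := by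
  have hm : Measurable (fun (t : J → K → ℝ) (ji : J × Fin 2) => t ji.1 (τ ji.1 ji.2)) := by
    rw [measurable_pi_iff]
    intro ji
    exact (measurable_pi_apply _).comp (measurable_pi_apply _)
  refine ⟨hm, ?_⟩
  symm
  apply Measure.pi_eq
  intro s hs
  rw [Measure.map_apply hm (MeasurableSet.univ_pi hs)]
  have e : (fun (t : J → K → ℝ) (ji : J × Fin 2) => t ji.1 (τ ji.1 ji.2)) ⁻¹' (univ.pi s) =
      univ.pi (fun j : J => univ.pi (fun k : K => ⋂ (i : Fin 2) (_ : τ j i = k), s (j, i))) := by
    ext t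
    simp only [mem_preimage, mem_pi, mem_univ, true_implies, mem_iInter, Prod.forall]
    constructor
    · rintro h j k i rfl
      exact h j i
    · intro h j i
      exact h j _ i rfl
  rw [e, Measure.pi_pi, Fintype.prod_prod_type]
  apply Finset.prod_congr rfl
  intro j _
  rw [Measure.pi_pi]
  symm
  apply Fintype.prod_of_injective (τ j) (hτ j)
  · intro k hk
    have : (⋂ (i : Fin 2) (_ : τ j i = k), s (j, i)) = univ := by
      ext x
      simp only [mem_iInter, mem_univ, iff_true]
      intro i hi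
      exact absurd ⟨i, hi⟩ hk
    rw [this, measure_univ]
  · intro i
    congr 1
    ext x
    simp only [mem_iInter]
    constructor
    · intro h i' hi'
      rw [hτ j hi']
      exact h
    · intro h
      exact h i rfl

theorem law_q {J K : Type} [Fintype J] [DecidableEq J] [Fintype K] [DecidableEq K]
    (h : K → ℝ → ℝ≥0∞) (hm : ∀ k, Measurable (h k))
    (hprob : ∀ k, IsProbabilityMeasure ((volume : Measure ℝ).withDensity (h k)))
    (τ : J → Fin 2 → K) (hτ : ∀ j, Function.Injective (τ j)) :
    Measure.map (fun t : J → K → ℝ => (WithLp.toLp 2 (fun ji : J × Fin 2 => t ji.1 (τ ji.1 ji.2)) :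
      Cx J)) (Measure.pi fun _ : J => Measure.pi fun k => (volume : Measure ℝ).withDensity (h k)) =
      (volume : Measure (Cx J)).withDensity (fun y => ∏ j, ∏ i, h (τ j i) (y (j, i))) := by
  have h1 := law_q0 (fun k => (volume : Measure ℝ).withDensity (h k)) τ hτ
  have h2 : Measurable (fun y : J × Fin 2 → ℝ => (WithLp.toLp 2 y : Cx J)) :=
    (PiLp.volume_preserving_toLp (J × Fin 2)).measurable
  have e : (fun t : J → K → ℝ => (WithLp.toLp 2 (fun ji : J × Fin 2 => t ji.1 (τ ji.1 ji.2)) :
      Cx J)) = (fun y : J × Fin 2 → ℝ => (WithLp.toLp 2 y : Cx J)) ∘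
        (fun (t : J → K → ℝ) (ji : J × Fin 2) => t ji.1 (τ ji.1 ji.2)) := rfl
  rw [e, ← Measure.map_map h2 h1.measurable, h1.map_eq,
    pi_withDensity (fun ji : J × Fin 2 => h (τ ji.1 ji.2)) (fun _ => hm _)]
  ext B hB
  rw [Measure.map_apply h2 hB, withDensity_apply _ (h2 hB), withDensity_apply _ hB]
  have h3 := (PiLp.volume_preserving_toLp (J × Fin 2))
  have h4 : Measurable (fun y : Cx J => ∏ j, ∏ i, h (τ j i) (y (j, i))) := by
    apply Finset.measurable_prod
    intro j _
    apply Finset.measurable_prod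
    intro i _
    apply (hm _).comp
    exact (EuclideanSpace.proj (𝕜 := ℝ) (j, i)).continuous.measurable
  rw [← h3.setLIntegral_comp_preimage hB h4]
  simp only [Fintype.prod_prod_type]
  rfl

end AF

open AF in
/-- JOB: area inequality combined with Fubini. The coordinates `τ j i` of the random vector `θ` are
forced to be equal to functions `F θ x` which do not depend on these coordinates. -/
theorem area_fubini {J K : Type} [Fintype J] [DecidableEq J] [Fintype K] [DecidableEq K]
    (h : K → ℝ → ℝ≥0∞) (hm : ∀ k, Measurable (h k))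
    (hprob : ∀ k, IsProbabilityMeasure ((volume : Measure ℝ).withDensity (h k)))
    (τ : J → Fin 2 → K) (hτ : ∀ j, Function.Injective (τ j))
    (A : (J → K → ℝ) → Set (Cx J)) (F : (J → K → ℝ) → Cx J → Cx J)
    (F' : (J → K → ℝ) → Cx J → (Cx J →L[ℝ] Cx J))
    (hindep : ∀ θ θ' : J → K → ℝ, (∀ j k, k ∉ Set.range (τ j) → θ j k = θ' j k) →
      A θ = A θ' ∧ ∀ x ∈ A θ, F θ x = F θ' x)
    (hA : ∀ θ, MeasurableSet (A θ))
    (hF : ∀ θ, ∀ x ∈ A θ, HasFDerivWithinAt (F θ) (F' θ x) (A θ) x)
    (hH : MeasurableSet {θ : J → K → ℝ | ∃ x ∈ A θ, ∀ j i, θ j (τ j i) = F θ x (j, i)}) :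
    Measure.pi (fun _ : J => Measure.pi fun k : K => (volume : Measure ℝ).withDensity (h k))
        {θ : J → K → ℝ | ∃ x ∈ A θ, ∀ j i, θ j (τ j i) = F θ x (j, i)} ≤
      ∫⁻ θ : J → K → ℝ, (∫⁻ x in A θ, (∏ j, ∏ i, h (τ j i) (F θ x (j, i))) *
          ENNReal.ofReal |(F' θ x).det|)
        ∂Measure.pi (fun _ : J => Measure.pi fun k : K => (volume : Measure ℝ).withDensity (h k)) := by
  set P := Measure.pi (fun _ : J => Measure.pi fun k : K => (volume : Measure ℝ).withDensity (h k))
    with hP
  set T : J → Finset K := fun j => Finset.univ.image (τ j) with hT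
  have hmp := mix_mp T (fun k => (volume : Measure ℝ).withDensity (h k))
  rw [← hP] at hmp
  rw [← hmp.measure_preimage hH.nullMeasurableSet, Measure.prod_apply (hmp.measurable hH)]
  apply lintegral_mono
  intro θ
  have hmemT : ∀ j k, k ∈ T j ↔ k ∈ Set.range (τ j) := by
    intro j k
    simp [hT]
  have hset : Prod.mk θ ⁻¹' (mix T ⁻¹'
      {θ : J → K → ℝ | ∃ x ∈ A θ, ∀ j i, θ j (τ j i) = F θ x (j, i)}) ⊆
      (fun t : J → K → ℝ => (WithLp.toLp 2 (fun ji : J × Fin 2 => t ji.1 (τ ji.1 ji.2)) :
      Cx J)) ⁻¹' (F θ '' A θ) := by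
    intro t ht
    simp only [mem_preimage, mem_ofPred_eq] at ht
    obtain ⟨x, hx, hx2⟩ := ht
    have hag : ∀ j k, k ∉ Set.range (τ j) → θ j k = mix T (θ, t) j k := by
      intro j k hk
      have : k ∉ T j := fun h => hk ((hmemT j k).mp h)
      simp [mix, this]
    obtain ⟨hA1, hF1⟩ := hindep θ (mix T (θ, t)) hag
    rw [← hA1] at hx
    refine ⟨x, hx, ?_⟩
    have hval : ∀ j i, mix T (θ, t) j (τ j i) = t j (τ j i) := by
      intro j i
      have : τ j i ∈ T j := (hmemT j _).mpr ⟨i, rfl⟩
      simp [mix, this]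
    rw [hF1 x hx]
    ext ji
    show F (mix T (θ, t)) x ji = t ji.1 (τ ji.1 ji.2)
    rw [← hval, hx2]
  refine (measure_mono hset).trans ?_
  have hqm : Measurable (fun t : J → K → ℝ =>
      (WithLp.toLp 2 (fun ji : J × Fin 2 => t ji.1 (τ ji.1 ji.2)) : Cx J)) := by
    apply (PiLp.volume_preserving_toLp (J × Fin 2)).measurable.comp
    rw [measurable_pi_iff]
    intro ji
    exact (measurable_pi_apply _).comp (measurable_pi_apply _)
  refine (Measure.le_map_apply hqm.aemeasurable _).trans ?_
  rw [hP, law_q h hm hprob τ hτ]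
  apply area_weighted volume _ _ (A θ) (hA θ) (F θ) (F' θ) (hF θ)
  apply Finset.measurable_prod
  intro j _
  apply Finset.measurable_prod
  intro i _
  apply (hm _).comp
  exact (EuclideanSpace.proj (𝕜 := ℝ) (j, i)).continuous.measurable

end AF

end Pool.Agent.Helper954.Hopf
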