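import Pool.Agent.Helper954.Hopf.DoldDefs

set_option autoImplicit false

namespace Pool.Agent.Helper954.Hopf.Dold

open Set Filter Topology
open scoped BigOperators

namespace D1a


section Algebra

variable {p : ℕ} {α : Type}

noncomputable def cone (v : α) : Chain p α →ₗ[ZMod p] Chain p α :=
  Finsupp.lmapDomain (ZMod p) (ZMod p) (List.cons v)

theorem cone_single (v : α) (l : List α) (c : ZMod p) :
    cone v (Finsupp.single l c) = Finsupp.single (v :: l) c := by
  simp [cone]

theorem bdL_cons (v : α) (l : List α) :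
    bdL p (v :: l) = Finsupp.single l 1 - cone v (bdL p l) := rfl

theorem bd_single (l : List α) (a : ZMod p) : bd p (Finsupp.single l a) = a • bdL p l := by
  simp [bd]

theorem bd_cone (v : α) (c : Chain p α) : bd p (cone v c) = c - cone v (bd p c) := by
  induction c using Finsupp.induction_linear with
  | zero => simp
  | add f g hf hg => simp only [map_add, hf, hg]; abel
  | single l a =>
    rw [cone_single, bd_single, bd_single, bdL_cons, smul_sub, map_smul]
    simp

theorem bd_bdL (l : List α) : bd p (bdL p l) = 0 := by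
  induction l with
  | nil => simp [bdL]
  | cons v l ih =>
    rw [bdL_cons, map_sub, bd_cone, ih, bd_single, map_zero, sub_zero, one_smul, sub_self]

theorem act_single (g : α → α) (l : List α) (c : ZMod p) :
    act p g (Finsupp.single l c) = Finsupp.single (l.map g) c := by
  simp [act]

theorem act_cone (g : α → α) (v : α) (c : Chain p α) :
    act p g (cone v c) = cone (g v) (act p g c) := by
  induction c using Finsupp.induction_linear with
  | zero => simp
  | add f g hf hg => simp only [map_add, hf, hg]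
  | single l b => rw [cone_single, act_single, act_single, cone_single, List.map_cons]

theorem act_bdL (g : α → α) (l : List α) : act p g (bdL p l) = bdL p (l.map g) := by
  induction l with
  | nil => simp [bdL]
  | cons v l ih =>
    rw [bdL_cons, map_sub, act_single, act_cone, ih, List.map_cons, bdL_cons]

theorem act_bd (g : α → α) (c : Chain p α) : act p g (bd p c) = bd p (act p g c) := by
  induction c using Finsupp.induction_linear with
  | zero => simp
  | add f g hf hg => simp only [map_add, hf, hg]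
  | single l b => rw [bd_single, map_smul, act_bdL, act_single, bd_single]

end Algebra

section Supports

variable {p : ℕ} {α : Type}

/-- chains supported on lists with property `P` -/
def S (p : ℕ) (P : List α → Prop) : Submodule (ZMod p) (Chain p α) :=
  Finsupp.supported (ZMod p) (ZMod p) {l | P l}

theorem single_mem_S {P : List α → Prop} {l : List α} (h : P l) (a : ZMod p) :
    Finsupp.single l a ∈ S p P :=
  Finsupp.single_mem_supported (ZMod p) a h

theorem S_eq_span (P : List α → Prop) :
    S p P = Submodule.span (ZMod p) ((fun l => Finsupp.single l (1 : ZMod p)) '' {l | P l}) :=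
  Finsupp.supported_eq_span_single (ZMod p) _

theorem lin_mem (T : Chain p α →ₗ[ZMod p] Chain p α) {P Q : List α → Prop}
    (h : ∀ l, P l → T (Finsupp.single l 1) ∈ S p Q) {c : Chain p α} (hc : c ∈ S p P) :
    T c ∈ S p Q := by
  have : S p P ≤ (S p Q).comap T := by
    rw [S_eq_span, Submodule.span_le]
    rintro _ ⟨l, hl, rfl⟩
    exact h l hl
  exact this hc

theorem S_mono {P Q : List α → Prop} (h : ∀ l, P l → Q l) {c : Chain p α} (hc : c ∈ S p P) :
    c ∈ S p Q :=
  lin_mem LinearMap.id (fun l hl => by simpa using single_mem_S (h l hl) 1) hc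

theorem cone_mem_S {P Q : List α → Prop} (v : α) (h : ∀ l, P l → Q (v :: l)) {c : Chain p α}
    (hc : c ∈ S p P) : cone v c ∈ S p Q :=
  lin_mem (cone v) (fun l hl => by rw [cone_single]; exact single_mem_S (h l hl) 1) hc

theorem act_mem_S {P Q : List α → Prop} (g : α → α) (h : ∀ l, P l → Q (l.map g)) {c : Chain p α}
    (hc : c ∈ S p P) : act p g c ∈ S p Q :=
  lin_mem (act p g) (fun l hl => by rw [act_single]; exact single_mem_S (h l hl) 1) hc

theorem bdL_mem_S (l : List α) :
    bdL p l ∈ S p (fun l' => l'.length + 1 = l.length ∧ l' ⊆ l) := by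
  induction l with
  | nil => exact Submodule.zero_mem _
  | cons x t ih =>
    rw [bdL_cons]
    refine Submodule.sub_mem _ (single_mem_S ?_ 1) (cone_mem_S x ?_ ih)
    · exact ⟨by simp, List.subset_cons_self x t⟩
    · rintro l' ⟨h1, h2⟩
      exact ⟨by simp [h1], List.cons_subset_cons x h2⟩

end Supports

section Sub

variable {p : ℕ} {V : Type} [AddCommGroup V] [Module ℝ V]

noncomputable def bary (l : List V) : V := (l.length : ℝ)⁻¹ • l.sum

theorem bary_map (g : V →ₗ[ℝ] V) (l : List V) : bary (l.map g) = g (bary l) := by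
  have : (l.map g).sum = g l.sum := (map_list_sum g l).symm
  simp [bary, this]

/-- barycentric subdivision on lists of length `n` -/
noncomputable def sub (p : ℕ) : ℕ → (Chain p V →ₗ[ZMod p] Chain p V)
  | 0 => LinearMap.id
  | n + 1 => Finsupp.linearCombination (ZMod p) (fun l => cone (bary l) (sub p n (bdL p l)))

theorem sub_succ_single (n : ℕ) (l : List V) (a : ZMod p) :
    sub p (n + 1) (Finsupp.single l a) = a • cone (bary l) (sub p n (bdL p l)) := by
  simp [sub]

theorem bd_sub (n : ℕ) (c : Chain p V) : bd p (sub p (n + 1) c) = sub p n (bd p c) := by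
  induction n generalizing c with
  | zero =>
    induction c using Finsupp.induction_linear with
    | zero => simp
    | add f g hf hg => simp only [map_add, hf, hg]
    | single l a =>
      rw [sub_succ_single, map_smul, bd_cone, bd_single]
      simp [sub, bd_bdL]
  | succ n ih =>
    induction c using Finsupp.induction_linear with
    | zero => simp
    | add f g hf hg => simp only [map_add, hf, hg]
    | single l a =>
      rw [sub_succ_single, map_smul, bd_cone, ih, bd_bdL, map_zero, map_zero, sub_zero, bd_single,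
        map_smul]

theorem act_sub (g : V →ₗ[ℝ] V) (n : ℕ) (c : Chain p V) :
    act p g (sub p n c) = sub p n (act p g c) := by
  induction n generalizing c with
  | zero => rfl
  | succ n ih =>
    induction c using Finsupp.induction_linear with
    | zero => simp
    | add f g hf hg => simp only [map_add, hf, hg]
    | single l a =>
      rw [sub_succ_single, map_smul, act_cone, ih, act_bdL, act_single, sub_succ_single, bary_map]

theorem bd_iter (r k : ℕ) (c : Chain p V) :
    bd p ((sub p (k + 1))^[r] c) = (sub p k)^[r] (bd p c) := by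
  induction r generalizing c with
  | zero => rfl
  | succ r ih => rw [Function.iterate_succ_apply, ih, bd_sub, Function.iterate_succ_apply]

theorem act_iter (g : V →ₗ[ℝ] V) (r k : ℕ) (c : Chain p V) :
    act p g ((sub p k)^[r] c) = (sub p k)^[r] (act p g c) := by
  induction r generalizing c with
  | zero => rfl
  | succ r ih => rw [Function.iterate_succ_apply, ih, act_sub, Function.iterate_succ_apply]

theorem act_iter_iter (g : V →ₗ[ℝ] V) (i r k : ℕ) (c : Chain p V) :
    (act p g)^[i] ((sub p k)^[r] c) = (sub p k)^[r] ((act p g)^[i] c) := by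
  induction i generalizing c with
  | zero => rfl
  | succ i ih => rw [Function.iterate_succ_apply, act_iter, ih, Function.iterate_succ_apply]

/-- iterate of a linear map as a linear map -/
theorem iter_eq_pow (T : Chain p V →ₗ[ZMod p] Chain p V) (r : ℕ) (c : Chain p V) :
    T^[r] c = (T ^ r) c := by
  rw [Module.End.pow_apply]

end Sub

section Mesh

variable {p : ℕ} {V : Type} [NormedAddCommGroup V] [NormedSpace ℝ V]

/-- lists of `n` points of `C` with mutual distances at most `D` -/
def Good (n : ℕ) (D : ℝ) (C : Set V) (l : List V) : Prop :=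
  l.length = n ∧ (∀ u ∈ l, u ∈ C) ∧ ∀ u ∈ l, ∀ v ∈ l, ‖u - v‖ ≤ D

theorem bary_mem {C : Set V} (hC : Convex ℝ C) {l : List V} (hl : l ≠ [])
    (h : ∀ u ∈ l, u ∈ C) : bary l ∈ C := by
  have hpos : 0 < l.length := List.length_pos_iff.mpr hl
  have hsum : l.sum = ∑ i : Fin l.length, l[(i : ℕ)] := by
    rw [Fin.sum_univ_getElem]
  rw [bary, hsum, Finset.smul_sum]
  refine hC.sum_mem (fun i _ => by positivity) ?_ (fun i _ => h _ (List.getElem_mem _))
  rw [Finset.sum_const, Finset.card_univ, Fintype.card_fin, nsmul_eq_mul]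
  have : (l.length : ℝ) ≠ 0 := by positivity
  exact mul_inv_cancel₀ this

theorem sum_bound (v : V) (D : ℝ) (l : List V) (h : ∀ u ∈ l, ‖u - v‖ ≤ D) :
    ‖l.sum - (l.length : ℝ) • v‖ ≤ l.length * D := by
  induction l with
  | nil => simp
  | cons x t ih =>
    have h1 := ih (fun u hu => h u (List.mem_cons_of_mem _ hu))
    have h2 := h x (by simp)
    have : (x :: t).sum - (((x :: t).length : ℕ) : ℝ) • v =
        (x - v) + (t.sum - (t.length : ℝ) • v) := by
      simp only [List.sum_cons, List.length_cons]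
      push_cast
      rw [add_smul, one_smul]
      abel
    rw [this]
    calc ‖(x - v) + (t.sum - (t.length : ℝ) • v)‖ ≤ ‖x - v‖ + ‖t.sum - (t.length : ℝ) • v‖ :=
          norm_add_le _ _
      _ ≤ D + t.length * D := add_le_add h2 h1
      _ = ((x :: t).length : ℕ) * D := by simp only [List.length_cons]; push_cast; ring

theorem bary_dist {n : ℕ} {D : ℝ} {l : List V} (hl : l.length = n + 1)
    (h : ∀ u ∈ l, ∀ v ∈ l, ‖u - v‖ ≤ D) {v : V} (hv : v ∈ l) :
    ‖v - bary l‖ ≤ n / (n + 1) * D := by
  classical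
  have hp := List.perm_cons_erase hv
  have hsum : l.sum = v + (l.erase v).sum := by
    rw [hp.sum_eq, List.sum_cons]
  have hlen : (l.erase v).length = n := by
    have := List.length_erase_of_mem hv
    omega
  have hb := sum_bound v D (l.erase v) (fun u hu => h u (List.mem_of_mem_erase hu) v hv)
  rw [hlen] at hb
  have hn : (0 : ℝ) < n + 1 := by positivity
  have heq : bary l - v = ((n : ℝ) + 1)⁻¹ • ((l.erase v).sum - (n : ℝ) • v) := by
    rw [bary, hl, hsum]
    push_cast
    rw [smul_sub, smul_add, smul_smul]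
    generalize (l.erase v).sum = w
    have : ((n : ℝ) + 1)⁻¹ • v + (((n : ℝ) + 1)⁻¹ * n) • v = v := by
      rw [← add_smul]
      have : ((n : ℝ) + 1)⁻¹ + ((n : ℝ) + 1)⁻¹ * n = 1 := by field_simp; ring
      rw [this, one_smul]
    calc ((n : ℝ) + 1)⁻¹ • v + ((n : ℝ) + 1)⁻¹ • w - v
        = ((n : ℝ) + 1)⁻¹ • v + ((n : ℝ) + 1)⁻¹ • w -
          (((n : ℝ) + 1)⁻¹ • v + (((n : ℝ) + 1)⁻¹ * n) • v) := by rw [this]
      _ = ((n : ℝ) + 1)⁻¹ • w - (((n : ℝ) + 1)⁻¹ * n) • v := by abel
  rw [norm_sub_rev, heq, norm_smul, norm_inv, Real.norm_of_nonneg hn.le]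
  calc ((n : ℝ) + 1)⁻¹ * ‖(l.erase v).sum - (n : ℝ) • v‖ ≤ ((n : ℝ) + 1)⁻¹ * (n * D) := by
        gcongr
    _ = n / (n + 1) * D := by ring

theorem frac_mono (n : ℕ) : (n : ℝ) / (n + 1) ≤ ((n + 1 : ℕ) : ℝ) / ((n + 1 : ℕ) + 1) := by
  rw [div_le_div_iff₀ (by positivity) (by positivity)]
  push_cast
  nlinarith

theorem sub_good (n : ℕ) : ∀ (D : ℝ) (_ : 0 ≤ D) (C : Set V) (_ : Convex ℝ C) (l : List V),
    Good n D C l → sub p n (Finsupp.single l 1) ∈ S p (Good n (n / (n + 1) * D) C) := by
  induction n with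
  | zero =>
    intro D hD C hC l hl
    have : l = [] := List.length_eq_zero_iff.mp hl.1
    subst this
    simp only [sub, LinearMap.id_coe, id_eq]
    exact single_mem_S ⟨rfl, by simp, by simp⟩ 1
  | succ n ih =>
    intro D hD C hC l hl
    obtain ⟨h1, h2, h3⟩ := hl
    have hne : l ≠ [] := by
      intro h; rw [h] at h1; simp at h1
    rw [sub_succ_single, one_smul]
    have hbC := bary_mem hC hne h2
    set C' : Set V := C ∩ Metric.closedBall (bary l) (n / (n + 1) * D) with hC'
    have hC'c : Convex ℝ C' := hC.inter (convex_closedBall _ _)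
    have hbd : bdL p l ∈ S p (Good n D C') := by
      refine S_mono ?_ (bdL_mem_S l)
      rintro l' ⟨hlen, hsub⟩
      refine ⟨by omega, fun u hu => ⟨h2 u (hsub hu), ?_⟩, fun u hu v hv => h3 u (hsub hu) v (hsub hv)⟩
      rw [Metric.mem_closedBall, dist_eq_norm]
      exact bary_dist h1 h3 (hsub hu)
    have hsub : sub p n (bdL p l) ∈ S p (Good n (n / (n + 1) * D) C') :=
      lin_mem (sub p n) (fun l' hl' => ih D hD C' hC'c l' hl') hbd
    refine cone_mem_S (bary l) ?_ hsub
    rintro l' ⟨k1, k2, k3⟩
    have hmono : (n : ℝ) / (n + 1) * D ≤ ((n + 1 : ℕ) : ℝ) / ((n + 1 : ℕ) + 1) * D :=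
      mul_le_mul_of_nonneg_right (frac_mono n) hD
    have hnn : 0 ≤ (n : ℝ) / (n + 1) * D := by positivity
    refine ⟨by simp [k1], ?_, ?_⟩
    · intro u hu
      rcases List.mem_cons.mp hu with rfl | hu
      · exact hbC
      · exact (k2 u hu).1
    · intro u hu v hv
      rcases List.mem_cons.mp hu with hu' | hu'
      · rcases List.mem_cons.mp hv with hv' | hv'
        · rw [hu', hv', sub_self, norm_zero]
          exact hnn.trans hmono
        · have := (k2 v hv').2
          rw [Metric.mem_closedBall, dist_eq_norm] at this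
          rw [hu', norm_sub_rev]
          exact this.trans hmono
      · rcases List.mem_cons.mp hv with hv' | hv'
        · have := (k2 u hu').2
          rw [Metric.mem_closedBall, dist_eq_norm] at this
          rw [hv']
          exact this.trans hmono
        · exact (k3 u hu' v hv').trans hmono

theorem sub_iter_good' (n r : ℕ) (D : ℝ)
    (hD : 0 ≤ D) (CC : Set (Set V)) (hC : ∀ C ∈ CC, Convex ℝ C) (c : Chain p V)
    (hc : c ∈ S p (fun l => ∃ C ∈ CC, Good n D C l)) :
    (sub p n)^[r] c ∈ S p (fun l => ∃ C ∈ CC, Good n (((n : ℝ) / (n + 1)) ^ r * D) C l) := by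
  induction r generalizing D c with
  | zero => simpa using hc
  | succ r ih =>
    rw [Function.iterate_succ_apply]
    have h1 : sub p n c ∈ S p (fun l => ∃ C ∈ CC, Good n (n / (n + 1) * D) C l) :=
      lin_mem (sub p n) (fun l hl => by
        obtain ⟨C, hCC, hl⟩ := hl
        exact S_mono (fun l hl => ⟨C, hCC, hl⟩) (sub_good n D hD C (hC C hCC) l hl)) hc
    have := ih (n / (n + 1) * D) (by positivity) _ h1
    rw [pow_succ, mul_assoc]
    exact this

end Mesh

section Main

variable {p M : ℕ}

/-- the shift as a linear map -/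
def shL (p M : ℕ) : VV p M →ₗ[ℝ] VV p M where
  toFun := sh
  map_add' x y := by funext i l; rfl
  map_smul' a x := by funext i l; rfl

theorem shL_coe : ⇑(shL p M) = sh := rfl

/-- vertices -/
def vert (i : Fin M) (t : ZMod p) : VV p M := fun i' l => if i' = i ∧ l = t then 1 else 0

/-- base vertices -/
def ev (p M : ℕ) (k : ℕ) : VV p M := fun i l => if (i : ℕ) = k ∧ l = 0 then 1 else 0

theorem ev_eq {k : ℕ} (hk : k < M) : ev p M k = vert ⟨k, hk⟩ 0 := by
  funext i l
  simp only [ev, vert, Fin.ext_iff]

theorem sh_vert (i : Fin M) (t : ZMod p) : sh (vert i t) = vert i (t + 1) := by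
  funext i' l
  simp only [sh, vert, sub_eq_iff_eq_add]

/-- norm operator -/
noncomputable def nrm (p : ℕ) {V : Type} (g : V → V) : Chain p V →ₗ[ZMod p] Chain p V :=
  ∑ i ∈ Finset.range p, (act p g) ^ i

theorem nrm_apply {V : Type} (g : V → V) (c : Chain p V) :
    nrm p g c = ∑ i ∈ Finset.range p, (act p g)^[i] c := by
  rw [nrm, LinearMap.sum_apply]
  exact Finset.sum_congr rfl (fun i _ => by rw [Module.End.pow_apply])

theorem act_pow_single {V : Type} (g : V → V) (i : ℕ) (l : List V) (a : ZMod p) :
    ((act p g) ^ i) (Finsupp.single l a) = Finsupp.single (l.map (g^[i])) a := by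
  induction i with
  | zero => simp
  | succ i ih =>
    rw [pow_succ', Module.End.mul_apply, ih, act_single, List.map_map,
      Function.iterate_succ']

theorem act_pow_p {V : Type} (g : V → V) (hg : g^[p] = id) : (act p g) ^ p = 1 := by
  apply LinearMap.ext
  intro c
  induction c using Finsupp.induction_linear with
  | zero => simp
  | add f g hf hg => simp only [map_add, hf, hg]
  | single l a => rw [act_pow_single, hg, List.map_id]; rfl

theorem act_nrm {V : Type} (g : V → V) (hg : g^[p] = id) : act p g * nrm p g = nrm p g := by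
  have h := mul_neg_geom_sum (act p g) p
  rw [act_pow_p g hg, sub_self] at h
  have h2 : nrm p g - act p g * nrm p g = 0 := by
    rw [← h, sub_mul (1 : Chain p V →ₗ[ZMod p] Chain p V), one_mul]; rfl
  exact (sub_eq_zero.mp h2).symm

theorem nrm_act {V : Type} (g : V → V) (hg : g^[p] = id) : nrm p g * act p g = nrm p g := by
  have h := geom_sum_mul_neg (act p g) p
  rw [act_pow_p g hg, sub_self] at h
  have h2 : nrm p g - nrm p g * act p g = 0 := by
    rw [← h, mul_sub _ (1 : Chain p V →ₗ[ZMod p] Chain p V), mul_one]; rfl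
  exact (sub_eq_zero.mp h2).symm

theorem sh_iter (k : ℕ) (x : VV p M) : sh^[k] x = fun i l => x i (l - k) := by
  induction k with
  | zero => simp
  | succ k ih =>
    rw [Function.iterate_succ_apply', ih]
    funext i l
    simp only [sh]
    congr 1
    push_cast
    ring

theorem sh_p : (sh (p := p) (M := M))^[p] = id := by
  funext x
  rw [sh_iter]
  funext i l
  simp

/-- coarse cycles -/
noncomputable def z (p M : ℕ) : ℕ → Chain p (VV p M)
  | 0 => Finsupp.single [] 1
  | k + 1 => if Even k then act p sh (cone (ev p M k) (z p M k)) - cone (ev p M k) (z p M k)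
      else nrm p sh (cone (ev p M k) (z p M k))

noncomputable def h (p M : ℕ) (k : ℕ) : Chain p (VV p M) := cone (ev p M k) (z p M k)

theorem z_succ (k : ℕ) : z p M (k + 1) = if Even k then act p sh (h p M k) - h p M k
    else nrm p sh (h p M k) := rfl

theorem bd_nrm {V : Type} (g : V → V) (c : Chain p V) : bd p (nrm p g c) = nrm p g (bd p c) := by
  rw [nrm_apply, nrm_apply, map_sum]
  refine Finset.sum_congr rfl (fun i hi => ?_)
  clear hi
  induction i generalizing c with
  | zero => rfl
  | succ i ih =>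
    rw [Function.iterate_succ_apply, ih, Function.iterate_succ_apply, act_bd]

theorem z_inv (k : ℕ) : bd p (z p M k) = 0 ∧
    (Even k → act p sh (z p M k) = z p M k) ∧ (¬ Even k → nrm p sh (z p M k) = 0) := by
  induction k with
  | zero =>
    refine ⟨?_, ?_, ?_⟩
    · rw [z, bd_single]; simp [bdL]
    · intro _
      rw [z, act_single, List.map_nil]
    · intro hh; exact absurd (by simp) hh
  | succ k ih =>
    obtain ⟨i1, i2, i3⟩ := ih
    have hbh : bd p (h p M k) = z p M k := by
      rw [h, bd_cone, i1, map_zero, sub_zero]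
    rw [z_succ]
    by_cases he : Even k
    · rw [if_pos he]
      have ho : ¬ Even (k + 1) := by rw [Nat.even_add_one]; exact not_not.mpr he
      refine ⟨?_, fun hh => absurd hh ho, fun _ => ?_⟩
      · rw [map_sub, ← act_bd, hbh, i2 he, sub_self]
      · rw [map_sub, ← Module.End.mul_apply, nrm_act _ sh_p, sub_self]
    · rw [if_neg he]
      have ho : Even (k + 1) := by rw [Nat.even_add_one]; exact he
      refine ⟨?_, fun _ => ?_, fun hh => absurd ho hh⟩
      · rw [bd_nrm, hbh, i3 he]
      · rw [← Module.End.mul_apply, act_nrm _ sh_p]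

theorem bd_h (k : ℕ) : bd p (h p M k) = z p M k := by
  rw [h, bd_cone, (z_inv k).1, map_zero, sub_zero]

/-- face of the join -/
def face [NeZero p] (f : Fin M → ZMod p) : Set (VV p M) :=
  {x | (∀ i l, 0 ≤ x i l) ∧ ∑ i, ∑ l, x i l = 1 ∧ ∀ i l, l ≠ f i → x i l = 0}

theorem face_convex [NeZero p] (f : Fin M → ZMod p) : Convex ℝ (face f) := by
  intro x hx y hy a b ha hb hab
  refine ⟨?_, ?_, ?_⟩
  · intro i l
    have h1 := hx.1 i l
    have h2 := hy.1 i l
    simp only [Pi.add_apply, Pi.smul_apply, smul_eq_mul]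
    positivity
  · simp only [Pi.add_apply, Pi.smul_apply, smul_eq_mul]
    simp_rw [Finset.sum_add_distrib, ← Finset.mul_sum]
    rw [hx.2.1, hy.2.1]
    linarith
  · intro i l hl
    simp only [Pi.add_apply, Pi.smul_apply, smul_eq_mul]
    rw [hx.2.2 i l hl, hy.2.2 i l hl]
    ring

theorem face_sub [NeZero p] (f : Fin M → ZMod p) : face f ⊆ JK p M := by
  rintro x ⟨h1, h2, h3⟩
  refine ⟨h1, h2, ?_⟩
  intro i l l' hll
  by_cases hl : l = f i
  · right
    exact h3 i l' (fun h => hll (hl.trans h.symm))
  · left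
    exact h3 i l hl

theorem JK_norm_le [NeZero p] {x : VV p M} (hx : x ∈ JK p M) : ‖x‖ ≤ 1 := by
  rw [pi_norm_le_iff_of_nonneg zero_le_one]
  intro i
  rw [pi_norm_le_iff_of_nonneg zero_le_one]
  intro l
  rw [Real.norm_eq_abs, abs_of_nonneg (hx.1 i l), ← hx.2.1]
  calc x i l ≤ ∑ l, x i l :=
        Finset.single_le_sum (f := fun l => x i l) (fun l _ => hx.1 i l) (Finset.mem_univ l)
    _ ≤ ∑ i, ∑ l, x i l :=
        Finset.single_le_sum (f := fun i => ∑ l, x i l)
          (fun i _ => Finset.sum_nonneg (fun l _ => hx.1 i l)) (Finset.mem_univ i)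

theorem vert_mem_face [NeZero p] (f : Fin M → ZMod p) (i : Fin M) : vert i (f i) ∈ face f := by
  refine ⟨?_, ?_, ?_⟩
  · intro i' l
    simp only [vert]
    split_ifs <;> norm_num
  · rw [Finset.sum_eq_single i, Finset.sum_eq_single (f i)]
    · simp [vert]
    · intro l _ hl
      simp [vert, hl]
    · intro hh; exact absurd (Finset.mem_univ _) hh
    · intro j _ hj
      apply Finset.sum_eq_zero
      intro l _
      simp [vert, hj]
    · intro hh; exact absurd (Finset.mem_univ _) hh
  · intro j l hl
    simp only [vert]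
    rw [if_neg]
    rintro ⟨rfl, rfl⟩
    exact hl rfl

/-- property of the lists in the coarse cycles -/
def PL (p M k : ℕ) (l : List (VV p M)) : Prop :=
  l.length = k ∧ ∃ f : Fin M → ZMod p, ∀ u ∈ l, ∃ i : Fin M, (i : ℕ) < k ∧ u = vert i (f i)

theorem PL_sh {k : ℕ} (l : List (VV p M)) (hl : PL p M k l) : PL p M k (l.map sh) := by
  obtain ⟨h1, f, h2⟩ := hl
  refine ⟨by rw [List.length_map, h1], fun i => f i + 1, ?_⟩
  intro u hu
  obtain ⟨v, hv, rfl⟩ := List.mem_map.mp hu
  obtain ⟨i, hi, rfl⟩ := h2 v hv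
  exact ⟨i, hi, sh_vert _ _⟩

theorem PL_cone {k : ℕ} (hk : k < M) (l : List (VV p M)) (hl : PL p M k l) :
    PL p M (k + 1) (ev p M k :: l) := by
  classical
  obtain ⟨h1, f, h2⟩ := hl
  refine ⟨by simp [h1], fun i => if (i : ℕ) = k then 0 else f i, ?_⟩
  intro u hu
  rcases List.mem_cons.mp hu with rfl | hu
  · exact ⟨⟨k, hk⟩, Nat.lt_succ_self k, by simp [ev_eq hk]⟩
  · obtain ⟨i, hi, rfl⟩ := h2 u hu
    refine ⟨i, by omega, ?_⟩
    have : ¬ (i : ℕ) = k := by omega
    simp only [this, if_false]

theorem nrm_mem_S {V : Type} {P : List V → Prop} (g : V → V) (hg : ∀ l, P l → P (l.map g))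
    {c : Chain p V} (hc : c ∈ S p P) : nrm p g c ∈ S p P := by
  rw [nrm_apply]
  refine Submodule.sum_mem _ (fun i hi => ?_)
  clear hi
  induction i generalizing c with
  | zero => exact hc
  | succ i ih =>
    rw [Function.iterate_succ_apply]
    exact ih (act_mem_S g hg hc)

theorem z_support (k : ℕ) (hk : k ≤ M) : z p M k ∈ S p (PL p M k) := by
  induction k with
  | zero =>
    rw [z]
    exact single_mem_S ⟨rfl, fun _ => 0, by simp⟩ 1
  | succ k ih =>
    have hh : h p M k ∈ S p (PL p M (k + 1)) := cone_mem_S _ (PL_cone hk) (ih (by omega))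
    rw [z_succ]
    by_cases he : Even k
    · rw [if_pos he]
      exact Submodule.sub_mem _ (act_mem_S _ PL_sh hh) hh
    · rw [if_neg he]
      exact nrm_mem_S _ PL_sh hh

theorem h_support (k : ℕ) (hk : k < M) : h p M k ∈ S p (PL p M (k + 1)) :=
  cone_mem_S _ (PL_cone hk) (z_support k hk.le)

theorem h_good [NeZero p] (k : ℕ) (hk : k < M) :
    h p M k ∈ S p (fun l => ∃ C ∈ Set.range (face (p := p) (M := M)), Good (k + 1) 2 C l) := by
  refine S_mono ?_ (h_support k hk)
  rintro l ⟨h1, f, h2⟩
  have hmem : ∀ u ∈ l, u ∈ face f := by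
    intro u hu
    obtain ⟨i, -, rfl⟩ := h2 u hu
    exact vert_mem_face f i
  refine ⟨face f, ⟨f, rfl⟩, h1, hmem, ?_⟩
  intro u hu v hv
  have h1 := JK_norm_le (face_sub f (hmem u hu))
  have h2 := JK_norm_le (face_sub f (hmem v hv))
  calc ‖u - v‖ ≤ ‖u‖ + ‖v‖ := norm_sub_le _ _
    _ ≤ 2 := by linarith

theorem sub_zero_iter (r : ℕ) (c : Chain p (VV p M)) : (sub p 0)^[r] c = c := by
  induction r with
  | zero => rfl
  | succ r ih =>
    rw [Function.iterate_succ_apply', ih]
    rfl

/-- JOB: arbitrarily fine equivariant chains on the join complex -/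
theorem fine_chains (p : ℕ) [Fact p.Prime] (M : ℕ) (δ : ℝ) (hδ : 0 < δ) :
    ∃ c : ℕ → Chain p (VV p M),
      (∀ k, k < M → ∀ l ∈ (c k).support, l.length = k + 1 ∧ (∀ x ∈ l, x ∈ JK p M) ∧
        ∀ x ∈ l, ∀ y ∈ l, dist x y < δ) ∧
      (0 < M → bd p (c 0) = Finsupp.single [] 1) ∧
      ∀ k, k + 1 < M → bd p (c (k + 1)) =
        if Even k then act p sh (c k) - c k else ∑ i ∈ Finset.range p, (act p sh)^[i] (c k) := by
  rcases Nat.eq_zero_or_pos M with hM | hM
  · subst hM
    exact ⟨fun _ => 0, fun k hk => absurd hk (by omega), fun hk => absurd hk (by omega),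
      fun k hk => absurd hk (by omega)⟩
  have hq : (M : ℝ) / (M + 1) < 1 := by
    rw [div_lt_one (by positivity)]
    linarith
  obtain ⟨r, hr⟩ := exists_pow_lt_of_lt_one (show 0 < δ / 2 by positivity) hq
  refine ⟨fun k => (sub p (k + 1))^[r] (h p M k), ?_, ?_, ?_⟩
  · intro k hk l hl
    have hmem := sub_iter_good' (k + 1) r 2 (by norm_num) (Set.range (face (p := p) (M := M)))
      (by rintro C ⟨f, rfl⟩; exact face_convex f) _ (h_good k hk)
    have hl' := (Finsupp.mem_supported (ZMod p) _).mp hmem hl
    obtain ⟨C, ⟨f, rfl⟩, g1, g2, g3⟩ := hl'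
    refine ⟨g1, fun x hx => face_sub f (g2 x hx), fun x hx y hy => ?_⟩
    rw [dist_eq_norm]
    refine (g3 x hx y hy).trans_lt ?_
    have hle : (((k + 1 : ℕ) : ℝ) / ((k + 1 : ℕ) + 1)) ≤ (M : ℝ) / (M + 1) := by
      rw [div_le_div_iff₀ (by positivity) (by positivity)]
      have : ((k + 1 : ℕ) : ℝ) ≤ M := by exact_mod_cast hk
      nlinarith
    have := pow_le_pow_left₀ (by positivity) hle r
    linarith
  · intro _
    show bd p ((sub p (0 + 1))^[r] (h p M 0)) = _
    rw [bd_iter, bd_h]
    rw [sub_zero_iter, z]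
  · intro k hk
    show bd p ((sub p (k + 1 + 1))^[r] (h p M (k + 1))) = _
    rw [bd_iter, bd_h, z_succ]
    by_cases he : Even k
    · rw [if_pos he, if_pos he, iter_eq_pow, map_sub, ← iter_eq_pow, ← iter_eq_pow]
      rw [← shL_coe, act_iter]
    · rw [if_neg he, if_neg he, iter_eq_pow, nrm_apply, map_sum]
      refine Finset.sum_congr rfl (fun i _ => ?_)
      rw [← iter_eq_pow, ← shL_coe, act_iter_iter]

end Main

end D1a

end Pool.Agent.Helper954.Hopf.Dold
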