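import Pool.Agent.Helper954.Hopf.DoldDefs

set_option autoImplicit false

namespace Pool.Agent.Helper954.Hopf.Dold

open Set Filter Topology
open scoped BigOperators

namespace D1b

/-! ### auxiliary: supports -/

/-- chains supported on a set of lists -/
abbrev nlSP (p : ℕ) {α : Type} (S : Set (List α)) : Submodule (ZMod p) (Chain p α) :=
  Finsupp.supported (ZMod p) (ZMod p) S

section nl

variable {p : ℕ} {α β : Type}

lemma nl_single {S : Set (List α)} {l : List α} (h : l ∈ S) (r : ZMod p) :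
    Finsupp.single l r ∈ nlSP p S := Finsupp.single_mem_supported _ _ h

lemma nl_map {S : Set (List α)} {S' : Set (List β)} (φ : Chain p α →ₗ[ZMod p] Chain p β)
    (h : ∀ l ∈ S, φ (Finsupp.single l 1) ∈ nlSP p S') {c : Chain p α} (hc : c ∈ nlSP p S) :
    φ c ∈ nlSP p S' := by
  rw [nlSP, Finsupp.supported_eq_span_single] at hc
  induction hc using Submodule.span_induction with
  | mem x hx =>
    obtain ⟨l, hl, rfl⟩ := hx
    exact h l hl
  | zero => rw [map_zero]; exact Submodule.zero_mem _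
  | add x y _ _ hx hy => rw [map_add]; exact Submodule.add_mem _ hx hy
  | smul r x _ hx => rw [map_smul]; exact Submodule.smul_mem _ _ hx

lemma nl_eq {S : Set (List α)} (φ ψ : Chain p α →ₗ[ZMod p] Chain p β)
    (h : ∀ l ∈ S, φ (Finsupp.single l 1) = ψ (Finsupp.single l 1)) {c : Chain p α}
    (hc : c ∈ nlSP p S) : φ c = ψ c := by
  rw [nlSP, Finsupp.supported_eq_span_single] at hc
  induction hc using Submodule.span_induction with
  | mem x hx =>
    obtain ⟨l, hl, rfl⟩ := hx
    exact h l hl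
  | zero => rw [map_zero, map_zero]
  | add x y _ _ hx hy => rw [map_add, map_add, hx, hy]
  | smul r x _ hx => rw [map_smul, map_smul, hx]

lemma nl_eq' (φ ψ : Chain p α →ₗ[ZMod p] Chain p β)
    (h : ∀ l, φ (Finsupp.single l 1) = ψ (Finsupp.single l 1)) (c : Chain p α) : φ c = ψ c := by
  refine nl_eq (S := Set.univ) φ ψ (fun l _ => h l) ?_
  rw [nlSP, Finsupp.supported_univ]
  trivial

lemma nl_mono {S S' : Set (List α)} (h : S ⊆ S') {c : Chain p α} (hc : c ∈ nlSP p S) :
    c ∈ nlSP p S' := Finsupp.supported_mono h hc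

lemma bd_single (l : List α) : bd p (Finsupp.single l 1) = bdL p l := by
  rw [bd, Finsupp.linearCombination_single, one_smul]

lemma act_single (g : α → α) (l : List α) (r : ZMod p) :
    act p g (Finsupp.single l r) = Finsupp.single (l.map g) r := by
  rw [act, Finsupp.lmapDomain_apply, Finsupp.mapDomain_single]

/-- prefixing a point -/
noncomputable def nlCons (p : ℕ) (v : α) : Chain p α →ₗ[ZMod p] Chain p α :=
  Finsupp.lmapDomain (ZMod p) (ZMod p) (List.cons v)

lemma nlCons_single (v : α) (l : List α) (r : ZMod p) :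
    nlCons p v (Finsupp.single l r) = Finsupp.single (v :: l) r := by
  rw [nlCons, Finsupp.lmapDomain_apply, Finsupp.mapDomain_single]

lemma bdL_cons (v : α) (l : List α) :
    bdL p (v :: l) = Finsupp.single l 1 - nlCons p v (bdL p l) := rfl

lemma bdL_nil : bdL p ([] : List α) = 0 := rfl

lemma bd_nlCons (v : α) (c : Chain p α) : bd p (nlCons p v c) = c - nlCons p v (bd p c) := by
  refine nl_eq' ((bd p).comp (nlCons p v)) (LinearMap.id - (nlCons p v).comp (bd p)) ?_ c
  intro l
  simp only [LinearMap.comp_apply, LinearMap.sub_apply, LinearMap.id_apply]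
  rw [nlCons_single, bd_single, bd_single, bdL_cons]

lemma bd_bdL (l : List α) : bd p (bdL p l) = 0 := by
  induction l with
  | nil => rw [bdL_nil, map_zero]
  | cons v l ih => rw [bdL_cons, map_sub, bd_single, bd_nlCons, ih, map_zero]; simp

lemma bd_bd (c : Chain p α) : bd p (bd p c) = 0 := by
  refine nl_eq' ((bd p).comp (bd p)) 0 ?_ c
  intro l
  rw [LinearMap.comp_apply, bd_single, bd_bdL, LinearMap.zero_apply]

lemma act_nlCons (g : α → α) (v : α) (c : Chain p α) :
    act p g (nlCons p v c) = nlCons p (g v) (act p g c) := by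
  refine nl_eq' ((act p g).comp (nlCons p v)) ((nlCons p (g v)).comp (act p g)) ?_ c
  intro l
  simp only [LinearMap.comp_apply]
  rw [nlCons_single, act_single, act_single, nlCons_single, List.map_cons]

lemma bdL_map (g : α → α) (l : List α) : bdL p (l.map g) = act p g (bdL p l) := by
  induction l with
  | nil => rw [List.map_nil, bdL_nil, map_zero]
  | cons v l ih => rw [List.map_cons, bdL_cons, bdL_cons, map_sub, act_nlCons, act_single, ih]

lemma bd_act (g : α → α) (c : Chain p α) : bd p (act p g c) = act p g (bd p c) := by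
  refine nl_eq' ((bd p).comp (act p g)) ((act p g).comp (bd p)) ?_ c
  intro l
  simp only [LinearMap.comp_apply]
  rw [act_single, bd_single, bd_single, bdL_map]

lemma bdL_supp (l : List α) :
    bdL p l ∈ nlSP p {l' | l'.Sublist l ∧ l'.length + 1 = l.length} := by
  induction l with
  | nil => rw [bdL_nil]; exact Submodule.zero_mem _
  | cons v l ih =>
    rw [bdL_cons]
    refine Submodule.sub_mem _ (nl_single (by exact ⟨List.sublist_cons_self v l, rfl⟩) _) ?_
    refine nl_map (nlCons p v) ?_ ih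
    rintro l' ⟨h1, h2⟩
    rw [nlCons_single]
    exact nl_single (by exact ⟨h1.cons_cons v, by simp [h2]⟩) _

/-! ### labels -/

/-- the shift of the labels -/
def nlG (p : ℕ) (v : ℕ × ZMod p) : ℕ × ZMod p := (v.1, v.2 + 1)

/-- the label of a point of minimal level -/
def nlLbl (a : α → ℕ) (s : α → ZMod p) : List α → ℕ × ZMod p
  | [] => (0, 0)
  | [x] => (a x, s x)
  | x :: y :: l => if a x ≤ (nlLbl a s (y :: l)).1 then (a x, s x) else nlLbl a s (y :: l)

lemma nlLbl_mem (a : α → ℕ) (s : α → ZMod p) (l : List α) (hl : l ≠ []) :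
    ∃ x ∈ l, nlLbl a s l = (a x, s x) := by
  induction l with
  | nil => exact absurd rfl hl
  | cons x l ih =>
    cases l with
    | nil => exact ⟨x, by simp, rfl⟩
    | cons y l =>
      rw [nlLbl]
      split_ifs with h
      · exact ⟨x, by simp, rfl⟩
      · obtain ⟨z, hz, hz'⟩ := ih (by simp)
        exact ⟨z, List.mem_cons_of_mem _ hz, hz'⟩

lemma nlLbl_le (a : α → ℕ) (s : α → ZMod p) (l : List α) :
    ∀ z ∈ l, (nlLbl a s l).1 ≤ a z := by
  induction l with
  | nil => intro z hz; exact absurd hz (by simp)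
  | cons x l ih =>
    intro z hz
    cases l with
    | nil =>
      rw [List.mem_singleton] at hz
      rw [hz]; exact le_rfl
    | cons y l =>
      rw [nlLbl]
      rcases List.mem_cons.1 hz with rfl | hz
      · split_ifs with h
        · exact le_rfl
        · exact (not_le.1 h).le
      · split_ifs with h
        · exact h.trans (ih z hz)
        · exact ih z hz

lemma nlLbl_map (a : α → ℕ) (s : α → ZMod p) (g : α → α) (l : List α) (hl : l ≠ [])
    (hag : ∀ x ∈ l, a (g x) = a x) (hsg : ∀ x ∈ l, s (g x) = s x + 1) :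
    nlLbl a s (l.map g) = nlG p (nlLbl a s l) := by
  induction l with
  | nil => exact absurd rfl hl
  | cons x l ih =>
    cases l with
    | nil =>
      simp only [List.map_cons, List.map_nil, nlLbl, nlG]
      rw [hag x (by simp), hsg x (by simp)]
    | cons y l =>
      have ih' := ih (by simp) (fun z hz => hag z (List.mem_cons_of_mem _ hz))
        (fun z hz => hsg z (List.mem_cons_of_mem _ hz))
      rw [List.map_cons] at ih'
      rw [List.map_cons, List.map_cons, nlLbl, nlLbl, ih', hag x (by simp), hsg x (by simp)]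
      have : (nlG p (nlLbl a s (y :: l))).1 = (nlLbl a s (y :: l)).1 := rfl
      rw [this]
      split_ifs
      · rfl
      · rfl

/-! ### cones -/

/-- the cone of a list of labels, if increasing -/
noncomputable def nlConeL (p : ℕ) (v : ℕ × ZMod p) : List (ℕ × ZMod p) → Chain p (ℕ × ZMod p)
  | [] => Finsupp.single [v] 1
  | u :: m => if v.1 < u.1 then Finsupp.single (v :: u :: m) 1 else 0

/-- linear extension -/
noncomputable def nlCone (p : ℕ) (v : ℕ × ZMod p) :
    Chain p (ℕ × ZMod p) →ₗ[ZMod p] Chain p (ℕ × ZMod p) :=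
  Finsupp.linearCombination (ZMod p) (nlConeL p v)

lemma nlCone_single (v : ℕ × ZMod p) (m : List (ℕ × ZMod p)) :
    nlCone p v (Finsupp.single m 1) = nlConeL p v m := by
  rw [nlCone, Finsupp.linearCombination_single, one_smul]

lemma nlConeL_above (v : ℕ × ZMod p) (m : List (ℕ × ZMod p)) (h : ∀ w ∈ m, v.1 < w.1) :
    nlConeL p v m = Finsupp.single (v :: m) 1 := by
  cases m with
  | nil => rfl
  | cons u m => rw [nlConeL, if_pos (h u (by simp))]

lemma nlCone_nlCons (v : ℕ × ZMod p) (c : Chain p (ℕ × ZMod p)) :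
    nlCone p v (nlCons p v c) = 0 := by
  refine nl_eq' ((nlCone p v).comp (nlCons p v)) 0 ?_ c
  intro m
  rw [LinearMap.comp_apply, nlCons_single, nlCone_single, nlConeL, if_neg (lt_irrefl _),
    LinearMap.zero_apply]

/-- strictly increasing lists starting at or above `v` -/
def nlGood (v : ℕ × ZMod p) : Set (List (ℕ × ZMod p)) :=
  {m | m.Pairwise (fun u w => u.1 < w.1) ∧ ∀ u ∈ m, v.1 < u.1 ∨ u = v}

lemma bd_nlConeL (v : ℕ × ZMod p) (m : List (ℕ × ZMod p)) (hm : m ∈ nlGood v) :
    bd p (nlConeL p v m) = Finsupp.single m 1 - nlCone p v (bdL p m) := by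
  obtain ⟨hm1, hm2⟩ := hm
  cases m with
  | nil =>
    rw [nlConeL, bd_single, bdL_cons, bdL_nil, map_zero, map_zero]
  | cons u m =>
    rw [List.pairwise_cons] at hm1
    rcases hm2 u (by simp) with hvu | hvu
    · rw [nlConeL, if_pos hvu, bd_single, bdL_cons]
      congr 1
      symm
      refine nl_eq (S := {l' | l'.Sublist (u :: m) ∧ l'.length + 1 = (u :: m).length})
        (nlCone p v) (nlCons p v) ?_ (bdL_supp (u :: m))
      rintro l' ⟨h1, -⟩
      rw [nlCone_single, nlCons_single]
      apply nlConeL_above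
      intro w hw
      rcases List.mem_cons.1 (h1.subset hw) with rfl | h2
      · exact hvu
      · exact hvu.trans (hm1.1 w h2)
    · subst hvu
      rw [nlConeL, if_neg (lt_irrefl _), map_zero, bdL_cons, map_sub, nlCone_nlCons, nlCone_single,
        nlConeL_above _ _ hm1.1]
      simp

lemma bd_nlCone (v : ℕ × ZMod p) {c : Chain p (ℕ × ZMod p)} (hc : c ∈ nlSP p (nlGood v)) :
    bd p (nlCone p v c) = c - nlCone p v (bd p c) := by
  refine nl_eq (S := nlGood v) ((bd p).comp (nlCone p v))
    (LinearMap.id - (nlCone p v).comp (bd p)) ?_ hc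
  intro m hm
  simp only [LinearMap.comp_apply, LinearMap.sub_apply, LinearMap.id_apply]
  rw [nlCone_single, bd_single, bd_nlConeL v m hm]

lemma nlCone_act (v : ℕ × ZMod p) (c : Chain p (ℕ × ZMod p)) :
    nlCone p (nlG p v) (act p (nlG p) c) = act p (nlG p) (nlCone p v c) := by
  refine nl_eq' ((nlCone p (nlG p v)).comp (act p (nlG p))) ((act p (nlG p)).comp (nlCone p v)) ?_ c
  intro m
  simp only [LinearMap.comp_apply]
  rw [act_single, nlCone_single, nlCone_single]
  cases m with
  | nil => rw [List.map_nil, nlConeL, nlConeL, act_single]; rfl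
  | cons u m =>
    rw [List.map_cons, nlConeL, nlConeL]
    have : (nlG p v).1 < (nlG p u).1 ↔ v.1 < u.1 := Iff.rfl
    simp only [this]
    split_ifs
    · rw [act_single]; rfl
    · rw [map_zero]

/-! ### the chain map -/

/-- the chain map on lists of length `n` -/
noncomputable def nlT (p : ℕ) (a : α → ℕ) (s : α → ZMod p) : ℕ → List α → Chain p (ℕ × ZMod p)
  | 0, _ => Finsupp.single [] 1
  | n + 1, l => nlCone p (nlLbl a s l)
      (Finsupp.linearCombination (ZMod p) (nlT p a s n) (bdL p l))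

/-- linear extension -/
noncomputable def nlTT (p : ℕ) (a : α → ℕ) (s : α → ZMod p) (n : ℕ) :
    Chain p α →ₗ[ZMod p] Chain p (ℕ × ZMod p) :=
  Finsupp.linearCombination (ZMod p) (nlT p a s n)

lemma nlTT_single (a : α → ℕ) (s : α → ZMod p) (n : ℕ) (l : List α) :
    nlTT p a s n (Finsupp.single l 1) = nlT p a s n l := by
  rw [nlTT, Finsupp.linearCombination_single, one_smul]

lemma nlT_succ (a : α → ℕ) (s : α → ZMod p) (n : ℕ) (l : List α) :
    nlT p a s (n + 1) l = nlCone p (nlLbl a s l) (nlTT p a s n (bdL p l)) := rfl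

/-- near lists in `K` -/
def nlNL (K : Set α) (near : α → α → Prop) (n : ℕ) : Set (List α) :=
  {l | l.length = n ∧ (∀ x ∈ l, x ∈ K) ∧ ∀ x ∈ l, ∀ y ∈ l, near x y}

/-- lists in `K` -/
def nlKL (K : Set α) (n : ℕ) : Set (List α) := {l | l.length = n ∧ ∀ x ∈ l, x ∈ K}

/-- increasing lists of labels with levels below `M` -/
def nlTL (p M n : ℕ) : Set (List (ℕ × ZMod p)) :=
  {m | m.length = n ∧ m.Pairwise (fun u w => u.1 < w.1) ∧ ∀ u ∈ m, u.1 < M}

lemma bdL_NL {K : Set α} {near : α → α → Prop} {n : ℕ} {l : List α}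
    (hl : l ∈ nlNL K near (n + 1)) : bdL p l ∈ nlSP p (nlNL K near n ∩ {l' | l'.Sublist l}) := by
  refine nl_mono ?_ (bdL_supp l)
  rintro l' ⟨h1, h2⟩
  have h3 := hl.1
  refine ⟨⟨by omega, fun x hx => hl.2.1 x (h1.subset hx), fun x hx y hy =>
    hl.2.2 x (h1.subset hx) y (h1.subset hy)⟩, h1⟩

lemma bd_NL {K : Set α} {near : α → α → Prop} {n : ℕ} {c : Chain p α}
    (hc : c ∈ nlSP p (nlNL K near (n + 1))) : bd p c ∈ nlSP p (nlNL K near n) := by
  refine nl_map (bd p) ?_ hc
  intro l hl
  rw [bd_single]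
  exact nl_mono Set.inter_subset_left (bdL_NL hl)

lemma nlCone_TL {M n : ℕ} {v : ℕ × ZMod p} (hv : v.1 < M) {c : Chain p (ℕ × ZMod p)}
    (hc : c ∈ nlSP p (nlTL p M n)) :
    nlCone p v c ∈ nlSP p (nlTL p M (n + 1) ∩ {m | ∃ m', m = v :: m'}) := by
  refine nl_map (nlCone p v) ?_ hc
  rintro m ⟨h1, h2, h3⟩
  rw [nlCone_single]
  cases m with
  | nil =>
    rw [nlConeL]
    refine nl_single ?_ _
    refine ⟨⟨by simpa using h1.symm, by simp, ?_⟩, [], rfl⟩
    intro u hu
    rw [List.mem_singleton] at hu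
    rw [hu]; exact hv
  | cons u m =>
    rw [nlConeL]
    split_ifs with h
    · refine nl_single ?_ _
      refine ⟨⟨by simp only [List.length_cons] at h1 ⊢; omega, ?_, ?_⟩, u :: m, rfl⟩
      · rw [List.pairwise_cons]
        refine ⟨?_, h2⟩
        intro w hw
        rcases List.mem_cons.1 hw with rfl | hw
        · exact h
        · exact h.trans ((List.pairwise_cons.1 h2).1 w hw)
      · intro w hw
        rcases List.mem_cons.1 hw with rfl | hw
        · exact hv
        · exact h3 w hw
    · exact Submodule.zero_mem _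

section main

variable {a : α → ℕ} {s : α → ZMod p} {K : Set α} {near : α → α → Prop} {M : ℕ}

lemma nlT_supp (ha : ∀ x ∈ K, a x < M) (n : ℕ) :
    ∀ l ∈ nlNL K near n, nlT p a s n l ∈
      nlSP p (nlTL p M n ∩ {m | n ≠ 0 → ∃ m', m = nlLbl a s l :: m'}) := by
  induction n with
  | zero =>
    intro l _
    rw [nlT]
    refine nl_single ?_ _
    exact ⟨⟨rfl, List.Pairwise.nil, by simp⟩, fun h => absurd rfl h⟩
  | succ n ih =>
    intro l hl
    rw [nlT_succ]
    have hne : l ≠ [] := by
      rintro rfl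
      have := hl.1
      simp at this
    obtain ⟨x, hx, hx'⟩ := nlLbl_mem a s l hne
    have hv : (nlLbl a s l).1 < M := by
      rw [hx']; exact ha x (hl.2.1 x hx)
    have h1 : nlTT p a s n (bdL p l) ∈ nlSP p (nlTL p M n) := by
      refine nl_map (nlTT p a s n) ?_ (bdL_NL hl)
      intro l' hl'
      rw [nlTT_single]
      exact nl_mono Set.inter_subset_left (ih l' hl'.1)
    refine nl_mono ?_ (nlCone_TL hv h1)
    rintro m ⟨h2, h3⟩
    exact ⟨h2, fun _ => h3⟩

lemma nlTT_supp (ha : ∀ x ∈ K, a x < M) (n : ℕ) {c : Chain p α}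
    (hc : c ∈ nlSP p (nlNL K near n)) : nlTT p a s n c ∈ nlSP p (nlTL p M n) := by
  refine nl_map (nlTT p a s n) ?_ hc
  intro l hl
  rw [nlTT_single]
  exact nl_mono Set.inter_subset_left (nlT_supp ha n l hl)

lemma nlT_good (ha : ∀ x ∈ K, a x < M)
    (hcons : ∀ x ∈ K, ∀ y ∈ K, near x y → a x = a y → s x = s y) (n : ℕ) {l : List α}
    (hl : l ∈ nlNL K near (n + 1)) :
    nlTT p a s n (bdL p l) ∈ nlSP p (nlGood (nlLbl a s l)) := by
  refine nl_map (nlTT p a s n) ?_ (bdL_NL hl)
  rintro l' ⟨hl', hsub⟩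
  rw [nlTT_single]
  refine nl_mono ?_ (nlT_supp ha n l' hl')
  rintro m ⟨⟨h1, h2, -⟩, h3⟩
  refine ⟨h2, fun u hu => ?_⟩
  have hn : n ≠ 0 := by
    rintro rfl
    rw [List.length_eq_zero_iff] at h1
    rw [h1] at hu
    exact absurd hu (by simp)
  obtain ⟨m', rfl⟩ := h3 hn
  have hne : l' ≠ [] := by
    rintro rfl
    exact hn hl'.1.symm
  have hne' : l ≠ [] := by
    rintro rfl
    have := hl.1
    simp at this
  obtain ⟨x, hx, hx'⟩ := nlLbl_mem a s l' hne
  obtain ⟨y, hy, hy'⟩ := nlLbl_mem a s l hne'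
  have hxl := hsub.subset hx
  have hle := nlLbl_le a s l x hxl
  have hkey : (nlLbl a s l).1 < (nlLbl a s l').1 ∨ nlLbl a s l' = nlLbl a s l := by
    rcases hle.lt_or_eq with h | h
    · left; rw [hx']; exact h
    · right
      rw [hx', hy']
      rw [hy'] at h
      have h' : a y = a x := h
      rw [h', hcons y (hl.2.1 y hy) x (hl.2.1 x hxl) (hl.2.2 y hy x hxl) h']
  rcases List.mem_cons.1 hu with rfl | hu
  · exact hkey
  · left
    have h4 := (List.pairwise_cons.1 h2).1 u hu
    rcases hkey with h | h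
    · exact h.trans h4
    · rw [← h]; exact h4

lemma nlT_bd (ha : ∀ x ∈ K, a x < M)
    (hcons : ∀ x ∈ K, ∀ y ∈ K, near x y → a x = a y → s x = s y) (n : ℕ) :
    ∀ l ∈ nlNL K near (n + 1), bd p (nlT p a s (n + 1) l) = nlTT p a s n (bdL p l) := by
  induction n with
  | zero =>
    intro l hl
    rw [nlT_succ, bd_nlCone _ (nlT_good ha hcons 0 hl)]
    have h1 : bd p (nlTT p a s 0 (bdL p l)) = 0 := by
      have h2 : nlTT p a s 0 (bdL p l) ∈ nlSP p (nlTL p M 0) :=
        nlTT_supp ha 0 (nl_mono Set.inter_subset_left (bdL_NL hl))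
      refine nl_eq (S := nlTL p M 0) (bd p) 0 ?_ h2
      rintro m ⟨h3, -⟩
      rw [List.length_eq_zero_iff] at h3
      rw [h3, bd_single, bdL_nil, LinearMap.zero_apply]
    rw [h1, map_zero, sub_zero]
  | succ n ih =>
    intro l hl
    rw [nlT_succ, bd_nlCone _ (nlT_good ha hcons (n + 1) hl)]
    have h1 : bd p (nlTT p a s (n + 1) (bdL p l)) = nlTT p a s n (bd p (bdL p l)) := by
      refine nl_eq (S := nlNL K near (n + 1)) ((bd p).comp (nlTT p a s (n + 1)))
        ((nlTT p a s n).comp (bd p)) ?_ (nl_mono Set.inter_subset_left (bdL_NL hl))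
      intro l' hl'
      rw [LinearMap.comp_apply, LinearMap.comp_apply, nlTT_single, bd_single, ih l' hl']
    rw [h1, bd_bdL, map_zero, map_zero, sub_zero]

lemma nlTT_bd (ha : ∀ x ∈ K, a x < M)
    (hcons : ∀ x ∈ K, ∀ y ∈ K, near x y → a x = a y → s x = s y) (n : ℕ) {c : Chain p α}
    (hc : c ∈ nlSP p (nlNL K near (n + 1))) :
    bd p (nlTT p a s (n + 1) c) = nlTT p a s n (bd p c) := by
  refine nl_eq (S := nlNL K near (n + 1)) ((bd p).comp (nlTT p a s (n + 1)))
    ((nlTT p a s n).comp (bd p)) ?_ hc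
  intro l' hl'
  rw [LinearMap.comp_apply, LinearMap.comp_apply, nlTT_single, bd_single, nlT_bd ha hcons n l' hl']

lemma nlT_act {g : α → α} (hag : ∀ x ∈ K, a (g x) = a x)
    (hsg : ∀ x ∈ K, s (g x) = s x + 1) (n : ℕ) :
    ∀ l ∈ nlKL K n, nlT p a s n (l.map g) = act p (nlG p) (nlT p a s n l) := by
  induction n with
  | zero =>
    intro l _
    rw [nlT, nlT, act_single, List.map_nil]
  | succ n ih =>
    intro l hl
    have hne : l ≠ [] := by
      rintro rfl
      have := hl.1
      simp at this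
    rw [nlT_succ, nlT_succ, nlLbl_map a s g l hne (fun x hx => hag x (hl.2 x hx))
      (fun x hx => hsg x (hl.2 x hx)), bdL_map, ← nlCone_act]
    congr 1
    have hsub : bdL p l ∈ nlSP p (nlKL K n) := by
      refine nl_mono ?_ (bdL_supp l)
      rintro l' ⟨h1, h2⟩
      have h3 := hl.1
      exact ⟨by omega, fun x hx => hl.2 x (h1.subset hx)⟩
    refine nl_eq (S := nlKL K n) ((nlTT p a s n).comp (act p g))
      ((act p (nlG p)).comp (nlTT p a s n)) ?_ hsub
    intro l' hl'
    rw [LinearMap.comp_apply, LinearMap.comp_apply, act_single, nlTT_single, nlTT_single, ih l' hl']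

lemma nlTT_act {g : α → α} (hag : ∀ x ∈ K, a (g x) = a x)
    (hsg : ∀ x ∈ K, s (g x) = s x + 1) (n : ℕ) {c : Chain p α} (hc : c ∈ nlSP p (nlKL K n)) :
    nlTT p a s n (act p g c) = act p (nlG p) (nlTT p a s n c) := by
  refine nl_eq (S := nlKL K n) ((nlTT p a s n).comp (act p g))
    ((act p (nlG p)).comp (nlTT p a s n)) ?_ hc
  intro l' hl'
  rw [LinearMap.comp_apply, LinearMap.comp_apply, act_single, nlTT_single, nlTT_single,
    nlT_act hag hsg n l' hl']

lemma nl_act_KL {g : α → α} (hg : ∀ x ∈ K, g x ∈ K) (n : ℕ) {c : Chain p α}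
    (hc : c ∈ nlSP p (nlKL K n)) : act p g c ∈ nlSP p (nlKL K n) := by
  refine nl_map (act p g) ?_ hc
  rintro l ⟨h1, h2⟩
  rw [act_single]
  refine nl_single ?_ _
  refine ⟨by rw [List.length_map, h1], ?_⟩
  intro x hx
  obtain ⟨y, hy, rfl⟩ := List.mem_map.1 hx
  exact hg y (h2 y hy)

lemma nlTT_iter {g : α → α} (hg : ∀ x ∈ K, g x ∈ K) (hag : ∀ x ∈ K, a (g x) = a x)
    (hsg : ∀ x ∈ K, s (g x) = s x + 1) (n i : ℕ) {c : Chain p α} (hc : c ∈ nlSP p (nlKL K n)) :
    (act p g)^[i] c ∈ nlSP p (nlKL K n) ∧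
    nlTT p a s n ((act p g)^[i] c) = (act p (nlG p))^[i] (nlTT p a s n c) := by
  induction i with
  | zero => exact ⟨hc, rfl⟩
  | succ i ih =>
    rw [Function.iterate_succ_apply', Function.iterate_succ_apply']
    exact ⟨nl_act_KL hg n ih.1, by rw [nlTT_act hag hsg n ih.1, ih.2]⟩

end main

/-! ### exactness -/

/-- second component of the head -/
def nlH (p : ℕ) : List (ℕ × ZMod p) → ZMod p
  | [] => 0
  | u :: _ => u.2

/-- lists of length `n` -/
def nlB (p n : ℕ) : Set (List (ℕ × ZMod p)) := {m | m.length = n}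

open Classical in
/-- restriction to the lists whose head has second component `z` -/
noncomputable def nlF (p : ℕ) (z : ZMod p) :
    Chain p (ℕ × ZMod p) →ₗ[ZMod p] Chain p (ℕ × ZMod p) :=
  Finsupp.linearCombination (ZMod p) (fun m => if nlH p m = z then Finsupp.single m 1 else 0)

open Classical in
lemma nlF_single (z : ZMod p) (m : List (ℕ × ZMod p)) :
    nlF p z (Finsupp.single m 1) = if nlH p m = z then Finsupp.single m 1 else 0 := by
  rw [nlF, Finsupp.linearCombination_single, one_smul]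

lemma nlF_B (z : ZMod p) (n : ℕ) {c : Chain p (ℕ × ZMod p)} (hc : c ∈ nlSP p (nlB p n)) :
    nlF p z c ∈ nlSP p (nlB p n) := by
  classical
  refine nl_map (nlF p z) ?_ hc
  intro m hm
  rw [nlF_single]
  split_ifs
  · exact nl_single hm _
  · exact Submodule.zero_mem _

lemma nlAct_B (n : ℕ) {c : Chain p (ℕ × ZMod p)} (hc : c ∈ nlSP p (nlB p n)) :
    act p (nlG p) c ∈ nlSP p (nlB p n) := by
  refine nl_map (act p (nlG p)) ?_ hc
  intro m hm
  rw [act_single]
  exact nl_single (by rw [nlB, Set.mem_setOf_eq, List.length_map]; exact hm) _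

lemma nlIter_B (n i : ℕ) {c : Chain p (ℕ × ZMod p)} (hc : c ∈ nlSP p (nlB p n)) :
    (act p (nlG p))^[i] c ∈ nlSP p (nlB p n) := by
  induction i with
  | zero => exact hc
  | succ i ih =>
    rw [Function.iterate_succ_apply']
    exact nlAct_B n ih

lemma bd_B (n : ℕ) {c : Chain p (ℕ × ZMod p)} (hc : c ∈ nlSP p (nlB p (n + 1))) :
    bd p c ∈ nlSP p (nlB p n) := by
  refine nl_map (bd p) ?_ hc
  intro m hm
  rw [bd_single]
  refine nl_mono ?_ (bdL_supp m)
  rintro l' ⟨-, h2⟩
  have h3 : m.length = n + 1 := hm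
  show l'.length = n
  omega

lemma nlF_act (z : ZMod p) (n : ℕ) {c : Chain p (ℕ × ZMod p)}
    (hc : c ∈ nlSP p (nlB p (n + 1))) :
    act p (nlG p) (nlF p z c) = nlF p (z + 1) (act p (nlG p) c) := by
  classical
  refine nl_eq (S := nlB p (n + 1)) ((act p (nlG p)).comp (nlF p z))
    ((nlF p (z + 1)).comp (act p (nlG p))) ?_ hc
  intro m hm
  rw [LinearMap.comp_apply, LinearMap.comp_apply, act_single, nlF_single, nlF_single]
  cases m with
  | nil =>
    have : ([] : List (ℕ × ZMod p)).length = n + 1 := hm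
    simp at this
  | cons u m =>
    have h1 : nlH p ((u :: m).map (nlG p)) = z + 1 ↔ nlH p (u :: m) = z := by
      show u.2 + 1 = z + 1 ↔ u.2 = z
      exact add_left_inj 1
    simp only [h1]
    split_ifs
    · rw [act_single]
    · rw [map_zero]

lemma nlF_iter (z : ZMod p) (n i : ℕ) {c : Chain p (ℕ × ZMod p)}
    (hc : c ∈ nlSP p (nlB p (n + 1))) :
    (act p (nlG p))^[i] (nlF p z c) = nlF p (z + i) ((act p (nlG p))^[i] c) := by
  induction i with
  | zero => simp
  | succ i ih =>
    rw [Function.iterate_succ_apply', Function.iterate_succ_apply', ih,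
      nlF_act _ n (nlIter_B _ i hc)]
    congr 2
    push_cast
    ring

lemma nlF_sum [Fact p.Prime] (c : Chain p (ℕ × ZMod p)) :
    ∑ i ∈ Finset.range p, nlF p (i : ZMod p) c = c := by
  classical
  have h := nl_eq' (∑ i ∈ Finset.range p, nlF p (i : ZMod p)) LinearMap.id ?_ c
  · rw [LinearMap.sum_apply] at h
    exact h
  · intro m
    rw [LinearMap.sum_apply, LinearMap.id_apply]
    simp only [nlF_single]
    rw [Finset.sum_eq_single (nlH p m).val]
    · rw [ZMod.natCast_zmod_val, if_pos rfl]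
    · intro i hi hne
      rw [if_neg]
      intro h
      apply hne
      rw [h, ZMod.val_natCast_of_lt (Finset.mem_range.1 hi)]
    · intro h
      exact absurd (Finset.mem_range.2 (ZMod.val_lt _)) h

lemma nlF_sum_neg [Fact p.Prime] (c : Chain p (ℕ × ZMod p)) :
    ∑ i ∈ Finset.range p, nlF p (-(i : ZMod p)) c = c := by
  classical
  have h := nl_eq' (∑ i ∈ Finset.range p, nlF p (-(i : ZMod p))) LinearMap.id ?_ c
  · rw [LinearMap.sum_apply] at h
    exact h
  · intro m
    rw [LinearMap.sum_apply, LinearMap.id_apply]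
    simp only [nlF_single]
    rw [Finset.sum_eq_single (-(nlH p m)).val]
    · rw [ZMod.natCast_zmod_val, neg_neg, if_pos rfl]
    · intro i hi hne
      rw [if_neg]
      intro h
      apply hne
      rw [h, neg_neg, ZMod.val_natCast_of_lt (Finset.mem_range.1 hi)]
    · intro h
      exact absurd (Finset.mem_range.2 (ZMod.val_lt _)) h

lemma nl_iter_fix {c : Chain p (ℕ × ZMod p)} (h : act p (nlG p) c = c) (i : ℕ) :
    (act p (nlG p))^[i] c = c := by
  induction i with
  | zero => rfl
  | succ i ih => rw [Function.iterate_succ_apply', ih, h]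

lemma nl_exact1 [Fact p.Prime] (n : ℕ) {c : Chain p (ℕ × ZMod p)}
    (hc : c ∈ nlSP p (nlB p (n + 1))) (h : act p (nlG p) c - c = 0) :
    ∃ d ∈ nlSP p (nlB p (n + 1)), c = ∑ i ∈ Finset.range p, (act p (nlG p))^[i] d := by
  refine ⟨nlF p 0 c, nlF_B 0 _ hc, ?_⟩
  have hfix := sub_eq_zero.1 h
  conv_lhs => rw [← nlF_sum c]
  refine Finset.sum_congr rfl fun i _ => ?_
  rw [nlF_iter 0 n i hc, nl_iter_fix hfix, zero_add]

lemma nl_iter_add (i : ℕ) (x y : Chain p (ℕ × ZMod p)) :
    (act p (nlG p))^[i] (x + y) = (act p (nlG p))^[i] x + (act p (nlG p))^[i] y := by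
  induction i with
  | zero => rfl
  | succ i ih => simp only [Function.iterate_succ_apply', ih, map_add]

lemma nl_geom (i : ℕ) (x : Chain p (ℕ × ZMod p)) :
    (act p (nlG p))^[i] x - x = act p (nlG p) (∑ t ∈ Finset.range i, (act p (nlG p))^[t] x) -
      ∑ t ∈ Finset.range i, (act p (nlG p))^[t] x := by
  induction i with
  | zero => simp
  | succ i ih =>
    rw [Finset.sum_range_succ, map_add, Function.iterate_succ_apply']
    have : act p (nlG p) (∑ t ∈ Finset.range i, (act p (nlG p))^[t] x) =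
        (act p (nlG p))^[i] x - x + ∑ t ∈ Finset.range i, (act p (nlG p))^[t] x := by
      rw [ih]; abel
    rw [this]
    abel

lemma nl_exact2 [Fact p.Prime] (n : ℕ) {c : Chain p (ℕ × ZMod p)}
    (hc : c ∈ nlSP p (nlB p (n + 1)))
    (h : ∑ i ∈ Finset.range p, (act p (nlG p))^[i] c = 0) :
    ∃ d ∈ nlSP p (nlB p (n + 1)), c = act p (nlG p) d - d := by
  have h1 : ∑ i ∈ Finset.range p, (act p (nlG p))^[i] (nlF p (-(i : ZMod p)) c) = 0 := by
    have h2 := congrArg (nlF p 0) h
    rw [map_sum, map_zero] at h2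
    rw [← h2]
    refine Finset.sum_congr rfl fun i _ => ?_
    rw [nlF_iter _ n i hc, neg_add_cancel]
  refine ⟨-∑ i ∈ Finset.range p, ∑ t ∈ Finset.range i,
    (act p (nlG p))^[t] (nlF p (-(i : ZMod p)) c), ?_, ?_⟩
  · refine Submodule.neg_mem _ (Submodule.sum_mem _ fun i _ => Submodule.sum_mem _ fun t _ => ?_)
    exact nlIter_B _ t (nlF_B _ _ hc)
  · rw [map_neg, map_sum]
    have h3 : c = -∑ i ∈ Finset.range p, ((act p (nlG p))^[i] (nlF p (-(i : ZMod p)) c) -
        nlF p (-(i : ZMod p)) c) := by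
      rw [Finset.sum_sub_distrib, h1, nlF_sum_neg, zero_sub, neg_neg]
    conv_lhs => rw [h3]
    rw [Finset.sum_congr rfl (fun i _ => nl_geom i (nlF p (-(i : ZMod p)) c)),
      Finset.sum_sub_distrib]
    abel

end nl

/-- JOB: no consistent labelling with too few colours -/
theorem no_labels (p : ℕ) [Fact p.Prime] {α : Type} (g : α → α) (K : Set α) (hg : ∀ x ∈ K, g x ∈ K)
    (near : α → α → Prop) (a : α → ℕ) (s : α → ZMod p) (m : ℕ) (ha : ∀ x ∈ K, a x < m)
    (hag : ∀ x ∈ K, a (g x) = a x) (hsg : ∀ x ∈ K, s (g x) = s x + 1)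
    (hcons : ∀ x ∈ K, ∀ y ∈ K, near x y → a x = a y → s x = s y)
    (c : ℕ → Chain p α)
    (hc : ∀ k, k ≤ m → ∀ l ∈ (c k).support, l.length = k + 1 ∧ (∀ x ∈ l, x ∈ K) ∧
      ∀ x ∈ l, ∀ y ∈ l, near x y)
    (h0 : bd p (c 0) = Finsupp.single [] 1)
    (hk : ∀ k, k < m → bd p (c (k + 1)) =
      if Even k then act p g (c k) - c k else ∑ i ∈ Finset.range p, (act p g)^[i] (c k)) : False := by
  classical
  haveI := Fact.out (p := p.Prime)
  have hcN : ∀ k, k ≤ m → c k ∈ nlSP p (nlNL K near (k + 1)) := by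
    intro k hkm
    rw [nlSP, Finsupp.mem_supported]
    intro l hl
    exact hc k hkm l hl
  have hcK : ∀ k, k ≤ m → c k ∈ nlSP p (nlKL K (k + 1)) := fun k hkm =>
    nl_mono (by rintro l hl; exact ⟨hl.1, hl.2.1⟩) (hcN k hkm)
  set x : ℕ → Chain p (ℕ × ZMod p) := fun k => nlTT p a s (k + 1) (c k) with hx
  have hxTL : ∀ k, k ≤ m → x k ∈ nlSP p (nlTL p m (k + 1)) := fun k hkm =>
    nlTT_supp ha (k + 1) (hcN k hkm)
  have hxB : ∀ k, k ≤ m → x k ∈ nlSP p (nlB p (k + 1)) := fun k hkm =>
    nl_mono (fun l hl => hl.1) (hxTL k hkm)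
  have hx0 : bd p (x 0) = Finsupp.single [] 1 := by
    rw [hx]
    simp only
    rw [nlTT_bd ha hcons 0 (hcN 0 (Nat.zero_le m)), h0, nlTT_single, nlT]
  have hxk : ∀ k, k < m → bd p (x (k + 1)) =
      if Even k then act p (nlG p) (x k) - x k
      else ∑ i ∈ Finset.range p, (act p (nlG p))^[i] (x k) := by
    intro k hkm
    rw [hx]
    simp only
    rw [nlTT_bd ha hcons (k + 1) (hcN (k + 1) hkm), hk k hkm]
    split_ifs
    · rw [map_sub, nlTT_act hag hsg (k + 1) (hcK k hkm.le)]
    · rw [map_sum]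
      exact Finset.sum_congr rfl fun i _ => (nlTT_iter hg hag hsg (k + 1) i (hcK k hkm.le)).2
  have hxm : x m = 0 := by
    have h1 : nlTL p m (m + 1) = ∅ := by
      rw [Set.eq_empty_iff_forall_notMem]
      rintro l ⟨h1, h2, h3⟩
      have hnd : (l.map Prod.fst).Nodup := by
        have : (l.map Prod.fst).Pairwise (· < ·) := by
          rw [List.pairwise_map]
          exact h2
        exact this.imp (fun h => ne_of_lt h)
      have hsub : (l.map Prod.fst).toFinset ⊆ Finset.range m := by
        intro y hy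
        rw [List.mem_toFinset] at hy
        obtain ⟨u, hu, rfl⟩ := List.mem_map.1 hy
        exact Finset.mem_range.2 (h3 u hu)
      have hcard := Finset.card_le_card hsub
      rw [List.toFinset_card_of_nodup hnd, List.length_map, h1, Finset.card_range] at hcard
      omega
    have h2 := hxTL m le_rfl
    rw [h1, nlSP, Finsupp.supported_empty] at h2
    exact h2
  have hbdit : ∀ (i : ℕ) (y : Chain p (ℕ × ZMod p)),
      bd p ((act p (nlG p))^[i] y) = (act p (nlG p))^[i] (bd p y) := by
    intro i y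
    induction i with
    | zero => rfl
    | succ i ih => rw [Function.iterate_succ_apply', Function.iterate_succ_apply', bd_act, ih]
  have hitsub : ∀ (i : ℕ) (y z : Chain p (ℕ × ZMod p)),
      (act p (nlG p))^[i] (y - z) = (act p (nlG p))^[i] y - (act p (nlG p))^[i] z := by
    intro i y z
    induction i with
    | zero => rfl
    | succ i ih => simp only [Function.iterate_succ_apply', ih, map_sub]
  have hR : ∀ j k, k + j = m → ∃ b ∈ nlSP p (nlB p (k + 2)), ∃ b' ∈ nlSP p (nlB p (k + 1)),
      x k = bd p b + if Even k then ∑ i ∈ Finset.range p, (act p (nlG p))^[i] b'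
        else act p (nlG p) b' - b' := by
    intro j
    induction j with
    | zero =>
      intro k hkm
      rw [add_zero] at hkm
      subst hkm
      refine ⟨0, Submodule.zero_mem _, 0, Submodule.zero_mem _, ?_⟩
      rw [hxm, map_zero, map_zero]
      have : ∀ i, (act p (nlG p))^[i] (0 : Chain p (ℕ × ZMod p)) = 0 := by
        intro i
        have := hitsub i 0 0
        simpa using this
      simp [this]
    | succ j ih =>
      intro k hkm
      obtain ⟨b, hb, b', hb', hbb⟩ := ih (k + 1) (by omega)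
      have hkm' : k < m := by omega
      have h1 := hxk k hkm'
      rw [hbb, map_add, bd_bd, zero_add] at h1
      have hbd' : bd p b' ∈ nlSP p (nlB p (k + 1)) := bd_B (k + 1) hb'
      have hdiff : x k - bd p b' ∈ nlSP p (nlB p (k + 1)) :=
        Submodule.sub_mem _ (hxB k hkm'.le) hbd'
      by_cases hev : Even k
      · have hodd : ¬ Even (k + 1) := by
          rw [Nat.not_even_iff_odd]; exact hev.add_one
        rw [if_neg hodd, if_pos hev, map_sub, bd_act] at h1
        have h2 : act p (nlG p) (x k - bd p b') - (x k - bd p b') = 0 := by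
          rw [map_sub]
          have : act p (nlG p) (x k) - act p (nlG p) (bd p b') - (x k - bd p b') =
              (act p (nlG p) (x k) - x k) - (act p (nlG p) (bd p b') - bd p b') := by abel
          rw [this, h1, sub_self]
        obtain ⟨d, hd, hd'⟩ := nl_exact1 k hdiff h2
        refine ⟨b', hb', d, hd, ?_⟩
        rw [if_pos hev, ← hd']
        abel
      · have heven : Even (k + 1) := by
          rw [Nat.not_even_iff_odd] at hev; exact hev.add_one
        rw [if_pos heven, if_neg hev, map_sum] at h1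
        simp only [hbdit] at h1
        have h2 : ∑ i ∈ Finset.range p, (act p (nlG p))^[i] (x k - bd p b') = 0 := by
          simp only [hitsub]
          rw [Finset.sum_sub_distrib, h1, sub_self]
        obtain ⟨d, hd, hd'⟩ := nl_exact2 k hdiff h2
        refine ⟨b', hb', d, hd, ?_⟩
        rw [if_neg hev, ← hd']
        abel
  obtain ⟨b, hb, b', hb', hbb⟩ := hR m 0 (by omega)
  rw [if_pos (by decide : Even 0)] at hbb
  rw [hbb, map_add, bd_bd, zero_add, map_sum] at hx0
  simp only [hbdit] at hx0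
  have h2 : bd p b' ∈ nlSP p (nlB p 0) := bd_B 0 hb'
  have hfix : act p (nlG p) (bd p b') = bd p b' := by
    refine nl_eq (S := nlB p 0) (act p (nlG p)) LinearMap.id ?_ h2
    intro l hl
    have hl' : l.length = 0 := hl
    rw [List.length_eq_zero_iff] at hl'
    rw [hl', act_single, LinearMap.id_apply, List.map_nil]
  simp only [nl_iter_fix hfix, Finset.sum_const, Finset.card_range] at hx0
  have h3 : p • bd p b' = 0 := by
    rw [← Nat.cast_smul_eq_nsmul (ZMod p), CharP.cast_eq_zero, zero_smul]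
  rw [h3] at hx0
  have h4 := congrArg (fun f : Chain p (ℕ × ZMod p) => f []) hx0
  simp at h4

end D1b

end Pool.Agent.Helper954.Hopf.Dold
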