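import Pool.Agent.Helper954.Hopf.D1a
import Pool.Agent.Helper954.Hopf.D1b

set_option autoImplicit false

namespace Pool.Agent.Helper954.Hopf.Dold

open Set Filter Topology
open scoped BigOperators
open D1a (fine_chains)
open D1b (no_labels)

namespace D1c

theorem dc_compact (p M : ℕ) [NeZero p] : IsCompact (JK p M) := by
  refine IsCompact.of_isClosed_subset (isCompact_Icc (a := (0 : VV p M)) (b := 1)) ?_ ?_
  · have e : JK p M = (⋂ i, ⋂ l, {x : VV p M | 0 ≤ x i l}) ∩ ({x : VV p M | ∑ i, ∑ l, x i l = 1} ∩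
        ⋂ i, ⋂ l, ⋂ l', ⋂ (_ : l ≠ l'), ({x : VV p M | x i l = 0} ∪ {x : VV p M | x i l' = 0})) := by
      ext x
      simp only [JK, mem_setOf_eq, mem_inter_iff, mem_iInter, mem_union]
    rw [e]
    have hc : ∀ i l, Continuous fun x : VV p M => x i l := fun i l => by fun_prop
    refine IsClosed.inter (isClosed_iInter fun i => isClosed_iInter fun l =>
      isClosed_le continuous_const (hc i l)) (IsClosed.inter ?_ ?_)
    · exact isClosed_eq (by fun_prop) continuous_const
    · refine isClosed_iInter fun i => isClosed_iInter fun l => isClosed_iInter fun l' =>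
        isClosed_iInter fun _ => ?_
      exact (isClosed_eq (hc i l) continuous_const).union (isClosed_eq (hc i l') continuous_const)
  · rintro x ⟨h0, h1, -⟩
    refine ⟨fun i l => h0 i l, fun i l => ?_⟩
    show x i l ≤ 1
    rw [← h1]
    calc x i l ≤ ∑ l, x i l := Finset.single_le_sum (fun l _ => h0 i l) (Finset.mem_univ l)
      _ ≤ ∑ i, ∑ l, x i l := Finset.single_le_sum (f := fun i => ∑ l, x i l)
        (fun i _ => Finset.sum_nonneg fun l _ => h0 i l) (Finset.mem_univ i)

theorem dc_sh_mem (p M : ℕ) [NeZero p] {x : VV p M} (hx : x ∈ JK p M) : sh x ∈ JK p M := by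
  obtain ⟨h0, h1, h2⟩ := hx
  refine ⟨fun i l => h0 i (l - 1), ?_, fun i l l' hl => h2 i (l - 1) (l' - 1) (by simpa using hl)⟩
  rw [← h1]
  refine Finset.sum_congr rfl fun i _ => ?_
  exact (Equiv.subRight (1 : ZMod p)).sum_comp (fun l => x i l)

/-- inverse shift -/
def dcun {p M : ℕ} (x : VV p M) : VV p M := fun i l => x i (l + 1)

theorem dc_un_sh {p M : ℕ} (x : VV p M) : dcun (sh x) = x := by
  funext i l
  simp [dcun, sh]

theorem dc_sh_un {p M : ℕ} (x : VV p M) : sh (dcun x) = x := by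
  funext i l
  simp [dcun, sh]

theorem dc_un_dist {p M : ℕ} [NeZero p] (x y : VV p M) : dist (dcun x) (dcun y) ≤ dist x y := by
  refine (dist_pi_le_iff dist_nonneg).mpr fun i => (dist_pi_le_iff dist_nonneg).mpr fun l => ?_
  show dist (x i (l + 1)) (y i (l + 1)) ≤ dist x y
  exact (dist_le_pi_dist (x i) (y i) (l + 1)).trans (dist_le_pi_dist x y i)

theorem dc_sh_iter {p M : ℕ} (x : VV p M) (k : ℕ) : sh^[k] x = fun i l => x i (l - k) := by
  induction k with
  | zero => simp
  | succ k ih =>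
    rw [Function.iterate_succ_apply', ih]
    funext i l
    show x i (l - 1 - k) = x i (l - ((k + 1 : ℕ) : ZMod p))
    congr 1
    push_cast
    ring

/-- JOB 1: the join of `M` copies of `ZMod p` is not covered by fewer than `M` labelled open sets -/
theorem join_cover (p : ℕ) [Fact p.Prime] (M : ℕ) {J : Type} [Fintype J] (hJ : Fintype.card J < M)
    (O : J → Set (VV p M)) (hO : ∀ j, IsOpen (O j)) (lab : J → VV p M → ZMod p)
    (hlab : ∀ j, ∀ x ∈ O j, ∀ᶠ y in 𝓝 x, lab j y = lab j x)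
    (hinv : ∀ j, ∀ x ∈ O j, sh x ∈ O j) (hequi : ∀ j, ∀ x ∈ O j, lab j (sh x) = lab j x + 1) :
    ∃ x ∈ JK p M, ∀ j, x ∉ O j := by
  classical
  by_contra hcon
  push Not at hcon
  let O' : J × ZMod p → Set (VV p M) := fun q => {x | x ∈ O q.1 ∧ lab q.1 x = q.2}
  have hO' : ∀ q, IsOpen (O' q) := by
    intro q
    rw [isOpen_iff_mem_nhds]
    rintro x ⟨hx1, hx2⟩
    filter_upwards [(hO q.1).mem_nhds hx1, hlab q.1 x hx1] with y hy1 hy2
    exact ⟨hy1, hy2.trans hx2⟩
  have hcov : JK p M ⊆ ⋃ q, O' q := by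
    intro x hx
    obtain ⟨j, hj⟩ := hcon x hx
    exact mem_iUnion.mpr ⟨(j, lab j x), hj, rfl⟩
  obtain ⟨δ, hδ, hleb⟩ := lebesgue_number_lemma_of_metric (dc_compact p M) hO' hcov
  let G : VV p M → J → Prop := fun x j => ∃ l, Metric.ball x δ ⊆ O' (j, l)
  have hG1 : ∀ x j, G x j → G (sh x) j := by
    rintro x j ⟨l, hl⟩
    refine ⟨l + 1, ?_⟩
    intro y hy
    have hy' : dcun y ∈ Metric.ball x δ := by
      rw [Metric.mem_ball] at hy ⊢
      refine lt_of_le_of_lt ?_ hy
      have := dc_un_dist y (sh x)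
      rwa [dc_un_sh] at this
    obtain ⟨h1, h2⟩ := hl hy'
    have h3 := hinv j _ h1
    have h4 := hequi j _ h1
    rw [dc_sh_un] at h3 h4
    refine ⟨h3, ?_⟩
    show lab j y = l + 1
    rw [h4]
    exact congrArg (· + 1) h2
  have hG2 : ∀ x j, G (sh x) j → G x j := by
    intro x j h
    have hit : ∀ k : ℕ, G (sh^[k] (sh x)) j := by
      intro k
      induction k with
      | zero => exact h
      | succ k ih =>
        rw [Function.iterate_succ_apply']
        exact hG1 _ _ ih
    have hp1 : p - 1 + 1 = p := Nat.succ_pred_eq_of_pos (Fact.out : p.Prime).pos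
    have h5 := hit (p - 1)
    rw [← Function.iterate_succ_apply, Nat.succ_eq_add_one, hp1, dc_sh_iter] at h5
    simpa using h5
  let e := Fintype.equivFin J
  let a : VV p M → ℕ := fun x => sInf {n | ∃ j, (e j : ℕ) = n ∧ G x j}
  have hGne : ∀ x ∈ JK p M, ∃ j, (e j : ℕ) = a x ∧ G x j := by
    intro x hx
    have hne : {n | ∃ j, (e j : ℕ) = n ∧ G x j}.Nonempty := by
      obtain ⟨⟨j, l⟩, h⟩ := hleb x hx
      exact ⟨e j, j, rfl, l, h⟩
    exact Nat.sInf_mem hne
  have hasx : ∀ x, a (sh x) = a x := by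
    intro x
    show sInf {n | ∃ j, (e j : ℕ) = n ∧ G (sh x) j} = sInf {n | ∃ j, (e j : ℕ) = n ∧ G x j}
    congr 1
    ext n
    constructor
    · rintro ⟨j, h1, h2⟩
      exact ⟨j, h1, hG2 x j h2⟩
    · rintro ⟨j, h1, h2⟩
      exact ⟨j, h1, hG1 x j h2⟩
  let s : VV p M → ZMod p := fun x =>
    if h : a x < Fintype.card J then lab (e.symm ⟨a x, h⟩) x else 0
  have hs : ∀ x j, (e j : ℕ) = a x → s x = lab j x := by
    intro x j h
    have hlt : a x < Fintype.card J := by rw [← h]; exact (e j).2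
    show (if h : a x < Fintype.card J then lab (e.symm ⟨a x, h⟩) x else 0) = lab j x
    rw [dif_pos hlt]
    congr 1
    rw [Equiv.symm_apply_eq]
    exact Fin.ext h.symm
  obtain ⟨c, hc1, hc2, hc3⟩ := fine_chains p M δ hδ
  refine no_labels p sh (JK p M) (fun x hx => dc_sh_mem p M hx) (fun x y => dist x y < δ) a s
    (M - 1) ?_ (fun x _ => hasx x) ?_ ?_ c ?_ (hc2 (by omega)) ?_
  · intro x hx
    obtain ⟨j, h1, -⟩ := hGne x hx
    rw [← h1]
    have := (e j).2
    omega
  · intro x hx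
    obtain ⟨j, h1, l, h2⟩ := hGne x hx
    rw [hs x j h1, hs (sh x) j (by rw [h1, hasx])]
    exact hequi j x (h2 (Metric.mem_ball_self hδ)).1
  · intro x hx y hy hd hab
    obtain ⟨j, h1, l, h2⟩ := hGne x hx
    rw [hs x j h1, hs y j (by rw [h1, hab])]
    have h3 := (h2 (Metric.mem_ball_self hδ)).2
    have h4 := (h2 (show y ∈ Metric.ball x δ by rw [Metric.mem_ball, dist_comm]; exact hd)).2
    exact h3.trans h4.symm
  · intro k hk
    exact hc1 k (by omega)
  · intro k hk
    exact hc3 k (by omega)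

theorem dc_pow_add (p : ℕ) [NeZero p] (ω : ℂ) (hω : ω ^ p = 1) (a b : ZMod p) :
    ω ^ (a + b).val = ω ^ a.val * ω ^ b.val := by
  rw [ZMod.val_add, ← pow_eq_pow_mod _ hω, pow_add]

theorem dc_slot {p : ℕ} (y : ZMod p → ℝ) (h : ∀ l l', l ≠ l' → y l = 0 ∨ y l' = 0) :
    ∃ l0, ∀ l, l ≠ l0 → y l = 0 := by
  by_cases h0 : ∀ l, y l = 0
  · exact ⟨0, fun l _ => h0 l⟩
  · push Not at h0
    obtain ⟨l0, hl0⟩ := h0
    exact ⟨l0, fun l hl => (h l l0 hl).resolve_right hl0⟩

/-- JOB 2: free linear actions of `ZMod p` (`p` odd) on `ℂ^I`: `ℂ^I` minus the origin is not covered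
by fewer than `2 * card I` labelled open sets -/
theorem dold_cover (p : ℕ) [Fact p.Prime] (hp : p ≠ 2) {I : Type} [Fintype I] (κ : I → ZMod p)
    (hκ : ∀ i, κ i ≠ 0) {J : Type} [Fintype J] (hJ : Fintype.card J < 2 * Fintype.card I)
    (O : J → Set (I → ℂ)) (hO : ∀ j, IsOpen (O j)) (lab : J → (I → ℂ) → ZMod p)
    (hlab : ∀ j, ∀ x ∈ O j, ∀ᶠ y in 𝓝 x, lab j y = lab j x)
    (hinv : ∀ j, ∀ x ∈ O j,
      (fun i => Complex.exp (2 * Real.pi * Complex.I / p) ^ (κ i).val * x i) ∈ O j)
    (hequi : ∀ j, ∀ x ∈ O j,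
      lab j (fun i => Complex.exp (2 * Real.pi * Complex.I / p) ^ (κ i).val * x i) = lab j x + 1) :
    ∃ x : I → ℂ, x ≠ 0 ∧ ∀ j, x ∉ O j := by
  classical
  have hpp : p.Prime := Fact.out
  set ω : ℂ := Complex.exp (2 * Real.pi * Complex.I / p) with hωd
  have hω : ω ^ p = 1 := by
    rw [hωd, ← Complex.exp_nat_mul]
    have : (p : ℂ) * (2 * Real.pi * Complex.I / p) = 2 * Real.pi * Complex.I := by
      have : (p : ℂ) ≠ 0 := by exact_mod_cast hpp.ne_zero
      field_simp
    rw [this, Complex.exp_two_pi_mul_I]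
  have hωn : ‖ω‖ = 1 := by
    have h1 : ‖ω‖ ^ p = 1 := by rw [← norm_pow, hω, norm_one]
    exact (pow_eq_one_iff_of_nonneg (norm_nonneg _) hpp.ne_zero).mp h1
  let M := 2 * Fintype.card I
  have hcard : Fintype.card (I × Fin 2) = M := by
    rw [Fintype.card_prod, Fintype.card_fin, mul_comm]
  let E : I × Fin 2 ≃ Fin M := Fintype.equivFinOfCardEq hcard
  let φ : VV p M → (I → ℂ) := fun x i =>
    ∑ b : Fin 2, ∑ l : ZMod p, (x (E (i, b)) l : ℂ) * ω ^ (κ i * l).val
  have hφc : Continuous φ := by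
    refine continuous_pi fun i => ?_
    refine continuous_finset_sum _ fun b _ => continuous_finset_sum _ fun l _ => ?_
    refine Continuous.mul ?_ continuous_const
    exact Complex.continuous_ofReal.comp (by fun_prop)
  have hφsh : ∀ x : VV p M, φ (sh x) = fun i => ω ^ (κ i).val * φ x i := by
    intro x
    funext i
    show ∑ b : Fin 2, ∑ l : ZMod p, (x (E (i, b)) (l - 1) : ℂ) * ω ^ (κ i * l).val =
      ω ^ (κ i).val * ∑ b : Fin 2, ∑ l : ZMod p, (x (E (i, b)) l : ℂ) * ω ^ (κ i * l).val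
    rw [Finset.mul_sum]
    refine Finset.sum_congr rfl fun b _ => ?_
    rw [Finset.mul_sum, ← (Equiv.subRight (1 : ZMod p)).sum_comp
      (fun l => ω ^ (κ i).val * ((x (E (i, b)) l : ℂ) * ω ^ (κ i * l).val))]
    refine Finset.sum_congr rfl fun l _ => ?_
    rw [Equiv.subRight_apply]
    have h1 : κ i * l = κ i + κ i * (l - 1) := by ring
    rw [h1, dc_pow_add p ω hω]
    ring
  have hφ0 : ∀ x ∈ JK p M, φ x ≠ 0 := by
    rintro x ⟨h0, h1, h2⟩ hx
    have hzero : ∀ i b l, x (E (i, b)) l = 0 := by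
      intro i
      have hi : φ x i = 0 := congrFun hx i
      obtain ⟨l0, hl0⟩ := dc_slot (x (E (i, 0))) (h2 _)
      obtain ⟨l1, hl1⟩ := dc_slot (x (E (i, 1))) (h2 _)
      have hi' : (x (E (i, 0)) l0 : ℂ) * ω ^ (κ i * l0).val +
          (x (E (i, 1)) l1 : ℂ) * ω ^ (κ i * l1).val = 0 := by
        rw [← hi]
        show _ = ∑ b : Fin 2, ∑ l : ZMod p, (x (E (i, b)) l : ℂ) * ω ^ (κ i * l).val
        rw [Fin.sum_univ_two, Finset.sum_eq_single l0, Finset.sum_eq_single l1]
        · intro l _ hl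
          rw [hl1 l hl]; simp
        · intro h; exact absurd (Finset.mem_univ _) h
        · intro l _ hl
          rw [hl0 l hl]; simp
        · intro h; exact absurd (Finset.mem_univ _) h
      set s := x (E (i, 0)) l0 with hs
      set t := x (E (i, 1)) l1 with ht
      have hs0 : 0 ≤ s := h0 _ _
      have ht0 : 0 ≤ t := h0 _ _
      have hst : s = t := by
        have h3 : (s : ℂ) * ω ^ (κ i * l0).val = -((t : ℂ) * ω ^ (κ i * l1).val) :=
          eq_neg_of_add_eq_zero_left hi'
        have h4 := congrArg norm h3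
        rw [norm_neg, norm_mul, norm_mul, norm_pow, norm_pow, hωn, one_pow, one_pow, mul_one,
          mul_one, Complex.norm_real, Complex.norm_real, Real.norm_eq_abs, Real.norm_eq_abs,
          abs_of_nonneg hs0, abs_of_nonneg ht0] at h4
        exact h4
      have hs00 : s = 0 := by
        by_contra hne
        have h3 : (s : ℂ) * (ω ^ (κ i * l0).val + ω ^ (κ i * l1).val) = 0 := by
          rw [← hst] at hi'
          rw [mul_add]
          exact hi'
        rcases mul_eq_zero.mp h3 with h4 | h4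
        · exact hne (by exact_mod_cast h4)
        · have h5 : ω ^ (κ i * l0).val = -(ω ^ (κ i * l1).val) := eq_neg_of_add_eq_zero_left h4
          have h6 := congrArg (· ^ p) h5
          have hodd : Odd p := hpp.odd_of_ne_two hp
          rw [hodd.neg_pow, ← pow_mul, ← pow_mul, mul_comm _ p, mul_comm _ p, pow_mul, pow_mul, hω,
            one_pow, one_pow] at h6
          norm_num at h6
      intro b l
      fin_cases b
      · by_cases hl : l = l0
        · rw [hl]; exact hs00
        · exact hl0 l hl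
      · by_cases hl : l = l1
        · rw [hl]; exact hst.symm.trans hs00
        · exact hl1 l hl
    have : ∑ i, ∑ l, x i l = 0 := by
      refine Finset.sum_eq_zero fun i _ => Finset.sum_eq_zero fun l _ => ?_
      have := hzero (E.symm i).1 (E.symm i).2 l
      rwa [Prod.mk.eta, Equiv.apply_symm_apply] at this
    rw [this] at h1
    norm_num at h1
  obtain ⟨x, hx, hxO⟩ := join_cover p M (J := J) hJ (fun j => φ ⁻¹' (O j))
    (fun j => (hO j).preimage hφc) (fun j x => lab j (φ x))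
    (fun j x hx => (hφc.tendsto x).eventually (hlab j (φ x) hx))
    (fun j x hx => by
      show φ (sh x) ∈ O j
      rw [hφsh]
      exact hinv j (φ x) hx)
    (fun j x hx => by
      show lab j (φ (sh x)) = lab j (φ x) + 1
      rw [hφsh]
      exact hequi j (φ x) hx)
  exact ⟨φ x, hφ0 x hx, hxO⟩

end D1c

end Pool.Agent.Helper954.Hopf.Dold
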