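import Pool.Agent.Helper954.Hopf.Defs

set_option autoImplicit false

namespace Pool.Agent.Helper954.Hopf

open MeasureTheory Set
open scoped BigOperators

namespace DIAG

/-- partial rotation frame -/
def DiagFrame (p : ℕ) {E : Type} [NormedAddCommGroup E] [InnerProductSpace ℝ E]
    (g : E ≃ₗᵢ[ℝ] E) (m : ℕ) (κ : Fin m → ZMod p) (v : Fin m × Fin 2 → E) : Prop :=
  Orthonormal ℝ v ∧ (∀ j, κ j ≠ 0) ∧
    (∀ j, g (v (j, 0)) = (om p ^ (κ j).val).re • v (j, 0) + (om p ^ (κ j).val).im • v (j, 1)) ∧
    (∀ j, g (v (j, 1)) = -(om p ^ (κ j).val).im • v (j, 0) + (om p ^ (κ j).val).re • v (j, 1))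

theorem om_prim (p : ℕ) (hp0 : p ≠ 0) : IsPrimitiveRoot (om p) p :=
  Complex.isPrimitiveRoot_exp p hp0

theorem om_pow_norm (p : ℕ) (hp0 : p ≠ 0) (k : ℕ) :
    (om p ^ k).re ^ 2 + (om p ^ k).im ^ 2 = 1 := by
  have h1 : ‖om p ^ k‖ = 1 := by
    rw [norm_pow, (om_prim p hp0).norm'_eq_one hp0, one_pow]
  have h2 := Complex.sq_norm (om p ^ k)
  rw [h1, Complex.normSq_apply] at h2
  nlinarith

/-- one more plane in the orthogonal complement -/
theorem diag_plane (p : ℕ) [Fact p.Prime] (hp : p ≠ 2) {E : Type} [NormedAddCommGroup E]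
    [InnerProductSpace ℝ E] [FiniteDimensional ℝ E] (g : E ≃ₗᵢ[ℝ] E) (hg : g ^ p = 1)
    (hfix : ∀ x, g x = x → x = 0) (W : Submodule ℝ E) (hW : W ≠ ⊥)
    (h1 : ∀ w ∈ W, g w ∈ W) (h2 : ∀ w ∈ W, g.symm w ∈ W) :
    ∃ (k : ZMod p) (x y : E), x ∈ W ∧ y ∈ W ∧ k ≠ 0 ∧ ‖x‖ = 1 ∧ ‖y‖ = 1 ∧ inner ℝ x y = 0 ∧
      g x = (om p ^ k.val).re • x + (om p ^ k.val).im • y ∧
      g y = -(om p ^ k.val).im • x + (om p ^ k.val).re • y := by
  have hpp : p.Prime := Fact.out
  have hp0 : p ≠ 0 := hpp.ne_zero
  -- the symmetric operator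
  let T : W →ₗ[ℝ] W :=
    { toFun := fun w => ⟨g w + g.symm w, W.add_mem (h1 _ w.2) (h2 _ w.2)⟩
      map_add' := by intro a b; ext; simp; abel
      map_smul' := by intro a b; ext; simp }
  have hadj : ∀ a b : E, inner ℝ (g a) b = inner ℝ a (g.symm b) := by
    intro a b
    have := g.inner_map_map a (g.symm b)
    simpa using this
  have hadj' : ∀ a b : E, inner ℝ (g.symm a) b = inner ℝ a (g b) := by
    intro a b
    have := g.inner_map_map (g.symm a) b
    simpa using this.symm
  have hT : T.IsSymmetric := by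
    intro a b
    show inner ℝ (g a + g.symm a : E) (b : E) = inner ℝ (a : E) (g b + g.symm b : E)
    rw [inner_add_left, inner_add_right, hadj, hadj', add_comm]
  have hpos : 0 < Module.finrank ℝ W := by
    rw [Module.finrank_pos_iff]
    exact Submodule.nontrivial_iff_ne_bot.2 hW
  obtain ⟨x0, hx0, lam, hlam⟩ : ∃ x0 : W, ‖x0‖ = 1 ∧ ∃ lam : ℝ, T x0 = lam • x0 := by
    refine ⟨hT.eigenvectorBasis rfl ⟨0, hpos⟩, (hT.eigenvectorBasis rfl).orthonormal.1 _,
      hT.eigenvalues rfl ⟨0, hpos⟩, ?_⟩
    simpa using hT.apply_eigenvectorBasis rfl ⟨0, hpos⟩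
  set x : E := (x0 : E) with hx
  have hxW : x ∈ W := x0.2
  have hx1 : ‖x‖ = 1 := by simpa using hx0
  have hxx : inner ℝ x x = 1 := by rw [real_inner_self_eq_norm_sq, hx1]; norm_num
  have hTx : g x + g.symm x = lam • x := congrArg Subtype.val hlam
  set c : ℝ := inner ℝ x (g x) with hc
  have hc' : inner ℝ x (g.symm x) = c := by rw [← hadj, real_inner_comm]
  have hlc : lam = 2 * c := by
    have := congrArg (fun z => inner ℝ x z) hTx
    simp only [inner_add_right, inner_smul_right, hxx, hc'] at this
    rw [← hc] at this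
    linarith
  have hgg : g (g x) = (2 * c) • g x - x := by
    have := congrArg g hTx
    simp only [map_add, map_smul, LinearIsometryEquiv.apply_symm_apply, hlc] at this
    rw [← this]; abel
  set u : E := g x - c • x with hu
  have hngx : ‖g x‖ = 1 := by simpa using hx1
  have hgxx : inner ℝ (g x) (g x) = 1 := by rw [real_inner_self_eq_norm_sq, hngx]; norm_num
  have hu2 : inner ℝ u u = 1 - c ^ 2 := by
    simp only [hu, inner_sub_left, inner_sub_right, inner_smul_left, inner_smul_right, hxx, hgxx]
    rw [real_inner_comm x (g x), ← hc]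
    simp; ring
  have hxu : inner ℝ x u = 0 := by
    simp only [hu, inner_sub_right, inner_smul_right, hxx]
    rw [← hc]; ring
  have hune : u ≠ 0 := by
    intro h0
    have hgx : g x = c • x := by rw [hu] at h0; exact sub_eq_zero.1 h0
    have hcc : c ^ 2 = 1 := by
      rw [h0] at hu2; simp at hu2; linarith
    have hxne : x ≠ 0 := by
      intro h; rw [h] at hx1; simp at hx1
    have hodd : Odd p := hpp.odd_of_ne_two hp
    have hcc2 : (c - 1) * (c + 1) = 0 := by
      have : (c - 1) * (c + 1) = c ^ 2 - 1 := by ring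
      rw [this, hcc, sub_self]
    rcases mul_eq_zero.1 hcc2 with h | h
    · have hc1 : c = 1 := by linarith
      apply hxne
      apply hfix
      rw [hgx, hc1, one_smul]
    · have hc1 : c = -1 := by linarith
      have hk : ∀ k : ℕ, (g ^ k) x = ((-1 : ℝ) ^ k) • x := by
        intro k
        induction k with
        | zero => simp
        | succ k ih =>
          rw [pow_succ']
          show g ((g ^ k) x) = _
          rw [ih, map_smul, hgx, hc1, smul_smul, pow_succ]
      have h3 := hk p
      rw [hg, hodd.neg_one_pow] at h3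
      have h4 : x = (-1 : ℝ) • x := by simpa using h3
      apply hxne
      have h5 : (2 : ℝ) • x = 0 := by
        have : (2 : ℝ) • x = x - (-1 : ℝ) • x := by module
        rw [this, ← h4, sub_self]
      rcases smul_eq_zero.1 h5 with h6 | h6
      · norm_num at h6
      · exact h6
  have hspos : 0 < ‖u‖ := norm_pos_iff.2 hune
  set s : ℝ := ‖u‖ with hs
  have hs2 : s ^ 2 = 1 - c ^ 2 := by rw [hs, ← real_inner_self_eq_norm_sq, hu2]
  set y : E := s⁻¹ • u with hy
  have hyW : y ∈ W := W.smul_mem _ (W.sub_mem (h1 _ hxW) (W.smul_mem _ hxW))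
  have hy1 : ‖y‖ = 1 := by
    rw [hy, norm_smul, norm_inv, Real.norm_eq_abs, abs_of_pos hspos, ← hs,
      inv_mul_cancel₀ hspos.ne']
  have hxy : inner ℝ x y = 0 := by rw [hy, inner_smul_right, hxu, mul_zero]
  have hgx : g x = c • x + s • y := by
    rw [hy, smul_smul, mul_inv_cancel₀ hspos.ne', one_smul, hu]; abel
  have hgy : g y = (-s) • x + c • y := by
    have e1 : g u = c • g x - x := by
      rw [hu, map_sub, map_smul, hgg, two_mul, add_smul]; abel
    have e2 : g u = (-(s ^ 2)) • x + (c * s) • y := by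
      rw [e1, hgx, hs2, smul_add, smul_smul, smul_smul, neg_sub, sub_smul, one_smul]
      rw [show c * c = c ^ 2 by ring]; abel
    rw [show g y = s⁻¹ • g u by rw [hy, map_smul], e2, smul_add, smul_smul, smul_smul]
    congr 2
    · field_simp
    · field_simp
  -- the complex number
  set ζ : ℂ := ⟨c, s⟩ with hζ
  have hrot : ∀ z : ℂ, g (z.re • x + z.im • y) = (ζ * z).re • x + (ζ * z).im • y := by
    intro z
    rw [map_add, map_smul, map_smul, hgx, hgy]
    simp only [Complex.mul_re, Complex.mul_im, hζ]
    module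
  have hpow : ∀ k : ℕ, (g ^ k) x = (ζ ^ k).re • x + (ζ ^ k).im • y := by
    intro k
    induction k with
    | zero => simp
    | succ k ih =>
      rw [pow_succ']
      show g ((g ^ k) x) = _
      rw [ih, hrot, ← pow_succ']
  have hζp : ζ ^ p = 1 := by
    have h := hpow p
    rw [hg] at h
    have hx2 : x = (ζ ^ p).re • x + (ζ ^ p).im • y := by simpa using h
    have i1 := congrArg (fun z => inner ℝ x z) hx2
    simp only [inner_add_right, inner_smul_right, hxx, hxy] at i1
    have hyx : inner ℝ y x = 0 := by rw [real_inner_comm]; exact hxy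
    have hyy : inner ℝ y y = 1 := by rw [real_inner_self_eq_norm_sq, hy1]; norm_num
    have i2 := congrArg (fun z => inner ℝ y z) hx2
    simp only [inner_add_right, inner_smul_right, hyx, hyy] at i2
    apply Complex.ext
    · simp; linarith
    · simp; linarith
  obtain ⟨k, hk, hkz⟩ := (om_prim p hp0).eq_pow_of_pow_eq_one hζp
  have hval : ((k : ZMod p)).val = k := ZMod.val_cast_of_lt hk
  refine ⟨(k : ZMod p), x, y, hxW, hyW, ?_, hx1, hy1, hxy, ?_, ?_⟩
  · intro h0
    have : k = 0 := by rw [← hval, h0, ZMod.val_zero]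
    rw [this, pow_zero] at hkz
    have := congrArg Complex.im hkz
    simp [hζ] at this
    exact hspos.ne this
  · rw [hval, hkz]; exact hgx
  · rw [hval, hkz]; exact hgy

/-- JOB: real normal form of an isometry of odd prime order without fixed vectors -/
theorem diag (p : ℕ) [Fact p.Prime] (hp : p ≠ 2) {E : Type} [NormedAddCommGroup E]
    [InnerProductSpace ℝ E] [FiniteDimensional ℝ E] (g : E ≃ₗᵢ[ℝ] E) (hg : g ^ p = 1)
    (hfix : ∀ x, g x = x → x = 0) :
    ∃ (n : ℕ) (κ : Fin n → ZMod p) (Φ : E ≃ₗᵢ[ℝ] Cx (Fin n)), (∀ j, κ j ≠ 0) ∧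
      ∀ x j, cx (Φ (g x)) j = om p ^ (κ j).val * cx (Φ x) j := by
  have hpp : p.Prime := Fact.out
  have hp0 : p ≠ 0 := hpp.ne_zero
  have hadj : ∀ a b : E, inner ℝ (g a) b = inner ℝ a (g.symm b) := by
    intro a b
    have := g.inner_map_map a (g.symm b)
    simpa using this
  have hadj' : ∀ a b : E, inner ℝ (g.symm a) b = inner ℝ a (g b) := by
    intro a b
    have := g.inner_map_map (g.symm a) b
    simpa using this.symm
  let S : Set ℕ := {m | ∃ κ v, DiagFrame p g m κ v}
  have hS0 : 0 ∈ S := by
    refine ⟨Fin.elim0, fun q => q.1.elim0, ?_, fun j => j.elim0, fun j => j.elim0, fun j => j.elim0⟩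
    constructor
    · intro q; exact q.1.elim0
    · intro q; exact q.1.elim0
  have hSb : ∀ m ∈ S, m ≤ Module.finrank ℝ E := by
    rintro m ⟨κ, v, hv⟩
    have := hv.1.linearIndependent.fintype_card_le_finrank
    simp at this
    omega
  have hbdd : BddAbove S := ⟨_, hSb⟩
  obtain ⟨m, hmS, hmax⟩ : ∃ m, m ∈ S ∧ ∀ m' ∈ S, m' ≤ m :=
    ⟨sSup S, Nat.sSup_mem ⟨0, hS0⟩ hbdd, fun _ h => le_csSup hbdd h⟩
  obtain ⟨κ, v, hv⟩ := hmS
  have hsym0 : ∀ j, g.symm (v (j, 0)) = (om p ^ (κ j).val).re • v (j, 0) - (om p ^ (κ j).val).im • v (j, 1) := by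
    intro j
    apply g.injective
    rw [LinearIsometryEquiv.apply_symm_apply, map_sub, map_smul, map_smul, hv.2.2.1 j, hv.2.2.2 j]
    have := om_pow_norm p hp0 (κ j).val
    set a := (om p ^ (κ j).val).re
    set b := (om p ^ (κ j).val).im
    have h1 : v (j, 0) = (a ^ 2 + b ^ 2) • v (j, 0) := by rw [this, one_smul]
    refine h1.trans ?_
    module
  have hsym1 : ∀ j, g.symm (v (j, 1)) = (om p ^ (κ j).val).im • v (j, 0) + (om p ^ (κ j).val).re • v (j, 1) := by
    intro j
    apply g.injective
    rw [LinearIsometryEquiv.apply_symm_apply, map_add, map_smul, map_smul, hv.2.2.1 j, hv.2.2.2 j]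
    have := om_pow_norm p hp0 (κ j).val
    set a := (om p ^ (κ j).val).re
    set b := (om p ^ (κ j).val).im
    have h1 : v (j, 1) = (a ^ 2 + b ^ 2) • v (j, 1) := by rw [this, one_smul]
    refine h1.trans ?_
    module
  have hbot : (Submodule.span ℝ (Set.range v))ᗮ = ⊥ := by
    by_contra hne
    have hmem : ∀ w : E, w ∈ (Submodule.span ℝ (Set.range v))ᗮ ↔ ∀ q, inner ℝ (v q) w = 0 := by
      intro w
      rw [Submodule.mem_orthogonal]
      constructor
      · intro h q; exact h _ (Submodule.subset_span ⟨q, rfl⟩)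
      · intro h z hz
        induction hz using Submodule.span_induction with
        | mem z hz => obtain ⟨q, rfl⟩ := hz; exact h q
        | zero => simp
        | add a b _ _ ha hb => rw [inner_add_left, ha, hb, add_zero]
        | smul a z _ hz => rw [inner_smul_left, hz, mul_zero]
    have h2 : ∀ q : Fin m × Fin 2, q = (q.1, 0) ∨ q = (q.1, 1) := by
      rintro ⟨a, b⟩
      fin_cases b <;> simp
    have hinv1 : ∀ w ∈ (Submodule.span ℝ (Set.range v))ᗮ, g w ∈ (Submodule.span ℝ (Set.range v))ᗮ := by
      intro w hw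
      rw [hmem] at hw ⊢
      intro q
      rw [← hadj']
      rcases h2 q with h | h
      · rw [h, hsym0, inner_sub_left, inner_smul_left, inner_smul_left, hw, hw]; simp
      · rw [h, hsym1, inner_add_left, inner_smul_left, inner_smul_left, hw, hw]; simp
    have hinv2 : ∀ w ∈ (Submodule.span ℝ (Set.range v))ᗮ, g.symm w ∈ (Submodule.span ℝ (Set.range v))ᗮ := by
      intro w hw
      rw [hmem] at hw ⊢
      intro q
      rw [← hadj]
      rcases h2 q with h | h
      · rw [h, hv.2.2.1, inner_add_left, inner_smul_left, inner_smul_left, hw, hw]; simp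
      · rw [h, hv.2.2.2, inner_add_left, inner_smul_left, inner_smul_left, hw, hw]; simp
    obtain ⟨k, x, y, hx, hy, hk, hx1, hy1, hxy, hgx, hgy⟩ :=
      diag_plane p hp g hg hfix _ hne hinv1 hinv2
    rw [hmem] at hx hy
    have hyx : inner ℝ y x = 0 := by rw [real_inner_comm]; exact hxy
    have hmS : m + 1 ∈ S := by
      refine ⟨Fin.cons k κ, fun q => Fin.cases (if q.2 = 0 then x else y) (fun j => v (j, q.2)) q.1, ?_, ?_, ?_, ?_⟩
      · constructor
        · rintro ⟨j, i⟩
          refine Fin.cases ?_ (fun j => ?_) j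
          · by_cases hi : i = 0
            · simp [hi, hx1]
            · simp [hi, hy1]
          · simpa using hv.1.1 (j, i)
        · rintro ⟨j, i⟩ ⟨j', i'⟩ hne'
          revert hne'
          refine Fin.cases ?_ (fun j => ?_) j
          · refine Fin.cases ?_ (fun j' => ?_) j'
            · intro hne'
              by_cases hi : i = 0
              · by_cases hi' : i' = 0
                · exact absurd (by rw [hi, hi']) hne'
                · simp [hi, hi', hxy]
              · by_cases hi' : i' = 0
                · simp [hi, hi', hyx]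
                · exact absurd (by rw [Fin.eq_one_of_ne_zero i hi, Fin.eq_one_of_ne_zero i' hi']) hne'
            · intro _
              by_cases hi : i = 0
              · simp only [hi, if_true, Fin.cases_zero, Fin.cases_succ]
                rw [real_inner_comm]; exact hx _
              · simp only [hi, if_false, Fin.cases_zero, Fin.cases_succ]
                rw [real_inner_comm]; exact hy _
          · refine Fin.cases ?_ (fun j' => ?_) j'
            · intro _
              by_cases hi : i' = 0
              · simp only [hi, if_true, Fin.cases_zero, Fin.cases_succ]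
                exact hx _
              · simp only [hi, if_false, Fin.cases_zero, Fin.cases_succ]
                exact hy _
            · intro hne'
              simp only [Fin.cases_succ]
              apply hv.1.2
              intro h
              apply hne'
              simp only [Prod.mk.injEq] at h ⊢
              exact ⟨by rw [h.1], h.2⟩
      · intro j
        refine Fin.cases ?_ (fun j => ?_) j
        · simpa using hk
        · simpa using hv.2.1 j
      · intro j
        refine Fin.cases ?_ (fun j => ?_) j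
        · simpa using hgx
        · simpa using hv.2.2.1 j
      · intro j
        refine Fin.cases ?_ (fun j => ?_) j
        · simpa using hgy
        · simpa using hv.2.2.2 j
    have := hmax _ hmS
    omega
  let b := OrthonormalBasis.mkOfOrthogonalEqBot hv.1 hbot
  have hb : ∀ q, b q = v q := fun q => by simp [b]
  refine ⟨m, κ, b.repr, hv.2.1, ?_⟩
  intro x j
  have e : ∀ q w, b.repr w q = inner ℝ (v q) w := by
    intro q w; rw [b.repr_apply_apply, hb]
  simp only [cx]
  rw [e, e, e, e, ← hadj', ← hadj', hsym0, hsym1, inner_sub_left, inner_add_left, inner_smul_left,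
    inner_smul_left, inner_smul_left, inner_smul_left]
  apply Complex.ext
  · simp
  · simp; ring

end DIAG

end Pool.Agent.Helper954.Hopf
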