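import Mathlib

set_option autoImplicit false

namespace Pool.Agent.Helper954.Hopf.Dold

open Set Filter Topology
open scoped BigOperators

/-- chains: formal combinations of lists of points, coefficients in `ZMod p`
(the empty list is allowed: augmented ordered chains) -/
abbrev Chain (p : ℕ) (α : Type) := List α →₀ ZMod p

/-- boundary of a list: `bdL (v :: l) = l - v * bdL l` -/
noncomputable def bdL (p : ℕ) {α : Type} : List α → Chain p α
  | [] => 0
  | v :: l => Finsupp.single l 1 - Finsupp.mapDomain (List.cons v) (bdL p l)

/-- boundary operator -/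
noncomputable def bd (p : ℕ) {α : Type} : Chain p α →ₗ[ZMod p] Chain p α :=
  Finsupp.linearCombination (ZMod p) (bdL p)

/-- action of a map of points on chains -/
noncomputable def act (p : ℕ) {α : Type} (g : α → α) : Chain p α →ₗ[ZMod p] Chain p α :=
  Finsupp.lmapDomain (ZMod p) (ZMod p) (List.map g)

/-- the ambient space of the join of `M` copies of the discrete space `ZMod p` -/
abbrev VV (p M : ℕ) := Fin M → ZMod p → ℝ

/-- the join of `M` copies of the discrete space `ZMod p` -/
def JK (p M : ℕ) [NeZero p] : Set (VV p M) :=
  {x | (∀ i l, 0 ≤ x i l) ∧ ∑ i, ∑ l, x i l = 1 ∧ ∀ i l l', l ≠ l' → x i l = 0 ∨ x i l' = 0}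

/-- the shift generating the action of `ZMod p` -/
def sh {p M : ℕ} (x : VV p M) : VV p M := fun i l => x i (l - 1)

end Pool.Agent.Helper954.Hopf.Dold
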