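import Pool.Agent.Helper954.Hopf.Defs

set_option autoImplicit false

namespace Pool.Agent.Helper954.Hopf

open Module

namespace EX1

private lemma cyc_of_comm {A : Type*} [CommGroup A] [Finite A] (hA : IsPGroup 2 A) (z : A)
    (hz : ∀ x : A, x ^ 2 = 1 → x = 1 ∨ x = z) : IsCyclic A := by
  classical
  haveI := Fintype.ofFinite A
  have key : ∀ k : ℕ, (Finset.univ.filter (fun a : A => a ^ (2 ^ k) = 1)).card ≤ 2 ^ k := by
    intro k
    induction k with
    | zero =>
      rw [pow_zero, Finset.card_le_one]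
      intro a ha b hb
      simp only [Finset.mem_filter, Finset.mem_univ, true_and, pow_one] at ha hb
      rw [ha, hb]
    | succ k ih =>
      have h1 := Finset.card_le_mul_card_image (f := fun a : A => a ^ 2)
        (Finset.univ.filter (fun a : A => a ^ (2 ^ (k+1)) = 1)) 2 (by
          intro b hb
          obtain ⟨a0, ha0, hb0⟩ := Finset.mem_image.1 hb
          refine le_trans (Finset.card_le_card (t := {a0, a0 * z}) ?_) Finset.card_le_two
          intro a ha
          rw [Finset.mem_filter] at ha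
          have h2 : (a0⁻¹ * a) ^ 2 = 1 := by
            have h3 : a ^ 2 = a0 ^ 2 := by
              rw [ha.2, ← hb0]
            rw [mul_pow, h3, inv_pow, inv_mul_cancel]
          rcases hz _ h2 with h | h
          · have : a = a0 := by
              rw [inv_mul_eq_one] at h; exact h.symm
            simp [this]
          · have : a = a0 * z := by
              rw [inv_mul_eq_iff_eq_mul] at h; exact h
            simp [this])
      have h2 : ((Finset.univ.filter (fun a : A => a ^ (2 ^ (k+1)) = 1)).image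
          (fun a : A => a ^ 2)) ⊆ Finset.univ.filter (fun a : A => a ^ (2 ^ k) = 1) := by
        intro b hb
        obtain ⟨a, ha, rfl⟩ := Finset.mem_image.1 hb
        simp only [Finset.mem_filter, Finset.mem_univ, true_and] at ha ⊢
        rw [← pow_mul, ← pow_succ', ha]
      calc _ ≤ 2 * _ := h1
        _ ≤ 2 * 2 ^ k := by
            apply Nat.mul_le_mul_left
            exact (Finset.card_le_card h2).trans ih
        _ = 2 ^ (k+1) := by rw [pow_succ']
  apply isCyclic_of_card_pow_eq_one_le
  intro n hn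
  obtain ⟨k, m, hm, hnm⟩ := Nat.exists_eq_two_pow_mul_odd hn.ne'
  refine le_trans (Finset.card_le_card
    (t := Finset.univ.filter (fun a : A => a ^ (2 ^ k) = 1)) ?_) ((key k).trans ?_)
  · intro a ha
    simp only [Finset.mem_filter, Finset.mem_univ, true_and] at ha ⊢
    rw [← orderOf_dvd_iff_pow_eq_one] at ha ⊢
    have hc : (orderOf a).Coprime m := hA.orderOf_coprime (Nat.coprime_two_left.2 hm) a
    rw [hnm] at ha
    exact hc.dvd_of_dvd_mul_right ha
  · rw [hnm]
    exact Nat.le_mul_of_pos_right _ hm.pos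

private lemma exists_comm_eq {P : Type*} [Group P] [Finite P] (hP : IsPGroup 2 P) (z : P)
    (huniq : ∀ x : P, x ^ 2 = 1 → x = 1 ∨ x = z) (hna : ¬ ∀ a b : P, a * b = b * a) :
    ∃ x y : P, x * y = z * (y * x) ∧ x * y ≠ y * x := by
  have hne : Nontrivial (P ⧸ Subgroup.center P) := by
    rw [QuotientGroup.nontrivial_iff]
    intro h
    apply hna
    intro a b
    have : b ∈ Subgroup.center P := by rw [h]; trivial
    exact Subgroup.mem_center_iff.1 this a
  have hq : IsPGroup 2 (P ⧸ Subgroup.center P) := hP.to_quotient _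
  haveI : Fact (Nat.Prime 2) := ⟨Nat.prime_two⟩
  haveI := hq.center_nontrivial
  obtain ⟨⟨q, hqc⟩, hq1⟩ := exists_ne (1 : Subgroup.center (P ⧸ Subgroup.center P))
  obtain ⟨x, rfl⟩ := QuotientGroup.mk_surjective q
  have hx : x ∉ Subgroup.center P := by
    intro h
    apply hq1
    apply Subtype.ext
    exact (QuotientGroup.eq_one_iff x).2 h
  have hcomm : ∀ y : P, x * y * x⁻¹ * y⁻¹ ∈ Subgroup.center P := by
    intro y
    have h1 := Subgroup.mem_center_iff.1 hqc (QuotientGroup.mk y)
    rw [← QuotientGroup.eq_one_iff]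
    have h2 : ((x * y * x⁻¹ * y⁻¹ : P) : P ⧸ Subgroup.center P) =
        (x : P ⧸ Subgroup.center P) * (y : P ⧸ Subgroup.center P) *
          (x : P ⧸ Subgroup.center P)⁻¹ * (y : P ⧸ Subgroup.center P)⁻¹ := rfl
    rw [h2, ← h1]
    group
  obtain ⟨y0, hy0⟩ : ∃ y0 : P, y0 * x ≠ x * y0 := by
    by_contra hcon
    push Not at hcon
    exact hx (Subgroup.mem_center_iff.2 hcon)
  set c := x * y0 * x⁻¹ * y0⁻¹ with hc
  have hcc : c ∈ Subgroup.center P := hcomm y0
  have hc1 : c ≠ 1 := by
    intro h
    apply hy0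
    have h3 : x * y0 * x⁻¹ * y0⁻¹ = 1 := h
    have h4 : x * y0 = y0 * x := by
      have h5 : x * y0 * (y0 * x)⁻¹ = 1 := by rw [mul_inv_rev, ← h3]; group
      exact mul_inv_eq_one.1 h5
    exact h4.symm
  have hconj : x * y0 * x⁻¹ = c * y0 := by rw [hc]; group
  have hpow : ∀ n : ℕ, x * y0 ^ n * x⁻¹ = c ^ n * y0 ^ n := by
    intro n
    have h5 : Commute c y0 := (Subgroup.mem_center_iff.1 hcc y0).symm
    rw [← conj_pow, hconj, h5.mul_pow]
  obtain ⟨k, hk⟩ := (IsPGroup.iff_orderOf.1 hP) c
  have hk0 : k ≠ 0 := by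
    rintro rfl
    rw [pow_zero, orderOf_eq_one_iff] at hk
    exact hc1 hk
  obtain ⟨m, rfl⟩ := Nat.exists_eq_succ_of_ne_zero hk0
  have h6 : (c ^ (2 ^ m)) ^ 2 = 1 := by
    rw [← pow_mul, ← pow_succ, ← hk, pow_orderOf_eq_one]
  have h7 : c ^ (2 ^ m) ≠ 1 := by
    intro h
    have := orderOf_dvd_of_pow_eq_one h
    rw [hk] at this
    have h8 := Nat.le_of_dvd (by positivity) this
    have h9 : 2 ^ (m + 1) = 2 * 2 ^ m := by rw [pow_succ']
    have h10 : 0 < 2 ^ m := by positivity
    rw [Nat.succ_eq_add_one] at h8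
    omega
  have h8 : c ^ (2 ^ m) = z := (huniq _ h6).resolve_left h7
  refine ⟨x, y0 ^ (2 ^ m), ?_, ?_⟩
  · have h9 := hpow (2 ^ m)
    rw [h8] at h9
    rw [← mul_assoc, ← h9]; group
  · intro h
    have h9 := hpow (2 ^ m)
    rw [h, mul_inv_cancel_right] at h9
    exact h7 (right_eq_mul.1 h9)

private lemma comm_of {P : Type*} [Group P] [Finite P] (hP : IsPGroup 2 P) (z v : P)
    (huniq : ∀ x : P, x ^ 2 = 1 → x = 1 ∨ x = z) (hv : v ^ 2 = z) (hzz : z ^ 2 = 1)
    (hvc : ∀ x : P, v * x = x * v) :
    ∀ a b : P, a * b = b * a := by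
  by_contra hna
  obtain ⟨x, y, hxy, hne⟩ := exists_comm_eq hP z huniq hna
  have hzc : ∀ w : P, z * w = w * z := by
    intro w
    rw [← hv, pow_two]
    rw [mul_assoc, hvc w, ← mul_assoc, hvc w, mul_assoc]
  have hz1 : z * z = 1 := by rw [← pow_two, hzz]
  have hx2y : x ^ 2 * y = y * x ^ 2 := by
    calc x ^ 2 * y = x * (x * y) := by rw [pow_two, mul_assoc]
      _ = x * (z * (y * x)) := by rw [hxy]
      _ = z * (x * y) * x := by rw [← mul_assoc x z, ← hzc x]; group
      _ = z * (z * (y * x)) * x := by rw [hxy]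
      _ = (z * z) * (y * x ^ 2) := by rw [pow_two]; group
      _ = y * x ^ 2 := by rw [hz1, one_mul]
  have hy2x : y ^ 2 * x = x * y ^ 2 := by
    have hyx : y * x = z * (x * y) := by rw [hxy, ← mul_assoc, hz1, one_mul]
    calc y ^ 2 * x = y * (y * x) := by rw [pow_two, mul_assoc]
      _ = y * (z * (x * y)) := by rw [hyx]
      _ = z * (y * x) * y := by rw [← mul_assoc y z, ← hzc y]; group
      _ = z * (z * (x * y)) * y := by rw [hyx]
      _ = (z * z) * (x * y ^ 2) := by rw [pow_two]; group
      _ = x * y ^ 2 := by rw [hz1, one_mul]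
  -- the abelian subgroup
  let S : Set P := {x ^ 2, y ^ 2, v}
  have hScomm : ∀ a ∈ S, ∀ b ∈ S, a * b = b * a := by
    have h1 : x ^ 2 * y ^ 2 = y ^ 2 * x ^ 2 := by
      have h : Commute (x ^ 2) y := hx2y
      exact h.pow_right 2
    intro a ha b hb
    simp only [S, Set.mem_insert_iff, Set.mem_singleton_iff] at ha hb
    rcases ha with rfl | rfl | rfl
    · rcases hb with rfl | rfl | rfl
      · rfl
      · exact h1
      · exact (hvc _).symm
    · rcases hb with rfl | rfl | rfl
      · exact h1.symm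
      · rfl
      · exact (hvc _).symm
    · exact hvc b
  let A : Subgroup P := Subgroup.closure S
  letI : CommGroup A := Subgroup.closureCommGroupOfComm hScomm
  have hAcyc : IsCyclic A := by
    by_cases hzA : z ∈ A
    · refine cyc_of_comm (hP.to_subgroup A) ⟨z, hzA⟩ ?_
      intro a ha
      have h1 : (a : P) ^ 2 = 1 := by
        have := congrArg Subtype.val ha
        simpa using this
      rcases huniq _ h1 with h | h
      · left; exact Subtype.ext h
      · right; exact Subtype.ext h
    · refine cyc_of_comm (hP.to_subgroup A) 1 ?_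
      intro a ha
      have h1 : (a : P) ^ 2 = 1 := by
        have := congrArg Subtype.val ha
        simpa using this
      rcases huniq _ h1 with h | h
      · left; exact Subtype.ext h
      · exact absurd (h ▸ a.2) hzA
  obtain ⟨g, hg⟩ := hAcyc.exists_generator
  have hmem : ∀ a ∈ A, ∃ n : ℤ, a = (g : P) ^ n := by
    intro a ha
    obtain ⟨n, hn⟩ := Subgroup.mem_zpowers_iff.1 (hg ⟨a, ha⟩)
    refine ⟨n, ?_⟩
    have := congrArg Subtype.val hn
    simpa using this.symm
  have hAx : ∀ a ∈ A, Commute a x := by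
    intro a ha
    have : A ≤ Subgroup.centralizer {x} := by
      rw [Subgroup.closure_le]
      intro b hb
      simp only [SetLike.mem_coe, Subgroup.mem_centralizer_singleton_iff]
      simp only [S, Set.mem_insert_iff, Set.mem_singleton_iff] at hb
      rcases hb with rfl | rfl | rfl
      · rw [← pow_succ, ← pow_succ']
      · exact hy2x
      · exact hvc x
    have h := this ha
    rw [Subgroup.mem_centralizer_singleton_iff] at h
    exact h
  have hAy : ∀ a ∈ A, Commute a y := by
    intro a ha
    have : A ≤ Subgroup.centralizer {y} := by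
      rw [Subgroup.closure_le]
      intro b hb
      simp only [SetLike.mem_coe, Subgroup.mem_centralizer_singleton_iff]
      simp only [S, Set.mem_insert_iff, Set.mem_singleton_iff] at hb
      rcases hb with rfl | rfl | rfl
      · exact hx2y
      · rw [← pow_succ, ← pow_succ']
      · exact hvc y
    have h := this ha
    rw [Subgroup.mem_centralizer_singleton_iff] at h
    exact h
  have hsub : ∀ a ∈ S, a ∈ A := fun a ha => Subgroup.subset_closure ha
  obtain ⟨i, hi⟩ := hmem (x ^ 2) (hsub _ (by simp [S]))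
  obtain ⟨j, hj⟩ := hmem (y ^ 2) (hsub _ (by simp [S]))
  have hgx : Commute (g : P) x := hAx g g.2
  have hgy : Commute (g : P) y := hAy g g.2
  -- a helper: if w commutes with t, w ^ 2 = t ^ 2 then w = t or w = z * t
  have helper : ∀ w t : P, Commute w t → w ^ 2 = t ^ 2 → w = t ∨ w = z * t := by
    intro w t hwt h
    have h1 : (w * t⁻¹) ^ 2 = 1 := by
      rw [(hwt.inv_right).mul_pow, h, inv_pow, mul_inv_cancel]
    rcases huniq _ h1 with h2 | h2
    · left; exact mul_inv_eq_one.1 h2
    · right; exact mul_inv_eq_iff_eq_mul.1 h2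
  have hzcomm : ∀ w, Commute z w := hzc
  rcases Int.even_or_odd i with ⟨i', hi'⟩ | hiodd
  · -- x ^ 2 is a square
    have h1 : x ^ 2 = ((g : P) ^ i') ^ 2 := by
      rw [hi, hi', zpow_add, pow_two]
    rcases helper x _ ((hgx.zpow_left i').symm) h1 with h2 | h2
    · apply hne
      rw [h2]
      exact (hgy.zpow_left i').eq
    · apply hne
      rw [h2]
      exact ((hzcomm y).mul_left (hgy.zpow_left i')).eq
  · rcases Int.even_or_odd j with ⟨j', hj'⟩ | hjodd
    · have h1 : y ^ 2 = ((g : P) ^ j') ^ 2 := by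
        rw [hj, hj', zpow_add, pow_two]
      rcases helper y _ ((hgy.zpow_left j').symm) h1 with h2 | h2
      · apply hne
        rw [h2]
        exact (hgx.zpow_left j').symm.eq
      · apply hne
        rw [h2]
        exact ((hzcomm x).mul_left (hgx.zpow_left j')).symm.eq
    · obtain ⟨s, hs⟩ := hiodd.add_odd hjodd
      have h1 : (x * y) ^ 2 = (v * (g : P) ^ s) ^ 2 := by
        have hyx : y * x = z * (x * y) := by rw [hxy, ← mul_assoc, hz1, one_mul]
        have h2 : Commute v ((g : P) ^ s) := hvc _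
        calc (x * y) ^ 2 = x * (y * x) * y := by rw [pow_two]; group
          _ = x * (z * (x * y)) * y := by rw [hyx]
          _ = z * (x ^ 2 * y ^ 2) := by
              rw [← mul_assoc x z, ← hzc x, pow_two, pow_two]; group
          _ = v ^ 2 * ((g : P) ^ s) ^ 2 := by
              rw [hi, hj, ← zpow_add, hs, hv, zpow_add, pow_two ((g : P) ^ s)]
          _ = (v * (g : P) ^ s) ^ 2 := by rw [h2.mul_pow]
      have hvs : ∀ w, Commute (g : P) w → Commute (v * (g : P) ^ s) w := fun w hw =>
        (show Commute v w from hvc w).mul_left (hw.zpow_left s)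
      have h3 : Commute (x * y) (v * (g : P) ^ s) :=
        (hvs (x * y) (hgx.mul_right hgy)).symm
      have h4 : Commute (x * y) x := by
        rcases helper _ _ h3 h1 with h2 | h2
        · rw [h2]; exact hvs x hgx
        · rw [h2]; exact (hzcomm x).mul_left (hvs x hgx)
      apply hne
      have h5 : x * y * x = x * (x * y) := h4.eq
      rw [mul_assoc] at h5
      exact (mul_left_cancel h5).symm

/-- JOB: a finite group with a unique involution `z` which has a central square root `v` is
2-nilpotent -/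
theorem normal_complement {H : Type} [Group H] [Finite H] (z v : H) (hz : z ≠ 1)
    (huniq : ∀ x : H, x ^ 2 = 1 → x = 1 ∨ x = z) (hv : v ^ 2 = z) (hvc : ∀ x : H, v * x = x * v) :
    ∃ N : Subgroup H, N.Normal ∧ ∀ x : H, x ∈ N ↔ Odd (orderOf x) := by
  classical
  haveI : Fact (Nat.Prime 2) := ⟨Nat.prime_two⟩
  by_cases hzz : z ^ 2 = 1
  · have hv4 : v ^ (2 ^ 2) = 1 := by
      have : (2 : ℕ) ^ 2 = 2 * 2 := by norm_num
      rw [this, pow_mul, hv, hzz]
    have hzp : IsPGroup 2 (Subgroup.zpowers v) := by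
      apply IsPGroup.of_card_dvd_pow (n := 2)
      rw [Nat.card_zpowers]
      exact orderOf_dvd_of_pow_eq_one hv4
    obtain ⟨P, hPv⟩ := hzp.exists_le_sylow
    have hvP : v ∈ P := hPv (Subgroup.mem_zpowers v)
    have hzP : z ∈ P := by rw [← hv]; exact P.pow_mem hvP 2
    have huP : ∀ x : P, x ^ 2 = 1 → x = 1 ∨ x = (⟨z, hzP⟩ : P) := by
      intro a ha
      have h1 : (a : H) ^ 2 = 1 := by
        have := congrArg Subtype.val ha
        simpa using this
      rcases huniq _ h1 with h | h
      · left; exact Subtype.ext h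
      · right; exact Subtype.ext h
    have hcomm : ∀ a b : P, a * b = b * a :=
      comm_of P.2 (⟨z, hzP⟩ : P) ⟨v, hvP⟩ huP (Subtype.ext hv) (Subtype.ext hzz)
        (fun x => Subtype.ext (hvc x))
    have hcyc : IsCyclic P := by
      letI : CommGroup P := { (inferInstance : Group P) with mul_comm := hcomm }
      exact cyc_of_comm P.2 (⟨z, hzP⟩ : P) huP
    have h2dvd : 2 ∣ Nat.card H := by
      have h1 : orderOf z = 2 := orderOf_eq_prime hzz hz
      rw [← h1]
      exact orderOf_dvd_natCard z
    have hmin : (Nat.card H).minFac = 2 := Nat.minFac_eq_two_iff _ |>.2 h2dvd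
    let f := MonoidHom.transferSylow P (hcyc.normalizer_le_centralizer hmin)
    refine ⟨f.ker, inferInstance, ?_⟩
    intro x
    constructor
    · intro hx
      have h1 : ¬ 2 ∣ Nat.card f.ker :=
        MonoidHom.not_dvd_card_ker_transferSylow P (hcyc.normalizer_le_centralizer hmin)
      have h2 : orderOf x ∣ Nat.card f.ker := by
        have h3 := orderOf_dvd_natCard (⟨x, hx⟩ : f.ker)
        rwa [Subgroup.orderOf_mk] at h3
      rw [← Nat.not_even_iff_odd]
      intro h3
      exact h1 (h3.two_dvd.trans h2)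
    · intro hx
      rw [MonoidHom.mem_ker]
      obtain ⟨k, hk⟩ := (IsPGroup.iff_orderOf.1 P.2) (f x)
      have h1 : orderOf (f x) ∣ orderOf x := orderOf_map_dvd f x
      rw [hk] at h1
      rcases Nat.eq_zero_or_pos k with h0 | h0
      · rw [h0, pow_zero, orderOf_eq_one_iff] at hk
        exact hk
      · exfalso
        have h3 : 2 ∣ orderOf x := (dvd_pow_self 2 h0.ne').trans h1
        exact (Nat.not_even_iff_odd.2 hx) (even_iff_two_dvd.2 h3)
  · -- no involutions
    refine ⟨⊤, inferInstance, ?_⟩
    intro x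
    simp only [Subgroup.mem_top, true_iff]
    rw [← Nat.not_even_iff_odd]
    intro h
    have h1 : 2 ∣ Nat.card H := h.two_dvd.trans (orderOf_dvd_natCard x)
    obtain ⟨t, ht⟩ := exists_prime_orderOf_dvd_card' 2 h1
    have h2 : t ^ 2 = 1 := by rw [← ht, pow_orderOf_eq_one]
    rcases huniq t h2 with h3 | h3
    · rw [h3, orderOf_one] at ht
      norm_num at ht
    · exact hzz (h3 ▸ h2)

end EX1

end Pool.Agent.Helper954.Hopf
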