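import Pool.Agent.Helper954.Hopf.EX1

set_option autoImplicit false

namespace Pool.Agent.Helper954.Hopf

open Module
open EX1 (normal_complement)

namespace EX2

namespace EX2

open Finset

section perm

variable {G : Type} [DecidableEq G]

theorem sumperm {M : Type*} [AddCommMonoid M] (S : Finset G) (φ : G → G) (hm : ∀ u ∈ S, φ u ∈ S)
    (hi : Set.InjOn φ S) (f : G → M) : ∑ u ∈ S, f (φ u) = ∑ u ∈ S, f u := by
  have h : S.image φ = S := by
    apply Finset.eq_of_subset_of_card_le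
    · intro x hx
      obtain ⟨u, hu, rfl⟩ := Finset.mem_image.mp hx
      exact hm u hu
    · rw [Finset.card_image_of_injOn hi]
  conv_rhs => rw [← h]
  rw [Finset.sum_image hi]

end perm

section odd

variable {G : Type} [Group G]

theorem sq_inj {u w : G} (hu : Odd (orderOf u)) (hw : Odd (orderOf w)) (h : u ^ 2 = w ^ 2) :
    u = w := by
  obtain ⟨k, hk⟩ := hu.mul hw
  have h1 : u ^ (2 * (k + 1)) = u := by
    have : 2 * (k + 1) = orderOf u * orderOf w + 1 := by omega
    rw [this, pow_succ, pow_mul, pow_orderOf_eq_one, one_pow, one_mul]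
  have h2 : w ^ (2 * (k + 1)) = w := by
    have : 2 * (k + 1) = orderOf w * orderOf u + 1 := by rw [mul_comm (orderOf w)]; omega
    rw [this, pow_succ, pow_mul, pow_orderOf_eq_one, one_pow, one_mul]
  rw [← h1, ← h2, pow_mul, pow_mul, h]

theorem odd_sq {u : G} (hu : Odd (orderOf u)) : Odd (orderOf (u ^ 2)) :=
  Odd.of_dvd_nat hu (orderOf_pow_dvd 2)

end odd

section rep

variable {G : Type} [Group G] [Fintype G] {U : Type} [NormedAddCommGroup U]
  [InnerProductSpace ℝ U] [FiniteDimensional ℝ U]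

/-- character -/
noncomputable def chi (ρ : G →* (U →ₗ[ℝ] U)) (g : G) : ℝ :=
  ∑ i, (inner ℝ (ρ g (stdOrthonormalBasis ℝ U i)) (stdOrthonormalBasis ℝ U i) : ℝ)

theorem chi_one (ρ : G →* (U →ₗ[ℝ] U)) : chi ρ 1 = (finrank ℝ U : ℝ) := by
  unfold chi
  simp

theorem inner_b (i k : Fin (finrank ℝ U)) : (inner ℝ (stdOrthonormalBasis ℝ U i)
    (stdOrthonormalBasis ℝ U k) : ℝ) = if i = k then 1 else 0 :=
  (orthonormal_iff_ite.mp (stdOrthonormalBasis ℝ U).orthonormal) i k

theorem c_eq [Nontrivial U] (ρ : G →* (U →ₗ[ℝ] U))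
    (hi : ∀ g x y, inner ℝ (ρ g x) (ρ g y) = (inner ℝ x y : ℝ)) (c : ℝ)
    (hstar : ∀ x y a b : U, ∑ g, (inner ℝ (ρ g x) a : ℝ) * inner ℝ (ρ g y) b =
      c * (inner ℝ x y : ℝ) * inner ℝ a b) : c * (finrank ℝ U : ℝ) = (Fintype.card G : ℝ) := by
  obtain ⟨x, hx⟩ := exists_ne (0 : U)
  have hxx : (inner ℝ x x : ℝ) ≠ 0 := fun h => hx (inner_self_eq_zero.mp h)
  have h1 : ∑ i, ∑ g, (inner ℝ (ρ g x) (stdOrthonormalBasis ℝ U i) : ℝ) *
      inner ℝ (ρ g x) (stdOrthonormalBasis ℝ U i) = c * (inner ℝ x x : ℝ) * finrank ℝ U := by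
    rw [Finset.sum_congr rfl (fun i _ => hstar x x (stdOrthonormalBasis ℝ U i)
      (stdOrthonormalBasis ℝ U i))]
    simp only [inner_b, if_true, mul_one]
    rw [Finset.sum_const, Finset.card_univ, Fintype.card_fin, nsmul_eq_mul]
    ring
  rw [Finset.sum_comm] at h1
  have h2 : ∀ g : G, ∑ i, (inner ℝ (ρ g x) (stdOrthonormalBasis ℝ U i) : ℝ) *
      inner ℝ (ρ g x) (stdOrthonormalBasis ℝ U i) = inner ℝ x x := by
    intro g
    rw [← hi g x x, ← (stdOrthonormalBasis ℝ U).sum_inner_mul_inner (ρ g x) (ρ g x)]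
    apply Finset.sum_congr rfl
    intro i _
    rw [real_inner_comm (ρ g x) (stdOrthonormalBasis ℝ U i)]
  rw [Finset.sum_congr rfl (fun g _ => h2 g), Finset.sum_const, Finset.card_univ,
    nsmul_eq_mul] at h1
  have h3 : (inner ℝ x x : ℝ) * (c * (finrank ℝ U : ℝ)) = (inner ℝ x x : ℝ) * (Fintype.card G : ℝ) := by
    linarith
  exact mul_left_cancel₀ hxx h3

theorem sum_chi2 (ρ : G →* (U →ₗ[ℝ] U)) (c : ℝ)
    (hstar : ∀ x y a b : U, ∑ g, (inner ℝ (ρ g x) a : ℝ) * inner ℝ (ρ g y) b =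
      c * (inner ℝ x y : ℝ) * inner ℝ a b) : ∑ g, chi ρ g ^ 2 = c * (finrank ℝ U : ℝ) := by
  have h1 : ∀ g, chi ρ g ^ 2 = ∑ i, ∑ k, (inner ℝ (ρ g (stdOrthonormalBasis ℝ U i))
      (stdOrthonormalBasis ℝ U i) : ℝ) * inner ℝ (ρ g (stdOrthonormalBasis ℝ U k))
      (stdOrthonormalBasis ℝ U k) := by
    intro g
    rw [pow_two]
    unfold chi
    rw [Finset.sum_mul_sum]
  rw [Finset.sum_congr rfl (fun g _ => h1 g), Finset.sum_comm]
  have h2 : ∀ i : Fin (finrank ℝ U), ∑ g : G, ∑ k, (inner ℝ (ρ g (stdOrthonormalBasis ℝ U i))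
      (stdOrthonormalBasis ℝ U i) : ℝ) * inner ℝ (ρ g (stdOrthonormalBasis ℝ U k))
      (stdOrthonormalBasis ℝ U k) = c := by
    intro i
    rw [Finset.sum_comm, Finset.sum_congr rfl (fun k _ => hstar _ _ _ _)]
    simp only [inner_b, mul_ite, mul_one, mul_zero]
    rw [Finset.sum_congr rfl (fun k _ => by
      by_cases h : i = k <;> simp [h] : ∀ k ∈ univ, (if i = k then (if i = k then c else 0)
        else 0) = if i = k then c else 0)]
    simp
  rw [Finset.sum_congr rfl (fun i _ => h2 i), Finset.sum_const, Finset.card_univ,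
    Fintype.card_fin, nsmul_eq_mul, mul_comm]

theorem sum_chisq (ρ : G →* (U →ₗ[ℝ] U)) (c : ℝ)
    (hstar : ∀ x y a b : U, ∑ g, (inner ℝ (ρ g x) a : ℝ) * inner ℝ (ρ g y) b =
      c * (inner ℝ x y : ℝ) * inner ℝ a b) : ∑ g, chi ρ (g ^ 2) = c * (finrank ℝ U : ℝ) := by
  have h1 : ∀ g, chi ρ (g ^ 2) = ∑ i, ∑ k, (inner ℝ (ρ g (stdOrthonormalBasis ℝ U i))
      (stdOrthonormalBasis ℝ U k) : ℝ) * inner ℝ (ρ g (stdOrthonormalBasis ℝ U k))
      (stdOrthonormalBasis ℝ U i) := by
    intro g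
    unfold chi
    apply Finset.sum_congr rfl
    intro i _
    rw [pow_two, map_mul, Module.End.mul_apply]
    conv_lhs => rw [← (stdOrthonormalBasis ℝ U).sum_repr' (ρ g (stdOrthonormalBasis ℝ U i))]
    rw [map_sum, sum_inner]
    apply Finset.sum_congr rfl
    intro k _
    rw [map_smul, real_inner_smul_left, real_inner_comm]
  rw [Finset.sum_congr rfl (fun g _ => h1 g), Finset.sum_comm]
  have h2 : ∀ i : Fin (finrank ℝ U), ∑ g : G, ∑ k, (inner ℝ (ρ g (stdOrthonormalBasis ℝ U i))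
      (stdOrthonormalBasis ℝ U k) : ℝ) * inner ℝ (ρ g (stdOrthonormalBasis ℝ U k))
      (stdOrthonormalBasis ℝ U i) = c := by
    intro i
    rw [Finset.sum_comm, Finset.sum_congr rfl (fun k _ => hstar _ _ _ _)]
    simp only [inner_b, mul_ite, mul_one, mul_zero]
    rw [Finset.sum_congr rfl (fun k _ => by
      by_cases h : i = k
      · simp [h]
      · simp [h] : ∀ k ∈ univ, (if k = i then (if i = k then c else 0)
        else 0) = if i = k then c else 0)]
    simp
  rw [Finset.sum_congr rfl (fun i _ => h2 i), Finset.sum_const, Finset.card_univ,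
    Fintype.card_fin, nsmul_eq_mul, mul_comm]

theorem chi_sum (ρ : G →* (U →ₗ[ℝ] U)) (S : Finset G) : ∑ u ∈ S, chi ρ u =
    ∑ i, (inner ℝ (∑ u ∈ S, ρ u (stdOrthonormalBasis ℝ U i)) (stdOrthonormalBasis ℝ U i) : ℝ) := by
  unfold chi
  rw [Finset.sum_comm]
  apply Finset.sum_congr rfl
  intro i _
  rw [sum_inner]

theorem fixed_sum [DecidableEq G] (ρ : G →* (U →ₗ[ℝ] U))
    (hfree : ∀ g, g ≠ 1 → ∀ x, ρ g x = x → x = 0) (S : Finset G)
    (n : G) (hn : n ≠ 1) (hS : ∀ u ∈ S, n * u ∈ S) (x : U) : ∑ u ∈ S, ρ u x = 0 := by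
  apply hfree n hn
  rw [map_sum]
  have h1 : ∀ u ∈ S, ρ n (ρ u x) = ρ (n * u) x := by
    intro u _
    rw [map_mul, Module.End.mul_apply]
  rw [Finset.sum_congr rfl h1]
  exact sumperm S (fun u => n * u) hS (fun a _ b _ h => mul_left_cancel h) (fun u => ρ u x)

theorem chi_sum_nonneg [DecidableEq G] (ρ : G →* (U →ₗ[ℝ] U))
    (hfree : ∀ g, g ≠ 1 → ∀ x, ρ g x = x → x = 0) (N : Subgroup G) (S : Finset G)
    (hS : ∀ u, u ∈ S ↔ u ∈ N) : 0 ≤ ∑ u ∈ S, chi ρ u := by
  by_cases h : ∃ n ∈ N, n ≠ 1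
  · obtain ⟨n, hn, hn1⟩ := h
    rw [chi_sum]
    rw [Finset.sum_congr rfl (fun i _ => by
      rw [fixed_sum ρ hfree S n hn1 (fun u hu => (hS _).mpr (N.mul_mem hn ((hS u).mp hu))),
        inner_zero_left] : ∀ i ∈ univ, (inner ℝ (∑ u ∈ S, ρ u (stdOrthonormalBasis ℝ U i))
        (stdOrthonormalBasis ℝ U i) : ℝ) = 0)]
    simp
  · push Not at h
    have : S = {1} := by
      ext u
      rw [hS, Finset.mem_singleton]
      exact ⟨fun hu => h u hu, fun hu => hu ▸ N.one_mem⟩
    rw [this, Finset.sum_singleton, chi_one]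
    positivity

end rep

section main

variable {G : Type} [Group G] [Fintype G] {U : Type} [NormedAddCommGroup U]
  [InnerProductSpace ℝ U] [FiniteDimensional ℝ U]

theorem faithful [Nontrivial U] (ρ : G →* (U →ₗ[ℝ] U))
    (hfree : ∀ g, g ≠ 1 → ∀ x, ρ g x = x → x = 0) (a b : G) (h : ∀ x, ρ a x = ρ b x) : a = b := by
  by_contra hab
  obtain ⟨x, hx⟩ := exists_ne (0 : U)
  apply hx
  apply hfree (b⁻¹ * a)
  · intro h1
    exact hab (by rw [inv_mul_eq_one] at h1; exact h1.symm)
  · rw [map_mul, Module.End.mul_apply, h, ← Module.End.mul_apply, ← map_mul, inv_mul_cancel,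
      map_one, Module.End.one_apply]

theorem rho_z (ρ : G →* (U →ₗ[ℝ] U))
    (hfree : ∀ g, g ≠ 1 → ∀ x, ρ g x = x → x = 0) (z : G) (hz : z ≠ 1) (hz2 : z ^ 2 = 1) (x : U) :
    ρ z x = -x := by
  have h := hfree z hz (x + ρ z x) (by
    rw [map_add, ← Module.End.mul_apply, ← map_mul, ← pow_two, hz2, map_one,
      Module.End.one_apply, add_comm])
  rw [add_comm] at h
  exact eq_neg_of_add_eq_zero_left h

theorem uniq [Nontrivial U] (ρ : G →* (U →ₗ[ℝ] U))
    (hfree : ∀ g, g ≠ 1 → ∀ x, ρ g x = x → x = 0) (z : G) (hz : z ≠ 1) (hz2 : z ^ 2 = 1) (w : G)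
    (hw : w ^ 2 = 1) : w = 1 ∨ w = z := by
  by_cases h : w = 1
  · exact Or.inl h
  · right
    apply faithful ρ hfree
    intro x
    rw [rho_z ρ hfree w h hw, rho_z ρ hfree z hz hz2]

theorem cent [Nontrivial U] (ρ : G →* (U →ₗ[ℝ] U))
    (hfree : ∀ g, g ≠ 1 → ∀ x, ρ g x = x → x = 0) (z : G) (hz : z ≠ 1) (hz2 : z ^ 2 = 1) (g : G) :
    z * g = g * z := by
  apply faithful ρ hfree
  intro x
  rw [map_mul, map_mul, Module.End.mul_apply, Module.End.mul_apply, rho_z ρ hfree z hz hz2,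
    rho_z ρ hfree z hz hz2, map_neg]

theorem chi_z (ρ : G →* (U →ₗ[ℝ] U))
    (hfree : ∀ g, g ≠ 1 → ∀ x, ρ g x = x → x = 0) (z : G) (hz : z ≠ 1) (hz2 : z ^ 2 = 1) (g : G) :
    chi ρ (z * g) = - chi ρ g := by
  unfold chi
  rw [← Finset.sum_neg_distrib]
  apply Finset.sum_congr rfl
  intro i _
  rw [map_mul, Module.End.mul_apply, rho_z ρ hfree z hz hz2, inner_neg_left]

/-- the elements whose order is divisible by 8 -/
theorem X3_sum [DecidableEq G] (f : G → ℝ) (z : G) (hz2 : z ^ 2 = 1) (hz : z ≠ 1)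
    (huniq : ∀ w : G, w ^ 2 = 1 → w = 1 ∨ w = z) (hfz : ∀ g, f (z * g) = - f g) :
    ∑ g ∈ univ.filter (fun g : G => 8 ∣ orderOf g), f (g ^ 2) = 0 := by
  set S := univ.filter (fun g : G => 8 ∣ orderOf g) with hS
  set φ : G → G := fun g => g ^ (1 + orderOf g / 4) with hφ
  have hcop : ∀ m : ℕ, Nat.Coprime (8 * m) (1 + 2 * m) := by
    intro m
    rw [← Nat.isCoprime_iff_coprime]
    refine ⟨-(1 + 3 * m + 4 * m ^ 2 + 2 * m ^ 3), (1 + 2 * m) ^ 3, ?_⟩
    push_cast
    ring
  have hord : ∀ g ∈ S, orderOf (φ g) = orderOf g := by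
    intro g hg
    obtain ⟨m, hm⟩ := (Finset.mem_filter.mp hg).2
    apply Nat.Coprime.orderOf_pow
    have : orderOf g / 4 = 2 * m := by omega
    rw [this, hm]
    exact hcop m
  have hmaps : ∀ g ∈ S, φ g ∈ S := by
    intro g hg
    rw [hS, Finset.mem_filter]
    refine ⟨Finset.mem_univ _, ?_⟩
    rw [hord g hg]
    exact (Finset.mem_filter.mp hg).2
  have hφ4 : ∀ g ∈ S, φ (φ (φ (φ g))) = g := by
    intro g hg
    obtain ⟨m, hm⟩ := (Finset.mem_filter.mp hg).2
    have hd : orderOf g / 4 = 2 * m := by omega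
    have h1 := hord g hg
    have h2 := hord _ (hmaps g hg)
    have h3 := hord _ (hmaps _ (hmaps g hg))
    have e4 : φ (φ (φ (φ g))) = ((((g ^ (1 + 2 * m)) ^ (1 + 2 * m)) ^ (1 + 2 * m)) ^ (1 + 2 * m)) := by
      have k1 : φ g = g ^ (1 + orderOf g / 4) := rfl
      have k2 : φ (φ g) = (φ g) ^ (1 + orderOf (φ g) / 4) := rfl
      have k3 : φ (φ (φ g)) = (φ (φ g)) ^ (1 + orderOf (φ (φ g)) / 4) := rfl
      have k4 : φ (φ (φ (φ g))) = (φ (φ (φ g))) ^ (1 + orderOf (φ (φ (φ g))) / 4) := rfl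
      rw [hd] at k1
      rw [h1, hd] at k2
      rw [h2, h1, hd] at k3
      rw [h3, h2, h1, hd] at k4
      rw [k4, k3, k2, k1]
    rw [e4, ← pow_mul, ← pow_mul, ← pow_mul]
    have e5 : (1 + 2 * m) * ((1 + 2 * m) * ((1 + 2 * m) * (1 + 2 * m))) =
        1 + orderOf g * (1 + 3 * m + 4 * m ^ 2 + 2 * m ^ 3) := by
      rw [hm]; ring
    rw [e5, pow_add, pow_mul, pow_orderOf_eq_one, one_pow, pow_one, mul_one]
  have hinj : Set.InjOn φ S := by
    intro a ha b hb hab
    rw [← hφ4 a ha, ← hφ4 b hb, hab]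
  have hperm := sumperm S φ hmaps hinj (fun g => f (g ^ 2))
  have hneg : ∀ g ∈ S, f ((φ g) ^ 2) = - f (g ^ 2) := by
    intro g hg
    obtain ⟨m, hm⟩ := (Finset.mem_filter.mp hg).2
    have hd : orderOf g / 4 = 2 * m := by omega
    have hpos : 0 < orderOf g := orderOf_pos g
    have hw : g ^ (4 * m) = z := by
      have h1 : (g ^ (4 * m)) ^ 2 = 1 := by
        rw [← pow_mul]
        have : 4 * m * 2 = orderOf g := by omega
        rw [this, pow_orderOf_eq_one]
      rcases huniq _ h1 with h | h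
      · exfalso
        have := orderOf_dvd_of_pow_eq_one h
        have := Nat.le_of_dvd (by omega) this
        omega
      · exact h
    have : (φ g) ^ 2 = z * g ^ 2 := by
      simp only [hφ]
      rw [hd, ← hw, ← pow_mul, ← pow_add]
      congr 1
      ring
    rw [this, hfz]
  rw [Finset.sum_congr rfl hneg, Finset.sum_neg_distrib] at hperm
  linarith

/-- the elements of order 4 times odd -/
theorem X2_sum [DecidableEq G] (f : G → ℝ) (z : G) (hz2 : z ^ 2 = 1) (hz : z ≠ 1)
    (huniq : ∀ w : G, w ^ 2 = 1 → w = 1 ∨ w = z) (hfz : ∀ g, f (z * g) = - f g)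
    (hnn : ∀ (N : Subgroup G) (S : Finset G), (∀ u, u ∈ S ↔ u ∈ N) → 0 ≤ ∑ u ∈ S, f u) :
    ∑ g ∈ univ.filter (fun g : G => 4 ∣ orderOf g ∧ ¬ 8 ∣ orderOf g), f (g ^ 2) ≤ 0 := by
  classical
  set S := univ.filter (fun g : G => 4 ∣ orderOf g ∧ ¬ 8 ∣ orderOf g) with hS
  set V := univ.filter (fun v : G => v ^ 2 = z) with hV
  set π : G → G := fun g => g ^ ((orderOf g / 4) ^ 2) with hπ
  have hmaps : ∀ g ∈ S, π g ∈ V := by
    intro g hg
    obtain ⟨⟨q, hq⟩, h8⟩ := (Finset.mem_filter.mp hg).2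
    have hd : orderOf g / 4 = q := by omega
    have hpos : 0 < orderOf g := orderOf_pos g
    have hodd : Odd q := by
      rw [← Nat.not_even_iff_odd]
      rintro ⟨k, hk⟩
      exact h8 ⟨k, by omega⟩
    obtain ⟨k, hk⟩ := hodd
    rw [hV, Finset.mem_filter]
    refine ⟨Finset.mem_univ _, ?_⟩
    simp only [hπ]
    rw [hd, ← pow_mul]
    have h1 : (g ^ (q ^ 2 * 2)) ^ 2 = 1 := by
      rw [← pow_mul]
      have : q ^ 2 * 2 * 2 = orderOf g * q := by rw [hq]; ring
      rw [this, pow_mul, pow_orderOf_eq_one, one_pow]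
    rcases huniq _ h1 with h | h
    · exfalso
      have h2 := orderOf_dvd_of_pow_eq_one h
      rw [hq] at h2
      have h3 : q ^ 2 * 2 = q * (2 * q) := by ring
      rw [h3, mul_comm 4 q] at h2
      have hq0 : 0 < q := by omega
      have h4 := Nat.dvd_of_mul_dvd_mul_left hq0 h2
      omega
    · exact h
  rw [← Finset.sum_fiberwise_of_maps_to hmaps]
  apply Finset.sum_nonpos
  intro v hv
  have hvz : v ^ 2 = z := (Finset.mem_filter.mp hv).2
  have hv4 : v ^ 4 = 1 := by
    have : v ^ 4 = (v ^ 2) ^ 2 := by rw [← pow_mul]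
    rw [this, hvz, hz2]
  have hov : orderOf v = 4 := by
    have h1 : orderOf v = 2 ^ (1 + 1) := by
      apply orderOf_eq_prime_pow
      · rw [pow_one, hvz]; exact hz
      · exact hv4
    rw [h1]; norm_num
  -- the complement in the centraliser
  have hvH : v ∈ Subgroup.centralizer ({v} : Set G) := by
    rw [Subgroup.mem_centralizer_iff]
    intro h hh
    rw [Set.mem_singleton_iff] at hh
    rw [hh]
  have hzH : z ∈ Subgroup.centralizer ({v} : Set G) := by
    rw [← hvz]; exact Subgroup.pow_mem _ hvH 2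
  obtain ⟨N', -, hN'⟩ := normal_complement (H := Subgroup.centralizer ({v} : Set G))
    ⟨z, hzH⟩ ⟨v, hvH⟩ (fun h => hz (congrArg Subtype.val h))
    (by
      rintro ⟨x, hx⟩ h
      have h' : x ^ 2 = 1 := congrArg Subtype.val h
      rcases huniq x h' with h1 | h1
      · left; exact Subtype.ext h1
      · right; exact Subtype.ext h1)
    (Subtype.ext hvz)
    (by
      rintro ⟨x, hx⟩
      apply Subtype.ext
      exact (Subgroup.mem_centralizer_iff.mp hx) v rfl)
  set N : Subgroup G := N'.map (Subgroup.subtype _) with hN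
  have hmemN : ∀ u : G, u ∈ N ↔ (v * u = u * v ∧ Odd (orderOf u)) := by
    intro u
    rw [hN, Subgroup.mem_map]
    constructor
    · rintro ⟨⟨x, hx⟩, hx1, rfl⟩
      refine ⟨(Subgroup.mem_centralizer_iff.mp hx) v rfl, ?_⟩
      have := (hN' _).mp hx1
      rwa [← Subgroup.orderOf_coe] at this
    · rintro ⟨h1, h2⟩
      have hu : u ∈ Subgroup.centralizer ({v} : Set G) := by
        rw [Subgroup.mem_centralizer_iff]
        intro h hh
        rw [Set.mem_singleton_iff] at hh
        rw [hh]; exact h1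
      refine ⟨⟨u, hu⟩, (hN' _).mpr ?_, rfl⟩
      rw [← Subgroup.orderOf_coe]
      exact h2
  set T := univ.filter (fun u : G => u ∈ N) with hT
  have hmemT : ∀ u, u ∈ T ↔ u ∈ N := fun u => by rw [hT, Finset.mem_filter]; simp
  have hfib : S.filter (fun g => π g = v) = T.image (fun u => u * v) := by
    ext g
    rw [Finset.mem_filter, Finset.mem_image]
    constructor
    · rintro ⟨hg, hgv⟩
      obtain ⟨⟨q, hq⟩, h8⟩ := (Finset.mem_filter.mp hg).2
      have hd : orderOf g / 4 = q := by omega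
      have hodd : Odd q := by
        rw [← Nat.not_even_iff_odd]
        rintro ⟨k, hk⟩
        exact h8 ⟨k, by omega⟩
      simp only [hπ] at hgv
      rw [hd] at hgv
      have hcomm : Commute v g := by
        rw [← hgv]
        exact (Commute.refl g).pow_left _
      refine ⟨g * v⁻¹, ?_, by rw [inv_mul_cancel_right]⟩
      rw [hmemT, hmemN]
      have hc2 : Commute v (g * v⁻¹) := hcomm.mul_right (Commute.refl v).inv_right
      refine ⟨hc2.eq, ?_⟩
      have hpow : (g * v⁻¹) ^ q = 1 := by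
        rw [hcomm.symm.inv_right.mul_pow, inv_pow]
        have h1 : v ^ q = g ^ q := by
          rw [← hgv, ← pow_mul]
          obtain ⟨k, hk⟩ := hodd
          have : q ^ 2 * q = q + orderOf g * (k * (k + 1)) := by
            rw [hq, hk]; ring
          rw [this, pow_add, pow_mul, pow_orderOf_eq_one, one_pow, mul_one]
        rw [h1, mul_inv_cancel]
      exact Odd.of_dvd_nat hodd (orderOf_dvd_of_pow_eq_one hpow)
    · rintro ⟨u, hu, rfl⟩
      rw [hmemT, hmemN] at hu
      obtain ⟨hcomm', hodd⟩ := hu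
      have hcomm : Commute u v := hcomm'.symm
      have hcop : Nat.Coprime (orderOf u) (orderOf v) := by
        rw [hov]
        have : Nat.Coprime (orderOf u) 2 := Nat.coprime_two_right.mpr hodd
        exact this.pow_right 2
      have hord : orderOf (u * v) = 4 * orderOf u := by
        rw [hcomm.orderOf_mul_eq_mul_orderOf_of_coprime hcop, hov, mul_comm]
      obtain ⟨k, hk⟩ := hodd
      refine ⟨Finset.mem_filter.mpr ⟨Finset.mem_univ _, ?_, ?_⟩, ?_⟩
      · rw [hord]; exact Dvd.intro _ rfl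
      · rw [hord]; omega
      · simp only [hπ]
        have hd : orderOf (u * v) / 4 = orderOf u := by omega
        rw [hd, hcomm.mul_pow]
        have h1 : u ^ (orderOf u ^ 2) = 1 := by
          rw [pow_two, pow_mul, pow_orderOf_eq_one, one_pow]
        have h2 : v ^ (orderOf u ^ 2) = v := by
          have : orderOf u ^ 2 = 1 + 4 * (k * (k + 1)) := by rw [hk]; ring
          rw [this, pow_add, pow_mul, hv4, one_pow, pow_one, mul_one]
        rw [h1, h2, one_mul]
  rw [hfib, Finset.sum_image (fun a _ b _ h => mul_right_cancel h)]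
  have h1 : ∀ u ∈ T, f ((u * v) ^ 2) = - f (u ^ 2) := by
    intro u hu
    rw [hmemT, hmemN] at hu
    have hcomm : Commute u v := hu.1.symm
    rw [hcomm.mul_pow, hvz]
    have hzu : u ^ 2 * z = z * u ^ 2 := by
      rw [← hvz]
      exact (hcomm.pow_pow 2 2).eq
    rw [hzu, hfz]
  rw [Finset.sum_congr rfl h1, Finset.sum_neg_distrib]
  have h2 : ∑ u ∈ T, f (u ^ 2) = ∑ u ∈ T, f u := by
    apply sumperm T (fun u => u ^ 2) _ _ f
    · intro u hu
      rw [hmemT] at hu ⊢
      exact N.pow_mem hu 2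
    · intro a ha b hb hab
      have ha' := ((hmemN a).mp ((hmemT a).mp ha)).2
      have hb' := ((hmemN b).mp ((hmemT b).mp hb)).2
      exact sq_inj ha' hb' hab
  rw [h2]
  have := hnn N T hmemT
  linarith

end main

end EX2

/-- JOB: a finite group with more than two elements has no fixed point free representation of
(real type) -/
theorem no_real_type {G : Type} [Group G] [Fintype G] (hcard : 2 < Fintype.card G) {U : Type}
    [NormedAddCommGroup U] [InnerProductSpace ℝ U] [FiniteDimensional ℝ U] [Nontrivial U]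
    (ρ : G →* (U →ₗ[ℝ] U)) (hi : ∀ g x y, inner ℝ (ρ g x) (ρ g y) = (inner ℝ x y : ℝ))
    (hfree : ∀ g, g ≠ 1 → ∀ x, ρ g x = x → x = 0) (c : ℝ)
    (hstar : ∀ x y a b : U, ∑ g, (inner ℝ (ρ g x) a : ℝ) * inner ℝ (ρ g y) b =
      c * (inner ℝ x y : ℝ) * inner ℝ a b) : False := by
  classical
  have hc := EX2.c_eq ρ hi c hstar
  have hchi2 := EX2.sum_chi2 ρ c hstar
  have hchisq := EX2.sum_chisq ρ c hstar
  rw [hc] at hchi2 hchisq
  have hcard0 : (0 : ℝ) < Fintype.card G := by
    have : 0 < Fintype.card G := by omega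
    exact_mod_cast this
  have hsq : ∀ (S : Finset G), (∀ u ∈ S, Odd (orderOf u)) → (∀ u ∈ S, u ^ 2 ∈ S) →
      ∑ u ∈ S, EX2.chi ρ (u ^ 2) = ∑ u ∈ S, EX2.chi ρ u := by
    intro S h1 h2
    exact EX2.sumperm S (fun u => u ^ 2) h2 (fun a ha b hb hab => EX2.sq_inj (h1 a ha) (h1 b hb) hab)
      (EX2.chi ρ)
  by_cases heven : 2 ∣ Fintype.card G
  · obtain ⟨z, hzo⟩ := exists_prime_orderOf_dvd_card 2 heven
    have hz2 : z ^ 2 = 1 := by rw [← hzo]; exact pow_orderOf_eq_one z
    have hz : z ≠ 1 := by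
      rintro rfl
      rw [orderOf_one] at hzo
      omega
    have huniq := EX2.uniq ρ hfree z hz hz2
    have hcent := EX2.cent ρ hfree z hz hz2
    have hchiz := EX2.chi_z ρ hfree z hz hz2
    set X0 := Finset.univ.filter (fun g : G => ¬ 2 ∣ orderOf g) with hX0
    have hX0odd : ∀ u ∈ X0, Odd (orderOf u) := by
      intro u hu
      rw [← Nat.not_even_iff_odd, even_iff_two_dvd]
      exact (Finset.mem_filter.mp hu).2
    have hoddX0 : ∀ u : G, Odd (orderOf u) → u ∈ X0 := by
      intro u hu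
      rw [← Nat.not_even_iff_odd, even_iff_two_dvd] at hu
      exact Finset.mem_filter.mpr ⟨Finset.mem_univ _, hu⟩
    have hX0sum := hsq X0 hX0odd (fun u hu => hoddX0 _ (EX2.odd_sq (hX0odd u hu)))
    set X1 := Finset.univ.filter (fun g : G => 2 ∣ orderOf g ∧ ¬ 4 ∣ orderOf g) with hX1
    have hX1img : X1 = X0.image (fun u => z * u) := by
      ext g
      rw [Finset.mem_image]
      constructor
      · intro hg
        obtain ⟨⟨q, hq⟩, h4⟩ := (Finset.mem_filter.mp hg).2
        have hqodd : Odd q := by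
          rw [← Nat.not_even_iff_odd]
          rintro ⟨k, hk⟩
          exact h4 ⟨k, by omega⟩
        have hpos : 0 < orderOf g := orderOf_pos g
        have hgq : g ^ q = z := by
          have h1 : (g ^ q) ^ 2 = 1 := by
            rw [← pow_mul, mul_comm, ← hq, pow_orderOf_eq_one]
          rcases huniq _ h1 with h | h
          · exfalso
            have h2 := Nat.le_of_dvd (by omega) (orderOf_dvd_of_pow_eq_one h)
            omega
          · exact h
        refine ⟨z * g, ?_, by rw [← mul_assoc, ← pow_two, hz2, one_mul]⟩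
        apply hoddX0
        have hpow : (z * g) ^ q = 1 := by
          have hcm : Commute z g := hcent g
          rw [hcm.mul_pow, hgq]
          obtain ⟨k, hk⟩ := hqodd
          rw [hk, pow_succ, pow_mul, hz2, one_pow, one_mul, ← pow_two, hz2]
        exact Odd.of_dvd_nat hqodd (orderOf_dvd_of_pow_eq_one hpow)
      · rintro ⟨u, hu, rfl⟩
        have hodd := hX0odd u hu
        have hcm : Commute z u := hcent u
        have hcop : Nat.Coprime (orderOf z) (orderOf u) := by
          rw [hzo]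
          exact Nat.coprime_two_left.mpr hodd
        have hord : orderOf (z * u) = 2 * orderOf u := by
          rw [hcm.orderOf_mul_eq_mul_orderOf_of_coprime hcop, hzo]
        obtain ⟨k, hk⟩ := hodd
        refine Finset.mem_filter.mpr ⟨Finset.mem_univ _, ?_, ?_⟩
        · rw [hord]; exact Dvd.intro _ rfl
        · rw [hord]; omega
    have hinjz : Set.InjOn (fun u => z * u) (X0 : Set G) := fun a _ b _ h => mul_left_cancel h
    have hX1sum : ∑ g ∈ X1, EX2.chi ρ (g ^ 2) = ∑ u ∈ X0, EX2.chi ρ u := by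
      rw [hX1img, Finset.sum_image hinjz, ← hX0sum]
      apply Finset.sum_congr rfl
      intro u _
      have hcm : Commute z u := hcent u
      rw [hcm.mul_pow, hz2, one_mul]
    have hX1card : X1.card = X0.card := by
      rw [hX1img, Finset.card_image_of_injOn hinjz]
    have hX1chi : ∑ g ∈ X1, EX2.chi ρ g ^ 2 = ∑ u ∈ X0, EX2.chi ρ u ^ 2 := by
      rw [hX1img, Finset.sum_image hinjz]
      apply Finset.sum_congr rfl
      intro u _
      rw [hchiz]; ring
    have hX2 := EX2.X2_sum (EX2.chi ρ) z hz2 hz huniq hchiz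
      (fun N S hS => EX2.chi_sum_nonneg ρ hfree N S hS)
    have hX3 := EX2.X3_sum (EX2.chi ρ) z hz2 hz huniq hchiz
    have hsplit : ∀ F : G → ℝ, ∑ g, F g = ∑ g ∈ X0, F g + ∑ g ∈ X1, F g +
        ∑ g ∈ Finset.univ.filter (fun g : G => 4 ∣ orderOf g ∧ ¬ 8 ∣ orderOf g), F g +
        ∑ g ∈ Finset.univ.filter (fun g : G => 8 ∣ orderOf g), F g := by
      intro F
      rw [hX0, hX1, Finset.sum_filter, Finset.sum_filter, Finset.sum_filter, Finset.sum_filter,
        ← Finset.sum_add_distrib, ← Finset.sum_add_distrib, ← Finset.sum_add_distrib]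
      apply Finset.sum_congr rfl
      intro g _
      by_cases h2 : 2 ∣ orderOf g
      · by_cases h4 : 4 ∣ orderOf g
        · by_cases h8 : 8 ∣ orderOf g
          · simp [h2, h4, h8]
          · simp [h2, h4, h8]
        · have h8 : ¬ 8 ∣ orderOf g := fun h => h4 (dvd_trans (by norm_num) h)
          simp [h2, h4, h8]
      · have h4 : ¬ 4 ∣ orderOf g := fun h => h2 (dvd_trans (by norm_num) h)
        have h8 : ¬ 8 ∣ orderOf g := fun h => h4 (dvd_trans (by norm_num) h)
        simp [h2, h4, h8]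
    have hA := hsplit (fun g => EX2.chi ρ (g ^ 2))
    rw [hchisq, hX1sum, hX0sum, hX3] at hA
    have hB := hsplit (fun g => EX2.chi ρ g ^ 2)
    rw [hchi2, hX1chi] at hB
    have hB1 : 0 ≤ ∑ g ∈ Finset.univ.filter (fun g : G => 4 ∣ orderOf g ∧ ¬ 8 ∣ orderOf g),
        EX2.chi ρ g ^ 2 := Finset.sum_nonneg (fun _ _ => sq_nonneg _)
    have hB2 : 0 ≤ ∑ g ∈ Finset.univ.filter (fun g : G => 8 ∣ orderOf g),
        EX2.chi ρ g ^ 2 := Finset.sum_nonneg (fun _ _ => sq_nonneg _)
    have hC := hsplit (fun _ => (1 : ℝ))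
    simp only [Finset.sum_const, nsmul_eq_mul, mul_one, Finset.card_univ] at hC
    rw [hX1card] at hC
    have hC1 : (0 : ℝ) ≤ ((Finset.univ.filter (fun g : G => 4 ∣ orderOf g ∧
      ¬ 8 ∣ orderOf g)).card : ℝ) := Nat.cast_nonneg _
    have hC2 : (0 : ℝ) ≤ ((Finset.univ.filter (fun g : G => 8 ∣ orderOf g)).card : ℝ) :=
      Nat.cast_nonneg _
    have hle : ∑ u ∈ X0, (EX2.chi ρ u - 1) ^ 2 ≤ 0 := by
      have e : ∑ u ∈ X0, (EX2.chi ρ u - 1) ^ 2 = ∑ u ∈ X0, EX2.chi ρ u ^ 2 -
          2 * ∑ u ∈ X0, EX2.chi ρ u + X0.card := by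
        have : ∀ u ∈ X0, (EX2.chi ρ u - 1) ^ 2 = EX2.chi ρ u ^ 2 - 2 * EX2.chi ρ u + 1 := by
          intro u _; ring
        rw [Finset.sum_congr rfl this, Finset.sum_add_distrib, Finset.sum_sub_distrib,
          ← Finset.mul_sum]
        simp
      rw [e]
      linarith
    have h1X0 : (1 : G) ∈ X0 := hoddX0 1 (by rw [orderOf_one]; exact odd_one)
    have hone : (EX2.chi ρ (1 : G) - 1) ^ 2 ≤ 0 := by
      refine le_trans ?_ hle
      exact Finset.single_le_sum (f := fun u => (EX2.chi ρ u - 1) ^ 2)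
        (fun u _ => sq_nonneg _) h1X0
    have hchi1 : EX2.chi ρ (1 : G) = 1 := by nlinarith [sq_nonneg (EX2.chi ρ (1 : G) - 1)]
    rw [EX2.chi_one] at hchi1
    have hdim : finrank ℝ U = 1 := by exact_mod_cast hchi1
    obtain ⟨v, hv, hvv⟩ := finrank_eq_one_iff'.mp hdim
    have hall : ∀ g : G, g = 1 ∨ g = z := by
      intro g
      obtain ⟨a, ha⟩ := hvv (ρ g v)
      have hvin : (inner ℝ v v : ℝ) ≠ 0 := fun h => hv (inner_self_eq_zero.mp h)
      have h1 := hi g v v
      rw [← ha, real_inner_smul_left, real_inner_smul_right, ← mul_assoc] at h1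
      have h2 : a * a = 1 := by
        have : (a * a) * (inner ℝ v v : ℝ) = 1 * (inner ℝ v v : ℝ) := by rw [one_mul]; exact h1
        exact mul_right_cancel₀ hvin this
      rcases mul_self_eq_one_iff.mp h2 with h3 | h3
      · left
        by_contra hg
        apply hv
        apply hfree g hg
        rw [← ha, h3, one_smul]
      · right
        by_contra hg
        have hzg : z * g ≠ 1 := by
          intro h
          apply hg
          have : g = z⁻¹ := eq_inv_of_mul_eq_one_right h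
          rw [this]
          exact inv_eq_of_mul_eq_one_left (by rw [← pow_two, hz2])
        apply hv
        apply hfree (z * g) hzg
        rw [map_mul, Module.End.mul_apply, ← ha, h3, EX2.rho_z ρ hfree z hz hz2]
        simp
    have hsub : (Finset.univ : Finset G) ⊆ {1, z} := by
      intro g _
      rw [Finset.mem_insert, Finset.mem_singleton]
      exact hall g
    have := Finset.card_le_card hsub
    rw [Finset.card_univ] at this
    have h2 := Finset.card_le_two (a := (1 : G)) (b := z)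
    omega
  · have hodd : ∀ g : G, Odd (orderOf g) := by
      intro g
      rw [← Nat.not_even_iff_odd, even_iff_two_dvd]
      intro h
      exact heven (h.trans orderOf_dvd_card)
    have h1 := hsq Finset.univ (fun u _ => hodd u) (fun u _ => Finset.mem_univ _)
    rw [hchisq] at h1
    have hne : ∃ n : G, n ≠ 1 := by
      have : Nontrivial G := Fintype.one_lt_card_iff_nontrivial.mp (by omega)
      exact exists_ne 1
    obtain ⟨n, hn⟩ := hne
    rw [EX2.chi_sum] at h1
    have h2 : ∀ i : Fin (finrank ℝ U), (inner ℝ (∑ u : G, ρ u (stdOrthonormalBasis ℝ U i))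
        (stdOrthonormalBasis ℝ U i) : ℝ) = 0 := by
      intro i
      rw [EX2.fixed_sum ρ hfree Finset.univ n hn (fun u _ => Finset.mem_univ _), inner_zero_left]
    rw [Finset.sum_congr rfl (fun i _ => h2 i)] at h1
    simp at h1

end EX2

end Pool.Agent.Helper954.Hopf
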