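import Pool.Agent.Helper954.Hopf.EX2

set_option autoImplicit false

namespace Pool.Agent.Helper954.Hopf

open Module
open EX2 (no_real_type)

namespace EX3

namespace AllCase

/-- eigenspace-type argument: in the irreducible-like case there is a nonzero skew operator -/
theorem exists_skew {G : Type} [Group G] [Fintype G] (hcard : 2 < Fintype.card G)
    {U : Type} [NormedAddCommGroup U] [InnerProductSpace ℝ U] [FiniteDimensional ℝ U]
    (ρ : G →* (U →ₗ[ℝ] U)) (hi : ∀ g x y, inner ℝ (ρ g x) (ρ g y) = (inner ℝ x y : ℝ))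
    (hfree : ∀ g, g ≠ 1 → ∀ x, ρ g x = x → x = 0) (e : U) (he : ‖e‖ = 1)
    (hscal : ∀ S : U →ₗ[ℝ] U, (∀ x y, inner ℝ (S x) y = (inner ℝ x (S y) : ℝ)) →
      (∀ g x, S (ρ g x) = ρ g (S x)) → ∃ c : ℝ, ∀ x, S x = c • x) :
    ∃ A : U →ₗ[ℝ] U, A ≠ 0 ∧ (∀ x y, inner ℝ (A x) y = -(inner ℝ x (A y) : ℝ)) ∧
      (∀ g x, A (ρ g x) = ρ g (A x)) := by
  classical
  by_contra hcon
  push Not at hcon
  -- basic facts
  have hinv : ∀ g x, ρ g (ρ g⁻¹ x) = x := by
    intro g x
    have : (ρ g * ρ g⁻¹) x = x := by rw [← map_mul]; simp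
    simpa using this
  have hinv' : ∀ g x, ρ g⁻¹ (ρ g x) = x := by
    intro g x
    have : (ρ g⁻¹ * ρ g) x = x := by rw [← map_mul]; simp
    simpa using this
  have hadj : ∀ g x y, inner ℝ (ρ g x) y = (inner ℝ x (ρ g⁻¹ y) : ℝ) := by
    intro g x y
    conv_lhs => rw [← hinv g y]
    rw [hi]
  have hmul : ∀ g h x, ρ (g * h) x = ρ g (ρ h x) := by
    intro g h x; rw [map_mul]; rfl
  -- average
  let T : U → U → (U →ₗ[ℝ] U) := fun x y =>
    ∑ g, (((innerₛₗ ℝ (ρ g y)).smulRight (ρ g x)) : U →ₗ[ℝ] U)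
  have hT : ∀ x y b, T x y b = ∑ g, (inner ℝ (ρ g y) b : ℝ) • ρ g x := by
    intro x y b
    simp [T, LinearMap.sum_apply]
  have hTcomm : ∀ x y g b, T x y (ρ g b) = ρ g (T x y b) := by
    intro x y g b
    rw [hT, hT, map_sum]
    rw [← Equiv.sum_comp (Equiv.mulLeft g)]
    refine Finset.sum_congr rfl fun h _ => ?_
    simp only [Equiv.coe_mulLeft, hmul, map_smul, hi]
  have hTadj : ∀ x y a b, inner ℝ (T x y b) a = (inner ℝ b (T y x a) : ℝ) := by
    intro x y a b
    rw [hT, hT, sum_inner, inner_sum]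
    refine Finset.sum_congr rfl fun h _ => ?_
    rw [inner_smul_left, inner_smul_right]
    simp only [conj_trivial]
    rw [real_inner_comm b (ρ h y)]
    ring
  -- skew part vanishes
  have hskew : ∀ x y, T x y = T y x := by
    intro x y
    have h1 := hcon (T x y - T y x)
    by_contra hne
    obtain ⟨g, b, hgb⟩ := h1 (sub_ne_zero.mpr hne) (by
      intro a b
      simp only [LinearMap.sub_apply, inner_sub_left, inner_sub_right, hTadj]
      ring)
    apply hgb
    simp only [LinearMap.sub_apply, hTcomm, map_sub]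
  have hc : ∀ x y, ∃ c : ℝ, ∀ b, T x y b = c • b := by
    intro x y
    refine hscal (T x y) ?_ (hTcomm x y)
    intro a b
    rw [hTadj, hskew y x]
  choose c hc using hc
  have key : ∀ x y a b, ∑ g, (inner ℝ (ρ g x) a : ℝ) * inner ℝ (ρ g y) b = c x y * inner ℝ a b := by
    intro x y a b
    have h1 : (inner ℝ (T x y b) a : ℝ) = c x y * inner ℝ a b := by
      rw [hc, inner_smul_left, real_inner_comm]; simp
    rw [← h1, hT, sum_inner]
    refine Finset.sum_congr rfl fun h _ => ?_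
    rw [inner_smul_left]; simp; ring
  have key2 : ∀ x y a b, c x y * inner ℝ a b = c a b * (inner ℝ x y : ℝ) := by
    intro x y a b
    rw [← key x y a b, ← key a b x y]
    rw [← Equiv.sum_comp (Equiv.inv G)]
    refine Finset.sum_congr rfl fun h _ => ?_
    simp only [Equiv.inv_apply]
    rw [hadj, hadj, inv_inv, real_inner_comm x, real_inner_comm y]
  have hee : (inner ℝ e e : ℝ) = 1 := by rw [real_inner_self_eq_norm_sq, he]; norm_num
  have key3 : ∀ x y, c x y = c e e * (inner ℝ x y : ℝ) := by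
    intro x y
    have := key2 x y e e
    rw [hee, mul_one] at this
    exact this
  have hnt : Nontrivial U := by
    refine ⟨e, 0, ?_⟩
    rintro rfl
    simp at he
  exact no_real_type hcard ρ hi hfree (c e e) (fun x y a b => by rw [key, key3])


/-- main induction -/
theorem exists_J_aux {G : Type} [Group G] [Fintype G] (hcard : 2 < Fintype.card G) (n : ℕ) :
    ∀ (U : Type) [NormedAddCommGroup U] [InnerProductSpace ℝ U] [FiniteDimensional ℝ U]
    (ρ : G →* (U →ₗ[ℝ] U)) (_ : ∀ g x y, inner ℝ (ρ g x) (ρ g y) = (inner ℝ x y : ℝ))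
    (_ : ∀ g, g ≠ 1 → ∀ x, ρ g x = x → x = 0) (_ : finrank ℝ U = n),
    ∃ J : U →ₗ[ℝ] U, (∀ x, (inner ℝ x (J x) : ℝ) = 0) ∧ (∀ x, ‖J x‖ = ‖x‖) ∧
      ∀ g x, J (ρ g x) = ρ g (J x) := by
  induction n using Nat.strong_induction_on with
  | _ n ih =>
  intro U _ _ _ ρ hi hfree hn
  classical
  rcases subsingleton_or_nontrivial U with hsub | hnt
  · refine ⟨0, fun x => ?_, fun x => ?_, fun g x => ?_⟩
    · simp
    · rw [Subsingleton.elim x 0]; simp
    · simp
  have hinv : ∀ g x, ρ g (ρ g⁻¹ x) = x := by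
    intro g x
    have : (ρ g * ρ g⁻¹) x = x := by rw [← map_mul]; simp
    simpa using this
  have hadj : ∀ g x y, inner ℝ (ρ g x) y = (inner ℝ x (ρ g⁻¹ y) : ℝ) := by
    intro g x y
    conv_lhs => rw [← hinv g y]
    rw [hi]
  by_cases hscal : ∀ S : U →ₗ[ℝ] U, (∀ x y, inner ℝ (S x) y = (inner ℝ x (S y) : ℝ)) →
      (∀ g x, S (ρ g x) = ρ g (S x)) → ∃ c : ℝ, ∀ x, S x = c • x
  · obtain ⟨e, he⟩ := exists_norm_eq U (c := 1) zero_le_one
    obtain ⟨A, hA0, hskew, hcomm⟩ := exists_skew hcard ρ hi hfree e he hscal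
    obtain ⟨c, hc⟩ := hscal (A ∘ₗ A) (by
      intro x y
      simp only [LinearMap.comp_apply, hskew, neg_neg]) (by intro g x; simp only [LinearMap.comp_apply, hcomm])
    have hc' : ∀ x, A (A x) = c • x := hc
    have hn2 : ∀ x, ‖A x‖ ^ 2 = (-c) * ‖x‖ ^ 2 := by
      intro x
      rw [← real_inner_self_eq_norm_sq, ← real_inner_self_eq_norm_sq, hskew, hc', inner_smul_right]
      ring
    have hcneg : 0 < -c := by
      by_contra hle
      push Not at hle
      apply hA0
      ext x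
      have h1 := hn2 x
      have h2 : ‖A x‖ ^ 2 ≤ 0 := by rw [h1]; exact mul_nonpos_of_nonpos_of_nonneg hle (sq_nonneg _)
      have h3 : ‖A x‖ = 0 := by nlinarith [norm_nonneg (A x)]
      simpa using h3
    refine ⟨(Real.sqrt (-c))⁻¹ • A, fun x => ?_, fun x => ?_, fun g x => ?_⟩
    · have h1 : (inner ℝ x (A x) : ℝ) = 0 := by
        have := hskew x x
        rw [real_inner_comm] at this
        linarith
      simp [inner_smul_right, h1]
    · have h1 := hn2 x
      have hs : 0 < Real.sqrt (-c) := Real.sqrt_pos.mpr hcneg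
      have h2 : ‖A x‖ = Real.sqrt (-c) * ‖x‖ := by
        have h3 : ‖A x‖ ^ 2 = (Real.sqrt (-c) * ‖x‖) ^ 2 := by
          rw [mul_pow, Real.sq_sqrt hcneg.le, h1]
        exact (sq_eq_sq₀ (norm_nonneg _) (by positivity)).mp h3
      rw [LinearMap.smul_apply, norm_smul, h2, Real.norm_of_nonneg (by positivity)]
      field_simp
    · simp [hcomm]
  · push Not at hscal
    obtain ⟨S, hSsym, hScomm, hSns⟩ := hscal
    -- an eigenvalue of S
    have hsymm : S.IsSymmetric := fun x y => hSsym x y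
    obtain ⟨μ, hμ⟩ : ∃ μ : ℝ, Module.End.HasEigenvalue S μ := by
      have := hsymm.hasEigenvalue_iSup_of_finiteDimensional
      exact ⟨_, this⟩
    let E : Submodule ℝ U := Module.End.eigenspace S μ
    have hEmem : ∀ x, x ∈ E ↔ S x = μ • x := fun x => Module.End.mem_eigenspace_iff
    have hEne : E ≠ ⊥ := hμ
    have hEtop : E ≠ ⊤ := by
      intro h
      obtain ⟨x, hx⟩ := hSns μ
      exact hx ((hEmem x).mp (h ▸ Submodule.mem_top))
    have hEinv : ∀ g x, x ∈ E → ρ g x ∈ E := by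
      intro g x hx
      rw [hEmem] at hx ⊢
      rw [hScomm, hx, map_smul]
    have hEinv' : ∀ g x, x ∈ Eᗮ → ρ g x ∈ Eᗮ := by
      intro g x hx
      rw [Submodule.mem_orthogonal] at hx ⊢
      intro u hu
      rw [real_inner_comm, hadj, real_inner_comm]
      exact hx _ (hEinv _ _ hu)
    have hfin : finrank ℝ E + finrank ℝ Eᗮ = finrank ℝ U := E.finrank_add_finrank_orthogonal
    have h1 : finrank ℝ E < n := by
      rw [← hn]; exact Submodule.finrank_lt hEtop
    have h2 : finrank ℝ Eᗮ < n := by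
      have : 0 < finrank ℝ E := Nat.pos_of_ne_zero (fun h => hEne (Submodule.finrank_eq_zero.mp h))
      omega
    have mk : ∀ (F : Submodule ℝ U) (hF : ∀ g x, x ∈ F → ρ g x ∈ F), finrank ℝ F < n →
        ∃ J : F →ₗ[ℝ] F, (∀ x, (inner ℝ x (J x) : ℝ) = 0) ∧ (∀ x, ‖J x‖ = ‖x‖) ∧
          ∀ g (x : F), J ⟨ρ g x, hF g x x.2⟩ = ⟨ρ g (J x), hF g (J x) (J x).2⟩ := by
      intro F hF hlt
      let ρF : G →* (F →ₗ[ℝ] F) :=
        { toFun := fun g => (ρ g).restrict (hF g)
          map_one' := by ext x; simp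
          map_mul' := by intro g h; ext x; simp }
      obtain ⟨J, hJ1, hJ2, hJ3⟩ := ih _ hlt F ρF (by
        intro g x y
        have := hi g x y
        exact this) (by
        intro g hg x hx
        apply Subtype.ext
        exact hfree g hg x (congrArg Subtype.val hx)) rfl
      exact ⟨J, hJ1, hJ2, hJ3⟩
    obtain ⟨J₁, hJ11, hJ12, hJ13⟩ := mk E hEinv h1
    obtain ⟨J₂, hJ21, hJ22, hJ23⟩ := mk Eᗮ hEinv' h2
    let P1 : U →ₗ[ℝ] E := (E.orthogonalProjectionOnto : U →L[ℝ] E).toLinearMap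
    let P2 : U →ₗ[ℝ] Eᗮ := (Eᗮ.orthogonalProjectionOnto : U →L[ℝ] Eᗮ).toLinearMap
    have hP1 : ∀ (u : E) (v : Eᗮ), P1 ((u : U) + (v : U)) = u := by
      intro u v
      have h1 : P1 (u : U) = u := E.orthogonalProjectionOnto_mem_subspace_eq_self u
      have h2 : P1 (v : U) = 0 := Submodule.orthogonalProjectionOnto_apply_of_mem_orthogonal v.2
      rw [map_add, h1, h2, add_zero]
    have hP2 : ∀ (u : E) (v : Eᗮ), P2 ((u : U) + (v : U)) = v := by
      intro u v
      have h1 : P2 (v : U) = v := Eᗮ.orthogonalProjectionOnto_mem_subspace_eq_self v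
      have h2 : P2 (u : U) = 0 := Submodule.orthogonalProjectionOnto_orthogonal_apply_eq_zero u.2
      rw [map_add, h1, h2, zero_add]
    have hdec : ∀ x : U, ∃ (u : E) (v : Eᗮ), x = (u : U) + (v : U) := by
      intro x
      obtain ⟨y, hy, z, hz, h⟩ := E.exists_add_mem_mem_orthogonal x
      exact ⟨⟨y, hy⟩, ⟨z, hz⟩, h⟩
    have horth : ∀ (u : E) (v : Eᗮ), (inner ℝ (u : U) (v : U) : ℝ) = 0 := by
      intro u v
      exact (Submodule.mem_orthogonal E (v : U)).mp v.2 u u.2
    have horth' : ∀ (u : E) (v : Eᗮ), (inner ℝ (v : U) (u : U) : ℝ) = 0 := by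
      intro u v
      rw [real_inner_comm]; exact horth u v
    refine ⟨E.subtype ∘ₗ J₁ ∘ₗ P1 + Eᗮ.subtype ∘ₗ J₂ ∘ₗ P2, ?_, ?_, ?_⟩
    · intro x
      obtain ⟨u, v, rfl⟩ := hdec x
      simp only [LinearMap.add_apply, LinearMap.comp_apply, hP1, hP2, Submodule.subtype_apply,
        inner_add_left, inner_add_right, horth, horth']
      have h3 : (inner ℝ (u : U) ((J₁ u : E) : U) : ℝ) = 0 := hJ11 u
      have h4 : (inner ℝ (v : U) ((J₂ v : Eᗮ) : U) : ℝ) = 0 := hJ21 v
      rw [h3, h4]; ring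
    · intro x
      obtain ⟨u, v, rfl⟩ := hdec x
      simp only [LinearMap.add_apply, LinearMap.comp_apply, hP1, hP2, Submodule.subtype_apply]
      have h3 : ‖((J₁ u : E) : U)‖ = ‖(u : U)‖ := hJ12 u
      have h4 : ‖((J₂ v : Eᗮ) : U)‖ = ‖(v : U)‖ := hJ22 v
      have h5 := norm_add_sq_eq_norm_sq_add_norm_sq_of_inner_eq_zero _ _ (horth u v)
      have h6 := norm_add_sq_eq_norm_sq_add_norm_sq_of_inner_eq_zero _ _ (horth (J₁ u) (J₂ v))
      rw [h3, h4, ← h5] at h6
      exact (mul_self_inj (norm_nonneg _) (norm_nonneg _)).mp h6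
    · intro g x
      obtain ⟨u, v, rfl⟩ := hdec x
      have h3 : ρ g ((u : U) + (v : U)) =
          ((⟨ρ g u, hEinv g u u.2⟩ : E) : U) + ((⟨ρ g v, hEinv' g v v.2⟩ : Eᗮ) : U) := by
        rw [map_add]
      simp only [LinearMap.add_apply, LinearMap.comp_apply]
      rw [h3]
      rw [hP1 ⟨ρ g u, hEinv g u u.2⟩ ⟨ρ g v, hEinv' g v v.2⟩,
        hP2 ⟨ρ g u, hEinv g u u.2⟩ ⟨ρ g v, hEinv' g v v.2⟩, hP1, hP2, hJ13, hJ23]
      simp only [Submodule.subtype_apply, map_add]



/-- an even dimensional space has a complex structure -/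
theorem exists_J_even {W : Type} [NormedAddCommGroup W] [InnerProductSpace ℝ W]
    [FiniteDimensional ℝ W] (hev : Even (finrank ℝ W)) :
    ∃ J : W →ₗ[ℝ] W, (∀ x, (inner ℝ x (J x) : ℝ) = 0) ∧ (∀ x, ‖J x‖ = ‖x‖) := by
  classical
  obtain ⟨k, hk⟩ := hev
  let b : OrthonormalBasis (Fin k ⊕ Fin k) ℝ W :=
    (stdOrthonormalBasis ℝ W).reindex ((finCongr hk).trans finSumFinEquiv.symm)
  let b' : Fin k ⊕ Fin k → W := Sum.elim (fun i => b (Sum.inr i)) (fun i => - b (Sum.inl i))
  let J : W →ₗ[ℝ] W := b.toBasis.constr ℝ b'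
  have hJ : ∀ i, J (b i) = b' i := by
    intro i
    have := b.toBasis.constr_basis ℝ b' i
    simpa [J] using this
  have hb := b.orthonormal
  have hb2 := orthonormal_iff_ite.mp hb
  have hb' : Orthonormal ℝ b' := by
    rw [orthonormal_iff_ite]
    rintro (i | i) (j | j)
    · simp [b', hb2]
    · simp [b', hb2, inner_neg_right]
    · simp [b', hb2, inner_neg_left]
    · simp [b', hb2, inner_neg_left, inner_neg_right]
  have hf : Orthonormal ℝ (J ∘ b.toBasis) := by
    have : J ∘ b.toBasis = b' := by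
      funext i
      simp [hJ]
    rw [this]; exact hb'
  have hv : Orthonormal ℝ b.toBasis := by simpa using hb
  let I := J.isometryOfOrthonormal hv hf
  have hI : ∀ x, I x = J x := fun x => rfl
  have hJJ : ∀ x, J (J x) = - x := by
    have : J ∘ₗ J = - LinearMap.id := by
      apply b.toBasis.ext
      rintro (i | i)
      · simp [hJ, b']
      · simp [hJ, b']
    intro x
    exact congrArg (fun f : W →ₗ[ℝ] W => f x) this
  refine ⟨J, fun x => ?_, fun x => ?_⟩
  · have h1 : (inner ℝ (J x) (J (J x)) : ℝ) = inner ℝ x (J x) := I.inner_map_map x (J x)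
    rw [hJJ, inner_neg_right, real_inner_comm] at h1
    linarith
  · exact I.norm_map x

end AllCase

/-- JOB: a finite group acting freely on the sphere of an even dimensional space commutes with a
complex structure -/
theorem exists_J_all {W : Type} [NormedAddCommGroup W] [InnerProductSpace ℝ W]
    [FiniteDimensional ℝ W] (hev : Even (finrank ℝ W)) (G : Subgroup (W ≃ₗᵢ[ℝ] W)) [Finite G]
    (hfree : ∀ g ∈ G, g ≠ 1 → ∀ x : W, x ≠ 0 → g x ≠ x) :
    ∃ J : W →L[ℝ] W, (∀ x, (inner ℝ x (J x) : ℝ) = 0) ∧ (∀ x, ‖J x‖ = ‖x‖) ∧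
      ∀ g ∈ G, ∀ x, J (g x) = g (J x) := by
  classical
  have : Fintype G := Fintype.ofFinite G
  by_cases hcard : 2 < Fintype.card G
  · let ρ : G →* (W →ₗ[ℝ] W) :=
      { toFun := fun g => ((g : W ≃ₗᵢ[ℝ] W).toLinearEquiv : W →ₗ[ℝ] W)
        map_one' := by ext x; simp
        map_mul' := by intro g h; ext x; simp }
    have hρ : ∀ (g : G) x, ρ g x = (g : W ≃ₗᵢ[ℝ] W) x := fun g x => rfl
    obtain ⟨J, hJ1, hJ2, hJ3⟩ := AllCase.exists_J_aux (G := G) hcard
      (finrank ℝ W) W ρ (by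
        intro g x y
        rw [hρ, hρ]
        exact (g : W ≃ₗᵢ[ℝ] W).inner_map_map x y) (by
        intro g hg x hx
        by_contra hne0
        refine hfree g g.2 (fun h => hg (Subtype.ext h)) x hne0 ?_
        exact hx) rfl
    refine ⟨LinearMap.toContinuousLinearMap J, hJ1, hJ2, fun g hg x => ?_⟩
    exact hJ3 ⟨g, hg⟩ x
  · push Not at hcard
    obtain ⟨J, hJ1, hJ2⟩ := AllCase.exists_J_even hev
    refine ⟨LinearMap.toContinuousLinearMap J, hJ1, hJ2, fun g hg x => ?_⟩
    change J (g x) = g (J x)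
    by_cases hg1 : g = 1
    · subst hg1; simp
    · -- g * g = 1
      have hgg : g * g = 1 := by
        by_contra hgg
        have hinj : Function.Injective (![⟨1, G.one_mem⟩, ⟨g, hg⟩, ⟨g * g, G.mul_mem hg hg⟩] : Fin 3 → G) := by
          intro a c hac
          fin_cases a <;> fin_cases c <;> simp_all [Subtype.ext_iff, eq_comm]
        have := Fintype.card_le_of_injective _ hinj
        simp at this
        omega
      have hneg : ∀ y, g y = - y := by
        intro y
        by_contra hne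
        have h1 : y + g y ≠ 0 := by
          intro h
          exact hne (eq_neg_of_add_eq_zero_right h)
        apply hfree g hg hg1 _ h1
        rw [map_add]
        have : g (g y) = y := by
          have := congrArg (fun f : W ≃ₗᵢ[ℝ] W => f y) hgg
          simpa using this
        rw [this, add_comm]
      rw [hneg, hneg, map_neg]

end EX3

end Pool.Agent.Helper954.Hopf
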