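import Pool.Agent.Helper954.Hopf.AF

set_option autoImplicit false

namespace Pool.Agent.Helper954.Hopf

open MeasureTheory Set
open scoped BigOperators
open scoped ENNReal
open AF (area_fubini)

namespace H1


section helpers
variable {p : ℕ} {I : Type}

theorem h1_norm_cx_sq (w : Cx I) (i : I) : ‖cx w i‖ ^ 2 = w (i, 0) ^ 2 + w (i, 1) ^ 2 := by
  rw [← Complex.normSq_eq_norm_sq]
  simp only [Complex.normSq_apply, cx]
  ring

variable [Fintype I]

theorem h1_mm_eq (κ : I → ZMod p) (a : Ty p) (w : Cx I) :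
    mm κ 1 a w = 1 + ∑ i, if κ i = a.1 then w (i, 0) ^ 2 + w (i, 1) ^ 2 else 0 := by
  unfold mm
  simp only [h1_norm_cx_sq, one_pow]

theorem h1_mm_ge (κ : I → ZMod p) (a : Ty p) (w : Cx I) : 1 ≤ mm κ 1 a w := by
  rw [h1_mm_eq]
  have : 0 ≤ ∑ i, if κ i = a.1 then w (i, 0) ^ 2 + w (i, 1) ^ 2 else 0 := by
    apply Finset.sum_nonneg
    intro i _
    split_ifs
    · positivity
    · exact le_rfl
  linarith

theorem h1_mm_pos (κ : I → ZMod p) (a : Ty p) (w : Cx I) : 0 < mm κ 1 a w :=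
  lt_of_lt_of_le one_pos (h1_mm_ge κ a w)

theorem h1_xi_re (κ : I → ZMod p) (θ : Par p I → ℝ) (a : Ty p) (w : Cx I) :
    (xi κ θ a w).re = xire κ θ a w := by
  unfold xi xire
  rw [Complex.re_sum, sum_apply]
  apply Finset.sum_congr rfl
  intro i _
  split_ifs
  · simp [Complex.mul_re, cx]
  · simp

theorem h1_xi_im (κ : I → ZMod p) (θ : Par p I → ℝ) (a : Ty p) (w : Cx I) :
    (xi κ θ a w).im = xiim κ θ a w := by
  unfold xi xiim
  rw [Complex.im_sum, sum_apply]
  apply Finset.sum_congr rfl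
  intro i _
  split_ifs
  · simp [Complex.mul_im, cx]
  · simp

theorem h1_hasFDerivAt_coord (s : I × Fin 2) (w : Cx I) :
    HasFDerivAt (fun w : Cx I => w s) (EuclideanSpace.proj s : Cx I →L[ℝ] ℝ) w :=
  (EuclideanSpace.proj s : Cx I →L[ℝ] ℝ).hasFDerivAt

theorem h1_hasFDerivAt_mm (κ : I → ZMod p) (a : Ty p) (w : Cx I) :
    HasFDerivAt (fun w => mm κ 1 a w) ((2 : ℝ) • ipA κ a w) w := by
  have h1 : ∀ i : I, HasFDerivAt
      (fun w : Cx I => if κ i = a.1 then w (i, 0) ^ 2 + w (i, 1) ^ 2 else 0)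
      ((2 : ℝ) • (if κ i = a.1 then w (i, 0) • (EuclideanSpace.proj (i, 0) : Cx I →L[ℝ] ℝ)
        + w (i, 1) • (EuclideanSpace.proj (i, 1) : Cx I →L[ℝ] ℝ) else 0)) w := by
    intro i
    split_ifs with h
    · refine (((h1_hasFDerivAt_coord (i, 0) w).pow 2).add
        ((h1_hasFDerivAt_coord (i, 1) w).pow 2)).congr_fderiv ?_
      ext v
      simp
      ring
    · simpa using hasFDerivAt_const (0 : ℝ) w
  have h2 := HasFDerivAt.fun_sum (u := Finset.univ) (fun i _ => h1 i)
  have h3 := h2.const_add (1 : ℝ)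
  have h4 : (fun w => mm κ 1 a w) = fun w : Cx I =>
      1 + ∑ i, if κ i = a.1 then w (i, 0) ^ 2 + w (i, 1) ^ 2 else 0 := by
    funext w
    exact h1_mm_eq κ a w
  rw [h4]
  refine h3.congr_fderiv ?_
  unfold ipA
  rw [Finset.smul_sum]

theorem h1_hasFDerivAt_E (κ : I → ZMod p) (θ : Par p I → ℝ) (a b : Ty p) (w : Cx I) :
    HasFDerivAt (fun w => pe θ a * mm κ 1 b w / mm κ 1 a w) (dE κ θ a b w) w := by
  have hne : mm κ 1 a w ≠ 0 := (h1_mm_pos κ a w).ne'
  have h1 := h1_hasFDerivAt_mm κ a w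
  have h2 := h1_hasFDerivAt_mm κ b w
  have h3 : HasFDerivAt (fun w => (mm κ 1 a w)⁻¹)
      ((-(mm κ 1 a w ^ 2)⁻¹) • ((2 : ℝ) • ipA κ a w)) w :=
    (hasDerivAt_inv hne).comp_hasFDerivAt w h1
  have h4 := (h2.mul h3).const_mul (pe θ a)
  have h5 : (fun w => pe θ a * mm κ 1 b w / mm κ 1 a w) =
      fun w => pe θ a * (mm κ 1 b w * (mm κ 1 a w)⁻¹) := by
    funext w
    rw [div_eq_mul_inv, mul_assoc]
  rw [h5]
  refine h4.congr_fderiv ?_
  unfold dE
  ext v
  simp
  field_simp
  ring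

theorem h1_hasFDerivAt_FF (κ : I → ZMod p) (θ : Par p I → ℝ) (w : Cx I) (o : Opt p) (i : Fin 2) :
    HasFDerivAt (fun w => FF κ θ w o i) (GG κ θ w o i) w := by
  have hre : ∀ a : Ty p, HasFDerivAt (fun w => (xi κ θ a w).re) (xire κ θ a) w := by
    intro a
    simp only [h1_xi_re]
    exact (xire κ θ a).hasFDerivAt
  have him : ∀ a : Ty p, HasFDerivAt (fun w => (xi κ θ a w).im) (xiim κ θ a) w := by
    intro a
    simp only [h1_xi_im]
    exact (xiim κ θ a).hasFDerivAt
  rcases o with a | ⟨a, b, l⟩ | ⟨a, b, c⟩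
  · fin_cases i
    · exact hre a
    · exact him a
  · fin_cases i
    · exact h1_hasFDerivAt_E κ θ a b w
    · exact (him a).sub (((hre a).sub_const _).const_mul (tl p l))
  · fin_cases i
    · exact h1_hasFDerivAt_E κ θ a b w
    · exact h1_hasFDerivAt_E κ θ a c w

/-- first type of an option -/
def h1a : Opt p → Ty p
  | Sum.inl a => a
  | Sum.inr (Sum.inl (a, _, _)) => a
  | Sum.inr (Sum.inr (a, _, _)) => a

/-- closed part of the region -/
def Rc (κ : I → ZMod p) (θ : Par p I → ℝ) (w : Cx I) : Opt p → Prop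
  | Sum.inl a => ∀ d, mm κ 1 d w * pe θ a ≤ mm κ 1 a w * pe θ d
  | Sum.inr (Sum.inl (a, b, _)) => a ≠ b ∧
      ∀ d, d ≠ b → mm κ 1 d w * pe θ a ≤ mm κ 1 a w * pe θ d
  | Sum.inr (Sum.inr (a, b, c)) => a ≠ b ∧ a ≠ c ∧ b ≠ c ∧
      ∀ d, d ≠ b → d ≠ c → mm κ 1 d w * pe θ a ≤ mm κ 1 a w * pe θ d

theorem h1_Rg_iff (κ : I → ZMod p) (θ : Par p I → ℝ) (w : Cx I) (o : Opt p) :
    Rg κ θ w o ↔ 0 < pe θ (h1a o) ∧ Rc κ θ w o := by
  rcases o with a | ⟨a, b, l⟩ | ⟨a, b, c⟩
  · simp only [Rg, Rc, h1a]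
  · simp only [Rg, Rc, h1a]
    tauto
  · simp only [Rg, Rc, h1a]
    tauto

theorem h1_cont_pe (a : Ty p) : Continuous (fun q : (Par p I → ℝ) × Cx I => pe q.1 a) := by
  unfold pe
  fun_prop

theorem h1_cont_mm (κ : I → ZMod p) (a : Ty p) :
    Continuous (fun q : (Par p I → ℝ) × Cx I => mm κ 1 a q.2) := by
  simp only [h1_mm_eq]
  refine continuous_const.add (continuous_finsetSum _ fun i _ => ?_)
  split_ifs
  · fun_prop
  · exact continuous_const

theorem h1_cont_xire (κ : I → ZMod p) (a : Ty p) :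
    Continuous (fun q : (Par p I → ℝ) × Cx I => xire κ q.1 a) := by
  unfold xire pc
  refine continuous_finsetSum _ fun i _ => ?_
  split_ifs
  · fun_prop
  · exact continuous_const

theorem h1_cont_xiim (κ : I → ZMod p) (a : Ty p) :
    Continuous (fun q : (Par p I → ℝ) × Cx I => xiim κ q.1 a) := by
  unfold xiim pc
  refine continuous_finsetSum _ fun i _ => ?_
  split_ifs
  · fun_prop
  · exact continuous_const

theorem h1_cont_ipA (κ : I → ZMod p) (a : Ty p) :
    Continuous (fun q : (Par p I → ℝ) × Cx I => ipA κ a q.2) := by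
  unfold ipA
  refine continuous_finsetSum _ fun i _ => ?_
  split_ifs
  · fun_prop
  · exact continuous_const

theorem h1_cont_re (κ : I → ZMod p) (a : Ty p) :
    Continuous (fun q : (Par p I → ℝ) × Cx I => (xi κ q.1 a q.2).re) := by
  simp only [h1_xi_re]
  exact (h1_cont_xire κ a).clm_apply continuous_snd

theorem h1_cont_im (κ : I → ZMod p) (a : Ty p) :
    Continuous (fun q : (Par p I → ℝ) × Cx I => (xi κ q.1 a q.2).im) := by
  simp only [h1_xi_im]
  exact (h1_cont_xiim κ a).clm_apply continuous_snd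

theorem h1_cont_E (κ : I → ZMod p) (a b : Ty p) :
    Continuous (fun q : (Par p I → ℝ) × Cx I => pe q.1 a * mm κ 1 b q.2 / mm κ 1 a q.2) :=
  ((h1_cont_pe a).mul (h1_cont_mm κ b)).div (h1_cont_mm κ a) fun q => (h1_mm_pos κ a q.2).ne'

theorem h1_cont_py (a : Ty p) :
    Continuous (fun q : (Par p I → ℝ) × Cx I => (py q.1 a).re) := by
  unfold py
  fun_prop

theorem h1_cont_FF (κ : I → ZMod p) (o : Opt p) (i : Fin 2) :
    Continuous (fun q : (Par p I → ℝ) × Cx I => FF κ q.1 q.2 o i) := by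
  rcases o with a | ⟨a, b, l⟩ | ⟨a, b, c⟩
  · fin_cases i
    · exact h1_cont_re κ a
    · exact h1_cont_im κ a
  · fin_cases i
    · exact h1_cont_E κ a b
    · exact (h1_cont_im κ a).sub (continuous_const.mul ((h1_cont_re κ a).sub (h1_cont_py a)))
  · fin_cases i
    · exact h1_cont_E κ a b
    · exact h1_cont_E κ a c

theorem h1_cont_dE (κ : I → ZMod p) (a b : Ty p) :
    Continuous (fun q : (Par p I → ℝ) × Cx I => dE κ q.1 a b q.2) := by
  unfold dE
  have hne : ∀ q : (Par p I → ℝ) × Cx I, mm κ 1 a q.2 ≠ 0 := fun q => (h1_mm_pos κ a q.2).ne'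
  have hne2 : ∀ q : (Par p I → ℝ) × Cx I, mm κ 1 a q.2 ^ 2 ≠ 0 := fun q => pow_ne_zero 2 (hne q)
  refine (h1_cont_pe a).smul ?_
  refine Continuous.sub ?_ ?_
  · exact (continuous_const.div (h1_cont_mm κ a) hne).smul (h1_cont_ipA κ b)
  · exact ((continuous_const.mul (h1_cont_mm κ b)).div ((h1_cont_mm κ a).pow 2) hne2).smul
      (h1_cont_ipA κ a)

theorem h1_cont_GG (κ : I → ZMod p) (o : Opt p) (i : Fin 2) :
    Continuous (fun q : (Par p I → ℝ) × Cx I => GG κ q.1 q.2 o i) := by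
  rcases o with a | ⟨a, b, l⟩ | ⟨a, b, c⟩
  · fin_cases i
    · exact h1_cont_xire κ a
    · exact h1_cont_xiim κ a
  · fin_cases i
    · exact h1_cont_dE κ a b
    · exact (h1_cont_xiim κ a).sub ((h1_cont_xire κ a).const_smul (tl p l))
  · fin_cases i
    · exact h1_cont_dE κ a b
    · exact h1_cont_dE κ a c

theorem h1_closed_Rc (κ : I → ZMod p) (o : Opt p) :
    IsClosed {q : (Par p I → ℝ) × Cx I | Rc κ q.1 q.2 o} := by
  have hle : ∀ a d : Ty p, IsClosed {q : (Par p I → ℝ) × Cx I |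
      mm κ 1 d q.2 * pe q.1 a ≤ mm κ 1 a q.2 * pe q.1 d} := fun a d =>
    isClosed_le ((h1_cont_mm κ d).mul (h1_cont_pe a)) ((h1_cont_mm κ a).mul (h1_cont_pe d))
  rcases o with a | ⟨a, b, l⟩ | ⟨a, b, c⟩
  · have h : {q : (Par p I → ℝ) × Cx I | Rc κ q.1 q.2 (Sum.inl a : Opt p)} =
        ⋂ d, {q | mm κ 1 d q.2 * pe q.1 a ≤ mm κ 1 a q.2 * pe q.1 d} := by
      ext q
      simp [Rc]
    rw [h]
    exact isClosed_iInter fun d => hle a d
  · have h : {q : (Par p I → ℝ) × Cx I | Rc κ q.1 q.2 (Sum.inr (Sum.inl (a, b, l)) : Opt p)} =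
        {_q | a ≠ b} ∩ ⋂ d, ⋂ (_ : d ≠ b),
          {q | mm κ 1 d q.2 * pe q.1 a ≤ mm κ 1 a q.2 * pe q.1 d} := by
      ext q
      simp [Rc]
    rw [h]
    exact isClosed_const.inter (isClosed_iInter fun d => isClosed_iInter fun _ => hle a d)
  · have h : {q : (Par p I → ℝ) × Cx I | Rc κ q.1 q.2 (Sum.inr (Sum.inr (a, b, c)) : Opt p)} =
        {_q | a ≠ b ∧ a ≠ c ∧ b ≠ c} ∩ ⋂ d, ⋂ (_ : d ≠ b), ⋂ (_ : d ≠ c),
          {q | mm κ 1 d q.2 * pe q.1 a ≤ mm κ 1 a q.2 * pe q.1 d} := by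
      ext q
      simp [Rc, and_assoc]
    rw [h]
    exact isClosed_const.inter
      (isClosed_iInter fun d => isClosed_iInter fun _ => isClosed_iInter fun _ => hle a d)

end helpers

section two
variable {p : ℕ} {I : Type}

theorem h1_meas_hE : Measurable hE := by
  unfold hE
  exact ENNReal.measurable_ofReal.comp
    (Measurable.ite measurableSet_Ioi (by fun_prop) measurable_const)

theorem h1_meas_hG : Measurable hG := by
  unfold hG
  fun_prop

theorem h1_meas_hd (k : Par p I) : Measurable (hd k) := by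
  rcases k with _ | _
  · exact h1_meas_hE
  · exact h1_meas_hG

theorem h1_prob_hE : IsProbabilityMeasure ((volume : Measure ℝ).withDensity hE) := by
  constructor
  rw [withDensity_apply _ MeasurableSet.univ, Measure.restrict_univ]
  have h : ∀ t, hE t = (Ioi (0 : ℝ)).indicator (fun t => ENNReal.ofReal (Real.exp (-t))) t := by
    intro t
    unfold hE
    by_cases ht : 0 < t
    · rw [if_pos ht, indicator_of_mem (by exact ht)]
    · rw [if_neg ht, indicator_of_notMem (by exact ht), ENNReal.ofReal_zero]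
  rw [lintegral_congr h, lintegral_indicator measurableSet_Ioi,
    ← ofReal_integral_eq_lintegral_ofReal (integrableOn_exp_neg_Ioi 0)
      (Filter.Eventually.of_forall fun t => (Real.exp_pos _).le),
    integral_exp_neg_Ioi_zero, ENNReal.ofReal_one]

theorem h1_prob_hG : IsProbabilityMeasure ((volume : Measure ℝ).withDensity hG) := by
  constructor
  rw [withDensity_apply _ MeasurableSet.univ, Measure.restrict_univ]
  have h : ∀ t, hG t = ENNReal.ofReal (ProbabilityTheory.gaussianPDFReal 0 1 t) := by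
    intro t
    unfold hG ProbabilityTheory.gaussianPDFReal
    congr 1
    simp
    ring
  rw [lintegral_congr h]
  exact ProbabilityTheory.lintegral_gaussianPDFReal_eq_one 0 one_ne_zero

theorem h1_prob_hd (k : Par p I) : IsProbabilityMeasure ((volume : Measure ℝ).withDensity (hd k)) := by
  rcases k with _ | _
  · exact h1_prob_hE
  · exact h1_prob_hG

theorem h1_cos (hp : Odd p) (l : ℕ) : Real.cos (2 * Real.pi * l / p) ≠ 0 := by
  intro h
  rw [Real.cos_eq_zero_iff] at h
  obtain ⟨k, hk⟩ := h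
  have hp0 : (p : ℝ) ≠ 0 := by
    have : p ≠ 0 := by
      rintro rfl
      exact absurd hp (by decide)
    exact_mod_cast this
  have hpi := Real.pi_ne_zero
  field_simp at hk
  have h1 : (4 * (l : ℤ)) = (2 * k + 1) * (p : ℤ) := by
    have h2 : (4 * (l : ℝ)) = (2 * k + 1) * (p : ℝ) := by linarith
    exact_mod_cast h2
  have h2 : Odd ((2 * k + 1) * (p : ℤ)) := by
    refine Odd.mul ⟨k, rfl⟩ ?_
    exact_mod_cast hp
  rw [← h1] at h2
  have h3 : Even (4 * (l : ℤ)) := ⟨2 * l, by ring⟩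
  exact (Int.not_even_iff_odd.2 h2) h3

theorem h1_om_pow (p n : ℕ) : om p ^ n = ⟨Real.cos (2 * Real.pi * n / p), Real.sin (2 * Real.pi * n / p)⟩ := by
  unfold om
  rw [← Complex.exp_nat_mul]
  have h : (n : ℂ) * (2 * Real.pi * Complex.I / p) =
      ((2 * Real.pi * n / p : ℝ) : ℂ) * Complex.I := by
    push_cast
    ring
  rw [h]
  apply Complex.ext
  · rw [Complex.exp_ofReal_mul_I_re]
  · rw [Complex.exp_ofReal_mul_I_im]

variable [Fintype I]

theorem h1_Sat (hp : Odd p) (κ : I → ZMod p) (θ : Par p I → ℝ) (w : Cx I) (o : Opt p)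
    (hpos : ∀ a, 0 < pe θ a) (h : Sat κ θ w 1 o) :
    Rg κ θ w o ∧ ∀ i, θ (tgt o i) = FF κ θ w o i := by
  have hE : ∀ a b : Ty p, Tie κ θ w 1 a b →
      θ (Sum.inl b) = pe θ a * mm κ 1 b w / mm κ 1 a w := by
    intro a b hab
    unfold Tie at hab
    have hne : mm κ 1 a w ≠ 0 := (h1_mm_pos κ a w).ne'
    rw [eq_div_iff hne]
    unfold pe at hab ⊢
    linarith
  rcases o with a | ⟨a, b, l⟩ | ⟨a, b, c⟩
  · obtain ⟨h1, h2⟩ := h
    refine ⟨⟨hpos a, h1⟩, ?_⟩
    intro i
    have h3 : xi κ θ a w = py θ a := by simpa using h2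
    fin_cases i
    · change θ (Sum.inr (Sum.inl (a, 0))) = (xi κ θ a w).re
      rw [h3]
      rfl
    · change θ (Sum.inr (Sum.inl (a, 1))) = (xi κ θ a w).im
      rw [h3]
      rfl
  · obtain ⟨h1, h2, h3, h4⟩ := h
    refine ⟨⟨h1, hpos a, fun d _ => h2 d⟩, ?_⟩
    intro i
    fin_cases i
    · exact hE a b h3
    · change θ (Sum.inr (Sum.inl (a, 1))) =
        (xi κ θ a w).im - tl p l * ((xi κ θ a w).re - (py θ a).re)
      have hcos := h1_cos hp l.val
      rw [h1_om_pow] at h4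
      simp only [Complex.ofReal_one, one_mul, Complex.mul_im, Complex.conj_re, Complex.conj_im,
        Complex.sub_re, Complex.sub_im] at h4
      have h5 : (py θ a).im = θ (Sum.inr (Sum.inl (a, 1))) := rfl
      rw [← h5]
      unfold tl
      rw [Real.tan_eq_sin_div_cos]
      field_simp
      linarith
  · obtain ⟨h1, h2, h3, h4, h5, h6⟩ := h
    refine ⟨⟨h1, h2, h3, hpos a, fun d _ _ => h4 d⟩, ?_⟩
    intro i
    fin_cases i
    · exact hE a b h5
    · exact hE a c h6

theorem h1_meas_Rg [NeZero p] (κ : I → ZMod p) (o : Opt p) :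
    MeasurableSet {q : (Par p I → ℝ) × Cx I | Rg κ q.1 q.2 o} := by
  have h : {q : (Par p I → ℝ) × Cx I | Rg κ q.1 q.2 o} =
      {q | 0 < pe q.1 (h1a o)} ∩ {q | Rc κ q.1 q.2 o} := by
    ext q
    exact h1_Rg_iff κ q.1 q.2 o
  rw [h]
  exact (isOpen_lt continuous_const (h1_cont_pe _)).measurableSet.inter
    (h1_closed_Rc κ o).measurableSet

theorem h1_meas_Wt [NeZero p] (κ : I → ZMod p) (o : Opt p) :
    Measurable (fun q : (Par p I → ℝ) × Cx I => Wt κ q.1 q.2 o) := by
  unfold Wt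
  refine Measurable.ite (h1_meas_Rg κ o) ?_ measurable_const
  exact ((h1_meas_hd _).comp (h1_cont_FF κ o 0).measurable).mul
    ((h1_meas_hd _).comp (h1_cont_FF κ o 1).measurable)

theorem h1_sigma_meas {X : Type*} [TopologicalSpace X] [T2Space X] [MeasurableSpace X]
    [OpensMeasurableSpace X] {S : Set X} (h : IsSigmaCompact S) : MeasurableSet S := by
  obtain ⟨K, hK, rfl⟩ := h
  exact MeasurableSet.iUnion fun n => (hK n).measurableSet

theorem h1_meas_hit [NeZero p] {J : Type} [Fintype J] (κ : I → ZMod p) (Y : Cx J → Cx I)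
    (G : Set (Cx J)) (hG : IsOpen G) (hY : ContinuousOn Y G) (o : J → Opt p) :
    MeasurableSet {θ : J → Par p I → ℝ | ∃ x, (x ∈ G ∧ ∀ j, Rg κ (θ j) (Y x) (o j)) ∧
      ∀ j i, θ j (tgt (o j) i) = FF κ (θ j) (Y x) (o j) i} := by
  set O : Set ((J → Par p I → ℝ) × Cx J) :=
    {q | q.2 ∈ G} ∩ ⋂ j, {q | 0 < pe (q.1 j) (h1a (o j))} with hOdef
  have hO : IsOpen O := by
    refine (hG.preimage continuous_snd).inter (isOpen_iInter_of_finite fun j => ?_)
    refine isOpen_lt continuous_const ?_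
    unfold pe
    fun_prop
  set Ψ : (J → Par p I → ℝ) × Cx J → (J → Par p I → ℝ) × Cx I := fun q => (q.1, Y q.2) with hΨdef
  have hΨ : ContinuousOn Ψ O := by
    refine continuousOn_fst.prodMk (hY.comp continuousOn_snd ?_)
    intro q hq
    exact hq.1
  set C : Set ((J → Par p I → ℝ) × Cx I) :=
    (⋂ j, {q | Rc κ (q.1 j) q.2 (o j)}) ∩
      ⋂ j, ⋂ i, {q | q.1 j (tgt (o j) i) = FF κ (q.1 j) q.2 (o j) i} with hCdef
  have hpr : ∀ j : J, Continuous
      (fun q : (J → Par p I → ℝ) × Cx I => ((q.1 j, q.2) : (Par p I → ℝ) × Cx I)) := by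
    intro j
    fun_prop
  have hC : IsClosed C := by
    refine IsClosed.inter (isClosed_iInter fun j => ?_)
      (isClosed_iInter fun j => isClosed_iInter fun i => ?_)
    · exact (h1_closed_Rc κ (o j)).preimage (hpr j)
    · refine isClosed_eq ?_ ((h1_cont_FF κ (o j) i).comp (hpr j))
      fun_prop
  set V := O ∩ Ψ ⁻¹' Cᶜ with hVdef
  have hV : IsOpen V := hΨ.isOpen_inter_preimage hO hC.isOpen_compl
  set S := O ∩ Vᶜ with hSdef
  have hSloc : IsLocallyClosed S := ⟨O, Vᶜ, hO, hV.isClosed_compl, rfl⟩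
  have : LocallyCompactSpace S := hSloc.locallyCompactSpace
  have hSσ : IsSigmaCompact S := isSigmaCompact_iff_sigmaCompactSpace.2 inferInstance
  have him : IsSigmaCompact (Prod.fst '' S) := hSσ.image continuous_fst
  have heq : {θ : J → Par p I → ℝ | ∃ x, (x ∈ G ∧ ∀ j, Rg κ (θ j) (Y x) (o j)) ∧
      ∀ j i, θ j (tgt (o j) i) = FF κ (θ j) (Y x) (o j) i} = Prod.fst '' S := by
    ext θ
    constructor
    · rintro ⟨x, ⟨hx, h1⟩, h2⟩
      have hOx : (θ, x) ∈ O := by
        refine ⟨hx, ?_⟩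
        simp only [mem_iInter]
        intro j
        exact ((h1_Rg_iff κ (θ j) (Y x) (o j)).1 (h1 j)).1
      refine ⟨(θ, x), ⟨hOx, ?_⟩, rfl⟩
      intro hVx
      apply hVx.2
      refine ⟨?_, ?_⟩
      · simp only [mem_iInter]
        intro j
        exact ((h1_Rg_iff κ (θ j) (Y x) (o j)).1 (h1 j)).2
      · simp only [mem_iInter]
        intro j i
        exact h2 j i
    · rintro ⟨⟨θ', x⟩, ⟨hOx, hVx⟩, rfl⟩
      have hCx : Ψ (θ', x) ∈ C := by
        by_contra hc
        exact hVx ⟨hOx, hc⟩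
      obtain ⟨h1, h2⟩ := hCx
      simp only [mem_iInter] at h1 h2
      obtain ⟨h3, h4⟩ := hOx
      simp only [mem_iInter] at h4
      exact ⟨x, ⟨h3, fun j => (h1_Rg_iff κ (θ' j) (Y x) (o j)).2 ⟨h4 j, h1 j⟩⟩, h2⟩
  rw [heq]
  exact h1_sigma_meas him

end two

section three

theorem h1_rowMap_apply {J V : Type} [Fintype J] [NormedAddCommGroup V] [NormedSpace ℝ V]
    (f : J → Fin 2 → (V →L[ℝ] ℝ)) (v : V) (s : J × Fin 2) : rowMap f v s = f s.1 s.2 v := by
  rfl

theorem h1_rowMap_eq {J V : Type} [Fintype J] [DecidableEq J] [NormedAddCommGroup V]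
    [NormedSpace ℝ V] (f : J → Fin 2 → (V →L[ℝ] ℝ)) :
    rowMap f = ∑ s : J × Fin 2,
      (ContinuousLinearMap.toSpanSingleton ℝ (EuclideanSpace.single s (1 : ℝ))).comp
        (f s.1 s.2) := by
  ext v s
  rw [h1_rowMap_apply]
  simp [Finset.sum_apply, Pi.single_apply]

theorem h1_cont_rowMap {J V T : Type} [TopologicalSpace T] [Fintype J] [DecidableEq J]
    [NormedAddCommGroup V] [NormedSpace ℝ V] (f : T → J → Fin 2 → (V →L[ℝ] ℝ))
    (hf : ∀ j i, Continuous fun t => f t j i) : Continuous fun t => rowMap (f t) := by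
  simp only [h1_rowMap_eq]
  refine continuous_finsetSum _ fun s _ => ?_
  exact continuous_const.clm_comp (hf s.1 s.2)

end three

section four
variable {p : ℕ} {I J : Type} [Fintype I] [Fintype J]

/-- the integrand as a function of `(θ, w, D)` -/
noncomputable def h1Phi (κ : I → ZMod p) (o : J → Opt p)
    (q : (J → Par p I → ℝ) × (Cx I × (Cx J →L[ℝ] Cx I))) : ℝ≥0∞ :=
  (∏ j, Wt κ (q.1 j) q.2.1 (o j)) *
    ENNReal.ofReal |((rowMap fun j =>
      ![GG κ (q.1 j) q.2.1 (o j) 0, GG κ (q.1 j) q.2.1 (o j) 1]).comp q.2.2).det|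

theorem h1_meas_Phi [NeZero p] [DecidableEq J] (κ : I → ZMod p) (o : J → Opt p) :
    Measurable (h1Phi κ o) := by
  have hpr : ∀ j : J, Continuous
      (fun q : (J → Par p I → ℝ) × (Cx I × (Cx J →L[ℝ] Cx I)) =>
        ((q.1 j, q.2.1) : (Par p I → ℝ) × Cx I)) := by
    intro j
    fun_prop
  unfold h1Phi
  refine Measurable.mul ?_ (ENNReal.measurable_ofReal.comp ?_)
  · exact Finset.measurable_prod _ fun j _ => (h1_meas_Wt κ (o j)).comp (hpr j).measurable
  · refine Continuous.measurable ?_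
    refine continuous_abs.comp (ContinuousLinearMap.continuous_det.comp ?_)
    refine Continuous.clm_comp ?_ (continuous_snd.comp continuous_snd)
    apply h1_cont_rowMap (fun (q : (J → Par p I → ℝ) × (Cx I × (Cx J →L[ℝ] Cx I))) j =>
      ![GG κ (q.1 j) q.2.1 (o j) 0, GG κ (q.1 j) q.2.1 (o j) 1])
    intro j i
    fin_cases i
    · exact (h1_cont_GG κ (o j) 0).comp (hpr j)
    · exact (h1_cont_GG κ (o j) 1).comp (hpr j)

theorem h1_swap [NeZero p] [DecidableEq J] (κ : I → ZMod p) (Y : Cx J → Cx I) (G : Set (Cx J))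
    (hG : IsOpen G) (hY : ContinuousOn Y G) (o : J → Opt p) :
    ∫⁻ θ, (∫⁻ x in G, h1Phi κ o (θ, Y x, fderiv ℝ Y x)) ∂Measure.pi (fun _ : J => muF p I) =
    ∫⁻ x in G, (∫⁻ θ, h1Phi κ o (θ, Y x, fderiv ℝ Y x) ∂Measure.pi (fun _ : J => muF p I)) := by
  classical
  have hprob : IsProbabilityMeasure (muF p I) := by
    unfold muF
    have := fun k => h1_prob_hd (p := p) (I := I) k
    infer_instance
  have hYm : Measurable (G.piecewise Y (fun _ => 0)) :=
    hY.measurable_piecewise continuousOn_const hG.measurableSet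
  have hDm : Measurable (fderiv ℝ Y) := measurable_fderiv ℝ Y
  have hcongr : ∀ θ, ∀ x ∈ G, h1Phi κ o (θ, Y x, fderiv ℝ Y x) =
      h1Phi κ o (θ, G.piecewise Y (fun _ => 0) x, fderiv ℝ Y x) := by
    intro θ x hx
    rw [piecewise_eq_of_mem _ _ _ hx]
  have h1 : ∫⁻ θ, (∫⁻ x in G, h1Phi κ o (θ, Y x, fderiv ℝ Y x)) ∂Measure.pi (fun _ : J => muF p I) =
      ∫⁻ θ, (∫⁻ x in G, h1Phi κ o (θ, G.piecewise Y (fun _ => 0) x, fderiv ℝ Y x))
        ∂Measure.pi (fun _ : J => muF p I) := by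
    apply lintegral_congr
    intro θ
    exact setLIntegral_congr_fun hG.measurableSet (fun x hx => hcongr θ x hx)
  have h2 : ∫⁻ x in G, (∫⁻ θ, h1Phi κ o (θ, Y x, fderiv ℝ Y x) ∂Measure.pi (fun _ : J => muF p I)) =
      ∫⁻ x in G, (∫⁻ θ, h1Phi κ o (θ, G.piecewise Y (fun _ => 0) x, fderiv ℝ Y x)
        ∂Measure.pi (fun _ : J => muF p I)) := by
    apply setLIntegral_congr_fun hG.measurableSet
    intro x hx
    apply lintegral_congr
    intro θ
    exact hcongr θ x hx
  rw [h1, h2]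
  refine lintegral_lintegral_swap ?_
  refine Measurable.aemeasurable ?_
  exact (h1_meas_Phi κ o).comp (measurable_fst.prodMk
    ((hYm.comp measurable_snd).prodMk (hDm.comp measurable_snd)))

end four

/-- JOB: the measure of the set of parameters for which the system of equations has a solution
`(x, 1)` with `x ∈ G` and given options -/
theorem hit_measure {p : ℕ} [Fact p.Prime] (hp : p ≠ 2) {J I : Type} [Fintype J] [DecidableEq J]
    [Fintype I] [DecidableEq I] (κ : I → ZMod p) (Y : Cx J → Cx I) (G : Set (Cx J))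
    (hG : IsOpen G) (hY : ContDiffOn ℝ 1 Y G) (o : J → Opt p) :
    Measure.pi (fun _ : J => muF p I)
        {θ | (∀ j a, 0 < pe (θ j) a) ∧ ∃ x ∈ G, ∀ j, Sat κ (θ j) (Y x) 1 (o j)} ≤
      ∫⁻ x in G, ∫⁻ θ, (∏ j, Wt κ (θ j) (Y x) (o j)) *
        ENNReal.ofReal |((rowMap fun j => ![GG κ (θ j) (Y x) (o j) 0, GG κ (θ j) (Y x) (o j) 1]).comp
          (fderiv ℝ Y x)).det| ∂Measure.pi (fun _ : J => muF p I) := by
  classical
  have hodd : Odd p := (Fact.out : p.Prime).odd_of_ne_two hp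
  have hYc : ContinuousOn Y G := hY.continuousOn
  -- degenerate case
  by_cases hdeg : ∃ j, ¬ Function.Injective (tgt (I := I) (o j))
  · obtain ⟨j, hj⟩ := hdeg
    have hempty : {θ : J → Par p I → ℝ | (∀ j a, 0 < pe (θ j) a) ∧
        ∃ x ∈ G, ∀ j, Sat κ (θ j) (Y x) 1 (o j)} = ∅ := by
      rw [eq_empty_iff_forall_notMem]
      rintro θ ⟨-, x, hx, hsat⟩
      apply hj
      have hs := hsat j
      rcases hoj : o j with a | ⟨a, b, l⟩ | ⟨a, b, c⟩
      · intro i i' hii
        fin_cases i <;> fin_cases i' <;> simp_all [tgt]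
      · intro i i' hii
        fin_cases i <;> fin_cases i' <;> simp_all [tgt]
      · rw [hoj] at hs
        have hbc : b ≠ c := hs.2.2.1
        intro i i' hii
        fin_cases i <;> fin_cases i' <;> simp_all [tgt]
    rw [hempty, measure_empty]
    exact bot_le
  push Not at hdeg
  set A : (J → Par p I → ℝ) → Set (Cx J) :=
    fun θ => {x | x ∈ G ∧ ∀ j, Rg κ (θ j) (Y x) (o j)} with hAdef
  set F : (J → Par p I → ℝ) → Cx J → Cx J :=
    fun θ x => WithLp.toLp 2 (fun s : J × Fin 2 => FF κ (θ s.1) (Y x) (o s.1) s.2) with hFdef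
  set F' : (J → Par p I → ℝ) → Cx J → (Cx J →L[ℝ] Cx J) :=
    fun θ x => (rowMap fun j => ![GG κ (θ j) (Y x) (o j) 0, GG κ (θ j) (Y x) (o j) 1]).comp
      (fderiv ℝ Y x) with hF'def
  have hAmeas : ∀ θ, MeasurableSet (A θ) := by
    intro θ
    have h1 : A θ = {x | ∀ j, 0 < pe (θ j) (h1a (o j))} ∩
        (G \ ⋃ j, (G ∩ Y ⁻¹' {w | Rc κ (θ j) w (o j)}ᶜ)) := by
      ext x
      simp only [hAdef, mem_inter_iff, mem_sdiff, mem_iUnion, mem_preimage, mem_compl_iff,
        mem_ofPred_eq, not_exists, not_and, not_not]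
      constructor
      · rintro ⟨hx, h⟩
        exact ⟨fun j => ((h1_Rg_iff κ (θ j) (Y x) (o j)).1 (h j)).1, hx,
          fun j _ => ((h1_Rg_iff κ (θ j) (Y x) (o j)).1 (h j)).2⟩
      · rintro ⟨h1, hx, h2⟩
        exact ⟨hx, fun j => (h1_Rg_iff κ (θ j) (Y x) (o j)).2 ⟨h1 j, h2 j hx⟩⟩
    rw [h1]
    refine MeasurableSet.inter (MeasurableSet.const _) (hG.measurableSet.diff
      (IsOpen.measurableSet (isOpen_iUnion fun j => ?_)))
    refine hYc.isOpen_inter_preimage hG ?_
    rw [isOpen_compl_iff]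
    have h2 : Continuous (fun w : Cx I => ((θ j, w) : (Par p I → ℝ) × Cx I)) := by fun_prop
    exact (h1_closed_Rc κ (o j)).preimage h2
  have hhit := h1_meas_hit κ Y G hG hYc o
  have harea := area_fubini (J := J) (K := Par p I) (fun k => hd k) (fun k => h1_meas_hd k)
    (fun k => h1_prob_hd k) (fun j => tgt (o j)) hdeg A F F' ?_ hAmeas ?_ hhit
  · -- conclusion
    refine le_trans (measure_mono ?_) (le_trans harea ?_)
    · rintro θ ⟨hpos, x, hx, hsat⟩
      refine ⟨x, ⟨hx, fun j => (h1_Sat hodd κ (θ j) (Y x) (o j) (hpos j) (hsat j)).1⟩, ?_⟩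
      intro j i
      exact (h1_Sat hodd κ (θ j) (Y x) (o j) (hpos j) (hsat j)).2 i
    · have hint : ∀ θ : J → Par p I → ℝ,
          (∫⁻ x in A θ, (∏ j, ∏ i, hd (tgt (I := I) (o j) i) (F θ x (j, i))) *
            ENNReal.ofReal |(F' θ x).det|) =
          ∫⁻ x in G, h1Phi κ o (θ, Y x, fderiv ℝ Y x) := by
        intro θ
        have hsub : A θ ∩ G = A θ := inter_eq_left.2 fun x hx => hx.1
        rw [← hsub, ← setLIntegral_indicator (hAmeas θ)]
        apply setLIntegral_congr_fun hG.measurableSet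
        intro x hx
        by_cases hxA : x ∈ A θ
        · simp only [indicator_of_mem hxA]
          unfold h1Phi
          congr 1
          apply Finset.prod_congr rfl
          intro j _
          rw [Fin.prod_univ_two]
          unfold Wt
          rw [if_pos (hxA.2 j)]
        · simp only [indicator_of_notMem hxA]
          have hex : ∃ j, ¬ Rg κ (θ j) (Y x) (o j) := by
            by_contra hc
            push Not at hc
            exact hxA ⟨hx, hc⟩
          obtain ⟨j, hj⟩ := hex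
          unfold h1Phi
          have h0 : ∏ j, Wt κ (θ j) (Y x) (o j) = 0 := by
            apply Finset.prod_eq_zero (Finset.mem_univ j)
            unfold Wt
            rw [if_neg hj]
          simp only [h0, zero_mul]
      simp only [hint]
      have hsw := h1_swap κ Y G hG hYc o
      unfold muF at hsw ⊢
      rw [hsw]
      exact le_rfl
  · -- independence
    intro θ θ' hθ
    have hRg : ∀ (j : J) (w : Cx I), Rg κ (θ j) w (o j) ↔ Rg κ (θ' j) w (o j) := by
      intro j w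
      have hj := hθ j
      rcases hoj : o j with a | ⟨a, b, l⟩ | ⟨a, b, c⟩
      · have hpe : ∀ d, pe (θ j) d = pe (θ' j) d := by
          intro d
          apply hj
          rw [hoj]
          rintro ⟨i, hi⟩
          fin_cases i <;> simp [tgt] at hi
        simp only [Rg, hpe]
      · have hpe : ∀ d, d ≠ b → pe (θ j) d = pe (θ' j) d := by
          intro d hd
          apply hj
          rw [hoj]
          rintro ⟨i, hi⟩
          fin_cases i <;> simp [tgt] at hi
          exact hd hi.symm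
        simp only [Rg]
        constructor
        · rintro ⟨h1, h2, h3⟩
          refine ⟨h1, by rwa [← hpe a h1], fun d hd => ?_⟩
          rw [← hpe a h1, ← hpe d hd]
          exact h3 d hd
        · rintro ⟨h1, h2, h3⟩
          refine ⟨h1, by rwa [hpe a h1], fun d hd => ?_⟩
          rw [hpe a h1, hpe d hd]
          exact h3 d hd
      · have hpe : ∀ d, d ≠ b → d ≠ c → pe (θ j) d = pe (θ' j) d := by
          intro d hd hd'
          apply hj
          rw [hoj]
          rintro ⟨i, hi⟩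
          fin_cases i <;> simp [tgt] at hi
          · exact hd hi.symm
          · exact hd' hi.symm
        simp only [Rg]
        constructor
        · rintro ⟨h1, h2, h4, h5, h3⟩
          refine ⟨h1, h2, h4, by rwa [← hpe a h1 h2], fun d hd hd' => ?_⟩
          rw [← hpe a h1 h2, ← hpe d hd hd']
          exact h3 d hd hd'
        · rintro ⟨h1, h2, h4, h5, h3⟩
          refine ⟨h1, h2, h4, by rwa [hpe a h1 h2], fun d hd hd' => ?_⟩
          rw [hpe a h1 h2, hpe d hd hd']
          exact h3 d hd hd'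
    have hFF : ∀ (j : J) (w : Cx I) (i : Fin 2), Rg κ (θ j) w (o j) →
        FF κ (θ j) w (o j) i = FF κ (θ' j) w (o j) i := by
      intro j w i hR
      have hj := hθ j
      have hxi : ∀ a : Ty p, xi κ (θ j) a w = xi κ (θ' j) a w := by
        intro a
        unfold xi
        apply Finset.sum_congr rfl
        intro i _
        have hpc : pc (θ j) i = pc (θ' j) i := by
          unfold pc
          have h1 : ∀ e : Fin 2, θ j (Sum.inr (Sum.inr (i, e))) = θ' j (Sum.inr (Sum.inr (i, e))) := by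
            intro e
            apply hj
            rintro ⟨i', hi'⟩
            rcases hoj : o j with a | ⟨a, b, l⟩ | ⟨a, b, c⟩ <;> rw [hoj] at hi' <;>
              fin_cases i' <;> simp [tgt] at hi'
          rw [h1, h1]
        rw [hpc]
      rcases hoj : o j with a | ⟨a, b, l⟩ | ⟨a, b, c⟩
      · simp only [FF, hxi]
      · rw [hoj] at hR
        obtain ⟨h1, h2, h3⟩ := hR
        have hpe : pe (θ j) a = pe (θ' j) a := by
          apply hj
          rw [hoj]
          rintro ⟨i, hi⟩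
          fin_cases i <;> simp [tgt] at hi
          exact h1 hi.symm
        have hpy : (py (θ j) a).re = (py (θ' j) a).re := by
          change θ j (Sum.inr (Sum.inl (a, 0))) = θ' j (Sum.inr (Sum.inl (a, 0)))
          apply hj
          rw [hoj]
          rintro ⟨i, hi⟩
          fin_cases i <;> simp [tgt] at hi
        simp only [FF, hxi, hpe, hpy]
      · rw [hoj] at hR
        obtain ⟨h1, h2, h4, h5, h3⟩ := hR
        have hpe : pe (θ j) a = pe (θ' j) a := by
          apply hj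
          rw [hoj]
          rintro ⟨i, hi⟩
          fin_cases i <;> simp [tgt] at hi
          · exact h1 hi.symm
          · exact h2 hi.symm
        simp only [FF, hpe]
    refine ⟨?_, ?_⟩
    · ext x
      simp only [hAdef, mem_ofPred_eq, hRg]
    · intro x hx
      simp only [hFdef]
      congr 1
      funext s
      exact hFF s.1 (Y x) s.2 (hx.2 s.1)
  · -- derivative
    intro θ x hx
    have hYd : HasFDerivAt Y (fderiv ℝ Y x) x :=
      ((hY.differentiableOn one_ne_zero).differentiableAt (hG.mem_nhds hx.1)).hasFDerivAt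
    rw [hasFDerivWithinAt_euclidean]
    intro s
    have h1 := (h1_hasFDerivAt_FF κ (θ s.1) (Y x) (o s.1) s.2).comp x hYd
    refine (h1.hasFDerivWithinAt (s := A θ)).congr_fderiv ?_
    ext v
    obtain ⟨j, i⟩ := s
    fin_cases i <;> rfl

end H1

end Pool.Agent.Helper954.Hopf
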