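import Pool.Agent.Helper954.Hopf.Defs

set_option autoImplicit false

namespace Pool.Agent.Helper954.Hopf



namespace HEX

open Module

/-- eigenspace-type argument: in the irreducible-like case there is a nonzero skew operator -/
theorem exists_skew {G : Type} [Group G] [Fintype G] (hodd : Odd (Fintype.card G))
    {U : Type} [NormedAddCommGroup U] [InnerProductSpace ℝ U] [FiniteDimensional ℝ U]
    (ρ : G →* (U →ₗ[ℝ] U)) (hi : ∀ g x y, inner ℝ (ρ g x) (ρ g y) = (inner ℝ x y : ℝ))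
    (h0 : ∀ x, ∑ g, ρ g x = 0) (e : U) (he : ‖e‖ = 1)
    (hscal : ∀ S : U →ₗ[ℝ] U, (∀ x y, inner ℝ (S x) y = (inner ℝ x (S y) : ℝ)) →
      (∀ g x, S (ρ g x) = ρ g (S x)) → ∃ c : ℝ, ∀ x, S x = c • x) :
    ∃ A : U →ₗ[ℝ] U, A ≠ 0 ∧ (∀ x y, inner ℝ (A x) y = -(inner ℝ x (A y) : ℝ)) ∧
      (∀ g x, A (ρ g x) = ρ g (A x)) := by
  classical
  by_contra hcon
  push Not at hcon
  -- basic facts
  have hinv : ∀ g x, ρ g (ρ g⁻¹ x) = x := by
    intro g x
    have : (ρ g * ρ g⁻¹) x = x := by rw [← map_mul]; simp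
    simpa using this
  have hinv' : ∀ g x, ρ g⁻¹ (ρ g x) = x := by
    intro g x
    have : (ρ g⁻¹ * ρ g) x = x := by rw [← map_mul]; simp
    simpa using this
  have hadj : ∀ g x y, inner ℝ (ρ g x) y = (inner ℝ x (ρ g⁻¹ y) : ℝ) := by
    intro g x y
    conv_lhs => rw [← hinv g y]
    rw [hi]
  have hmul : ∀ g h x, ρ (g * h) x = ρ g (ρ h x) := by
    intro g h x; rw [map_mul]; rfl
  -- average
  let T : U → U → (U →ₗ[ℝ] U) := fun x y =>
    ∑ g, (((innerₛₗ ℝ (ρ g y)).smulRight (ρ g x)) : U →ₗ[ℝ] U)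
  have hT : ∀ x y b, T x y b = ∑ g, (inner ℝ (ρ g y) b : ℝ) • ρ g x := by
    intro x y b
    simp [T, LinearMap.sum_apply]
  have hTcomm : ∀ x y g b, T x y (ρ g b) = ρ g (T x y b) := by
    intro x y g b
    rw [hT, hT, map_sum]
    rw [← Equiv.sum_comp (Equiv.mulLeft g)]
    refine Finset.sum_congr rfl fun h _ => ?_
    simp only [Equiv.coe_mulLeft, hmul, map_smul, hi]
  have hTadj : ∀ x y a b, inner ℝ (T x y b) a = (inner ℝ b (T y x a) : ℝ) := by
    intro x y a b
    rw [hT, hT, sum_inner, inner_sum]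
    refine Finset.sum_congr rfl fun h _ => ?_
    rw [inner_smul_left, inner_smul_right]
    simp only [conj_trivial]
    rw [real_inner_comm b (ρ h y)]
    ring
  -- skew part vanishes
  have hskew : ∀ x y, T x y = T y x := by
    intro x y
    have h1 := hcon (T x y - T y x)
    by_contra hne
    obtain ⟨g, b, hgb⟩ := h1 (sub_ne_zero.mpr hne) (by
      intro a b
      simp only [LinearMap.sub_apply, inner_sub_left, inner_sub_right, hTadj]
      ring)
    apply hgb
    simp only [LinearMap.sub_apply, hTcomm, map_sub]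
  have hc : ∀ x y, ∃ c : ℝ, ∀ b, T x y b = c • b := by
    intro x y
    refine hscal (T x y) ?_ (hTcomm x y)
    intro a b
    rw [hTadj, hskew y x]
  choose c hc using hc
  have key : ∀ x y a b, ∑ g, (inner ℝ (ρ g x) a : ℝ) * inner ℝ (ρ g y) b = c x y * inner ℝ a b := by
    intro x y a b
    have h1 : (inner ℝ (T x y b) a : ℝ) = c x y * inner ℝ a b := by
      rw [hc, inner_smul_left, real_inner_comm]; simp
    rw [← h1, hT, sum_inner]
    refine Finset.sum_congr rfl fun h _ => ?_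
    rw [inner_smul_left]; simp; ring
  have key2 : ∀ x y a b, c x y * inner ℝ a b = c a b * (inner ℝ x y : ℝ) := by
    intro x y a b
    rw [← key x y a b, ← key a b x y]
    rw [← Equiv.sum_comp (Equiv.inv G)]
    refine Finset.sum_congr rfl fun h _ => ?_
    simp only [Equiv.inv_apply]
    rw [hadj, hadj, inv_inv, real_inner_comm x, real_inner_comm y]
  have hee : (inner ℝ e e : ℝ) = 1 := by rw [real_inner_self_eq_norm_sq, he]; norm_num
  have key3 : ∀ x y, c x y = c e e * (inner ℝ x y : ℝ) := by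
    intro x y
    have := key2 x y e e
    rw [hee, mul_one] at this
    exact this
  have hcpos : 0 < c e e := by
    have h1 := key e e e e
    rw [hee, mul_one] at h1
    rw [← h1]
    refine Finset.sum_pos' (fun g _ => mul_self_nonneg _) ⟨1, Finset.mem_univ _, ?_⟩
    rw [map_one, Module.End.one_apply, hee]; norm_num
  -- square sum
  have hsq : ∑ g, (inner ℝ (ρ (g * g) e) e : ℝ) = c e e := by
    let b := stdOrthonormalBasis ℝ U
    have h1 : ∀ g, (inner ℝ (ρ (g * g) e) e : ℝ)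
        = ∑ i, (inner ℝ (ρ g e) (b i) : ℝ) * inner ℝ (ρ g (b i)) e := by
      intro g
      rw [hmul, hadj, ← b.sum_inner_mul_inner]
      refine Finset.sum_congr rfl fun i _ => ?_
      rw [hadj g (b i) e]
    simp_rw [h1]
    rw [Finset.sum_comm]
    have h2 : ∀ i, ∑ g, (inner ℝ (ρ g e) (b i) : ℝ) * inner ℝ (ρ g (b i)) e
        = c e e * ((inner ℝ e (b i) : ℝ) * inner ℝ (b i) e) := by
      intro i
      rw [key e (b i) (b i) e, key3 e (b i)]; ring
    simp_rw [h2]
    rw [← Finset.mul_sum, b.sum_inner_mul_inner, hee, mul_one]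
  have hbij : ∑ g, (inner ℝ (ρ (g * g) e) e : ℝ) = ∑ g, (inner ℝ (ρ g e) e : ℝ) := by
    have hcop : Nat.Coprime (Nat.card G) 2 := by
      rw [Nat.card_eq_fintype_card]
      exact (Nat.coprime_two_right).mpr hodd
    rw [← Equiv.sum_comp (powCoprime hcop) (fun g => (inner ℝ (ρ g e) e : ℝ))]
    refine Finset.sum_congr rfl fun g _ => ?_
    simp only [powCoprime_apply, pow_two]
  have hzero : ∑ g, (inner ℝ (ρ g e) e : ℝ) = 0 := by
    rw [← sum_inner, h0, inner_zero_left]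
  rw [hbij, hzero] at hsq
  exact absurd hsq hcpos.ne


/-- main induction -/
theorem exists_J_aux {G : Type} [Group G] [Fintype G] (hodd : Odd (Fintype.card G)) (n : ℕ) :
    ∀ (U : Type) [NormedAddCommGroup U] [InnerProductSpace ℝ U] [FiniteDimensional ℝ U]
    (ρ : G →* (U →ₗ[ℝ] U)) (_ : ∀ g x y, inner ℝ (ρ g x) (ρ g y) = (inner ℝ x y : ℝ))
    (_ : ∀ x, ∑ g, ρ g x = 0) (_ : finrank ℝ U = n),
    ∃ J : U →ₗ[ℝ] U, (∀ x, (inner ℝ x (J x) : ℝ) = 0) ∧ (∀ x, ‖J x‖ = ‖x‖) ∧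
      ∀ g x, J (ρ g x) = ρ g (J x) := by
  induction n using Nat.strong_induction_on with
  | _ n ih =>
  intro U _ _ _ ρ hi h0 hn
  classical
  rcases subsingleton_or_nontrivial U with hsub | hnt
  · refine ⟨0, fun x => ?_, fun x => ?_, fun g x => ?_⟩
    · simp
    · rw [Subsingleton.elim x 0]; simp
    · simp
  have hinv : ∀ g x, ρ g (ρ g⁻¹ x) = x := by
    intro g x
    have : (ρ g * ρ g⁻¹) x = x := by rw [← map_mul]; simp
    simpa using this
  have hadj : ∀ g x y, inner ℝ (ρ g x) y = (inner ℝ x (ρ g⁻¹ y) : ℝ) := by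
    intro g x y
    conv_lhs => rw [← hinv g y]
    rw [hi]
  by_cases hscal : ∀ S : U →ₗ[ℝ] U, (∀ x y, inner ℝ (S x) y = (inner ℝ x (S y) : ℝ)) →
      (∀ g x, S (ρ g x) = ρ g (S x)) → ∃ c : ℝ, ∀ x, S x = c • x
  · obtain ⟨e, he⟩ := exists_norm_eq U (c := 1) zero_le_one
    obtain ⟨A, hA0, hskew, hcomm⟩ := exists_skew hodd ρ hi h0 e he hscal
    obtain ⟨c, hc⟩ := hscal (A ∘ₗ A) (by
      intro x y
      simp only [LinearMap.comp_apply, hskew, neg_neg]) (by intro g x; simp only [LinearMap.comp_apply, hcomm])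
    have hc' : ∀ x, A (A x) = c • x := hc
    have hn2 : ∀ x, ‖A x‖ ^ 2 = (-c) * ‖x‖ ^ 2 := by
      intro x
      rw [← real_inner_self_eq_norm_sq, ← real_inner_self_eq_norm_sq, hskew, hc', inner_smul_right]
      ring
    have hcneg : 0 < -c := by
      by_contra hle
      push Not at hle
      apply hA0
      ext x
      have h1 := hn2 x
      have h2 : ‖A x‖ ^ 2 ≤ 0 := by rw [h1]; exact mul_nonpos_of_nonpos_of_nonneg hle (sq_nonneg _)
      have h3 : ‖A x‖ = 0 := by nlinarith [norm_nonneg (A x)]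
      simpa using h3
    refine ⟨(Real.sqrt (-c))⁻¹ • A, fun x => ?_, fun x => ?_, fun g x => ?_⟩
    · have h1 : (inner ℝ x (A x) : ℝ) = 0 := by
        have := hskew x x
        rw [real_inner_comm] at this
        linarith
      simp [inner_smul_right, h1]
    · have h1 := hn2 x
      have hs : 0 < Real.sqrt (-c) := Real.sqrt_pos.mpr hcneg
      have h2 : ‖A x‖ = Real.sqrt (-c) * ‖x‖ := by
        have h3 : ‖A x‖ ^ 2 = (Real.sqrt (-c) * ‖x‖) ^ 2 := by
          rw [mul_pow, Real.sq_sqrt hcneg.le, h1]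
        exact (sq_eq_sq₀ (norm_nonneg _) (by positivity)).mp h3
      rw [LinearMap.smul_apply, norm_smul, h2, Real.norm_of_nonneg (by positivity)]
      field_simp
    · simp [hcomm]
  · push Not at hscal
    obtain ⟨S, hSsym, hScomm, hSns⟩ := hscal
    -- an eigenvalue of S
    have hsymm : S.IsSymmetric := fun x y => hSsym x y
    obtain ⟨μ, hμ⟩ : ∃ μ : ℝ, Module.End.HasEigenvalue S μ := by
      have := hsymm.hasEigenvalue_iSup_of_finiteDimensional
      exact ⟨_, this⟩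
    let E : Submodule ℝ U := Module.End.eigenspace S μ
    have hEmem : ∀ x, x ∈ E ↔ S x = μ • x := fun x => Module.End.mem_eigenspace_iff
    have hEne : E ≠ ⊥ := hμ
    have hEtop : E ≠ ⊤ := by
      intro h
      obtain ⟨x, hx⟩ := hSns μ
      exact hx ((hEmem x).mp (h ▸ Submodule.mem_top))
    have hEinv : ∀ g x, x ∈ E → ρ g x ∈ E := by
      intro g x hx
      rw [hEmem] at hx ⊢
      rw [hScomm, hx, map_smul]
    have hEinv' : ∀ g x, x ∈ Eᗮ → ρ g x ∈ Eᗮ := by
      intro g x hx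
      rw [Submodule.mem_orthogonal] at hx ⊢
      intro u hu
      rw [real_inner_comm, hadj, real_inner_comm]
      exact hx _ (hEinv _ _ hu)
    have hfin : finrank ℝ E + finrank ℝ Eᗮ = finrank ℝ U := E.finrank_add_finrank_orthogonal
    have h1 : finrank ℝ E < n := by
      rw [← hn]; exact Submodule.finrank_lt hEtop
    have h2 : finrank ℝ Eᗮ < n := by
      have : 0 < finrank ℝ E := Nat.pos_of_ne_zero (fun h => hEne (Submodule.finrank_eq_zero.mp h))
      omega
    have mk : ∀ (F : Submodule ℝ U) (hF : ∀ g x, x ∈ F → ρ g x ∈ F), finrank ℝ F < n →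
        ∃ J : F →ₗ[ℝ] F, (∀ x, (inner ℝ x (J x) : ℝ) = 0) ∧ (∀ x, ‖J x‖ = ‖x‖) ∧
          ∀ g (x : F), J ⟨ρ g x, hF g x x.2⟩ = ⟨ρ g (J x), hF g (J x) (J x).2⟩ := by
      intro F hF hlt
      let ρF : G →* (F →ₗ[ℝ] F) :=
        { toFun := fun g => (ρ g).restrict (hF g)
          map_one' := by ext x; simp
          map_mul' := by intro g h; ext x; simp }
      obtain ⟨J, hJ1, hJ2, hJ3⟩ := ih _ hlt F ρF (by
        intro g x y
        have := hi g x y
        exact this) (by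
        intro x
        have := h0 x
        apply Subtype.ext
        rw [Submodule.coe_sum]
        exact this) rfl
      exact ⟨J, hJ1, hJ2, hJ3⟩
    obtain ⟨J₁, hJ11, hJ12, hJ13⟩ := mk E hEinv h1
    obtain ⟨J₂, hJ21, hJ22, hJ23⟩ := mk Eᗮ hEinv' h2
    let P1 : U →ₗ[ℝ] E := (E.orthogonalProjectionOnto : U →L[ℝ] E).toLinearMap
    let P2 : U →ₗ[ℝ] Eᗮ := (Eᗮ.orthogonalProjectionOnto : U →L[ℝ] Eᗮ).toLinearMap
    have hP1 : ∀ (u : E) (v : Eᗮ), P1 ((u : U) + (v : U)) = u := by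
      intro u v
      have h1 : P1 (u : U) = u := E.orthogonalProjectionOnto_mem_subspace_eq_self u
      have h2 : P1 (v : U) = 0 := Submodule.orthogonalProjectionOnto_apply_of_mem_orthogonal v.2
      rw [map_add, h1, h2, add_zero]
    have hP2 : ∀ (u : E) (v : Eᗮ), P2 ((u : U) + (v : U)) = v := by
      intro u v
      have h1 : P2 (v : U) = v := Eᗮ.orthogonalProjectionOnto_mem_subspace_eq_self v
      have h2 : P2 (u : U) = 0 := Submodule.orthogonalProjectionOnto_orthogonal_apply_eq_zero u.2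
      rw [map_add, h1, h2, zero_add]
    have hdec : ∀ x : U, ∃ (u : E) (v : Eᗮ), x = (u : U) + (v : U) := by
      intro x
      obtain ⟨y, hy, z, hz, h⟩ := E.exists_add_mem_mem_orthogonal x
      exact ⟨⟨y, hy⟩, ⟨z, hz⟩, h⟩
    have horth : ∀ (u : E) (v : Eᗮ), (inner ℝ (u : U) (v : U) : ℝ) = 0 := by
      intro u v
      exact (Submodule.mem_orthogonal E (v : U)).mp v.2 u u.2
    have horth' : ∀ (u : E) (v : Eᗮ), (inner ℝ (v : U) (u : U) : ℝ) = 0 := by
      intro u v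
      rw [real_inner_comm]; exact horth u v
    refine ⟨E.subtype ∘ₗ J₁ ∘ₗ P1 + Eᗮ.subtype ∘ₗ J₂ ∘ₗ P2, ?_, ?_, ?_⟩
    · intro x
      obtain ⟨u, v, rfl⟩ := hdec x
      simp only [LinearMap.add_apply, LinearMap.comp_apply, hP1, hP2, Submodule.subtype_apply,
        inner_add_left, inner_add_right, horth, horth']
      have h3 : (inner ℝ (u : U) ((J₁ u : E) : U) : ℝ) = 0 := hJ11 u
      have h4 : (inner ℝ (v : U) ((J₂ v : Eᗮ) : U) : ℝ) = 0 := hJ21 v
      rw [h3, h4]; ring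
    · intro x
      obtain ⟨u, v, rfl⟩ := hdec x
      simp only [LinearMap.add_apply, LinearMap.comp_apply, hP1, hP2, Submodule.subtype_apply]
      have h3 : ‖((J₁ u : E) : U)‖ = ‖(u : U)‖ := hJ12 u
      have h4 : ‖((J₂ v : Eᗮ) : U)‖ = ‖(v : U)‖ := hJ22 v
      have h5 := norm_add_sq_eq_norm_sq_add_norm_sq_of_inner_eq_zero _ _ (horth u v)
      have h6 := norm_add_sq_eq_norm_sq_add_norm_sq_of_inner_eq_zero _ _ (horth (J₁ u) (J₂ v))
      rw [h3, h4, ← h5] at h6
      exact (mul_self_inj (norm_nonneg _) (norm_nonneg _)).mp h6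
    · intro g x
      obtain ⟨u, v, rfl⟩ := hdec x
      have h3 : ρ g ((u : U) + (v : U)) =
          ((⟨ρ g u, hEinv g u u.2⟩ : E) : U) + ((⟨ρ g v, hEinv' g v v.2⟩ : Eᗮ) : U) := by
        rw [map_add]
      simp only [LinearMap.add_apply, LinearMap.comp_apply]
      rw [h3]
      rw [hP1 ⟨ρ g u, hEinv g u u.2⟩ ⟨ρ g v, hEinv' g v v.2⟩,
        hP2 ⟨ρ g u, hEinv g u u.2⟩ ⟨ρ g v, hEinv' g v v.2⟩, hP1, hP2, hJ13, hJ23]
      simp only [Submodule.subtype_apply, map_add]

/-- JOB: a finite group of odd order acting freely on the sphere commutes with a complex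
structure -/
theorem exists_J {W : Type} [NormedAddCommGroup W] [InnerProductSpace ℝ W] [FiniteDimensional ℝ W]
    (G : Subgroup (W ≃ₗᵢ[ℝ] W)) [Finite G] (hodd : Odd (Nat.card G)) (hne : G ≠ ⊥)
    (hfree : ∀ g ∈ G, g ≠ 1 → ∀ x : W, x ≠ 0 → g x ≠ x) :
    ∃ J : W →L[ℝ] W, (∀ x, (inner ℝ x (J x) : ℝ) = 0) ∧ (∀ x, ‖J x‖ = ‖x‖) ∧
      ∀ g ∈ G, ∀ x, J (g x) = g (J x) := by
  classical
  have : Fintype G := Fintype.ofFinite G
  let ρ : G →* (W →ₗ[ℝ] W) :=
    { toFun := fun g => ((g : W ≃ₗᵢ[ℝ] W).toLinearEquiv : W →ₗ[ℝ] W)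
      map_one' := by ext x; simp
      map_mul' := by intro g h; ext x; simp }
  have hρ : ∀ (g : G) x, ρ g x = (g : W ≃ₗᵢ[ℝ] W) x := fun g x => rfl
  obtain ⟨k, hkG, hk1⟩ : ∃ k ∈ G, k ≠ 1 := by
    by_contra hcon
    push Not at hcon
    exact hne ((Subgroup.eq_bot_iff_forall G).mpr hcon)
  obtain ⟨J, hJ1, hJ2, hJ3⟩ := exists_J_aux (G := G) (by rwa [← Nat.card_eq_fintype_card])
    (finrank ℝ W) W ρ (by
      intro g x y
      rw [hρ, hρ]
      exact (g : W ≃ₗᵢ[ℝ] W).inner_map_map x y) (by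
      intro x
      by_contra hne0
      refine hfree k hkG hk1 _ hne0 ?_
      rw [map_sum, ← Equiv.sum_comp (Equiv.mulLeft (⟨k, hkG⟩ : G)) (fun g => ρ g x)]
      refine Finset.sum_congr rfl fun g _ => ?_
      simp only [Equiv.coe_mulLeft, map_mul]
      rfl) rfl
  refine ⟨LinearMap.toContinuousLinearMap J, hJ1, hJ2, fun g hg x => ?_⟩
  exact hJ3 ⟨g, hg⟩ x

end HEX

end Pool.Agent.Helper954.Hopf
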