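import Pool.Agent.Helper954.Hopf.Defs

set_option autoImplicit false

namespace Pool.Agent.Helper954.Hopf

open MeasureTheory Set
open scoped BigOperators ENNReal

namespace JE

theorem hE_meas : Measurable hE := by
  unfold hE
  apply ENNReal.measurable_ofReal.comp
  exact Measurable.ite measurableSet_Ioi (by fun_prop) measurable_const

/-- tail of the exponential law -/
theorem hE_tail (c : ℝ) (hc : 0 ≤ c) : ∫⁻ s in Ici c, hE s = ENNReal.ofReal (Real.exp (-c)) := by
  rw [← setLIntegral_congr Ioi_ae_eq_Ici]
  have h1 : ∫⁻ s in Ioi c, hE s = ∫⁻ s in Ioi c, ENNReal.ofReal (Real.exp (-s)) := by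
    refine setLIntegral_congr_fun measurableSet_Ioi fun s hs => ?_
    have : 0 < s := lt_of_le_of_lt hc hs
    simp [hE, this]
  rw [h1, ← ofReal_integral_eq_lintegral_ofReal, integral_exp_neg_Ioi]
  · exact integrableOn_exp_neg_Ioi c
  · exact Filter.Eventually.of_forall fun s => (Real.exp_pos _).le

theorem hE_prob : IsProbabilityMeasure ((volume : Measure ℝ).withDensity hE) := by
  constructor
  rw [withDensity_apply _ MeasurableSet.univ, Measure.restrict_univ]
  have h1 : ∫⁻ s, hE s = ∫⁻ s in Ici (0 : ℝ), hE s := by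
    rw [← lintegral_indicator measurableSet_Ici]
    refine lintegral_congr fun s => ?_
    by_cases hs : s ∈ Ici (0 : ℝ)
    · rw [indicator_of_mem hs]
    · rw [indicator_of_notMem hs]
      have : ¬ 0 < s := fun h => hs (mem_Ici.mpr h.le)
      simp [hE, this]
  rw [h1, hE_tail 0 le_rfl]
  simp

theorem lintegral_pi_prod {J : Type} [Fintype J] [DecidableEq J] {X : J → Type}
    [∀ j, MeasurableSpace (X j)] (μ : ∀ j, Measure (X j)) [∀ j, SigmaFinite (μ j)]
    (f : ∀ j, X j → ℝ≥0∞) (hf : ∀ j, Measurable (f j)) :
    ∫⁻ x, ∏ j, f j (x j) ∂Measure.pi μ = ∏ j, ∫⁻ x, f j x ∂μ j := by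
  classical
  by_cases hne : Nonempty (∀ j, X j)
  · obtain ⟨x0⟩ := hne
    have hm : Measurable (fun x : ∀ j, X j => ∏ j, f j (x j)) :=
      Finset.measurable_prod _ fun j _ => (hf j).comp (measurable_pi_apply j)
    have key : ∀ s : Finset J, ∀ x : ∀ j, X j,
        (∫⋯∫⁻_s, (fun x : ∀ j, X j => ∏ j, f j (x j)) ∂μ) x
          = (∏ j ∈ s, ∫⁻ y, f j y ∂μ j) * ∏ j ∈ sᶜ, f j (x j) := by
      intro s
      induction s using Finset.induction_on with
      | empty => intro x; rw [lmarginal_empty]; simp
      | insert i s hi ih =>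
        intro x
        rw [lmarginal_insert _ hm hi]
        simp only [ih]
        have hc : sᶜ = insert i (insert i s)ᶜ := by
          ext j
          by_cases hj : j = i
          · subst hj; simp [hi]
          · simp [hj]
        have hni : i ∉ (insert i s)ᶜ := by simp
        have h1 : ∀ y : X i, ∏ j ∈ sᶜ, f j (Function.update x i y j)
            = f i y * ∏ j ∈ (insert i s)ᶜ, f j (x j) := by
          intro y
          rw [hc, Finset.prod_insert hni, Function.update_self]
          congr 1
          apply Finset.prod_congr rfl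
          intro j hj
          have : j ≠ i := by
            rintro rfl; exact hni hj
          rw [Function.update_of_ne this]
        simp only [h1]
        have h2 : Measurable (fun y : X i => f i y * ∏ j ∈ (insert i s)ᶜ, f j (x j)) :=
          (hf i).mul_const _
        rw [lintegral_const_mul _ h2, lintegral_mul_const _ (hf i), Finset.prod_insert hi]
        ring
    have := key Finset.univ x0
    rw [← lintegral_eq_lmarginal_univ] at this
    rw [this]
    simp
  · rw [not_nonempty_iff] at hne
    have h0 : ∃ j, IsEmpty (X j) := by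
      by_contra hc
      push Not at hc
      apply hne.false
      exact fun j => (hc j).some
    obtain ⟨j, hj⟩ := h0
    have h1 : ∏ j, ∫⁻ x, f j x ∂μ j = 0 := by
      apply Finset.prod_eq_zero (Finset.mem_univ j)
      rw [lintegral_of_isEmpty]
    rw [h1, lintegral_of_isEmpty]

theorem gamma_int (n : ℕ) (r : ℝ) (hr : 0 < r) :
    ∫⁻ t in Ioi (0 : ℝ), ENNReal.ofReal (t ^ n * Real.exp (-(r * t))) =
      ENNReal.ofReal (n.factorial / r ^ (n + 1)) := by
  have h0 := Real.integral_rpow_mul_exp_neg_mul_Ioi (a := (n : ℝ) + 1) (r := r) (by positivity) hr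
  have hcongr : ∀ t ∈ Ioi (0 : ℝ), t ^ ((n : ℝ) + 1 - 1) * Real.exp (-(r * t)) =
      t ^ n * Real.exp (-(r * t)) := by
    intro t ht
    rw [add_sub_cancel_right, Real.rpow_natCast]
  have hval : ∫ t in Ioi (0 : ℝ), t ^ n * Real.exp (-(r * t)) = n.factorial / r ^ (n + 1) := by
    rw [← setIntegral_congr_fun measurableSet_Ioi hcongr, h0, Real.Gamma_nat_eq_factorial]
    rw [one_div, Real.inv_rpow hr.le]
    have : r ^ ((n : ℝ) + 1) = r ^ (n + 1) := by
      rw [show ((n : ℝ) + 1) = ((n + 1 : ℕ) : ℝ) by push_cast; ring, Real.rpow_natCast]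
    rw [this]
    field_simp
  rw [← hval, ofReal_integral_eq_lintegral_ofReal]
  · by_contra hni
    have := integral_undef hni
    rw [hval] at this
    have hpos : (0 : ℝ) < n.factorial / r ^ (n + 1) := by positivity
    exact hpos.ne' this
  · filter_upwards [ae_restrict_mem measurableSet_Ioi] with t ht
    have : (0 : ℝ) < t := ht
    positivity

open Classical in
/-- the exponential race -/
theorem race {T : Type} [Fintype T] (m : T → ℝ) (hm : ∀ a, 0 < m a) (a : T)
    (B : Finset T) (ha : a ∉ B) :
    ∫⁻ e : T → ℝ, (if 0 < e a ∧ ∀ d, d ∉ B → m d * e a ≤ m a * e d then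
        (∏ b ∈ B, hE (e a * m b / m a)) * ENNReal.ofReal (e a ^ B.card) else 0)
        ∂Measure.pi (fun _ : T => (volume : Measure ℝ).withDensity hE) =
      ENNReal.ofReal (B.card.factorial * (m a / ∑ d, m d) ^ (B.card + 1)) := by
  have hprob := hE_prob
  set μ : Measure ℝ := (volume : Measure ℝ).withDensity hE with hμ
  -- factorisation of the integrand
  let g : ℝ → ℝ≥0∞ := fun t => if 0 < t then (∏ b ∈ B, hE (t * m b / m a)) * ENNReal.ofReal (t ^ B.card) else 0
  let ψ : ℝ → T → ℝ → ℝ≥0∞ := fun t d s => if d ∉ B → m d * t ≤ m a * s then 1 else 0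
  let f : (T → ℝ) → ℝ≥0∞ := fun e => if 0 < e a ∧ ∀ d, d ∉ B → m d * e a ≤ m a * e d then
        (∏ b ∈ B, hE (e a * m b / m a)) * ENNReal.ofReal (e a ^ B.card) else 0
  have hgm : Measurable g := by
    refine Measurable.ite measurableSet_Ioi ?_ measurable_const
    refine Measurable.mul ?_ (by fun_prop)
    refine Finset.measurable_prod _ fun b _ => hE_meas.comp (by fun_prop)
  have hψm : ∀ t d, Measurable (ψ t d) := by
    intro t d
    refine Measurable.ite ?_ measurable_const measurable_const
    by_cases hd : d ∈ B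
    · simp [hd]
    · simp only [hd, not_false_eq_true, forall_const]
      exact measurableSet_le measurable_const (by fun_prop)
  have hfm : Measurable f := by
    refine Measurable.ite ?_ ?_ measurable_const
    · have : {e : T → ℝ | 0 < e a ∧ ∀ d, d ∉ B → m d * e a ≤ m a * e d} =
          {e : T → ℝ | 0 < e a} ∩ ⋂ d, ⋂ (_ : d ∉ B), {e : T → ℝ | m d * e a ≤ m a * e d} := by
        ext e; simp
      rw [this]
      refine (measurableSet_lt measurable_const (measurable_pi_apply a)).inter ?_
      refine MeasurableSet.iInter fun d => MeasurableSet.iInter fun _ => ?_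
      exact measurableSet_le (by fun_prop) (by fun_prop)
    · refine Measurable.mul ?_ (by fun_prop)
      refine Finset.measurable_prod _ fun b _ => hE_meas.comp (by fun_prop)
  have hfac : ∀ e : T → ℝ, f e = g (e a) * ∏ d ∈ Finset.univ.erase a, ψ (e a) d (e d) := by
    intro e
    by_cases h0 : 0 < e a
    · by_cases h1 : ∀ d, d ∉ B → m d * e a ≤ m a * e d
      · have : ∏ d ∈ Finset.univ.erase a, ψ (e a) d (e d) = 1 := by
          refine Finset.prod_eq_one fun d _ => ?_
          simp only [ψ]
          rw [if_pos (h1 d)]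
        simp only [f, g]
        rw [this, if_pos ⟨h0, h1⟩, if_pos h0, mul_one]
      · simp only [f]
        rw [if_neg (fun h => h1 h.2)]
        push Not at h1
        obtain ⟨d, hdB, hd⟩ := h1
        have hda : d ≠ a := by
          rintro rfl
          exact absurd hd (lt_irrefl _)
        rw [Finset.prod_eq_zero (Finset.mem_erase.mpr ⟨hda, Finset.mem_univ d⟩), mul_zero]
        simp only [ψ]
        rw [if_neg]
        push Not
        exact ⟨hdB, hd⟩
    · simp only [f, g]
      rw [if_neg (fun h => h0 h.1), if_neg h0, zero_mul]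
  have hmar : ∀ x : T → ℝ, (∫⋯∫⁻_(Finset.univ.erase a), f ∂(fun _ : T => μ)) x =
      g (x a) * ∏ d ∈ Finset.univ.erase a, ∫⁻ s, ψ (x a) d s ∂μ := by
    intro x
    rw [lmarginal]
    have h1 : ∀ y : (i : (Finset.univ.erase a : Finset T)) → ℝ,
        f (Function.updateFinset x (Finset.univ.erase a) y) =
          g (x a) * ∏ d : (Finset.univ.erase a : Finset T), ψ (x a) d (y d) := by
      intro y
      rw [hfac]
      have h2 : Function.updateFinset x (Finset.univ.erase a) y a = x a := by
        simp [Function.updateFinset]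
      rw [h2]
      congr 1
      rw [← Finset.prod_coe_sort]
      refine Finset.prod_congr rfl fun d _ => ?_
      congr 1
      have : Function.updateFinset x (Finset.univ.erase a) y d = y d := by
        simp only [Function.updateFinset, d.2, dite_true]
      rw [this]
    simp only [h1]
    have h3 : Measurable fun y : (i : (Finset.univ.erase a : Finset T)) → ℝ =>
        ∏ d : (Finset.univ.erase a : Finset T), ψ (x a) d (y d) :=
      Finset.measurable_prod _ fun d _ => (hψm (x a) d).comp (measurable_pi_apply d)
    rw [lintegral_const_mul _ h3]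
    rw [lintegral_pi_prod (fun _ : (Finset.univ.erase a : Finset T) => μ) (fun d => ψ (x a) d)
      (fun d => hψm _ _)]
    rw [Finset.prod_coe_sort (Finset.univ.erase a) (fun d => ∫⁻ s, ψ (x a) d s ∂μ)]
  have htot : ∫⁻ e, f e ∂Measure.pi (fun _ : T => μ) =
      ∫⁻ t, g t * ∏ d ∈ Finset.univ.erase a, ∫⁻ s, ψ t d s ∂μ ∂μ := by
    rw [lintegral_eq_lmarginal_univ (fun _ => (0 : ℝ))]
    have hins : (Finset.univ : Finset T) = insert a (Finset.univ.erase a) := by
      rw [Finset.insert_erase (Finset.mem_univ a)]
    have h9 : (∫⋯∫⁻_Finset.univ, f ∂(fun _ : T => μ)) (fun _ => (0 : ℝ)) =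
        (∫⋯∫⁻_(insert a (Finset.univ.erase a)), f ∂(fun _ : T => μ)) (fun _ => (0 : ℝ)) := by
      rw [← hins]
    rw [h9, lmarginal_insert _ hfm (Finset.notMem_erase a _)]
    simp only [hmar, Function.update_self]
  show ∫⁻ e, f e ∂Measure.pi (fun _ : T => μ) = _
  rw [htot]
  have hψi : ∀ t : ℝ, 0 < t → ∀ d, ∫⁻ s, ψ t d s ∂μ =
      if d ∈ B then 1 else ENNReal.ofReal (Real.exp (-(t * m d / m a))) := by
    intro t ht d
    by_cases hd : d ∈ B
    · simp [ψ, hd]
    · rw [if_neg hd]
      have h1 : ∀ s, ψ t d s = (Ici (t * m d / m a)).indicator (fun _ => (1 : ℝ≥0∞)) s := by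
        intro s
        simp only [ψ, hd, not_false_eq_true, forall_const]
        by_cases hs : m d * t ≤ m a * s
        · rw [if_pos hs, indicator_of_mem]
          rw [mem_Ici, div_le_iff₀ (hm a)]; linarith
        · rw [if_neg hs, indicator_of_notMem]
          rw [mem_Ici, div_le_iff₀ (hm a)]
          intro h; apply hs; linarith
      simp only [h1]
      rw [lintegral_indicator measurableSet_Ici, setLIntegral_one, hμ,
        withDensity_apply _ measurableSet_Ici]
      exact hE_tail _ (by have := hm d; have := hm a; positivity)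
  have hS : 0 < ∑ d, m d := Finset.sum_pos (fun d _ => hm d) ⟨a, Finset.mem_univ a⟩
  have hma := hm a
  rw [hμ, lintegral_withDensity_eq_lintegral_mul _ hE_meas]
  swap
  · have : Measurable fun t => (∫⋯∫⁻_(Finset.univ.erase a), f ∂(fun _ : T => μ)) (Function.update (fun _ => (0:ℝ)) a t) := by
      exact (hfm.lmarginal _).comp (measurable_update _)
    simpa only [hmar, Function.update_self] using this
  have hpt : ∀ t : ℝ, (hE * fun t => g t * ∏ d ∈ Finset.univ.erase a, ∫⁻ s, ψ t d s ∂μ) t =
      (Ioi (0 : ℝ)).indicator (fun t => ENNReal.ofReal (t ^ B.card *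
        Real.exp (-((∑ d, m d) / m a * t)))) t := by
    intro t
    by_cases ht : 0 < t
    · rw [indicator_of_mem (mem_Ioi.mpr ht), Pi.mul_apply]
      simp only [g, if_pos ht, hψi t ht]
      have e1 : ∀ b ∈ B, hE (t * m b / m a) = ENNReal.ofReal (Real.exp (-(t * m b / m a))) := by
        intro b _
        have hb := hm b
        have : 0 < t * m b / m a := by positivity
        simp [hE, this]
      rw [Finset.prod_congr rfl e1]
      have e2 : ∏ d ∈ Finset.univ.erase a, (if d ∈ B then (1 : ℝ≥0∞) else
          ENNReal.ofReal (Real.exp (-(t * m d / m a)))) =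
          ∏ d ∈ (Finset.univ.erase a) \ B, ENNReal.ofReal (Real.exp (-(t * m d / m a))) := by
        rw [← Finset.prod_filter_mul_prod_filter_not (Finset.univ.erase a) (· ∈ B)]
        rw [Finset.prod_eq_one (fun d hd => by rw [if_pos (Finset.mem_filter.mp hd).2]), one_mul]
        rw [Finset.sdiff_eq_filter]
        exact Finset.prod_congr rfl fun d hd => by rw [if_neg (Finset.mem_filter.mp hd).2]
      rw [e2]
      have e3 : (∏ b ∈ B, ENNReal.ofReal (Real.exp (-(t * m b / m a)))) *
          ∏ d ∈ (Finset.univ.erase a) \ B, ENNReal.ofReal (Real.exp (-(t * m d / m a))) =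
          ∏ d ∈ Finset.univ.erase a, ENNReal.ofReal (Real.exp (-(t * m d / m a))) := by
        rw [mul_comm]
        refine Finset.prod_sdiff ?_
        intro b hb
        exact Finset.mem_erase.mpr ⟨fun h => ha (h ▸ hb), Finset.mem_univ b⟩
      have e4 : hE t = ENNReal.ofReal (Real.exp (-(t * m a / m a))) := by
        simp only [hE, if_pos ht]
        congr 2
        field_simp
      calc hE t * ((∏ b ∈ B, ENNReal.ofReal (Real.exp (-(t * m b / m a)))) *
              ENNReal.ofReal (t ^ B.card) *
            ∏ d ∈ (Finset.univ.erase a) \ B, ENNReal.ofReal (Real.exp (-(t * m d / m a))))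
          = ENNReal.ofReal (t ^ B.card) * (hE t * ((∏ b ∈ B, ENNReal.ofReal (Real.exp (-(t * m b / m a)))) *
            ∏ d ∈ (Finset.univ.erase a) \ B, ENNReal.ofReal (Real.exp (-(t * m d / m a))))) := by ring
        _ = ENNReal.ofReal (t ^ B.card) * ∏ d, ENNReal.ofReal (Real.exp (-(t * m d / m a))) := by
            rw [e3, e4, Finset.mul_prod_erase Finset.univ
              (fun d => ENNReal.ofReal (Real.exp (-(t * m d / m a)))) (Finset.mem_univ a)]
        _ = _ := by
            rw [← ENNReal.ofReal_prod_of_nonneg (fun d _ => (Real.exp_pos _).le),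
              ← ENNReal.ofReal_mul (by positivity), ← Real.exp_sum]
            congr 3
            rw [Finset.sum_neg_distrib, ← Finset.sum_div, ← Finset.mul_sum]
            ring
    · rw [indicator_of_notMem (by simpa using ht), Pi.mul_apply]
      simp only [g, if_neg ht, zero_mul, mul_zero]
  rw [lintegral_congr hpt, lintegral_indicator measurableSet_Ioi, gamma_int _ _ (by positivity)]
  congr 1
  rw [div_pow, div_pow]
  field_simp

end JE

end Pool.Agent.Helper954.Hopf
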