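import Pool.Agent.Helper954.Hopf.Defs

set_option autoImplicit false

namespace Pool.Agent.Helper954.Hopf

open MeasureTheory Set
open scoped BigOperators ENNReal

namespace JG

/-- real density -/
noncomputable def hGr (t : ℝ) : ℝ := Real.exp (-(t ^ 2) / 2) / Real.sqrt (2 * Real.pi)

theorem hGr_nonneg (t : ℝ) : 0 ≤ hGr t := by
  unfold hGr
  positivity

theorem hG_eq_pdf : hG = ProbabilityTheory.gaussianPDF 0 1 := by
  funext t
  unfold hG ProbabilityTheory.gaussianPDF ProbabilityTheory.gaussianPDFReal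
  congr 1
  simp only [sub_zero, NNReal.coe_one, mul_one]
  rw [div_eq_mul_inv, mul_comm]

theorem hGr_eq_pdf : hGr = ProbabilityTheory.gaussianPDFReal 0 1 := by
  funext t
  unfold hGr ProbabilityTheory.gaussianPDFReal
  simp only [sub_zero, NNReal.coe_one, mul_one]
  rw [div_eq_mul_inv, mul_comm]

theorem mu_eq : (volume : Measure ℝ).withDensity hG = ProbabilityTheory.gaussianReal 0 1 := by
  rw [hG_eq_pdf, ProbabilityTheory.gaussianReal_of_var_ne_zero 0 one_ne_zero]

instance mu_prob : IsProbabilityMeasure ((volume : Measure ℝ).withDensity hG) := by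
  rw [mu_eq]
  infer_instance

theorem hGr_integrable : Integrable hGr := by
  rw [hGr_eq_pdf]
  exact ProbabilityTheory.integrable_gaussianPDFReal 0 1

theorem pi_density {K : Type} [Fintype K] :
    Measure.pi (fun _ : K => (volume : Measure ℝ).withDensity hG) =
      (volume : Measure (K → ℝ)).withDensity (fun x => ENNReal.ofReal (∏ k, hGr (x k))) := by
  apply Measure.pi_eq
  intro s hs
  rw [withDensity_apply _ (MeasurableSet.univ_pi hs), volume_pi, Measure.restrict_pi_pi,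
    ← ofReal_integral_eq_lintegral_ofReal
      (Integrable.fintype_prod (f := fun _ => hGr) (fun k => hGr_integrable.restrict))
      (Filter.Eventually.of_forall fun x => Finset.prod_nonneg fun k _ => hGr_nonneg _),
    integral_fintype_prod_eq_prod (f := fun _ => hGr),
    ENNReal.ofReal_prod_of_nonneg fun k _ => integral_nonneg fun t => hGr_nonneg t]
  refine Finset.prod_congr rfl fun k _ => ?_
  rw [withDensity_apply _ (hs k), ofReal_integral_eq_lintegral_ofReal hGr_integrable.restrict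
    (Filter.Eventually.of_forall fun t => hGr_nonneg t)]
  rfl

section lin

variable {K : Type} [Fintype K]

/-- the constant -/
noncomputable def cc (f : K → ℝ) : ℝ :=
  (1 - 1 / Real.sqrt (1 + ∑ k, f k ^ 2)) / ∑ k, f k ^ 2

/-- the symmetric linear map -/
noncomputable def BB (f y : K → ℝ) : K → ℝ := fun k => y k - cc f * (∑ j, f j * y j) * f k

theorem S_nonneg (f : K → ℝ) : 0 ≤ ∑ k, f k ^ 2 := Finset.sum_nonneg fun k _ => sq_nonneg _

theorem cc_mul (f : K → ℝ) : cc f * ∑ k, f k ^ 2 = 1 - 1 / Real.sqrt (1 + ∑ k, f k ^ 2) := by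
  unfold cc
  by_cases h : ∑ k, f k ^ 2 = 0
  · rw [h]
    simp
  · exact div_mul_cancel₀ _ h

theorem u_pos (f : K → ℝ) : 0 < 1 / Real.sqrt (1 + ∑ k, f k ^ 2) := by
  have := S_nonneg f
  positivity

theorem u_le (f : K → ℝ) : 1 / Real.sqrt (1 + ∑ k, f k ^ 2) ≤ 1 := by
  have := S_nonneg f
  rw [div_le_one (by positivity)]
  exact Real.one_le_sqrt.2 (by linarith)

theorem u_sq (f : K → ℝ) : (1 / Real.sqrt (1 + ∑ k, f k ^ 2)) ^ 2 * (1 + ∑ k, f k ^ 2) = 1 := by
  have := S_nonneg f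
  rw [div_pow, Real.sq_sqrt (by positivity)]
  field_simp

theorem cc_nonneg (f : K → ℝ) : 0 ≤ cc f := by
  unfold cc
  apply div_nonneg _ (S_nonneg f)
  linarith [u_le f]

theorem BB_sum (f g y : K → ℝ) : ∑ k, g k * BB f y k =
    ∑ k, g k * y k - cc f * (∑ j, f j * y j) * ∑ k, f k * g k := by
  unfold BB
  rw [Finset.mul_sum (s := Finset.univ) (f := fun k => f k * g k), ← Finset.sum_sub_distrib]
  refine Finset.sum_congr rfl fun k _ => ?_
  ring

theorem BB_symm (f g y : K → ℝ) : ∑ k, g k * BB f y k = ∑ k, BB f g k * y k := by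
  rw [BB_sum]
  have h : ∑ k, BB f g k * y k = ∑ k, y k * BB f g k :=
    Finset.sum_congr rfl fun k _ => mul_comm _ _
  rw [h, BB_sum]
  have h2 : ∑ k, y k * g k = ∑ k, g k * y k := Finset.sum_congr rfl fun k _ => mul_comm _ _
  rw [h2]
  ring

theorem BB_self (f y : K → ℝ) : ∑ k, f k * BB f y k =
    1 / Real.sqrt (1 + ∑ k, f k ^ 2) * ∑ k, f k * y k := by
  rw [BB_sum]
  have h : ∑ k, f k * f k = ∑ k, f k ^ 2 := Finset.sum_congr rfl fun k _ => (sq _).symm
  rw [h]
  have := cc_mul f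
  linear_combination (-(∑ k, f k * y k)) * this

theorem BB_sq (f y : K → ℝ) : ∑ k, BB f y k ^ 2 = ∑ k, y k ^ 2 -
    2 * cc f * (∑ j, f j * y j) ^ 2 + cc f ^ 2 * (∑ j, f j * y j) ^ 2 * ∑ k, f k ^ 2 := by
  have h : ∑ k, BB f y k ^ 2 = ∑ k, BB f y k * BB f y k :=
    Finset.sum_congr rfl fun k _ => sq _
  have h2 : ∑ k, f k * BB f y k = ∑ k, BB f y k * f k :=
    Finset.sum_congr rfl fun k _ => mul_comm _ _
  have h3 : ∑ k, BB f y k * y k = ∑ k, y k * BB f y k :=
    Finset.sum_congr rfl fun k _ => mul_comm _ _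
  have h4 : ∑ k, y k * y k = ∑ k, y k ^ 2 := Finset.sum_congr rfl fun k _ => (sq _).symm
  have h5 : ∑ k, f k * f k = ∑ k, f k ^ 2 := Finset.sum_congr rfl fun k _ => (sq _).symm
  rw [h, BB_sum f (BB f y) y, h3, BB_sum f y y, BB_sum f f y, h4, h5]
  ring

theorem BB_norm (f y : K → ℝ) : ∑ k, BB f y k ^ 2 + (∑ k, f k * BB f y k) ^ 2 = ∑ k, y k ^ 2 := by
  rw [BB_sq, BB_self]
  have h1 := cc_mul f
  have h2 := u_sq f
  set u := 1 / Real.sqrt (1 + ∑ k, f k ^ 2)
  set S := ∑ k, f k ^ 2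
  set c := cc f
  set t := ∑ k, f k * y k
  have h3 : t ^ 2 * (-2 * c + c ^ 2 * S + u ^ 2) = 0 := by
    by_cases hS : S = 0
    · have ht : t = 0 := by
        have h4 : ∀ k, f k = 0 := by
          intro k
          have := (Finset.sum_eq_zero_iff_of_nonneg (fun k _ => sq_nonneg (f k))).1 hS k
            (Finset.mem_univ k)
          exact pow_eq_zero_iff two_ne_zero |>.1 this
        show ∑ k, f k * y k = 0
        exact Finset.sum_eq_zero fun k _ => by rw [h4 k, zero_mul]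
      rw [ht]
      ring
    · have e : (-2 * c + c ^ 2 * S + u ^ 2) * S = 0 := by
        have : (-2 * c + c ^ 2 * S + u ^ 2) * S = -2 * (c * S) + (c * S) ^ 2 + u ^ 2 * S := by ring
        rw [this, h1]
        linear_combination h2
      rw [(mul_eq_zero.1 e).resolve_right hS, mul_zero]
  linear_combination h3

/-- `BB f` as a linear map -/
noncomputable def BL (f : K → ℝ) : (K → ℝ) →ₗ[ℝ] (K → ℝ) :=
  LinearMap.transvection
    ({ toFun := fun y => ∑ k, f k * y k
       map_add' := by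
         intro x y
         rw [← Finset.sum_add_distrib]
         exact Finset.sum_congr rfl fun k _ => by simp [mul_add]
       map_smul' := by
         intro r x
         rw [RingHom.id_apply, smul_eq_mul, Finset.mul_sum]
         exact Finset.sum_congr rfl fun k _ => by simp only [Pi.smul_apply, smul_eq_mul]; ring } :
      Module.Dual ℝ (K → ℝ)) (-(cc f) • f)

theorem BL_apply (f y : K → ℝ) : BL f y = BB f y := by
  funext k
  unfold BL BB
  rw [LinearMap.transvection.apply]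
  simp only [LinearMap.coe_mk, AddHom.coe_mk, Pi.add_apply, Pi.smul_apply, smul_eq_mul]
  ring

theorem BL_det (f : K → ℝ) : LinearMap.det (BL f) = 1 / Real.sqrt (1 + ∑ k, f k ^ 2) := by
  unfold BL
  rw [LinearMap.transvection.det]
  simp only [LinearMap.coe_mk, AddHom.coe_mk, Pi.smul_apply, smul_eq_mul]
  have h : ∑ k, f k * (-cc f * f k) = -(cc f * ∑ k, f k ^ 2) := by
    rw [Finset.mul_sum, ← Finset.sum_neg_distrib]
    exact Finset.sum_congr rfl fun k _ => by ring
  rw [h, cc_mul]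
  ring

theorem prod_hGr (x : K → ℝ) : ∏ k, hGr (x k) =
    Real.exp (-(∑ k, x k ^ 2) / 2) * (1 / Real.sqrt (2 * Real.pi)) ^ Fintype.card K := by
  unfold hGr
  have h : ∀ k, Real.exp (-(x k ^ 2) / 2) / Real.sqrt (2 * Real.pi) =
      Real.exp (-(x k ^ 2) / 2) * (1 / Real.sqrt (2 * Real.pi)) := fun k => by
    rw [mul_one_div]
  rw [Finset.prod_congr rfl fun k _ => h k, Finset.prod_mul_distrib, Finset.prod_const,
    Finset.card_univ, ← Real.exp_sum]
  congr 2
  rw [← Finset.sum_div, Finset.sum_neg_distrib]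

theorem prod_hGr_meas : Measurable (fun x : K → ℝ => ENNReal.ofReal (∏ k, hGr (x k))) := by
  have : Measurable hGr := by
    unfold hGr
    fun_prop
  fun_prop

theorem one_dir (f : K → ℝ) (F : (K → ℝ) → ℝ≥0∞) (hF : Measurable F) :
    ∫⁻ x, ENNReal.ofReal (Real.exp (-(∑ k, f k * x k) ^ 2 / 2)) * F x
        ∂Measure.pi (fun _ : K => (volume : Measure ℝ).withDensity hG) =
      ENNReal.ofReal (1 / Real.sqrt (1 + ∑ k, f k ^ 2)) *
        ∫⁻ y, F (BB f y) ∂Measure.pi (fun _ : K => (volume : Measure ℝ).withDensity hG) := by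
  have hu := u_pos f
  have hBLm : Measurable (BL f) := (LinearMap.continuous_of_finiteDimensional (BL f)).measurable
  have hBBm : Measurable (BB f) := by
    have : BB f = BL f := funext fun y => (BL_apply f y).symm
    rw [this]
    exact hBLm
  have hexp : Measurable (fun x : K → ℝ =>
      ENNReal.ofReal (Real.exp (-(∑ k, f k * x k) ^ 2 / 2))) := by
    fun_prop
  have hw1 := lintegral_withDensity_eq_lintegral_mul (volume : Measure (K → ℝ)) prod_hGr_meas
    (g := fun x => ENNReal.ofReal (Real.exp (-(∑ k, f k * x k) ^ 2 / 2)) * F x) (hexp.mul hF)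
  have hw2 := lintegral_withDensity_eq_lintegral_mul (volume : Measure (K → ℝ)) prod_hGr_meas
    (g := fun y => F (BB f y)) (hF.comp hBBm)
  rw [pi_density, hw1, hw2]
  set H : (K → ℝ) → ℝ≥0∞ := (fun x => ENNReal.ofReal (∏ k, hGr (x k))) * fun x =>
    ENNReal.ofReal (Real.exp (-(∑ k, f k * x k) ^ 2 / 2)) * F x with hH
  have hHm : Measurable H := prod_hGr_meas.mul (hexp.mul hF)
  have h1 : ∀ y, ((fun x : K → ℝ => ENNReal.ofReal (∏ k, hGr (x k))) * fun y => F (BB f y)) y =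
      H (BL f y) := by
    intro y
    rw [hH, BL_apply]
    simp only [Pi.mul_apply]
    rw [← mul_assoc, ← ENNReal.ofReal_mul (Finset.prod_nonneg fun k _ => hGr_nonneg _)]
    congr 2
    rw [prod_hGr, prod_hGr, mul_right_comm, ← Real.exp_add]
    congr 2
    rw [← BB_norm f y]
    ring
  have h2 : ∫⁻ y, ((fun x : K → ℝ => ENNReal.ofReal (∏ k, hGr (x k))) *
      fun y => F (BB f y)) y = ENNReal.ofReal |(LinearMap.det (BL f))⁻¹| * ∫⁻ x, H x := by
    rw [lintegral_congr h1, ← lintegral_map hHm hBLm,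
      Measure.map_linearMap_addHaar_eq_smul_addHaar _ (by rw [BL_det]; exact hu.ne'),
      lintegral_smul_measure]
    rfl
  have h2' : ∫⁻ a, ((fun x : K → ℝ => ENNReal.ofReal (∏ k, hGr (x k))) * (F ∘ BB f)) a =
      ENNReal.ofReal |(LinearMap.det (BL f))⁻¹| * ∫⁻ x, H x := h2
  have h3 : ∫⁻ a, ((fun x : K → ℝ => ENNReal.ofReal (∏ k, hGr (x k))) *
      fun y => F (BB f y)) a = ENNReal.ofReal |(LinearMap.det (BL f))⁻¹| * ∫⁻ x, H x := h2
  rw [h2, BL_det, ← mul_assoc, ← ENNReal.ofReal_mul hu.le, abs_of_pos (by positivity),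
    mul_inv_cancel₀ hu.ne', ENNReal.ofReal_one, one_mul]

theorem second_moment (v : K → ℝ) :
    ∫⁻ z, ENNReal.ofReal ((∑ k, v k * z k) ^ 2)
      ∂Measure.pi (fun _ : K => (volume : Measure ℝ).withDensity hG) =
      ENNReal.ofReal (∑ k, v k ^ 2) := by
  have hmem : ∀ k, MemLp (fun t : ℝ => v k * t) 2 ((volume : Measure ℝ).withDensity hG) := by
    intro k
    rw [mu_eq]
    exact (ProbabilityTheory.memLp_id_gaussianReal 2).const_mul (v k)
  have hmem' : ∀ k, MemLp (fun z : K → ℝ => v k * z k) 2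
      (Measure.pi (fun _ : K => (volume : Measure ℝ).withDensity hG)) := fun k =>
    (hmem k).comp_measurePreserving (measurePreserving_eval _ k)
  have hsum : MemLp (fun z : K → ℝ => ∑ k, v k * z k) 2
      (Measure.pi (fun _ : K => (volume : Measure ℝ).withDensity hG)) :=
    memLp_finsetSum _ fun k _ => hmem' k
  have hmean1 : ∀ k, ∫ z : K → ℝ, v k * z k
      ∂(Measure.pi (fun _ : K => (volume : Measure ℝ).withDensity hG)) = 0 := by
    intro k
    have h := (measurePreserving_eval (fun _ : K => (volume : Measure ℝ).withDensity hG) k)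
    have h2 : ∫ z : K → ℝ, (fun t : ℝ => v k * t) (Function.eval k z)
        ∂(Measure.pi (fun _ : K => (volume : Measure ℝ).withDensity hG)) =
        ∫ t, v k * t ∂((volume : Measure ℝ).withDensity hG) := by
      rw [← integral_map h.measurable.aemeasurable (by fun_prop), h.map_eq]
    have h3 : ∫ t, v k * t ∂((volume : Measure ℝ).withDensity hG) = 0 := by
      rw [integral_const_mul, mu_eq, ProbabilityTheory.integral_id_gaussianReal, mul_zero]
    rw [h3] at h2
    exact h2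
  have hmean : ∫ z : K → ℝ, ∑ k, v k * z k
      ∂(Measure.pi (fun _ : K => (volume : Measure ℝ).withDensity hG)) = 0 := by
    rw [integral_finsetSum _ fun k _ => (hmem' k).integrable one_le_two]
    exact Finset.sum_eq_zero fun k _ => hmean1 k
  have hvar := ProbabilityTheory.variance_of_integral_eq_zero hsum.aestronglyMeasurable.aemeasurable
    hmean
  have hvar2 := ProbabilityTheory.variance_sum_pi (X := fun k t => v k * t) hmem
  have e1 : (∑ k, fun z : K → ℝ => v k * z k) = fun z : K → ℝ => ∑ k, v k * z k := by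
    funext z
    simp
  rw [e1] at hvar2
  have hv1 : ∀ k, ProbabilityTheory.variance (fun t => v k * t)
      ((volume : Measure ℝ).withDensity hG) = v k ^ 2 := by
    intro k
    rw [ProbabilityTheory.variance_const_mul, mu_eq]
    have : ProbabilityTheory.variance (fun t : ℝ => t) (ProbabilityTheory.gaussianReal 0 1) = 1 := by
      rw [ProbabilityTheory.variance_fun_id_gaussianReal]
      simp
    rw [this, mul_one]
  rw [← ofReal_integral_eq_lintegral_ofReal hsum.integrable_sq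
    (Filter.Eventually.of_forall fun z => sq_nonneg _), ← hvar, hvar2]
  congr 1
  exact Finset.sum_congr rfl fun k _ => hv1 k

theorem gauss_eq (f1 f2 g : K → ℝ) (hf : ∑ k, f1 k * f2 k = 0) :
    ∫⁻ x : K → ℝ, ENNReal.ofReal (Real.exp (-((∑ k, f1 k * x k) ^ 2 + (∑ k, f2 k * x k) ^ 2) / 2)
        * (∑ k, g k * x k) ^ 2)
        ∂Measure.pi (fun _ : K => (volume : Measure ℝ).withDensity hG) =
      ENNReal.ofReal (1 / Real.sqrt (1 + ∑ k, f1 k ^ 2)) *
        (ENNReal.ofReal (1 / Real.sqrt (1 + ∑ k, f2 k ^ 2)) *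
          ENNReal.ofReal (∑ k, (BB f2 (BB f1 g)) k ^ 2)) := by
  have e : ∀ x : K → ℝ, ENNReal.ofReal
      (Real.exp (-((∑ k, f1 k * x k) ^ 2 + (∑ k, f2 k * x k) ^ 2) / 2) * (∑ k, g k * x k) ^ 2) =
      ENNReal.ofReal (Real.exp (-(∑ k, f1 k * x k) ^ 2 / 2)) *
        (fun x : K → ℝ => ENNReal.ofReal (Real.exp (-(∑ k, f2 k * x k) ^ 2 / 2)) *
          ENNReal.ofReal ((∑ k, g k * x k) ^ 2)) x := by
    intro x
    simp only
    rw [← ENNReal.ofReal_mul (Real.exp_pos _).le, ← ENNReal.ofReal_mul (Real.exp_pos _).le,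
      ← mul_assoc, ← Real.exp_add]
    congr 3
    ring
  rw [lintegral_congr e, one_dir f1 _ (by fun_prop)]
  congr 1
  have h2 : BB f1 f2 = f2 := by
    funext k
    unfold BB
    rw [hf]
    ring
  have e2 : ∀ y : K → ℝ, ENNReal.ofReal (Real.exp (-(∑ k, f2 k * BB f1 y k) ^ 2 / 2)) *
      ENNReal.ofReal ((∑ k, g k * BB f1 y k) ^ 2) =
      ENNReal.ofReal (Real.exp (-(∑ k, f2 k * y k) ^ 2 / 2)) *
      (fun y : K → ℝ => ENNReal.ofReal ((∑ k, BB f1 g k * y k) ^ 2)) y := by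
    intro y
    simp only
    rw [BB_symm f1 f2 y, BB_symm f1 g y, h2]
  simp only at e2 ⊢
  rw [lintegral_congr e2, one_dir f2 _ (by fun_prop)]
  congr 1
  have e3 : ∀ y : K → ℝ, ENNReal.ofReal ((∑ k, BB f1 g k * BB f2 y k) ^ 2) =
      ENNReal.ofReal ((∑ k, BB f2 (BB f1 g) k * y k) ^ 2) := by
    intro y
    rw [BB_symm f2 (BB f1 g) y]
  rw [lintegral_congr e3, second_moment]

theorem gauss_eq0 (f1 f2 : K → ℝ) (hf : ∑ k, f1 k * f2 k = 0) :
    ∫⁻ x : K → ℝ, ENNReal.ofReal (Real.exp (-((∑ k, f1 k * x k) ^ 2 + (∑ k, f2 k * x k) ^ 2) / 2))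
        ∂Measure.pi (fun _ : K => (volume : Measure ℝ).withDensity hG) =
      ENNReal.ofReal (1 / Real.sqrt (1 + ∑ k, f1 k ^ 2)) *
        ENNReal.ofReal (1 / Real.sqrt (1 + ∑ k, f2 k ^ 2)) := by
  have e : ∀ x : K → ℝ, ENNReal.ofReal
      (Real.exp (-((∑ k, f1 k * x k) ^ 2 + (∑ k, f2 k * x k) ^ 2) / 2)) =
      ENNReal.ofReal (Real.exp (-(∑ k, f1 k * x k) ^ 2 / 2)) *
        (fun x : K → ℝ => ENNReal.ofReal (Real.exp (-(∑ k, f2 k * x k) ^ 2 / 2))) x := by
    intro x
    simp only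
    rw [← ENNReal.ofReal_mul (Real.exp_pos _).le, ← Real.exp_add]
    congr 2
    ring
  rw [lintegral_congr e, one_dir f1 _ (by fun_prop)]
  congr 1
  have h2 : BB f1 f2 = f2 := by
    funext k
    unfold BB
    rw [hf]
    ring
  have e2 : ∀ y : K → ℝ, ENNReal.ofReal (Real.exp (-(∑ k, f2 k * BB f1 y k) ^ 2 / 2)) =
      ENNReal.ofReal (Real.exp (-(∑ k, f2 k * y k) ^ 2 / 2)) *
      (fun _ : K → ℝ => (1 : ℝ≥0∞)) y := by
    intro y
    simp only
    rw [BB_symm f1 f2 y, h2, mul_one]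
  simp only at e2 ⊢
  rw [lintegral_congr e2, one_dir f2 (fun _ => 1) measurable_const]
  simp

end lin

/-- JOB: Gaussian integrals with two orthogonal directions -/
theorem gauss {K : Type} [Fintype K] (f1 f2 g : K → ℝ) (hf : ∑ k, f1 k * f2 k = 0) :
    (∫⁻ x : K → ℝ, ENNReal.ofReal (Real.exp (-((∑ k, f1 k * x k) ^ 2 + (∑ k, f2 k * x k) ^ 2) / 2))
        ∂Measure.pi (fun _ : K => (volume : Measure ℝ).withDensity hG) =
      ENNReal.ofReal (1 / Real.sqrt ((1 + ∑ k, f1 k ^ 2) * (1 + ∑ k, f2 k ^ 2)))) ∧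
    (∫⁻ x : K → ℝ, ENNReal.ofReal (Real.exp (-((∑ k, f1 k * x k) ^ 2 + (∑ k, f2 k * x k) ^ 2) / 2)
        * (∑ k, g k * x k) ^ 2)
        ∂Measure.pi (fun _ : K => (volume : Measure ℝ).withDensity hG) ≤
      ENNReal.ofReal ((∑ k, g k ^ 2) /
        Real.sqrt ((1 + ∑ k, f1 k ^ 2) * (1 + ∑ k, f2 k ^ 2)))) ∧
    (∫⁻ x : K → ℝ, ENNReal.ofReal (Real.exp (-((∑ k, f1 k * x k) ^ 2 + (∑ k, f2 k * x k) ^ 2) / 2)
        * (∑ k, f1 k * x k) ^ 2)
        ∂Measure.pi (fun _ : K => (volume : Measure ℝ).withDensity hG) ≤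
      ENNReal.ofReal ((∑ k, f1 k ^ 2) / (1 + ∑ k, f1 k ^ 2) /
        Real.sqrt ((1 + ∑ k, f1 k ^ 2) * (1 + ∑ k, f2 k ^ 2)))) := by
  have hS1 := S_nonneg f1
  have hS2 := S_nonneg f2
  have hsq : Real.sqrt ((1 + ∑ k, f1 k ^ 2) * (1 + ∑ k, f2 k ^ 2)) =
      Real.sqrt (1 + ∑ k, f1 k ^ 2) * Real.sqrt (1 + ∑ k, f2 k ^ 2) :=
    Real.sqrt_mul (by positivity) _
  have hle : ∀ f y : K → ℝ, ∑ k, BB f y k ^ 2 ≤ ∑ k, y k ^ 2 := by
    intro f y
    rw [← BB_norm f y]
    have := sq_nonneg (∑ k, f k * BB f y k)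
    linarith
  have hdm : ∀ a b : ℝ, a / b = 1 / b * a := fun a b => by ring
  refine ⟨?_, ?_, ?_⟩
  · rw [gauss_eq0 f1 f2 hf, ← ENNReal.ofReal_mul (u_pos f1).le, hsq, one_div_mul_one_div]
  · rw [gauss_eq f1 f2 g hf, ← mul_assoc, ← ENNReal.ofReal_mul (u_pos f1).le,
      ← ENNReal.ofReal_mul (by positivity), hsq, one_div_mul_one_div]
    apply ENNReal.ofReal_le_ofReal
    rw [hdm (∑ k, g k ^ 2)]
    exact mul_le_mul_of_nonneg_left ((hle f2 _).trans (hle f1 g)) (by positivity)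
  · rw [gauss_eq f1 f2 f1 hf, ← mul_assoc, ← ENNReal.ofReal_mul (u_pos f1).le,
      ← ENNReal.ofReal_mul (by positivity), hsq, one_div_mul_one_div]
    apply ENNReal.ofReal_le_ofReal
    rw [hdm ((∑ k, f1 k ^ 2) / (1 + ∑ k, f1 k ^ 2))]
    refine mul_le_mul_of_nonneg_left ?_ (by positivity)
    refine (hle f2 _).trans ?_
    have h1 : ∑ k, BB f1 f1 k ^ 2 + (∑ k, f1 k * BB f1 f1 k) ^ 2 = ∑ k, f1 k ^ 2 := BB_norm f1 f1
    rw [BB_self] at h1
    have h2 : ∑ k, f1 k * f1 k = ∑ k, f1 k ^ 2 := Finset.sum_congr rfl fun k _ => (sq _).symm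
    rw [h2] at h1
    have h3 := u_sq f1
    rw [le_div_iff₀ (by positivity)]
    set u := 1 / Real.sqrt (1 + ∑ k, f1 k ^ 2)
    set S := ∑ k, f1 k ^ 2
    set Q := ∑ k, BB f1 f1 k ^ 2
    have h4 : Q * (1 + S) = S * (1 + S) - S ^ 2 * (u ^ 2 * (1 + S)) := by
      linear_combination (1 + S) * h1
    rw [h4, h3]
    nlinarith

end JG

end Pool.Agent.Helper954.Hopf
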