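import Pool.Agent.Helper954.Hopf.Defs

set_option autoImplicit false

namespace Pool.Agent.Helper954.Hopf

open MeasureTheory Set
open scoped BigOperators ENNReal

/-- the integral of `f (e-part) * g (Gaussian part)` is a product -/
theorem muF_prod {p : ℕ} [NeZero p] {I : Type} [Fintype I] (f : (Ty p → ℝ) → ℝ≥0∞)
    (g : (((Ty p × Fin 2) ⊕ (I × Fin 2)) → ℝ) → ℝ≥0∞) (hf : Measurable f) (hg : Measurable g) :
    ∫⁻ θ, f (fun a => θ (Sum.inl a)) * g (fun k => θ (Sum.inr k)) ∂muF p I =
      (∫⁻ e, f e ∂Measure.pi (fun _ : Ty p => (volume : Measure ℝ).withDensity hE)) *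
      ∫⁻ x, g x ∂Measure.pi (fun _ : (Ty p × Fin 2) ⊕ (I × Fin 2) =>
        (volume : Measure ℝ).withDensity hG) := by
  have hsig : ∀ k : Par p I, SigmaFinite ((volume : Measure ℝ).withDensity (hd k)) := by
    intro k
    rcases k with k | k
    · exact SigmaFinite.withDensity_ofReal _
    · exact SigmaFinite.withDensity_ofReal _
  have hmp := measurePreserving_sumPiEquivProdPi
    (fun k : Ty p ⊕ ((Ty p × Fin 2) ⊕ (I × Fin 2)) => (volume : Measure ℝ).withDensity (hd (p := p) (I := I) k))
  unfold muF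
  have h1 := hmp.lintegral_comp (f := fun q => f q.1 * g q.2)
    ((hf.comp measurable_fst).mul (hg.comp measurable_snd))
  have h2 : ∫⁻ θ, f (fun a => θ (Sum.inl a)) * g (fun k => θ (Sum.inr k))
      ∂Measure.pi (fun k : Par p I => (volume : Measure ℝ).withDensity (hd (p := p) (I := I) k)) = _ := h1
  rw [h2]
  exact lintegral_prod_mul hf.aemeasurable hg.aemeasurable

end Pool.Agent.Helper954.Hopf
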