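import Pool.Agent.Helper954.Hopf.JE
import Pool.Agent.Helper954.Hopf.JG
import Pool.Agent.Helper954.Hopf.MP

set_option autoImplicit false

namespace Pool.Agent.Helper954.Hopf

open MeasureTheory Set
open scoped BigOperators
open scoped ENNReal
open JE (race)
open JG (gauss)

namespace JN

section fieldN

variable {p : ℕ} {I : Type} [Fintype I]

/-- coefficient vector of the real part -/
noncomputable def cf1 (κ : I → ZMod p) (a : Ty p) (v : Cx I) : ((Ty p × Fin 2) ⊕ (I × Fin 2)) → ℝ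
  | Sum.inl _ => 0
  | Sum.inr (i, j) => if κ i = a.1 then (if j = 0 then v (i, 0) else - v (i, 1)) else 0

/-- coefficient vector of the imaginary part -/
noncomputable def cf2 (κ : I → ZMod p) (a : Ty p) (v : Cx I) : ((Ty p × Fin 2) ⊕ (I × Fin 2)) → ℝ
  | Sum.inl _ => 0
  | Sum.inr (i, j) => if κ i = a.1 then (if j = 0 then v (i, 1) else v (i, 0)) else 0

variable [NeZero p]

lemma cf_orth (κ : I → ZMod p) (a : Ty p) (v : Cx I) :
    ∑ k, cf1 κ a v k * cf2 κ a v k = 0 := by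
  rw [Fintype.sum_sum_type, Fintype.sum_prod_type (f := fun x => cf1 κ a v (Sum.inr x) * _)]
  simp only [cf1, cf2, Fin.sum_univ_two, zero_mul, Finset.sum_const_zero, zero_add]
  apply Finset.sum_eq_zero
  intro i _
  by_cases h : κ i = a.1
  · simp [h]; ring
  · simp [h]

lemma norm_cx_sq (v : Cx I) (i : I) : ‖cx v i‖ ^ 2 = v (i, 0) ^ 2 + v (i, 1) ^ 2 := by
  rw [Complex.sq_norm, Complex.normSq_apply]
  simp only [cx]; ring

lemma cf1_sq (κ : I → ZMod p) (a : Ty p) (v : Cx I) : ∑ k, cf1 κ a v k ^ 2 = na κ a v := by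
  rw [Fintype.sum_sum_type, Fintype.sum_prod_type (f := fun x => cf1 κ a v (Sum.inr x) ^ 2)]
  simp only [cf1, Fin.sum_univ_two, na, norm_cx_sq]
  simp only [ne_eq, OfNat.ofNat_ne_zero, not_false_eq_true, zero_pow, Finset.sum_const_zero, zero_add]
  apply Finset.sum_congr rfl
  intro i _
  by_cases h : κ i = a.1
  · simp [h]
  · simp [h]

lemma cf2_sq (κ : I → ZMod p) (a : Ty p) (v : Cx I) : ∑ k, cf2 κ a v k ^ 2 = na κ a v := by
  rw [Fintype.sum_sum_type, Fintype.sum_prod_type (f := fun x => cf2 κ a v (Sum.inr x) ^ 2)]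
  simp only [cf2, Fin.sum_univ_two, na, norm_cx_sq]
  simp only [ne_eq, OfNat.ofNat_ne_zero, not_false_eq_true, zero_pow, Finset.sum_const_zero, zero_add]
  apply Finset.sum_congr rfl
  intro i _
  by_cases h : κ i = a.1
  · simp [h]; ring
  · simp [h]

/-- linear form -/
noncomputable def lf (f x : ((Ty p × Fin 2) ⊕ (I × Fin 2)) → ℝ) : ℝ := ∑ k, f k * x k

lemma lf_cf1 (κ : I → ZMod p) (a : Ty p) (v : Cx I) (θ : Par p I → ℝ) :
    lf (cf1 κ a v) (fun k => θ (Sum.inr k)) =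
      ∑ i, if κ i = a.1 then (pc θ i).re * v (i, 0) - (pc θ i).im * v (i, 1) else 0 := by
  rw [lf, Fintype.sum_sum_type,
    Fintype.sum_prod_type (f := fun x => cf1 κ a v (Sum.inr x) * θ (Sum.inr (Sum.inr x)))]
  simp only [cf1, Fin.sum_univ_two, zero_mul, Finset.sum_const_zero, zero_add]
  apply Finset.sum_congr rfl
  intro i _
  by_cases h : κ i = a.1
  · simp [h, pc]; ring
  · simp [h]

lemma lf_cf2 (κ : I → ZMod p) (a : Ty p) (v : Cx I) (θ : Par p I → ℝ) :
    lf (cf2 κ a v) (fun k => θ (Sum.inr k)) =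
      ∑ i, if κ i = a.1 then (pc θ i).re * v (i, 1) + (pc θ i).im * v (i, 0) else 0 := by
  rw [lf, Fintype.sum_sum_type,
    Fintype.sum_prod_type (f := fun x => cf2 κ a v (Sum.inr x) * θ (Sum.inr (Sum.inr x)))]
  simp only [cf2, Fin.sum_univ_two, zero_mul, Finset.sum_const_zero, zero_add]
  apply Finset.sum_congr rfl
  intro i _
  by_cases h : κ i = a.1
  · simp [h, pc]; ring
  · simp [h]

lemma xi_re (κ : I → ZMod p) (a : Ty p) (w : Cx I) (θ : Par p I → ℝ) :
    (xi κ θ a w).re = lf (cf1 κ a w) (fun k => θ (Sum.inr k)) := by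
  rw [lf_cf1, xi, Complex.re_sum]
  apply Finset.sum_congr rfl
  intro i _
  by_cases h : κ i = a.1
  · simp [h, cx]
  · simp [h]

lemma xi_im (κ : I → ZMod p) (a : Ty p) (w : Cx I) (θ : Par p I → ℝ) :
    (xi κ θ a w).im = lf (cf2 κ a w) (fun k => θ (Sum.inr k)) := by
  rw [lf_cf2, xi, Complex.im_sum]
  apply Finset.sum_congr rfl
  intro i _
  by_cases h : κ i = a.1
  · simp [h, cx]
  · simp [h]

lemma xire_apply (κ : I → ZMod p) (a : Ty p) (v : Cx I) (θ : Par p I → ℝ) :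
    xire κ θ a v = lf (cf1 κ a v) (fun k => θ (Sum.inr k)) := by
  rw [lf_cf1, xire, sum_apply]
  apply Finset.sum_congr rfl
  intro i _
  by_cases h : κ i = a.1
  · simp [h]
  · simp [h]

lemma xiim_apply (κ : I → ZMod p) (a : Ty p) (v : Cx I) (θ : Par p I → ℝ) :
    xiim κ θ a v = lf (cf2 κ a v) (fun k => θ (Sum.inr k)) := by
  rw [lf_cf2, xiim, sum_apply]
  apply Finset.sum_congr rfl
  intro i _
  by_cases h : κ i = a.1
  · simp [h]
  · simp [h]

lemma norm_comp_sq_le {d : ℕ} (U : EuclideanSpace ℝ (Fin d) →ₗᵢ[ℝ] Cx I) (G : Cx I →L[ℝ] ℝ) :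
    ‖G.comp U.toContinuousLinearMap‖ ^ 2 ≤ ∑ k, G (U (EuclideanSpace.single k 1)) ^ 2 := by
  set T : ℝ := ∑ k, G (U (EuclideanSpace.single k 1)) ^ 2 with hT
  have hT0 : 0 ≤ T := Finset.sum_nonneg fun _ _ => sq_nonneg _
  have h1 : ‖G.comp U.toContinuousLinearMap‖ ≤ Real.sqrt T := by
    apply ContinuousLinearMap.opNorm_le_bound _ (Real.sqrt_nonneg _)
    intro v
    have hv : v = ∑ k, v k • (EuclideanSpace.single k (1 : ℝ) : EuclideanSpace ℝ (Fin d)) := by
      ext j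
      simp [Finset.sum_apply, Pi.single_apply]
    have h2 : (G.comp U.toContinuousLinearMap) v = ∑ k, v k * G (U (EuclideanSpace.single k 1)) := by
      conv_lhs => rw [hv]
      rw [map_sum]
      apply Finset.sum_congr rfl
      intro k _
      rw [map_smul]
      simp
    rw [h2, Real.norm_eq_abs]
    apply abs_le_of_sq_le_sq _ (by positivity)
    rw [mul_pow, Real.sq_sqrt hT0, EuclideanSpace.norm_sq_eq, mul_comm]
    simp only [Real.norm_eq_abs, sq_abs]
    exact Finset.sum_mul_sq_le_sq_mul_sq _ _ _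
  calc ‖G.comp U.toContinuousLinearMap‖ ^ 2 ≤ Real.sqrt T ^ 2 := by gcongr
    _ = T := Real.sq_sqrt hT0

/-- the Gaussian terms -/
noncomputable def gA (f1 f2 g x : ((Ty p × Fin 2) ⊕ (I × Fin 2)) → ℝ) : ℝ≥0∞ :=
  ENNReal.ofReal (Real.exp (-((∑ k, f1 k * x k) ^ 2 + (∑ k, f2 k * x k) ^ 2) / 2)
        * (∑ k, g k * x k) ^ 2)

lemma gA_meas (f1 f2 g : ((Ty p × Fin 2) ⊕ (I × Fin 2)) → ℝ) : Measurable (gA f1 f2 g) := by
  apply ENNReal.measurable_ofReal.comp
  apply Continuous.measurable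
  fun_prop

lemma na_nonneg (κ : I → ZMod p) (a : Ty p) (v : Cx I) : 0 ≤ na κ a v := by
  apply Finset.sum_nonneg
  intro i _
  split_ifs <;> positivity

lemma mm_eq (κ : I → ZMod p) (a : Ty p) (v : Cx I) : mm κ 1 a v = 1 + na κ a v := by
  rw [mm, na]; norm_num

lemma gA_int (κ : I → ZMod p) (a : Ty p) (w v : Cx I) :
    (∫⁻ x, gA (cf1 κ a w) (cf2 κ a w) (cf1 κ a v) x
      ∂Measure.pi (fun _ : (Ty p × Fin 2) ⊕ (I × Fin 2) => (volume : Measure ℝ).withDensity hG)
        ≤ ENNReal.ofReal (na κ a v / mm κ 1 a w)) ∧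
    (∫⁻ x, gA (cf1 κ a w) (cf2 κ a w) (cf2 κ a v) x
      ∂Measure.pi (fun _ : (Ty p × Fin 2) ⊕ (I × Fin 2) => (volume : Measure ℝ).withDensity hG)
        ≤ ENNReal.ofReal (na κ a v / mm κ 1 a w)) ∧
    (∫⁻ x, gA (cf1 κ a w) (cf2 κ a w) (cf1 κ a w) x
      ∂Measure.pi (fun _ : (Ty p × Fin 2) ⊕ (I × Fin 2) => (volume : Measure ℝ).withDensity hG)
        ≤ ENNReal.ofReal (1 / mm κ 1 a w)) ∧
    (∫⁻ x, gA (cf1 κ a w) (cf2 κ a w) (cf2 κ a w) x
      ∂Measure.pi (fun _ : (Ty p × Fin 2) ⊕ (I × Fin 2) => (volume : Measure ℝ).withDensity hG)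
        ≤ ENNReal.ofReal (1 / mm κ 1 a w)) := by
  have hm : Real.sqrt ((1 + na κ a w) * (1 + na κ a w)) = mm κ 1 a w := by
    rw [Real.sqrt_mul_self (by have := na_nonneg κ a w; linarith), mm_eq]
  have hn := na_nonneg κ a w
  have hmp : 0 < mm κ 1 a w := by rw [mm_eq]; linarith
  have horth := cf_orth κ a w
  have horth' : ∑ k, cf2 κ a w k * cf1 κ a w k = 0 := by
    rw [← horth]; exact Finset.sum_congr rfl fun _ _ => mul_comm _ _
  have hfrac : na κ a w / (1 + na κ a w) / mm κ 1 a w ≤ 1 / mm κ 1 a w := by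
    apply div_le_div_of_nonneg_right _ hmp.le
    rw [div_le_one (by linarith)]; linarith
  refine ⟨?_, ?_, ?_, ?_⟩
  · have h := (gauss (cf1 κ a w) (cf2 κ a w) (cf1 κ a v) horth).2.1
    rw [cf1_sq, cf1_sq, cf2_sq, hm] at h
    exact h
  · have h := (gauss (cf1 κ a w) (cf2 κ a w) (cf2 κ a v) horth).2.1
    rw [cf2_sq, cf1_sq, cf2_sq, hm] at h
    exact h
  · have h := (gauss (cf1 κ a w) (cf2 κ a w) (cf1 κ a w) horth).2.2
    rw [cf1_sq, cf2_sq, hm] at h
    exact h.trans (ENNReal.ofReal_le_ofReal hfrac)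
  · have h := (gauss (cf2 κ a w) (cf1 κ a w) (cf1 κ a w) horth').2.2
    rw [cf1_sq, cf2_sq, hm] at h
    refine le_trans (le_of_eq ?_) (h.trans (ENNReal.ofReal_le_ofReal hfrac))
    apply lintegral_congr
    intro x
    rw [gA, add_comm ((∑ k, cf1 κ a w k * x k) ^ 2)]

/-- the dominating Gaussian function -/
noncomputable def gdom (κ : I → ZMod p) (a : Ty p) (w : Cx I) {d : ℕ}
    (U : EuclideanSpace ℝ (Fin d) →ₗᵢ[ℝ] Cx I) (c1 c2 : ℝ)
    (x : ((Ty p × Fin 2) ⊕ (I × Fin 2)) → ℝ) : ℝ≥0∞ :=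
  ENNReal.ofReal c1 * (∑ k, (gA (cf1 κ a w) (cf2 κ a w) (cf1 κ a (U (EuclideanSpace.single k 1))) x
      + gA (cf1 κ a w) (cf2 κ a w) (cf2 κ a (U (EuclideanSpace.single k 1))) x))
    + ENNReal.ofReal c2 * (gA (cf1 κ a w) (cf2 κ a w) (cf1 κ a w) x
      + gA (cf1 κ a w) (cf2 κ a w) (cf2 κ a w) x)

lemma gdom_meas (κ : I → ZMod p) (a : Ty p) (w : Cx I) {d : ℕ}
    (U : EuclideanSpace ℝ (Fin d) →ₗᵢ[ℝ] Cx I) (c1 c2 : ℝ) : Measurable (gdom κ a w U c1 c2) := by
  unfold gdom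
  apply Measurable.add
  · apply Measurable.const_mul
    apply Finset.measurable_fun_sum
    intro k _
    exact (gA_meas _ _ _).add (gA_meas _ _ _)
  · apply Measurable.const_mul
    exact (gA_meas _ _ _).add (gA_meas _ _ _)

lemma gdom_int (κ : I → ZMod p) (a : Ty p) (w : Cx I) {d : ℕ}
    (U : EuclideanSpace ℝ (Fin d) →ₗᵢ[ℝ] Cx I) (c1 c2 : ℝ) (h1 : 0 ≤ c1) (h2 : 0 ≤ c2) :
    ∫⁻ x, gdom κ a w U c1 c2 x
      ∂Measure.pi (fun _ : (Ty p × Fin 2) ⊕ (I × Fin 2) => (volume : Measure ℝ).withDensity hG)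
      ≤ ENNReal.ofReal ((2 * c1 * trA κ a U + 2 * c2) / mm κ 1 a w) := by
  have hmp : 0 < mm κ 1 a w := by rw [mm_eq]; linarith [na_nonneg κ a w]
  unfold gdom
  rw [lintegral_add_left, lintegral_const_mul, lintegral_const_mul, lintegral_finsetSum,
    lintegral_add_left (gA_meas _ _ _)]
  · calc _ ≤ ENNReal.ofReal c1 * (∑ k, ENNReal.ofReal
            (2 * (na κ a (U (EuclideanSpace.single k 1)) / mm κ 1 a w)))
          + ENNReal.ofReal c2 * ENNReal.ofReal (2 * (1 / mm κ 1 a w)) := by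
          gcongr with k hk
          · rw [lintegral_add_left (gA_meas _ _ _)]
            obtain ⟨e1, e2, _, _⟩ := gA_int κ a w (U (EuclideanSpace.single k 1))
            rw [two_mul, ENNReal.ofReal_add
              (div_nonneg (na_nonneg _ _ _) hmp.le) (div_nonneg (na_nonneg _ _ _) hmp.le)]
            exact add_le_add e1 e2
          · obtain ⟨_, _, e3, e4⟩ := gA_int κ a w w
            rw [two_mul, ENNReal.ofReal_add (by positivity) (by positivity)]
            exact add_le_add e3 e4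
      _ = ENNReal.ofReal ((2 * c1 * trA κ a U + 2 * c2) / mm κ 1 a w) := by
          have hnn : ∀ k ∈ Finset.univ, 0 ≤ 2 * (na κ a (U (EuclideanSpace.single k 1)) / mm κ 1 a w) :=
            fun k _ => mul_nonneg (by norm_num) (div_nonneg (na_nonneg _ _ _) hmp.le)
          rw [← ENNReal.ofReal_sum_of_nonneg hnn, ← ENNReal.ofReal_mul h1, ← ENNReal.ofReal_mul h2,
            ← ENNReal.ofReal_add (mul_nonneg h1 (Finset.sum_nonneg hnn)) (by positivity)]
          congr 1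
          rw [trA, ← Finset.mul_sum, ← Finset.sum_div]
          field_simp
  · intro k _
    exact (gA_meas _ _ _).add (gA_meas _ _ _)
  · exact (gA_meas _ _ _).add (gA_meas _ _ _)
  · apply Finset.measurable_fun_sum
    intro k _
    exact (gA_meas _ _ _).add (gA_meas _ _ _)
  · apply Measurable.const_mul
    apply Finset.measurable_fun_sum
    intro k _
    exact (gA_meas _ _ _).add (gA_meas _ _ _)

lemma real_ineq (al al' be be' lam X X' : ℝ) (hlam : 0 < lam) (hX : al ^ 2 + be ^ 2 ≤ X)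
    (hX' : al' ^ 2 + be' ^ 2 = X') :
    (al + al') * (be + be') ≤ ((1 + lam) * X + (1 + 1 / lam) * X') / 2 := by
  have h1 : 2 * (al * al') ≤ lam * al ^ 2 + 1 / lam * al' ^ 2 := by
    have h : 0 ≤ (lam * al - al') ^ 2 / lam := by positivity
    have e : (lam * al - al') ^ 2 / lam = lam * al ^ 2 + 1 / lam * al' ^ 2 - 2 * (al * al') := by
      field_simp; ring
    linarith
  have h2 : 2 * (be * be') ≤ lam * be ^ 2 + 1 / lam * be' ^ 2 := by
    have h : 0 ≤ (lam * be - be') ^ 2 / lam := by positivity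
    have e : (lam * be - be') ^ 2 / lam = lam * be ^ 2 + 1 / lam * be' ^ 2 - 2 * (be * be') := by
      field_simp; ring
    linarith
  have h3 : 2 * ((al + al') * (be + be')) ≤ (al + al') ^ 2 + (be + be') ^ 2 := by
    nlinarith [sq_nonneg ((al + al') - (be + be'))]
  have h4 : (1 + lam) * (al ^ 2 + be ^ 2) ≤ (1 + lam) * X := by gcongr
  subst hX'
  nlinarith

lemma hG_mul (s t : ℝ) : hG s * hG t = ENNReal.ofReal (Real.exp (-(s ^ 2 + t ^ 2) / 2) / (2 * Real.pi)) := by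
  have hpi := Real.pi_pos
  rw [hG, hG, ← ENNReal.ofReal_mul (by positivity)]
  congr 1
  rw [div_mul_div_comm, ← Real.exp_add, Real.mul_self_sqrt (by positivity)]
  congr 2
  ring

lemma gdom_eq (κ : I → ZMod p) (a : Ty p) (w : Cx I) {d : ℕ}
    (U : EuclideanSpace ℝ (Fin d) →ₗᵢ[ℝ] Cx I) (c1 c2 : ℝ) (h1 : 0 ≤ c1) (h2 : 0 ≤ c2)
    (x : ((Ty p × Fin 2) ⊕ (I × Fin 2)) → ℝ) :
    gdom κ a w U c1 c2 x = ENNReal.ofReal
      (Real.exp (-((lf (cf1 κ a w) x) ^ 2 + (lf (cf2 κ a w) x) ^ 2) / 2) *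
      (c1 * (∑ k, ((lf (cf1 κ a (U (EuclideanSpace.single k 1))) x) ^ 2
          + (lf (cf2 κ a (U (EuclideanSpace.single k 1))) x) ^ 2))
        + c2 * ((lf (cf1 κ a w) x) ^ 2 + (lf (cf2 κ a w) x) ^ 2))) := by
  set E : ℝ := Real.exp (-((lf (cf1 κ a w) x) ^ 2 + (lf (cf2 κ a w) x) ^ 2) / 2) with hE
  have hE0 : 0 ≤ E := (Real.exp_pos _).le
  have hg : ∀ g : ((Ty p × Fin 2) ⊕ (I × Fin 2)) → ℝ,
      gA (cf1 κ a w) (cf2 κ a w) g x = ENNReal.ofReal (E * (lf g x) ^ 2) := fun g => rfl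
  unfold gdom
  simp only [hg]
  have e1 : ∀ s t : ℝ, ENNReal.ofReal (E * s ^ 2) + ENNReal.ofReal (E * t ^ 2)
      = ENNReal.ofReal (E * (s ^ 2 + t ^ 2)) := by
    intro s t
    rw [← ENNReal.ofReal_add (by positivity) (by positivity), mul_add]
  simp only [e1]
  rw [← ENNReal.ofReal_sum_of_nonneg (fun k _ => by positivity), ← ENNReal.ofReal_mul h1,
    ← ENNReal.ofReal_mul h2, ← ENNReal.ofReal_add (by positivity) (by positivity)]
  congr 1
  rw [← Finset.mul_sum]
  ring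

lemma pointwise (κ : I → ZMod p) (a : Ty p) (w : Cx I) {d : ℕ}
    (U : EuclideanSpace ℝ (Fin d) →ₗᵢ[ℝ] Cx I) (lam : ℝ) (hlam : 0 < lam) (θ : Par p I → ℝ) :
    hG (xi κ θ a w).re * hG (xi κ θ a w).im *
      ((‖(xire κ θ a).comp U.toContinuousLinearMap‖ₑ + ‖xire κ θ a w‖ₑ) *
       (‖(xiim κ θ a).comp U.toContinuousLinearMap‖ₑ + ‖xiim κ θ a w‖ₑ))
      ≤ gdom κ a w U ((1 + lam) / (4 * Real.pi)) ((1 + 1 / lam) / (4 * Real.pi))
          (fun k => θ (Sum.inr k)) := by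
  have hpi := Real.pi_pos
  set x : ((Ty p × Fin 2) ⊕ (I × Fin 2)) → ℝ := fun k => θ (Sum.inr k) with hx
  rw [gdom_eq _ _ _ _ _ _ (by positivity) (by positivity), xi_re, xi_im, hG_mul]
  rw [← ofReal_norm, ← ofReal_norm, ← ofReal_norm, ← ofReal_norm,
    ← ENNReal.ofReal_add (norm_nonneg _) (norm_nonneg _),
    ← ENNReal.ofReal_add (norm_nonneg _) (norm_nonneg _),
    ← ENNReal.ofReal_mul (by positivity), ← ENNReal.ofReal_mul (by positivity)]
  apply ENNReal.ofReal_le_ofReal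
  have hn1 := norm_comp_sq_le U (xire κ θ a)
  have hn2 := norm_comp_sq_le U (xiim κ θ a)
  simp only [xire_apply] at hn1
  simp only [xiim_apply] at hn2
  rw [← hx] at hn1 hn2
  have hX' : ‖xire κ θ a w‖ ^ 2 + ‖xiim κ θ a w‖ ^ 2
      = (lf (cf1 κ a w) x) ^ 2 + (lf (cf2 κ a w) x) ^ 2 := by
    rw [Real.norm_eq_abs, Real.norm_eq_abs, sq_abs, sq_abs, xire_apply, xiim_apply]
  have hX : ‖(xire κ θ a).comp U.toContinuousLinearMap‖ ^ 2
      + ‖(xiim κ θ a).comp U.toContinuousLinearMap‖ ^ 2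
      ≤ ∑ k, ((lf (cf1 κ a (U (EuclideanSpace.single k 1))) x) ^ 2
          + (lf (cf2 κ a (U (EuclideanSpace.single k 1))) x) ^ 2) := by
    rw [Finset.sum_add_distrib]
    exact add_le_add hn1 hn2
  have h := real_ineq _ _ _ _ lam _ _ hlam hX hX'
  set E : ℝ := Real.exp (-((lf (cf1 κ a w) x) ^ 2 + (lf (cf2 κ a w) x) ^ 2) / 2) with hE
  have hE0 : 0 ≤ E := (Real.exp_pos _).le
  calc E / (2 * Real.pi) * ((‖(xire κ θ a).comp U.toContinuousLinearMap‖ + ‖xire κ θ a w‖) *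
        (‖(xiim κ θ a).comp U.toContinuousLinearMap‖ + ‖xiim κ θ a w‖))
      ≤ E / (2 * Real.pi) * (((1 + lam) * (∑ k, ((lf (cf1 κ a (U (EuclideanSpace.single k 1))) x) ^ 2
          + (lf (cf2 κ a (U (EuclideanSpace.single k 1))) x) ^ 2))
          + (1 + 1 / lam) * ((lf (cf1 κ a w) x) ^ 2 + (lf (cf2 κ a w) x) ^ 2)) / 2) := by
        apply mul_le_mul_of_nonneg_left h (by positivity)
    _ = _ := by
        field_simp
        ring

lemma sum_mm (κ : I → ZMod p) (hκ : ∀ i, κ i ≠ 0) (w : Cx I) :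
    ∑ d : Ty p, mm κ 1 d w = SS p w := by
  have h1 : ∀ d : Ty p, mm κ 1 d w = 1 + na κ d w := fun d => mm_eq κ d w
  simp only [h1]
  rw [Finset.sum_add_distrib, SS]
  congr 1
  · rw [Finset.sum_const, nsmul_eq_mul, mul_one, Finset.card_univ]
    have : Fintype.card (Ty p) = p - 1 := by
      rw [Fintype.card_subtype_compl, ZMod.card]
      simp
    rw [this, Nat.cast_sub (Nat.one_le_iff_ne_zero.mpr (NeZero.ne p))]
    simp
  · simp only [na]
    rw [Finset.sum_comm, EuclideanSpace.norm_sq_eq, Fintype.sum_prod_type]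
    apply Finset.sum_congr rfl
    intro i _
    rw [Finset.sum_eq_single (⟨κ i, hκ i⟩ : Ty p)]
    · rw [if_pos rfl, norm_cx_sq, Fin.sum_univ_two]
      simp
    · intro b _ hb
      rw [if_neg]
      intro h
      exact hb (Subtype.ext h.symm)
    · intro h
      exact absurd (Finset.mem_univ _) h

open Classical in
/-- indicator of the region for option `N a` -/
noncomputable def freg (κ : I → ZMod p) (a : Ty p) (w : Cx I) (e : Ty p → ℝ) : ℝ≥0∞ :=
  if 0 < e a ∧ ∀ d, mm κ 1 d w * e a ≤ mm κ 1 a w * e d then 1 else 0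

lemma freg_meas (κ : I → ZMod p) (a : Ty p) (w : Cx I) : Measurable (freg κ a w) := by
  classical
  unfold freg
  apply Measurable.ite _ measurable_const measurable_const
  have h1 : MeasurableSet {e : Ty p → ℝ | 0 < e a} := measurableSet_lt measurable_const (by fun_prop)
  have h2 : MeasurableSet {e : Ty p → ℝ | ∀ d, mm κ 1 d w * e a ≤ mm κ 1 a w * e d} := by
    rw [Set.setOf_forall]
    exact MeasurableSet.iInter fun d => measurableSet_le (by fun_prop) (by fun_prop)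
  exact h1.inter h2

lemma freg_int (κ : I → ZMod p) (hκ : ∀ i, κ i ≠ 0) (a : Ty p) (w : Cx I) :
    ∫⁻ e, freg κ a w e ∂Measure.pi (fun _ : Ty p => (volume : Measure ℝ).withDensity hE)
      = ENNReal.ofReal (mm κ 1 a w / SS p w) := by
  classical
  have hpos : ∀ d : Ty p, 0 < mm κ 1 d w := by
    intro d
    rw [mm_eq]; linarith [na_nonneg κ d w]
  have h := race (fun d : Ty p => mm κ 1 d w) hpos a ∅ (Finset.notMem_empty a)
  rw [sum_mm κ hκ w] at h
  simp only [Finset.notMem_empty, not_false_eq_true, forall_true_left, Finset.prod_empty,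
    Finset.card_empty, pow_zero, ENNReal.ofReal_one, mul_one, Nat.factorial_zero, Nat.cast_one,
    one_mul, zero_add, pow_one] at h
  rw [← h]
  apply lintegral_congr
  intro e
  unfold freg
  congr

end fieldN

lemma field_N_aux {p : ℕ} [Fact p.Prime] {I : Type} [Fintype I] (κ : I → ZMod p)
    (hκ : ∀ i, κ i ≠ 0) (w : Cx I) {d : ℕ} (U : EuclideanSpace ℝ (Fin d) →ₗᵢ[ℝ] Cx I)
    (a : Ty p) (lam : ℝ) (hlam : 0 < lam) :
    ∫⁻ θ, Wt κ θ w (Sum.inl a) *
      ((‖(GG κ θ w (Sum.inl a) 0).comp U.toContinuousLinearMap‖ₑ + ‖GG κ θ w (Sum.inl a) 0 w‖ₑ) *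
       (‖(GG κ θ w (Sum.inl a) 1).comp U.toContinuousLinearMap‖ₑ + ‖GG κ θ w (Sum.inl a) 1 w‖ₑ))
      ∂muF p I ≤ ENNReal.ofReal (((1 + lam) * trA κ a U + (1 + 1 / lam)) / (2 * Real.pi * SS p w)) := by
  classical
  have hpi := Real.pi_pos
  have hmp : 0 < mm κ 1 a w := by rw [mm_eq]; linarith [na_nonneg κ a w]
  have hSp : 0 < SS p w := by
    unfold SS
    have h2 : (2 : ℝ) ≤ p := by exact_mod_cast (Fact.out : p.Prime).two_le
    have : 0 ≤ ‖w‖ ^ 2 := by positivity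
    linarith
  set c1 : ℝ := (1 + lam) / (4 * Real.pi) with hc1
  set c2 : ℝ := (1 + 1 / lam) / (4 * Real.pi) with hc2
  have h1 : 0 ≤ c1 := by positivity
  have h2 : 0 ≤ c2 := by positivity
  calc _ ≤ ∫⁻ θ, freg κ a w (fun a => θ (Sum.inl a)) *
        gdom κ a w U c1 c2 (fun k => θ (Sum.inr k)) ∂muF p I := by
        apply lintegral_mono
        intro θ
        simp only
        by_cases hR : Rg κ θ w (Sum.inl a)
        · have hf : freg κ a w (fun a => θ (Sum.inl a)) = 1 := by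
            unfold freg
            exact if_pos hR
          have hW : Wt κ θ w (Sum.inl a) = hG (xi κ θ a w).re * hG (xi κ θ a w).im := by
            unfold Wt
            rw [if_pos hR]
            rfl
          rw [hf, one_mul, hW]
          exact pointwise κ a w U lam hlam θ
        · have hW : Wt κ θ w (Sum.inl a) = 0 := by
            unfold Wt
            exact if_neg hR
          rw [hW, zero_mul]
          exact bot_le
    _ = ENNReal.ofReal (mm κ 1 a w / SS p w) * ∫⁻ x, gdom κ a w U c1 c2 x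
      ∂Measure.pi (fun _ : (Ty p × Fin 2) ⊕ (I × Fin 2) => (volume : Measure ℝ).withDensity hG) := by
        rw [muF_prod _ _ (freg_meas κ a w) (gdom_meas κ a w U c1 c2), freg_int κ hκ]
    _ ≤ ENNReal.ofReal (mm κ 1 a w / SS p w) *
        ENNReal.ofReal ((2 * c1 * trA κ a U + 2 * c2) / mm κ 1 a w) := by
        gcongr
        exact gdom_int κ a w U c1 c2 h1 h2
    _ = _ := by
        rw [← ENNReal.ofReal_mul (by positivity)]
        congr 1
        rw [hc1, hc2]
        field_simp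
        ring

/-- JOB: bound for the options N a -/
theorem field_N {p : ℕ} [Fact p.Prime] (hp : p ≠ 2) {I : Type} [Fintype I] (κ : I → ZMod p)
    (hκ : ∀ i, κ i ≠ 0) (w : Cx I) {d : ℕ} (U : EuclideanSpace ℝ (Fin d) →ₗᵢ[ℝ] Cx I)
    (a : Ty p) :
    ∫⁻ θ, Wt κ θ w (Sum.inl a) *
      ((‖(GG κ θ w (Sum.inl a) 0).comp U.toContinuousLinearMap‖ₑ + ‖GG κ θ w (Sum.inl a) 0 w‖ₑ) *
       (‖(GG κ θ w (Sum.inl a) 1).comp U.toContinuousLinearMap‖ₑ + ‖GG κ θ w (Sum.inl a) 1 w‖ₑ))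
      ∂muF p I ≤ ENNReal.ofReal ((trA κ a U + 2 * Real.sqrt (trA κ a U) + 1) / (2 * Real.pi * SS p w)) := by
  have htr : 0 ≤ trA κ a U := Finset.sum_nonneg fun k _ => na_nonneg κ a _
  rcases htr.eq_or_lt with h0 | hpos
  · have hlim : Filter.Tendsto (fun lam : ℝ => ENNReal.ofReal
        (((1 + lam) * trA κ a U + (1 + 1 / lam)) / (2 * Real.pi * SS p w))) Filter.atTop
        (nhds (ENNReal.ofReal
        ((trA κ a U + 2 * Real.sqrt (trA κ a U) + 1) / (2 * Real.pi * SS p w)))) := by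
      apply ENNReal.tendsto_ofReal
      apply Filter.Tendsto.div_const
      rw [← h0]
      simp only [mul_zero, zero_add, Real.sqrt_zero, add_zero, one_div]
      simpa using (tendsto_inv_atTop_zero (𝕜 := ℝ)).const_add 1
    refine ge_of_tendsto hlim ?_
    filter_upwards [Filter.eventually_gt_atTop (0 : ℝ)] with lam hlam
    exact field_N_aux κ hκ w U a lam hlam
  · have hs : 0 < Real.sqrt (trA κ a U) := Real.sqrt_pos.mpr hpos
    refine (field_N_aux κ hκ w U a (1 / Real.sqrt (trA κ a U)) (by positivity)).trans (le_of_eq ?_)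
    congr 2
    have hss : Real.sqrt (trA κ a U) * Real.sqrt (trA κ a U) = trA κ a U := Real.mul_self_sqrt htr
    have e1 : (1 + 1 / Real.sqrt (trA κ a U)) * trA κ a U
        = trA κ a U + Real.sqrt (trA κ a U) := by
      rw [add_mul, one_mul, one_div]
      congr 1
      nth_rewrite 2 [← hss]
      rw [← mul_assoc, inv_mul_cancel₀ hs.ne', one_mul]
    rw [e1, one_div_one_div]
    ring

end JN

end Pool.Agent.Helper954.Hopf
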