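import Pool.Agent.Helper954.Hopf.JE
import Pool.Agent.Helper954.Hopf.JG
import Pool.Agent.Helper954.Hopf.MP

set_option autoImplicit false

namespace Pool.Agent.Helper954.Hopf

open MeasureTheory Set
open scoped BigOperators
open scoped ENNReal
open JE (race)
open JG (gauss)

namespace JT


section TAux

theorem mm_eq {p : ℕ} {I : Type} [Fintype I] (κ : I → ZMod p) (a : Ty p) (w : Cx I) :
    mm κ 1 a w = 1 + na κ a w := by
  unfold mm na
  norm_num

theorem na_nonneg {p : ℕ} {I : Type} [Fintype I] (κ : I → ZMod p) (a : Ty p) (w : Cx I) :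
    0 ≤ na κ a w := by
  unfold na
  apply Finset.sum_nonneg
  intro i _
  split_ifs
  · positivity
  · exact le_rfl

theorem cx_norm_sq {I : Type} (w : Cx I) (i : I) :
    ‖cx w i‖ ^ 2 = w (i, 0) ^ 2 + w (i, 1) ^ 2 := by
  rw [← Complex.normSq_eq_norm_sq]
  unfold cx
  rw [Complex.normSq_mk]
  ring

theorem sum_na {p : ℕ} [NeZero p] {I : Type} [Fintype I] (κ : I → ZMod p) (hκ : ∀ i, κ i ≠ 0)
    (w : Cx I) : ∑ d : Ty p, na κ d w = ‖w‖ ^ 2 := by
  unfold na
  rw [Finset.sum_comm, EuclideanSpace.real_norm_sq_eq, Fintype.sum_prod_type]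
  apply Finset.sum_congr rfl
  intro i _
  rw [Finset.sum_eq_single (⟨κ i, hκ i⟩ : Ty p), if_pos rfl, cx_norm_sq, Fin.sum_univ_two]
  · intro d _ hd
    rw [if_neg]
    intro h
    apply hd
    exact Subtype.ext h.symm
  · intro h
    exact absurd (Finset.mem_univ _) h

theorem card_Ty {p : ℕ} [NeZero p] (hp : 1 ≤ p) : (Fintype.card (Ty p) : ℝ) = (p : ℝ) - 1 := by
  have h := Fintype.card_subtype_compl (fun a : ZMod p => a = 0)
  have h1 : Fintype.card (Ty p) = Fintype.card {a : ZMod p // ¬ a = 0} := by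
    apply Fintype.card_congr
    exact Equiv.refl _
  rw [h1, h, ZMod.card, Fintype.card_subtype_eq, Nat.cast_sub hp, Nat.cast_one]

theorem sum_mm {p : ℕ} [NeZero p] (hp : 1 ≤ p) {I : Type} [Fintype I] (κ : I → ZMod p)
    (hκ : ∀ i, κ i ≠ 0) (w : Cx I) : ∑ d : Ty p, mm κ 1 d w = SS p w := by
  have h : ∀ d : Ty p, mm κ 1 d w = 1 + na κ d w := fun d => mm_eq κ d w
  simp only [h]
  rw [Finset.sum_add_distrib, sum_na κ hκ, Finset.sum_const, nsmul_eq_mul, mul_one,
    Finset.card_univ, card_Ty hp]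
  rfl

theorem ipA_apply {p : ℕ} {I : Type} [Fintype I] (κ : I → ZMod p) (a : Ty p) (w v : Cx I) :
    ipA κ a w v = ∑ i, if κ i = a.1 then w (i, 0) * v (i, 0) + w (i, 1) * v (i, 1) else 0 := by
  unfold ipA
  rw [sum_apply]
  apply Finset.sum_congr rfl
  intro i _
  split_ifs
  · simp
  · simp

theorem ipA_self {p : ℕ} {I : Type} [Fintype I] (κ : I → ZMod p) (a : Ty p) (w : Cx I) :
    ipA κ a w w = na κ a w := by
  rw [ipA_apply]
  unfold na
  apply Finset.sum_congr rfl
  intro i _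
  split_ifs
  · rw [cx_norm_sq]; ring
  · rfl

theorem ipA_norm {p : ℕ} {I : Type} [Fintype I] (κ : I → ZMod p) (a : Ty p) (w : Cx I) :
    ‖ipA κ a w‖ ≤ Real.sqrt (na κ a w) := by
  apply ContinuousLinearMap.opNorm_le_bound _ (Real.sqrt_nonneg _)
  intro v
  have h1 : ipA κ a w v = ∑ k : I × Fin 2, (if κ k.1 = a.1 then w k else 0) * v k := by
    rw [ipA_apply, Fintype.sum_prod_type]
    apply Finset.sum_congr rfl
    intro i _
    rw [Fin.sum_univ_two]
    split_ifs
    · rfl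
    · simp
  have h2 : ∑ k : I × Fin 2, (if κ k.1 = a.1 then w k else 0) ^ 2 = na κ a w := by
    unfold na
    rw [Fintype.sum_prod_type]
    apply Finset.sum_congr rfl
    intro i _
    rw [Fin.sum_univ_two]
    split_ifs
    · rw [cx_norm_sq]
    · simp
  have h3 : (ipA κ a w v) ^ 2 ≤ na κ a w * ‖v‖ ^ 2 := by
    rw [h1, ← h2, EuclideanSpace.real_norm_sq_eq]
    exact Finset.sum_mul_sq_le_sq_mul_sq _ _ _
  rw [Real.norm_eq_abs]
  apply abs_le_of_sq_le_sq
  · rw [mul_pow, Real.sq_sqrt (na_nonneg κ a w)]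
    exact h3
  · positivity

/-- the functional in front of `e_a` -/
noncomputable def LL {p : ℕ} {I : Type} [Fintype I] (κ : I → ZMod p) (a b : Ty p) (w : Cx I) :
    Cx I →L[ℝ] ℝ :=
  (2 / mm κ 1 a w) • ipA κ b w - (2 * mm κ 1 b w / mm κ 1 a w ^ 2) • ipA κ a w

theorem LL_self {p : ℕ} {I : Type} [Fintype I] (κ : I → ZMod p) (a b : Ty p) (w : Cx I) :
    LL κ a b w w = 2 * (mm κ 1 b w - mm κ 1 a w) / mm κ 1 a w ^ 2 := by
  have hA : ipA κ a w w = mm κ 1 a w - 1 := by rw [ipA_self, mm_eq]; ring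
  have hB : ipA κ b w w = mm κ 1 b w - 1 := by rw [ipA_self, mm_eq]; ring
  have hpos : 0 < mm κ 1 a w := by
    rw [mm_eq]; have := na_nonneg κ a w; linarith
  unfold LL
  show (2 / mm κ 1 a w) * ipA κ b w w - (2 * mm κ 1 b w / mm κ 1 a w ^ 2) * ipA κ a w w = _
  rw [hA, hB]
  field_simp
  ring

theorem LL_norm {p : ℕ} {I : Type} [Fintype I] (κ : I → ZMod p) (a b : Ty p) (w : Cx I) :
    ‖LL κ a b w‖ ≤ 2 / mm κ 1 a w * Real.sqrt (mm κ 1 b w) +
      2 * mm κ 1 b w / mm κ 1 a w ^ 2 * Real.sqrt (mm κ 1 a w) := by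
  have hposa : 0 < mm κ 1 a w := by
    rw [mm_eq]; have := na_nonneg κ a w; linarith
  have hposb : 0 < mm κ 1 b w := by
    rw [mm_eq]; have := na_nonneg κ b w; linarith
  have ha : ‖ipA κ a w‖ ≤ Real.sqrt (mm κ 1 a w) :=
    (ipA_norm κ a w).trans (Real.sqrt_le_sqrt (by rw [mm_eq]; linarith))
  have hb : ‖ipA κ b w‖ ≤ Real.sqrt (mm κ 1 b w) :=
    (ipA_norm κ b w).trans (Real.sqrt_le_sqrt (by rw [mm_eq]; linarith))
  unfold LL
  refine (norm_sub_le _ _).trans (add_le_add ?_ ?_)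
  · rw [norm_smul, Real.norm_of_nonneg (by positivity)]
    exact mul_le_mul_of_nonneg_left hb (by positivity)
  · rw [norm_smul, Real.norm_of_nonneg (by positivity)]
    exact mul_le_mul_of_nonneg_left ha (by positivity)

/-- the numerical inequality -/
theorem num_x {A B S : ℝ} (hA : 1 ≤ A) (hB : 1 ≤ B) (hAB : A + B ≤ S) :
    2 / A * Real.sqrt B + 2 * B / A ^ 2 * Real.sqrt A + |2 * (B - A) / A ^ 2| ≤
      5 * S * Real.sqrt A / A ^ 2 := by
  have hA0 : 0 < A := by linarith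
  have hB0 : 0 < B := by linarith
  obtain ⟨a, ha⟩ : ∃ a, a = Real.sqrt A := ⟨_, rfl⟩
  obtain ⟨b, hb⟩ : ∃ b, b = Real.sqrt B := ⟨_, rfl⟩
  have ha2 : a ^ 2 = A := by rw [ha]; exact Real.sq_sqrt hA0.le
  have hb2 : b ^ 2 = B := by rw [hb]; exact Real.sq_sqrt hB0.le
  have ha1 : 1 ≤ a := by rw [ha]; exact Real.one_le_sqrt.2 hA
  have hb1 : 1 ≤ b := by rw [hb]; exact Real.one_le_sqrt.2 hB
  rw [← ha, ← hb]
  have e1 : 2 / A * b = 2 * A * b / A ^ 2 := by field_simp
  have e2 : 2 * B / A ^ 2 * a = 2 * B * a / A ^ 2 := by ring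
  have e3 : |2 * (B - A) / A ^ 2| = 2 * |B - A| / A ^ 2 := by
    rw [abs_div, abs_mul, abs_of_pos (by positivity : 0 < A ^ 2)]
    norm_num
  rw [e1, e2, e3, ← add_div, ← add_div]
  apply div_le_div_of_nonneg_right _ (by positivity)
  have h1 : 2 * A * b ≤ S * a := by
    have : 2 * (a * b) ≤ A + B := by
      rw [← ha2, ← hb2]; nlinarith [sq_nonneg (a - b)]
    have h2 : 2 * A * b = 2 * (a * b) * a := by rw [← ha2]; ring
    rw [h2]
    apply mul_le_mul_of_nonneg_right _ (by linarith)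
    linarith
  have h2 : 2 * B * a ≤ 2 * S * a := by
    apply mul_le_mul_of_nonneg_right _ (by linarith)
    linarith
  have h3 : 2 * |B - A| ≤ 2 * S * a := by
    have : |B - A| ≤ S := by
      rw [abs_le]; constructor <;> linarith
    have hS : 0 ≤ S := by linarith
    nlinarith
  linarith

theorem mm_ge_one {p : ℕ} {I : Type} [Fintype I] (κ : I → ZMod p) (a : Ty p) (w : Cx I) :
    1 ≤ mm κ 1 a w := by
  rw [mm_eq]; have := na_nonneg κ a w; linarith

theorem pair_le {p : ℕ} [NeZero p] (hp : 1 ≤ p) {I : Type} [Fintype I] (κ : I → ZMod p)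
    (hκ : ∀ i, κ i ≠ 0) (w : Cx I) {a b : Ty p} (hab : a ≠ b) :
    mm κ 1 a w + mm κ 1 b w ≤ SS p w := by
  classical
  have h0 : mm κ 1 a w + mm κ 1 b w = ∑ d ∈ ({a, b} : Finset (Ty p)), mm κ 1 d w :=
    (Finset.sum_pair (f := fun d : Ty p => mm κ 1 d w) hab).symm
  rw [← sum_mm hp κ hκ w, h0]
  apply Finset.sum_le_sum_of_subset_of_nonneg (Finset.subset_univ _)
  intro d _ _
  have := mm_ge_one κ d w
  linarith

/-- bound of the factor `X_b` -/
theorem X_bound {p : ℕ} [NeZero p] (hp : 1 ≤ p) {I : Type} [Fintype I] (κ : I → ZMod p)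
    (hκ : ∀ i, κ i ≠ 0) (w : Cx I) {d : ℕ} (U : EuclideanSpace ℝ (Fin d) →ₗᵢ[ℝ] Cx I)
    {a b : Ty p} (hab : a ≠ b) :
    ‖(LL κ a b w).comp U.toContinuousLinearMap‖ₑ + ‖LL κ a b w w‖ₑ ≤
      ENNReal.ofReal (5 * SS p w * Real.sqrt (mm κ 1 a w) / mm κ 1 a w ^ 2) := by
  have h1 : ‖(LL κ a b w).comp U.toContinuousLinearMap‖ ≤ ‖LL κ a b w‖ := by
    refine (ContinuousLinearMap.opNorm_comp_le _ _).trans ?_
    have hU : ‖U.toContinuousLinearMap‖ ≤ 1 := U.norm_toContinuousLinearMap_le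
    calc ‖LL κ a b w‖ * ‖U.toContinuousLinearMap‖ ≤ ‖LL κ a b w‖ * 1 :=
          mul_le_mul_of_nonneg_left hU (norm_nonneg _)
      _ = ‖LL κ a b w‖ := mul_one _
  rw [← ofReal_norm, ← ofReal_norm, ← ENNReal.ofReal_add (norm_nonneg _) (norm_nonneg _)]
  apply ENNReal.ofReal_le_ofReal
  refine le_trans ?_ (num_x (mm_ge_one κ a w) (mm_ge_one κ b w) (pair_le hp κ hκ w hab))
  apply add_le_add
  · exact h1.trans (LL_norm κ a b w)
  · rw [LL_self, Real.norm_eq_abs]

theorem measurable_hE : Measurable hE := by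
  unfold hE
  apply ENNReal.measurable_ofReal.comp
  apply Measurable.ite measurableSet_Ioi
  · exact Real.measurable_exp.comp measurable_neg
  · exact measurable_const

open Classical in
/-- the integrand of the race -/
noncomputable def frace {T : Type} [Fintype T] (m : T → ℝ) (a : T) (B : Finset T)
    (e : T → ℝ) : ℝ≥0∞ :=
  if 0 < e a ∧ ∀ d, d ∉ B → m d * e a ≤ m a * e d then
        (∏ b ∈ B, hE (e a * m b / m a)) * ENNReal.ofReal (e a ^ B.card) else 0

theorem measurable_frace {T : Type} [Fintype T] (m : T → ℝ) (a : T) (B : Finset T) :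
    Measurable (frace m a B) := by
  unfold frace
  apply Measurable.ite
  · have : {e : T → ℝ | 0 < e a ∧ ∀ d, d ∉ B → m d * e a ≤ m a * e d} =
        {e : T → ℝ | 0 < e a} ∩ ⋂ d, ⋂ (_ : d ∉ B), {e : T → ℝ | m d * e a ≤ m a * e d} := by
      ext e
      simp
    rw [this]
    apply (measurableSet_lt measurable_const (measurable_pi_apply a)).inter
    apply MeasurableSet.iInter
    intro d
    apply MeasurableSet.iInter
    intro _
    exact measurableSet_le (measurable_const.mul (measurable_pi_apply a))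
      (measurable_const.mul (measurable_pi_apply d))
  · apply Measurable.mul
    · apply Finset.measurable_prod
      intro b _
      exact measurable_hE.comp (((measurable_pi_apply a).mul measurable_const).div
        measurable_const)
    · exact ENNReal.measurable_ofReal.comp ((measurable_pi_apply a).pow_const _)
  · exact measurable_const

theorem gauss_mass {K : Type} [Fintype K] :
    ∫⁻ _x : K → ℝ, (1 : ℝ≥0∞) ∂Measure.pi (fun _ : K => (volume : Measure ℝ).withDensity hG) = 1 := by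
  have h := (gauss (K := K) (fun _ => 0) (fun _ => 0) (fun _ => 0) (by simp)).1
  simpa using h

end TAux

/-- JOB: bound for the options T a b c -/
theorem field_T {p : ℕ} [Fact p.Prime] (hp : p ≠ 2) {I : Type} [Fintype I] (κ : I → ZMod p)
    (hκ : ∀ i, κ i ≠ 0) (w : Cx I) {d : ℕ} (U : EuclideanSpace ℝ (Fin d) →ₗᵢ[ℝ] Cx I)
    (a b c : Ty p) :
    ∫⁻ θ, Wt κ θ w (Sum.inr (Sum.inr (a, b, c))) *
      ((‖(GG κ θ w (Sum.inr (Sum.inr (a, b, c))) 0).comp U.toContinuousLinearMap‖ₑ + ‖GG κ θ w (Sum.inr (Sum.inr (a, b, c))) 0 w‖ₑ) *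
       (‖(GG κ θ w (Sum.inr (Sum.inr (a, b, c))) 1).comp U.toContinuousLinearMap‖ₑ + ‖GG κ θ w (Sum.inr (Sum.inr (a, b, c))) 1 w‖ₑ))
      ∂muF p I ≤ ENNReal.ofReal (50 / SS p w) := by
  classical
  have hp1 : 1 ≤ p := (Fact.out : p.Prime).one_lt.le
  by_cases hdist : a ≠ b ∧ a ≠ c ∧ b ≠ c
  · obtain ⟨hab, hac, hbc⟩ := hdist
    -- constants
    obtain ⟨X, hX⟩ : ∃ X, X = ‖(LL κ a b w).comp U.toContinuousLinearMap‖ₑ + ‖LL κ a b w w‖ₑ :=
      ⟨_, rfl⟩
    obtain ⟨Y, hY⟩ : ∃ Y, Y = ‖(LL κ a c w).comp U.toContinuousLinearMap‖ₑ + ‖LL κ a c w w‖ₑ :=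
      ⟨_, rfl⟩
    have hma := mm_ge_one κ a w
    have hmpos : ∀ d : Ty p, 0 < mm κ 1 d w := fun d => by
      have := mm_ge_one κ d w
      linarith
    -- pointwise identity
    have hpt : ∀ θ : Par p I → ℝ, Wt κ θ w (Sum.inr (Sum.inr (a, b, c))) *
      ((‖(GG κ θ w (Sum.inr (Sum.inr (a, b, c))) 0).comp U.toContinuousLinearMap‖ₑ + ‖GG κ θ w (Sum.inr (Sum.inr (a, b, c))) 0 w‖ₑ) *
       (‖(GG κ θ w (Sum.inr (Sum.inr (a, b, c))) 1).comp U.toContinuousLinearMap‖ₑ + ‖GG κ θ w (Sum.inr (Sum.inr (a, b, c))) 1 w‖ₑ)) =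
       frace (fun d => mm κ 1 d w) a {b, c} (fun d => θ (Sum.inl d)) *
         (fun _ : ((Ty p × Fin 2) ⊕ (I × Fin 2)) → ℝ => X * Y) (fun k => θ (Sum.inr k)) := by
      intro θ
      have hG0 : GG κ θ w (Sum.inr (Sum.inr (a, b, c))) 0 = pe θ a • LL κ a b w := rfl
      have hG1 : GG κ θ w (Sum.inr (Sum.inr (a, b, c))) 1 = pe θ a • LL κ a c w := rfl
      rw [hG0, hG1]
      have e1 : ‖(pe θ a • LL κ a b w).comp U.toContinuousLinearMap‖ₑ + ‖(pe θ a • LL κ a b w) w‖ₑ =
          ‖pe θ a‖ₑ * X := by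
        rw [ContinuousLinearMap.smul_comp, enorm_smul, smul_apply, smul_eq_mul,
          enorm_mul, ← mul_add, hX]
      have e2 : ‖(pe θ a • LL κ a c w).comp U.toContinuousLinearMap‖ₑ + ‖(pe θ a • LL κ a c w) w‖ₑ =
          ‖pe θ a‖ₑ * Y := by
        rw [ContinuousLinearMap.smul_comp, enorm_smul, smul_apply, smul_eq_mul,
          enorm_mul, ← mul_add, hY]
      rw [e1, e2]
      by_cases hR : Rg κ θ w (Sum.inr (Sum.inr (a, b, c)))
      · obtain ⟨-, -, -, hpos, hall⟩ := id hR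
        have hW : Wt κ θ w (Sum.inr (Sum.inr (a, b, c))) =
            hE (pe θ a * mm κ 1 b w / mm κ 1 a w) * hE (pe θ a * mm κ 1 c w / mm κ 1 a w) := by
          unfold Wt
          rw [if_pos hR]
          rfl
        have hF : frace (fun d => mm κ 1 d w) a {b, c} (fun d => θ (Sum.inl d)) =
            hE (pe θ a * mm κ 1 b w / mm κ 1 a w) * hE (pe θ a * mm κ 1 c w / mm κ 1 a w) *
              ENNReal.ofReal (pe θ a ^ 2) := by
          unfold frace
          rw [if_pos, Finset.prod_pair hbc, Finset.card_pair hbc]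
          · rfl
          · refine ⟨hpos, fun d hd => ?_⟩
            simp only [Finset.mem_insert, Finset.mem_singleton, not_or] at hd
            exact hall d hd.1 hd.2
        rw [hW, hF, ← ofReal_norm, Real.norm_of_nonneg hpos.le, ENNReal.ofReal_pow hpos.le]
        ring
      · have hW : Wt κ θ w (Sum.inr (Sum.inr (a, b, c))) = 0 := by
          unfold Wt
          rw [if_neg hR]
        have hF : frace (fun d => mm κ 1 d w) a {b, c} (fun d => θ (Sum.inl d)) = 0 := by
          unfold frace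
          rw [if_neg]
          rintro ⟨hpos, hall⟩
          apply hR
          refine ⟨hab, hac, hbc, hpos, fun d h1 h2 => hall d ?_⟩
          simp only [Finset.mem_insert, Finset.mem_singleton, not_or]
          exact ⟨h1, h2⟩
        rw [hW, hF, zero_mul, zero_mul]
    rw [lintegral_congr hpt, muF_prod _ _ (measurable_frace _ _ _) measurable_const]
    have hr := race (fun d : Ty p => mm κ 1 d w) hmpos a {b, c} (by
      simp only [Finset.mem_insert, Finset.mem_singleton, not_or]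
      exact ⟨hab, hac⟩)
    have hr' : ∫⁻ e, frace (fun d : Ty p => mm κ 1 d w) a {b, c} e
        ∂Measure.pi (fun _ : Ty p => (volume : Measure ℝ).withDensity hE) =
        ENNReal.ofReal (2 * (mm κ 1 a w / SS p w) ^ 3) := by
      rw [Finset.card_pair hbc, sum_mm hp1 κ hκ w] at hr
      have : ((Nat.factorial 2 : ℕ) : ℝ) = 2 := by norm_num
      rw [this] at hr
      rw [← hr]
      apply lintegral_congr
      intro e
      unfold frace
      rw [Finset.card_pair hbc]
    have hconst : ∫⁻ _x, X * Y ∂Measure.pi (fun _ : (Ty p × Fin 2) ⊕ (I × Fin 2) =>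
        (volume : Measure ℝ).withDensity hG) = X * Y := by
      have h1 := gauss_mass (K := (Ty p × Fin 2) ⊕ (I × Fin 2))
      rw [lintegral_const] at h1 ⊢
      rw [one_mul] at h1
      rw [h1, mul_one]
    rw [hr', hconst]
    have hXb := X_bound hp1 κ hκ w U hab
    have hYb := X_bound hp1 κ hκ w U hac
    rw [← hX] at hXb
    rw [← hY] at hYb
    have hSS : 0 < SS p w := by
      have := pair_le hp1 κ hκ w hab
      have := hmpos a
      have := hmpos b
      linarith
    calc ENNReal.ofReal (2 * (mm κ 1 a w / SS p w) ^ 3) * (X * Y)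
        ≤ ENNReal.ofReal (2 * (mm κ 1 a w / SS p w) ^ 3) *
          (ENNReal.ofReal (5 * SS p w * Real.sqrt (mm κ 1 a w) / mm κ 1 a w ^ 2) *
           ENNReal.ofReal (5 * SS p w * Real.sqrt (mm κ 1 a w) / mm κ 1 a w ^ 2)) := by
          gcongr
      _ = ENNReal.ofReal (50 / SS p w) := by
          have hm0 := hmpos a
          rw [← ENNReal.ofReal_mul (by positivity), ← ENNReal.ofReal_mul (by positivity)]
          congr 1
          have hsq : Real.sqrt (mm κ 1 a w) * Real.sqrt (mm κ 1 a w) = mm κ 1 a w :=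
            Real.mul_self_sqrt hm0.le
          have : 2 * (mm κ 1 a w / SS p w) ^ 3 *
              (5 * SS p w * Real.sqrt (mm κ 1 a w) / mm κ 1 a w ^ 2 *
                (5 * SS p w * Real.sqrt (mm κ 1 a w) / mm κ 1 a w ^ 2)) =
              2 * (mm κ 1 a w / SS p w) ^ 3 * (25 * SS p w ^ 2 *
                (Real.sqrt (mm κ 1 a w) * Real.sqrt (mm κ 1 a w)) / mm κ 1 a w ^ 4) := by
            ring
          rw [this, hsq]
          field_simp
          ring
  · have hzero : ∀ θ : Par p I → ℝ, Wt κ θ w (Sum.inr (Sum.inr (a, b, c))) = 0 := by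
      intro θ
      unfold Wt
      rw [if_neg]
      rintro ⟨h1, h2, h3, -⟩
      exact hdist ⟨h1, h2, h3⟩
    simp only [hzero, zero_mul, lintegral_zero]
    exact zero_le

end JT

end Pool.Agent.Helper954.Hopf
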