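import Pool.Agent.Helper954.Hopf.JE
import Pool.Agent.Helper954.Hopf.JG
import Pool.Agent.Helper954.Hopf.MP

set_option autoImplicit false

namespace Pool.Agent.Helper954.Hopf

open MeasureTheory Set
open scoped BigOperators
open scoped ENNReal
open JE (race)
open JG (gauss)

namespace JW

section auxW

variable {p : ℕ} {I : Type} [Fintype I]

theorem mm_one (κ : I → ZMod p) (a : Ty p) (w : Cx I) : mm κ 1 a w = 1 + na κ a w := by
  unfold mm na; norm_num

theorem na_nonneg (κ : I → ZMod p) (a : Ty p) (w : Cx I) : 0 ≤ na κ a w := by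
  unfold na
  apply Finset.sum_nonneg
  intro i _
  split_ifs
  · positivity
  · exact le_rfl

theorem one_le_mm (κ : I → ZMod p) (a : Ty p) (w : Cx I) : 1 ≤ mm κ 1 a w := by
  rw [mm_one]; linarith [na_nonneg κ a w]

theorem norm_cx_sq (w : Cx I) (i : I) : ‖cx w i‖ ^ 2 = w (i, 0) ^ 2 + w (i, 1) ^ 2 := by
  unfold cx
  rw [← Complex.normSq_eq_norm_sq, Complex.normSq_mk]; ring

theorem norm_sq_Cx (w : Cx I) : ‖w‖ ^ 2 = ∑ i, ‖cx w i‖ ^ 2 := by
  rw [EuclideanSpace.norm_sq_eq, Fintype.sum_prod_type]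
  apply Finset.sum_congr rfl
  intro i _
  rw [Fin.sum_univ_two, norm_cx_sq, Real.norm_eq_abs, Real.norm_eq_abs, sq_abs, sq_abs]

theorem sum_mm [Fact p.Prime] (κ : I → ZMod p) (hκ : ∀ i, κ i ≠ 0) (w : Cx I) :
    ∑ d : Ty p, mm κ 1 d w = SS p w := by
  have h1 : ∑ d : Ty p, mm κ 1 d w = ∑ d : Ty p, (1 : ℝ) + ∑ d : Ty p, na κ d w := by
    rw [← Finset.sum_add_distrib]
    exact Finset.sum_congr rfl (fun d _ => mm_one κ d w)
  have h2 : ∑ d : Ty p, (1 : ℝ) = (p : ℝ) - 1 := by
    rw [Finset.sum_const, nsmul_eq_mul, mul_one, Finset.card_univ]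
    have : Fintype.card (Ty p) = p - 1 := by
      rw [Fintype.card_subtype_compl, ZMod.card, Fintype.card_subtype_eq]
    rw [this, Nat.cast_sub (Fact.out : p.Prime).one_le]
    simp
  have h3 : ∑ d : Ty p, na κ d w = ‖w‖ ^ 2 := by
    rw [norm_sq_Cx]
    unfold na
    rw [Finset.sum_comm]
    apply Finset.sum_congr rfl
    intro i _
    rw [Finset.sum_eq_single (⟨κ i, hκ i⟩ : Ty p)]
    · simp
    · intro d _ hd
      rw [if_neg]
      intro h
      exact hd (Subtype.ext h.symm)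
    · intro h; exact absurd (Finset.mem_univ _) h
  rw [h1, h2, h3]; rfl

/-- linear forms in the Gaussian parameters -/
noncomputable def form (κ : I → ZMod p) (a : Ty p) (t τ : ℝ) (v : Cx I) :
    ((Ty p × Fin 2) ⊕ (I × Fin 2)) → ℝ
  | Sum.inl y => if y = (a, 0) then τ else 0
  | Sum.inr y => if κ y.1 = a.1 then
      (if y.2 = 0 then v (y.1, 1) - t * v (y.1, 0) else v (y.1, 0) + t * v (y.1, 1)) else 0

/-- the functional `xiim - t xire` -/
noncomputable def GX (κ : I → ZMod p) (a : Ty p) (t : ℝ)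
    (x : ((Ty p × Fin 2) ⊕ (I × Fin 2)) → ℝ) : Cx I →L[ℝ] ℝ :=
  ∑ i, if κ i = a.1 then
    x (Sum.inr (i, 0)) • ((EuclideanSpace.proj (i, 1) : Cx I →L[ℝ] ℝ)
      - t • (EuclideanSpace.proj (i, 0) : Cx I →L[ℝ] ℝ))
    + x (Sum.inr (i, 1)) • ((EuclideanSpace.proj (i, 0) : Cx I →L[ℝ] ℝ)
      + t • (EuclideanSpace.proj (i, 1) : Cx I →L[ℝ] ℝ))
    else 0

theorem GX_apply (κ : I → ZMod p) (a : Ty p) (t : ℝ)
    (x : ((Ty p × Fin 2) ⊕ (I × Fin 2)) → ℝ) (v : Cx I) : GX κ a t x v =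
    ∑ i, if κ i = a.1 then x (Sum.inr (i, 0)) * (v (i, 1) - t * v (i, 0)) +
      x (Sum.inr (i, 1)) * (v (i, 0) + t * v (i, 1)) else 0 := by
  unfold GX
  rw [sum_apply]
  apply Finset.sum_congr rfl
  intro i _
  split_ifs
  · simp [mul_add]
  · simp

theorem form_sum [NeZero p] (κ : I → ZMod p) (a : Ty p) (t τ : ℝ) (v : Cx I)
    (x : ((Ty p × Fin 2) ⊕ (I × Fin 2)) → ℝ) :
    ∑ k, form κ a t τ v k * x k = GX κ a t x v + τ * x (Sum.inl (a, 0)) := by
  rw [Fintype.sum_sum_type, add_comm]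
  congr 1
  · rw [GX_apply, Fintype.sum_prod_type]
    apply Finset.sum_congr rfl
    intro i _
    rw [Fin.sum_univ_two]
    simp only [form]
    split_ifs <;> simp_all <;> ring
  · rw [Finset.sum_eq_single (a, (0 : Fin 2))]
    · simp [form]
    · intro y _ hy
      simp [form, hy]
    · intro h; exact absurd (Finset.mem_univ _) h

theorem form_sq [NeZero p] (κ : I → ZMod p) (a : Ty p) (t τ : ℝ) (v : Cx I) :
    ∑ k, form κ a t τ v k ^ 2 = τ ^ 2 + (1 + t ^ 2) * na κ a v := by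
  rw [Fintype.sum_sum_type]
  congr 1
  · rw [Finset.sum_eq_single (a, (0 : Fin 2))]
    · simp [form]
    · intro y _ hy
      simp [form, hy]
    · intro h; exact absurd (Finset.mem_univ _) h
  · unfold na
    rw [Fintype.sum_prod_type, Finset.mul_sum]
    apply Finset.sum_congr rfl
    intro i _
    rw [Fin.sum_univ_two]
    simp only [form]
    by_cases hi : κ i = a.1
    · simp only [hi, if_true, one_ne_zero, if_false]
      rw [norm_cx_sq]; ring
    · simp only [hi, if_false]; ring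

theorem GX_eq (κ : I → ZMod p) (a : Ty p) (t : ℝ) (θ : Par p I → ℝ) :
    xiim κ θ a - t • xire κ θ a = GX κ a t (fun k => θ (Sum.inr k)) := by
  unfold xiim xire GX
  rw [Finset.smul_sum, ← Finset.sum_sub_distrib]
  apply Finset.sum_congr rfl
  intro i _
  split_ifs
  · simp only [pc]
    module
  · simp

theorem F1_eq (κ : I → ZMod p) (a : Ty p) (t : ℝ) (θ : Par p I → ℝ) (w : Cx I) :
    (xi κ θ a w).im - t * ((xi κ θ a w).re - (py θ a).re) =
      GX κ a t (fun k => θ (Sum.inr k)) w + t * θ (Sum.inr (Sum.inl (a, 0))) := by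
  rw [GX_apply]
  unfold xi
  rw [Complex.im_sum, Complex.re_sum]
  have e : (py θ a).re = θ (Sum.inr (Sum.inl (a, 0))) := rfl
  rw [e, mul_sub, Finset.mul_sum, ← sub_add, ← Finset.sum_sub_distrib]
  congr 1
  apply Finset.sum_congr rfl
  intro i _
  split_ifs
  · simp only [pc, cx, Complex.mul_im, Complex.mul_re]
    ring
  · simp

/-- operator norm of a functional on Euclidean space -/
theorem opnorm_sq {d : ℕ} (L : EuclideanSpace ℝ (Fin d) →L[ℝ] ℝ) :
    ‖L‖ ^ 2 = ∑ k, L (EuclideanSpace.single k 1) ^ 2 := by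
  obtain ⟨y, rfl⟩ := (InnerProductSpace.toDual ℝ (EuclideanSpace ℝ (Fin d))).surjective L
  rw [LinearIsometryEquiv.norm_map, EuclideanSpace.norm_sq_eq]
  apply Finset.sum_congr rfl
  intro k _
  rw [InnerProductSpace.toDual_apply_apply, EuclideanSpace.inner_single_right]
  simp

theorem ipA_apply (κ : I → ZMod p) (a : Ty p) (w v : Cx I) :
    ipA κ a w v = ∑ i, if κ i = a.1 then w (i, 0) * v (i, 0) + w (i, 1) * v (i, 1) else 0 := by
  unfold ipA
  rw [sum_apply]
  apply Finset.sum_congr rfl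
  intro i _
  split_ifs
  · simp
  · simp

theorem ipA_self (κ : I → ZMod p) (a : Ty p) (w : Cx I) : ipA κ a w w = na κ a w := by
  rw [ipA_apply]
  unfold na
  apply Finset.sum_congr rfl
  intro i _
  split_ifs
  · rw [norm_cx_sq]; ring
  · rfl

theorem norm_ipA (κ : I → ZMod p) (a : Ty p) (w : Cx I) : ‖ipA κ a w‖ ≤ Real.sqrt (na κ a w) := by
  apply ContinuousLinearMap.opNorm_le_bound _ (Real.sqrt_nonneg _)
  intro v
  have h1 : ipA κ a w v = ∑ y : I × Fin 2, (if κ y.1 = a.1 then w y else 0) * v y := by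
    rw [ipA_apply, Fintype.sum_prod_type]
    apply Finset.sum_congr rfl
    intro i _
    rw [Fin.sum_univ_two]
    split_ifs <;> simp
  have h2 : ∑ y : I × Fin 2, (if κ y.1 = a.1 then w y else 0) ^ 2 = na κ a w := by
    unfold na
    rw [Fintype.sum_prod_type]
    apply Finset.sum_congr rfl
    intro i _
    rw [Fin.sum_univ_two, norm_cx_sq]
    split_ifs <;> simp
  have h3 : ∑ y : I × Fin 2, (v y) ^ 2 = ‖v‖ ^ 2 := by
    rw [EuclideanSpace.norm_sq_eq]
    apply Finset.sum_congr rfl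
    intro y _
    rw [Real.norm_eq_abs, sq_abs]
  have cs := Finset.sum_mul_sq_le_sq_mul_sq (Finset.univ : Finset (I × Fin 2))
    (fun y => if κ y.1 = a.1 then w y else 0) (fun y => v y)
  simp only at cs
  rw [← h1, h2, h3] at cs
  rw [Real.norm_eq_abs, ← Real.sqrt_sq_eq_abs]
  calc Real.sqrt (ipA κ a w v ^ 2) ≤ Real.sqrt (na κ a w * ‖v‖ ^ 2) := Real.sqrt_le_sqrt cs
    _ = Real.sqrt (na κ a w) * ‖v‖ := by
        rw [Real.sqrt_mul (na_nonneg κ a w), Real.sqrt_sq (norm_nonneg _)]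

/-- Cauchy-Schwarz -/
theorem cs_lint {Ω : Type} [MeasurableSpace Ω] (μ : Measure Ω) (F G : Ω → ℝ) (hF : Measurable F)
    (hG : Measurable G) (hF0 : ∀ x, 0 ≤ F x) (hG0 : ∀ x, 0 ≤ G x) (A B : ℝ) (hA0 : 0 ≤ A)
    (hB0 : 0 ≤ B)
    (hA : ∫⁻ x, ENNReal.ofReal (F x) ∂μ ≤ ENNReal.ofReal A)
    (hB : ∫⁻ x, ENNReal.ofReal (F x * G x ^ 2) ∂μ ≤ ENNReal.ofReal B) :
    ∫⁻ x, ENNReal.ofReal (F x * G x) ∂μ ≤ ENNReal.ofReal (Real.sqrt (A * B)) := by
  have e1 : ∀ x, ENNReal.ofReal (F x * G x) =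
      ((fun x => ENNReal.ofReal (Real.sqrt (F x))) * fun x =>
        ENNReal.ofReal (Real.sqrt (F x) * G x)) x := by
    intro x
    rw [Pi.mul_apply, ← ENNReal.ofReal_mul (Real.sqrt_nonneg _), ← mul_assoc,
      Real.mul_self_sqrt (hF0 x)]
  have e2 : ∀ x, ENNReal.ofReal (Real.sqrt (F x)) ^ (2 : ℝ) = ENNReal.ofReal (F x) := by
    intro x
    rw [ENNReal.ofReal_rpow_of_nonneg (Real.sqrt_nonneg _) (by norm_num), Real.rpow_two,
      Real.sq_sqrt (hF0 x)]
  have e3 : ∀ x, ENNReal.ofReal (Real.sqrt (F x) * G x) ^ (2 : ℝ) =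
      ENNReal.ofReal (F x * G x ^ 2) := by
    intro x
    rw [ENNReal.ofReal_rpow_of_nonneg (mul_nonneg (Real.sqrt_nonneg _) (hG0 x)) (by norm_num),
      Real.rpow_two, mul_pow, Real.sq_sqrt (hF0 x)]
  have m1 : Measurable (fun x => ENNReal.ofReal (Real.sqrt (F x))) := by fun_prop
  have m2 : Measurable (fun x => ENNReal.ofReal (Real.sqrt (F x) * G x)) := by fun_prop
  have H := ENNReal.lintegral_mul_le_Lp_mul_Lq μ Real.HolderConjugate.two_two
    m1.aemeasurable m2.aemeasurable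
  simp only [e2, e3] at H
  calc ∫⁻ x, ENNReal.ofReal (F x * G x) ∂μ = _ := lintegral_congr e1
    _ ≤ _ := H
    _ ≤ ENNReal.ofReal A ^ (1 / 2 : ℝ) * ENNReal.ofReal B ^ (1 / 2 : ℝ) := by
        gcongr
    _ = ENNReal.ofReal (Real.sqrt (A * B)) := by
        rw [ENNReal.ofReal_rpow_of_nonneg hA0 (by norm_num),
          ENNReal.ofReal_rpow_of_nonneg hB0 (by norm_num),
          ← ENNReal.ofReal_mul (by positivity), ← Real.sqrt_eq_rpow, ← Real.sqrt_eq_rpow,
          Real.sqrt_mul hA0]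

/-- one-form version of `gauss` -/
theorem gauss1 {K : Type} [Fintype K] (f g : K → ℝ) :
    (∫⁻ x : K → ℝ, ENNReal.ofReal (Real.exp (-((∑ k, f k * x k) ^ 2) / 2))
        ∂Measure.pi (fun _ : K => (volume : Measure ℝ).withDensity hG) =
      ENNReal.ofReal (1 / Real.sqrt (1 + ∑ k, f k ^ 2))) ∧
    (∫⁻ x : K → ℝ, ENNReal.ofReal (Real.exp (-((∑ k, f k * x k) ^ 2) / 2)
        * (∑ k, g k * x k) ^ 2)
        ∂Measure.pi (fun _ : K => (volume : Measure ℝ).withDensity hG) ≤
      ENNReal.ofReal ((∑ k, g k ^ 2) / Real.sqrt (1 + ∑ k, f k ^ 2))) ∧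
    (∫⁻ x : K → ℝ, ENNReal.ofReal (Real.exp (-((∑ k, f k * x k) ^ 2) / 2)
        * (∑ k, f k * x k) ^ 2)
        ∂Measure.pi (fun _ : K => (volume : Measure ℝ).withDensity hG) ≤
      ENNReal.ofReal (1 / Real.sqrt (1 + ∑ k, f k ^ 2))) := by
  obtain ⟨h1, h2, h3⟩ := gauss f (fun _ => 0) g (by simp)
  simp only [zero_mul, Finset.sum_const_zero, ne_eq, OfNat.ofNat_ne_zero, not_false_eq_true,
    zero_pow, add_zero, mul_one] at h1 h2 h3
  refine ⟨h1, h2, h3.trans ?_⟩
  apply ENNReal.ofReal_le_ofReal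
  have h0 : 0 ≤ ∑ k, f k ^ 2 := Finset.sum_nonneg (fun k _ => sq_nonneg _)
  have h4 : (∑ k, f k ^ 2) / (1 + ∑ k, f k ^ 2) ≤ 1 := by
    rw [div_le_one (by linarith)]; linarith
  gcongr

end auxW

section auxW2

variable {p : ℕ} [NeZero p] {I : Type} [Fintype I]

theorem measurable_hE : Measurable hE := by
  unfold hE
  exact (Measurable.ite measurableSet_Ioi (by fun_prop) measurable_const).ennreal_ofReal

theorem measurable_hG : Measurable hG := by
  unfold hG
  fun_prop

open Classical in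
/-- the exponential part -/
noncomputable def fe (m : Ty p → ℝ) (a b : Ty p) (e : Ty p → ℝ) : ℝ≥0∞ :=
  if 0 < e a ∧ ∀ d, d ≠ b → m d * e a ≤ m a * e d then
    hE (e a * m b / m a) * ENNReal.ofReal (e a) else 0

theorem measurable_fe (m : Ty p → ℝ) (a b : Ty p) : Measurable (fe m a b) := by
  unfold fe
  refine Measurable.ite ?_ ?_ measurable_const
  · have e : {e : Ty p → ℝ | 0 < e a ∧ ∀ d, d ≠ b → m d * e a ≤ m a * e d} =
        {e | 0 < e a} ∩ ⋂ d, {e | d ≠ b → m d * e a ≤ m a * e d} := by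
      ext e; simp
    rw [e]
    apply MeasurableSet.inter
    · exact measurableSet_lt measurable_const (measurable_pi_apply a)
    · apply MeasurableSet.iInter
      intro d
      by_cases hd : d = b
      · simp [hd]
      · simp only [ne_eq, hd, not_false_eq_true, true_implies]
        exact measurableSet_le (by fun_prop) (by fun_prop)
  · exact (measurable_hE.comp (by fun_prop)).mul (by fun_prop)

theorem epart (m : Ty p → ℝ) (hm : ∀ d, 0 < m d) (a b : Ty p) (hab : a ≠ b) :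
    ∫⁻ e, fe m a b e ∂Measure.pi (fun _ : Ty p => (volume : Measure ℝ).withDensity hE) =
      ENNReal.ofReal ((m a / ∑ d, m d) ^ 2) := by
  have h := race m hm a {b} (by simpa using hab)
  simp only [Finset.card_singleton, Nat.factorial_one, Nat.cast_one, one_mul] at h
  rw [← h]
  apply lintegral_congr
  intro e
  unfold fe
  by_cases hc : 0 < e a ∧ ∀ d, d ≠ b → m d * e a ≤ m a * e d
  · rw [if_pos hc, if_pos (by simpa using hc), Finset.prod_singleton, pow_one]
  · rw [if_neg hc, if_neg (by simpa using hc)]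

theorem continuous_GX (κ : I → ZMod p) (a : Ty p) (t : ℝ) : Continuous (GX κ a t) := by
  unfold GX
  apply continuous_finsetSum
  intro i _
  split_ifs
  · fun_prop
  · exact continuous_const

/-- the Gaussian part -/
noncomputable def gx (κ : I → ZMod p) (a : Ty p) (t : ℝ) (w : Cx I) {d : ℕ}
    (U : EuclideanSpace ℝ (Fin d) →ₗᵢ[ℝ] Cx I) (x : ((Ty p × Fin 2) ⊕ (I × Fin 2)) → ℝ) : ℝ≥0∞ :=
  hG (GX κ a t x w + t * x (Sum.inl (a, 0))) *
    (‖(GX κ a t x).comp U.toContinuousLinearMap‖ₑ + ‖GX κ a t x w‖ₑ)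

theorem measurable_gx (κ : I → ZMod p) (a : Ty p) (t : ℝ) (w : Cx I) {d : ℕ}
    (U : EuclideanSpace ℝ (Fin d) →ₗᵢ[ℝ] Cx I) : Measurable (gx κ a t w U) := by
  have c1 : Continuous (fun x : ((Ty p × Fin 2) ⊕ (I × Fin 2)) → ℝ => GX κ a t x w) :=
    (continuous_GX κ a t).clm_apply continuous_const
  have c2 : Continuous (fun x : ((Ty p × Fin 2) ⊕ (I × Fin 2)) → ℝ =>
      (GX κ a t x).comp U.toContinuousLinearMap) :=
    (continuous_GX κ a t).clm_comp continuous_const
  unfold gx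
  exact (measurable_hG.comp
    (c1.add (continuous_const.mul (continuous_apply _))).measurable).mul
    ((c2.enorm.measurable).add (c1.enorm.measurable))

theorem gpart (κ : I → ZMod p) (a : Ty p) (t : ℝ) (w : Cx I) {d : ℕ}
    (U : EuclideanSpace ℝ (Fin d) →ₗᵢ[ℝ] Cx I) :
    ∫⁻ x, gx κ a t w U x ∂Measure.pi (fun _ : (Ty p × Fin 2) ⊕ (I × Fin 2) =>
        (volume : Measure ℝ).withDensity hG) ≤
      ENNReal.ofReal (1 / Real.sqrt (2 * Real.pi) *
        ((Real.sqrt (trA κ a U) + 2) / Real.sqrt (mm κ 1 a w))) := by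
  set μ := Measure.pi (fun _ : (Ty p × Fin 2) ⊕ (I × Fin 2) =>
        (volume : Measure ℝ).withDensity hG) with hμ
  set f := form κ a t t w with hf
  set m := mm κ 1 a w with hm
  have m1 : 1 ≤ m := one_le_mm κ a w
  have fs : 1 + ∑ k, f k ^ 2 = (1 + t ^ 2) * m := by
    rw [hf, form_sq, hm, mm_one]; ring
  set q := 1 / Real.sqrt ((1 + t ^ 2) * m) with hq
  have q0 : 0 < q := by positivity
  have q2 : q * q = 1 / ((1 + t ^ 2) * m) := by
    rw [hq, div_mul_div_comm, one_mul, Real.mul_self_sqrt (by positivity)]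
  set F : (((Ty p × Fin 2) ⊕ (I × Fin 2)) → ℝ) → ℝ :=
    fun x => Real.exp (-((∑ k, f k * x k) ^ 2) / 2) with hF
  have F0 : ∀ x, 0 ≤ F x := fun x => (Real.exp_pos _).le
  have Fm : Measurable F := by rw [hF]; fun_prop
  have c1 : Continuous (fun x : ((Ty p × Fin 2) ⊕ (I × Fin 2)) → ℝ => GX κ a t x w) :=
    (continuous_GX κ a t).clm_apply continuous_const
  have c2 : Continuous (fun x : ((Ty p × Fin 2) ⊕ (I × Fin 2)) → ℝ =>
      (GX κ a t x).comp U.toContinuousLinearMap) :=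
    (continuous_GX κ a t).clm_comp continuous_const
  obtain ⟨A1, -, A3⟩ := gauss1 f f
  rw [fs, ← hq] at A1 A3
  have A2 : ∀ g : ((Ty p × Fin 2) ⊕ (I × Fin 2)) → ℝ,
      ∫⁻ x, ENNReal.ofReal (F x * (∑ k, g k * x k) ^ 2) ∂μ ≤ ENNReal.ofReal ((∑ k, g k ^ 2) * q) := by
    intro g
    obtain ⟨-, h, -⟩ := gauss1 f g
    rw [fs] at h
    rw [hq, mul_one_div]
    exact h
  have tr0 : 0 ≤ trA κ a U := Finset.sum_nonneg (fun k _ => na_nonneg _ _ _)
  -- first term
  have T1 : ∫⁻ x, ENNReal.ofReal (F x * ‖(GX κ a t x).comp U.toContinuousLinearMap‖) ∂μ ≤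
      ENNReal.ofReal (Real.sqrt (trA κ a U) / Real.sqrt m) := by
    have B : ∫⁻ x, ENNReal.ofReal (F x * ‖(GX κ a t x).comp U.toContinuousLinearMap‖ ^ 2) ∂μ ≤
        ENNReal.ofReal ((1 + t ^ 2) * trA κ a U * q) := by
      have e1 : ∀ x, ENNReal.ofReal (F x * ‖(GX κ a t x).comp U.toContinuousLinearMap‖ ^ 2) =
          ∑ k : Fin d, ENNReal.ofReal (F x *
            (∑ j, form κ a t 0 (U (EuclideanSpace.single k 1)) j * x j) ^ 2) := by
        intro x
        rw [opnorm_sq, Finset.mul_sum, ENNReal.ofReal_sum_of_nonneg]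
        · apply Finset.sum_congr rfl
          intro k _
          rw [form_sum, zero_mul, add_zero]
          rfl
        · intro k _
          exact mul_nonneg (F0 x) (sq_nonneg _)
      rw [lintegral_congr e1, lintegral_finsetSum]
      · calc _ ≤ ∑ k : Fin d, ENNReal.ofReal
              ((∑ j, form κ a t 0 (U (EuclideanSpace.single k 1)) j ^ 2) * q) :=
              Finset.sum_le_sum (fun k _ => A2 _)
          _ = ENNReal.ofReal (∑ k : Fin d,
              ((∑ j, form κ a t 0 (U (EuclideanSpace.single k 1)) j ^ 2) * q)) := by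
              rw [ENNReal.ofReal_sum_of_nonneg]
              intro k _
              exact mul_nonneg (Finset.sum_nonneg (fun _ _ => sq_nonneg _)) q0.le
          _ = _ := by
              congr 1
              unfold trA
              rw [← Finset.sum_mul, Finset.mul_sum]
              congr 1
              apply Finset.sum_congr rfl
              intro k _
              rw [form_sq]; ring
      · intro k _
        fun_prop
    have := cs_lint μ F (fun x => ‖(GX κ a t x).comp U.toContinuousLinearMap‖) Fm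
      c2.norm.measurable F0 (fun x => norm_nonneg _) q ((1 + t ^ 2) * trA κ a U * q) q0.le
      (by positivity) A1.le B
    refine this.trans (ENNReal.ofReal_le_ofReal ?_)
    have e : q * ((1 + t ^ 2) * trA κ a U * q) = trA κ a U / m := by
      have : q * ((1 + t ^ 2) * trA κ a U * q) = (q * q) * ((1 + t ^ 2) * trA κ a U) := by ring
      rw [this, q2]
      field_simp
    rw [e, Real.sqrt_div tr0]
  -- second term
  have T2 : ∫⁻ x, ENNReal.ofReal (F x * |∑ k, f k * x k|) ∂μ ≤ ENNReal.ofReal q := by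
    have B : ∫⁻ x, ENNReal.ofReal (F x * |∑ k, f k * x k| ^ 2) ∂μ ≤ ENNReal.ofReal q := by
      simp only [sq_abs]; exact A3
    have := cs_lint μ F (fun x => |∑ k, f k * x k|) Fm (by fun_prop) F0 (fun x => abs_nonneg _)
      q q q0.le q0.le A1.le B
    rwa [Real.sqrt_mul_self q0.le] at this
  have T3 : ∫⁻ x, ENNReal.ofReal (F x * |t * x (Sum.inl (a, 0))|) ∂μ ≤
      ENNReal.ofReal (|t| * q) := by
    have B : ∫⁻ x, ENNReal.ofReal (F x * |t * x (Sum.inl (a, 0))| ^ 2) ∂μ ≤
        ENNReal.ofReal (t ^ 2 * q) := by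
      have := A2 (form κ a t t 0)
      simp only [form_sum, form_sq, map_zero, zero_add] at this
      have z : na κ a (0 : Cx I) = 0 := by
        unfold na cx
        apply Finset.sum_eq_zero
        intro i _
        split_ifs
        · have : (⟨(0 : Cx I) (i, 0), (0 : Cx I) (i, 1)⟩ : ℂ) = 0 := rfl
          rw [this]; simp
        · rfl
      rw [z, mul_zero, add_zero] at this
      simpa only [sq_abs] using this
    have := cs_lint μ F (fun x => |t * x (Sum.inl (a, 0))|) Fm (by fun_prop) F0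
      (fun x => abs_nonneg _) q (t ^ 2 * q) q0.le (by positivity) A1.le B
    have e : Real.sqrt (q * (t ^ 2 * q)) = |t| * q := by
      rw [show q * (t ^ 2 * q) = (|t| * q) ^ 2 by rw [mul_pow, sq_abs]; ring,
        Real.sqrt_sq (by positivity)]
    rwa [e] at this
  have T4 : ∫⁻ x, ENNReal.ofReal (F x * |GX κ a t x w|) ∂μ ≤ ENNReal.ofReal (2 / Real.sqrt m) := by
    have e1 : ∀ x, ENNReal.ofReal (F x * |GX κ a t x w|) ≤
        ENNReal.ofReal (F x * |∑ k, f k * x k|) + ENNReal.ofReal (F x * |t * x (Sum.inl (a, 0))|) := by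
      intro x
      rw [← ENNReal.ofReal_add (mul_nonneg (F0 x) (abs_nonneg _))
        (mul_nonneg (F0 x) (abs_nonneg _)), ← mul_add]
      apply ENNReal.ofReal_le_ofReal
      apply mul_le_mul_of_nonneg_left _ (F0 x)
      have : GX κ a t x w = (∑ k, f k * x k) - t * x (Sum.inl (a, 0)) := by
        rw [hf, form_sum]; ring
      rw [this]
      exact abs_sub _ _
    calc _ ≤ ∫⁻ x, (ENNReal.ofReal (F x * |∑ k, f k * x k|) +
          ENNReal.ofReal (F x * |t * x (Sum.inl (a, 0))|)) ∂μ := lintegral_mono e1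
      _ = ∫⁻ x, ENNReal.ofReal (F x * |∑ k, f k * x k|) ∂μ +
          ∫⁻ x, ENNReal.ofReal (F x * |t * x (Sum.inl (a, 0))|) ∂μ := by
          rw [lintegral_add_left (by fun_prop)]
      _ ≤ ENNReal.ofReal q + ENNReal.ofReal (|t| * q) := add_le_add T2 T3
      _ = ENNReal.ofReal ((1 + |t|) * q) := by
          rw [← ENNReal.ofReal_add q0.le (by positivity)]; congr 1; ring
      _ ≤ _ := by
          apply ENNReal.ofReal_le_ofReal
          have sm : 0 < Real.sqrt m := Real.sqrt_pos.mpr (by linarith)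
          have st : 0 < Real.sqrt (1 + t ^ 2) := Real.sqrt_pos.mpr (by positivity)
          rw [hq, Real.sqrt_mul (by positivity), mul_one_div, div_le_div_iff₀ (by positivity) sm]
          have k : 1 + |t| ≤ 2 * Real.sqrt (1 + t ^ 2) := by
            have h1 : (1 : ℝ) ≤ Real.sqrt (1 + t ^ 2) := by
              rw [Real.one_le_sqrt]; nlinarith [sq_nonneg t]
            have h2 : |t| ≤ Real.sqrt (1 + t ^ 2) := by
              rw [← Real.sqrt_sq_eq_abs]
              exact Real.sqrt_le_sqrt (by linarith)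
            linarith
          calc (1 + |t|) * Real.sqrt m ≤ (2 * Real.sqrt (1 + t ^ 2)) * Real.sqrt m := by gcongr
            _ = _ := by ring
  -- assemble
  have e2 : ∀ x, gx κ a t w U x = ENNReal.ofReal (1 / Real.sqrt (2 * Real.pi)) *
      (ENNReal.ofReal (F x * ‖(GX κ a t x).comp U.toContinuousLinearMap‖) +
        ENNReal.ofReal (F x * |GX κ a t x w|)) := by
    intro x
    unfold gx hG
    have e3 : GX κ a t x w + t * x (Sum.inl (a, 0)) = ∑ k, f k * x k := by
      rw [hf, form_sum]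
    have e4 : Real.exp (-((∑ k, f k * x k) ^ 2) / 2) = F x := rfl
    rw [e3, e4, ENNReal.ofReal_mul (F0 x), ENNReal.ofReal_mul (F0 x), ← mul_add, ← mul_assoc,
      ← ENNReal.ofReal_mul (by positivity), ofReal_norm, ← Real.norm_eq_abs,
      ofReal_norm]
    congr 2
    ring
  have M1 : Measurable (fun x => ENNReal.ofReal (F x * ‖(GX κ a t x).comp
      U.toContinuousLinearMap‖)) := (Fm.mul c2.norm.measurable).ennreal_ofReal
  have M2 : Measurable (fun x => ENNReal.ofReal (F x * |GX κ a t x w|)) :=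
    (Fm.mul c1.abs.measurable).ennreal_ofReal
  have M12 : Measurable (fun x => ENNReal.ofReal (F x * ‖(GX κ a t x).comp
      U.toContinuousLinearMap‖) + ENNReal.ofReal (F x * |GX κ a t x w|)) := M1.add M2
  rw [lintegral_congr e2, lintegral_const_mul _ M12, lintegral_add_left M1]
  calc _ ≤ ENNReal.ofReal (1 / Real.sqrt (2 * Real.pi)) *
        (ENNReal.ofReal (Real.sqrt (trA κ a U) / Real.sqrt m) + ENNReal.ofReal (2 / Real.sqrt m)) := by
        gcongr
    _ = _ := by
        rw [← ENNReal.ofReal_add (by positivity) (by positivity),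
          ← ENNReal.ofReal_mul (by positivity)]
        congr 1
        ring

end auxW2

/-- JOB: bound for the options W a b l -/
theorem field_W {p : ℕ} [Fact p.Prime] (hp : p ≠ 2) {I : Type} [Fintype I] (κ : I → ZMod p)
    (hκ : ∀ i, κ i ≠ 0) (w : Cx I) {d : ℕ} (U : EuclideanSpace ℝ (Fin d) →ₗᵢ[ℝ] Cx I)
    (a b : Ty p) (l : ZMod p) :
    ∫⁻ θ, Wt κ θ w (Sum.inr (Sum.inl (a, b, l))) *
      ((‖(GG κ θ w (Sum.inr (Sum.inl (a, b, l))) 0).comp U.toContinuousLinearMap‖ₑ + ‖GG κ θ w (Sum.inr (Sum.inl (a, b, l))) 0 w‖ₑ) *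
       (‖(GG κ θ w (Sum.inr (Sum.inl (a, b, l))) 1).comp U.toContinuousLinearMap‖ₑ + ‖GG κ θ w (Sum.inr (Sum.inl (a, b, l))) 1 w‖ₑ))
      ∂muF p I ≤ ENNReal.ofReal (2 * (Real.sqrt (trA κ a U) + 2) / SS p w) := by
  by_cases hab : a = b
  · have : ∀ θ, Wt κ θ w (Sum.inr (Sum.inl (a, b, l))) = 0 := by
      intro θ
      unfold Wt
      rw [if_neg]
      intro h
      exact h.1 hab
    simp [this]
  set t := tl p l with ht
  set Ld : Cx I →L[ℝ] ℝ := (2 / mm κ 1 a w) • ipA κ b w -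
    (2 * mm κ 1 b w / mm κ 1 a w ^ 2) • ipA κ a w with hLd
  set m : Ty p → ℝ := fun d => mm κ 1 d w with hm
  have m1 : ∀ d, 1 ≤ m d := fun d => one_le_mm κ d w
  have m0 : ∀ d, 0 < m d := fun d => by linarith [m1 d]
  set CL : ℝ≥0∞ := ‖Ld.comp U.toContinuousLinearMap‖ₑ + ‖Ld w‖ₑ with hCL
  have int_eq : ∀ θ : Par p I → ℝ, Wt κ θ w (Sum.inr (Sum.inl (a, b, l))) *
      ((‖(GG κ θ w (Sum.inr (Sum.inl (a, b, l))) 0).comp U.toContinuousLinearMap‖ₑ + ‖GG κ θ w (Sum.inr (Sum.inl (a, b, l))) 0 w‖ₑ) *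
       (‖(GG κ θ w (Sum.inr (Sum.inl (a, b, l))) 1).comp U.toContinuousLinearMap‖ₑ + ‖GG κ θ w (Sum.inr (Sum.inl (a, b, l))) 1 w‖ₑ)) =
      (fe m a b (fun d => θ (Sum.inl d)) * CL) * gx κ a t w U (fun k => θ (Sum.inr k)) := by
    intro θ
    unfold Wt fe
    by_cases hR : 0 < θ (Sum.inl a) ∧ ∀ d, d ≠ b → m d * θ (Sum.inl a) ≤ m a * θ (Sum.inl d)
    · have hR' : Rg κ θ w (Sum.inr (Sum.inl (a, b, l))) := ⟨hab, hR.1, hR.2⟩
      rw [if_pos hR', if_pos hR]
      have g0 : GG κ θ w (Sum.inr (Sum.inl (a, b, l))) 0 = θ (Sum.inl a) • Ld := rfl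
      have g1 : GG κ θ w (Sum.inr (Sum.inl (a, b, l))) 1 = GX κ a t (fun k => θ (Sum.inr k)) :=
        GX_eq κ a t θ
      have f1 : FF κ θ w (Sum.inr (Sum.inl (a, b, l))) 1 =
          GX κ a t (fun k => θ (Sum.inr k)) w + t * θ (Sum.inr (Sum.inl (a, 0))) :=
        F1_eq κ a t θ w
      have f0 : FF κ θ w (Sum.inr (Sum.inl (a, b, l))) 0 = θ (Sum.inl a) * m b / m a := rfl
      have t0 : hd (tgt (I := I) (Sum.inr (Sum.inl (a, b, l)) : Opt p) 0) = hE := rfl
      have t1 : hd (tgt (I := I) (Sum.inr (Sum.inl (a, b, l)) : Opt p) 1) = hG := rfl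
      rw [g0, g1, f0, f1, t0, t1]
      have e0 : ‖(θ (Sum.inl a) • Ld).comp U.toContinuousLinearMap‖ₑ + ‖(θ (Sum.inl a) • Ld) w‖ₑ =
          ENNReal.ofReal (θ (Sum.inl a)) * CL := by
        rw [ContinuousLinearMap.smul_comp, enorm_smul, smul_apply, enorm_smul,
          ← mul_add, Real.enorm_of_nonneg hR.1.le]
      rw [e0]
      unfold gx
      ring
    · have hR' : ¬ Rg κ θ w (Sum.inr (Sum.inl (a, b, l))) := fun h => hR ⟨h.2.1, h.2.2⟩
      rw [if_neg hR', if_neg hR]
      simp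
  rw [lintegral_congr int_eq]
  have prod := muF_prod (p := p) (I := I) (fun e => fe m a b e * CL) (gx κ a t w U)
    ((measurable_fe m a b).mul_const _) (measurable_gx κ a t w U)
  rw [prod, lintegral_mul_const _ (measurable_fe m a b), epart m m0 a b hab]
  have gp := gpart κ a t w U
  -- bound of CL
  set A := Real.sqrt (m a) with hA
  set B := Real.sqrt (m b) with hB
  have A1 : 1 ≤ A := by rw [hA, Real.one_le_sqrt]; exact m1 a
  have B1 : 1 ≤ B := by rw [hB, Real.one_le_sqrt]; exact m1 b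
  have A2 : m a = A ^ 2 := (Real.sq_sqrt (m0 a).le).symm
  have B2 : m b = B ^ 2 := (Real.sq_sqrt (m0 b).le).symm
  have CLb : CL ≤ ENNReal.ofReal (2 * B / m a + 2 * m b * A / m a ^ 2 +
      2 * |m b - m a| / m a ^ 2) := by
    have n1 : ‖Ld.comp U.toContinuousLinearMap‖ ≤ 2 * B / m a + 2 * m b * A / m a ^ 2 := by
      have u1 : ‖U.toContinuousLinearMap‖ ≤ 1 := U.norm_toContinuousLinearMap_le
      have b1 : ‖ipA κ b w‖ ≤ B := (norm_ipA κ b w).trans (Real.sqrt_le_sqrt (by
        rw [hm]; simp only; rw [mm_one]; linarith))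
      have b2 : ‖ipA κ a w‖ ≤ A := (norm_ipA κ a w).trans (Real.sqrt_le_sqrt (by
        rw [hm]; simp only; rw [mm_one]; linarith))
      have l1 : ‖Ld‖ ≤ 2 * B / m a + 2 * m b * A / m a ^ 2 := by
        calc ‖Ld‖ ≤ ‖(2 / m a) • ipA κ b w‖ + ‖(2 * m b / m a ^ 2) • ipA κ a w‖ := norm_sub_le _ _
          _ = 2 / m a * ‖ipA κ b w‖ + 2 * m b / m a ^ 2 * ‖ipA κ a w‖ := by
            have p1 := m0 a
            have p2 := m0 b
            rw [norm_smul, norm_smul, Real.norm_of_nonneg (by positivity),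
              Real.norm_of_nonneg (by positivity)]
          _ ≤ 2 / m a * B + 2 * m b / m a ^ 2 * A := by
            have p1 := m0 a
            have p2 := m0 b
            gcongr
          _ = _ := by ring
      calc _ ≤ ‖Ld‖ * ‖U.toContinuousLinearMap‖ := ContinuousLinearMap.opNorm_comp_le _ _
        _ ≤ ‖Ld‖ * 1 := by gcongr
        _ ≤ _ := by rw [mul_one]; exact l1
    have n2 : |Ld w| = 2 * |m b - m a| / m a ^ 2 := by
      have e1 : Ld w = 2 * (m b - m a) / m a ^ 2 := by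
        have p1 := (m0 a).ne'
        have q1 : ipA κ b w w = m b - 1 := by
          rw [ipA_self, hm]; simp only; rw [mm_one]; ring
        have q2 : ipA κ a w w = m a - 1 := by
          rw [ipA_self, hm]; simp only; rw [mm_one]; ring
        have : Ld w = (2 / m a) * ipA κ b w w - (2 * m b / m a ^ 2) * ipA κ a w w := rfl
        rw [this, q1, q2]
        field_simp
        ring
      have p1 := m0 a
      rw [e1, abs_div, abs_mul, abs_of_pos (by positivity : (0 : ℝ) < m a ^ 2),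
        abs_of_pos (by norm_num : (0 : ℝ) < 2)]
    have p1 := m0 a
    have p2 := m0 b
    rw [hCL, ← ofReal_norm, ← ofReal_norm, Real.norm_eq_abs (Ld w), n2,
      ENNReal.ofReal_add (by positivity) (by positivity)]
    gcongr
  have hS : ∑ d, m d = SS p w := sum_mm κ hκ w
  have S2 : m a + m b ≤ SS p w := by
    rw [← hS]
    have : ∑ d ∈ ({a, b} : Finset (Ty p)), m d ≤ ∑ d, m d :=
      Finset.sum_le_sum_of_subset_of_nonneg (Finset.subset_univ _) (fun d _ _ => (m0 d).le)
    rwa [Finset.sum_pair hab] at this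
  rw [hS]
  set S := SS p w with hSS
  have S0 : 0 < S := by linarith [m0 a, m0 b]
  set X := Real.sqrt (trA κ a U) + 2 with hX
  have X0 : 0 ≤ X := by positivity
  calc _ ≤ ENNReal.ofReal ((m a / S) ^ 2) * ENNReal.ofReal (2 * B / m a + 2 * m b * A / m a ^ 2 +
      2 * |m b - m a| / m a ^ 2) * ENNReal.ofReal (1 / Real.sqrt (2 * Real.pi) * (X / A)) := by
        gcongr
    _ = ENNReal.ofReal ((m a / S) ^ 2 * (2 * B / m a + 2 * m b * A / m a ^ 2 +
      2 * |m b - m a| / m a ^ 2) * (1 / Real.sqrt (2 * Real.pi) * (X / A))) := by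
        have p1 := m0 a
        have p2 := m0 b
        rw [← ENNReal.ofReal_mul (by positivity), ← ENNReal.ofReal_mul (by positivity)]
    _ ≤ _ := by
        apply ENNReal.ofReal_le_ofReal
        have pi1 : 5 / 2 ≤ Real.sqrt (2 * Real.pi) := by
          apply Real.le_sqrt_of_sq_le
          have := Real.pi_gt_d2
          linarith
        have sp : 0 < Real.sqrt (2 * Real.pi) := by linarith
        have e1 : (m a / S) ^ 2 * (2 * B / m a + 2 * m b * A / m a ^ 2 +
            2 * |m b - m a| / m a ^ 2) * (1 / Real.sqrt (2 * Real.pi) * (X / A)) =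
            (2 * A * B + 2 * B ^ 2 + 2 * (|m b - m a| / A)) / S ^ 2 *
              (X / Real.sqrt (2 * Real.pi)) := by
          rw [A2, B2]
          have : A ≠ 0 := by linarith
          field_simp
        rw [e1]
        have k1 : |m b - m a| / A ≤ S := by
          have : |m b - m a| ≤ S := by
            rw [abs_le]; constructor <;> linarith [m0 a, m0 b]
          calc |m b - m a| / A ≤ |m b - m a| / 1 := by gcongr
            _ ≤ S := by rw [div_one]; exact this
        have k2 : 2 * A * B ≤ S := by nlinarith [sq_nonneg (A - B)]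
        have k3 : B ^ 2 ≤ S := by rw [← B2]; linarith [m0 a]
        have k4 : 2 * A * B + 2 * B ^ 2 + 2 * (|m b - m a| / A) ≤ 5 * S := by linarith
        calc _ ≤ (5 * S) / S ^ 2 * (X / (5 / 2)) := by gcongr
          _ = 2 * X / S := by field_simp

end JW

end Pool.Agent.Helper954.Hopf
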