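import Pool.Agent.Helper954.Hopf.SEQ
import Pool.Agent.Helper954.Hopf.JN
import Pool.Agent.Helper954.Hopf.JW
import Pool.Agent.Helper954.Hopf.JT

set_option autoImplicit false

namespace Pool.Agent.Helper954.Hopf

open MeasureTheory Set
open scoped BigOperators
open scoped ENNReal
open SEQ (seq_det)
open JN (field_N)
open JW (field_W)
open JT (field_T)

namespace PX

theorem lintegral_pi_prod {J : Type} [Fintype J] [DecidableEq J] {X : J → Type}
    [∀ j, MeasurableSpace (X j)] (μ : ∀ j, Measure (X j)) [∀ j, SigmaFinite (μ j)]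
    (f : ∀ j, X j → ℝ≥0∞) (hf : ∀ j, Measurable (f j)) :
    ∫⁻ x, ∏ j, f j (x j) ∂Measure.pi μ = ∏ j, ∫⁻ x, f j x ∂μ j := by
  classical
  by_cases hne : Nonempty (∀ j, X j)
  · obtain ⟨x0⟩ := hne
    have hm : Measurable (fun x : ∀ j, X j => ∏ j, f j (x j)) :=
      Finset.measurable_prod _ fun j _ => (hf j).comp (measurable_pi_apply j)
    have key : ∀ s : Finset J, ∀ x : ∀ j, X j,
        (∫⋯∫⁻_s, (fun x : ∀ j, X j => ∏ j, f j (x j)) ∂μ) x
          = (∏ j ∈ s, ∫⁻ y, f j y ∂μ j) * ∏ j ∈ sᶜ, f j (x j) := by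
      intro s
      induction s using Finset.induction_on with
      | empty => intro x; rw [lmarginal_empty]; simp
      | insert i s hi ih =>
        intro x
        rw [lmarginal_insert _ hm hi]
        simp only [ih]
        have hc : sᶜ = insert i (insert i s)ᶜ := by
          ext j
          by_cases hj : j = i
          · subst hj; simp [hi]
          · simp [hj]
        have hni : i ∉ (insert i s)ᶜ := by simp
        have h1 : ∀ y : X i, ∏ j ∈ sᶜ, f j (Function.update x i y j)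
            = f i y * ∏ j ∈ (insert i s)ᶜ, f j (x j) := by
          intro y
          rw [hc, Finset.prod_insert hni, Function.update_self]
          congr 1
          apply Finset.prod_congr rfl
          intro j hj
          have : j ≠ i := by
            rintro rfl; exact hni hj
          rw [Function.update_of_ne this]
        simp only [h1]
        have h2 : Measurable (fun y : X i => f i y * ∏ j ∈ (insert i s)ᶜ, f j (x j)) :=
          (hf i).mul_const _
        rw [lintegral_const_mul _ h2, lintegral_mul_const _ (hf i), Finset.prod_insert hi]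
        ring
    have := key Finset.univ x0
    rw [← lintegral_eq_lmarginal_univ] at this
    rw [this]
    simp
  · rw [not_nonempty_iff] at hne
    have h0 : ∃ j, IsEmpty (X j) := by
      by_contra hc
      push Not at hc
      apply hne.false
      exact fun j => (hc j).some
    obtain ⟨j, hj⟩ := h0
    have h1 : ∏ j, ∫⁻ x, f j x ∂μ j = 0 := by
      apply Finset.prod_eq_zero (Finset.mem_univ j)
      rw [lintegral_of_isEmpty]
    rw [h1, lintegral_of_isEmpty]

theorem pi_withDensity {J : Type} [Fintype J] [DecidableEq J] {X : J → Type}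
    [∀ j, MeasurableSpace (X j)] (μ : ∀ j, Measure (X j)) [∀ j, SigmaFinite (μ j)]
    (f : ∀ j, X j → ℝ≥0∞) (hf : ∀ j, Measurable (f j)) (hft : ∀ j x, f j x ≠ ⊤) :
    Measure.pi (fun j => (μ j).withDensity (f j)) =
      (Measure.pi μ).withDensity (fun x => ∏ j, f j (x j)) := by
  have : ∀ j, SigmaFinite ((μ j).withDensity (f j)) := fun j =>
    SigmaFinite.withDensity_of_ne_top' (hft j)
  refine (Measure.pi_eq fun s hs => ?_)
  rw [withDensity_apply _ (MeasurableSet.univ_pi hs), Measure.restrict_pi_pi,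
    lintegral_pi_prod _ f hf]
  apply Finset.prod_congr rfl
  intro j _
  rw [withDensity_apply _ (hs j)]

/-- summation over a finite type of options and integration over parameters is integration
against a measure with density -/
theorem opt_integral {J O X : Type} [Fintype J] [DecidableEq J] [Fintype O] [MeasurableSpace O]
    [MeasurableSingletonClass O] [MeasurableSpace X] (P : Measure X) [SigmaFinite P]
    (W : O × X → ℝ≥0∞) (hW : Measurable W) (hWt : ∀ q, W q ≠ ⊤)
    (F : (J → O × X) → ℝ≥0∞) (hF : Measurable F) :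
    ∫⁻ ω : J → O × X, F ω ∂Measure.pi (fun _ : J => ((Measure.count : Measure O).prod P).withDensity W)
      = ∑ o : J → O, ∫⁻ x : J → X, (∏ j, W (o j, x j)) * F (fun j => (o j, x j))
          ∂Measure.pi (fun _ : J => P) := by
  have hfin : IsFiniteMeasure (Measure.count : Measure O) := by infer_instance
  rw [pi_withDensity (fun _ : J => (Measure.count : Measure O).prod P) (fun _ => W) (fun _ => hW) (fun _ => hWt)]
  have hmW : Measurable (fun x : J → O × X => ∏ j, W (x j)) :=
    Finset.measurable_prod _ fun j _ => hW.comp (measurable_pi_apply j)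
  rw [lintegral_withDensity_eq_lintegral_mul _ hmW hF]
  have hmp := measurePreserving_arrowProdEquivProdArrow O X J (fun _ => (Measure.count : Measure O)) (fun _ => P)
  have hmp2 := hmp.symm
  rw [← hmp2.lintegral_comp (hmW.mul hF)]
  rw [lintegral_prod]
  · rw [lintegral_fintype]
    apply Finset.sum_congr rfl
    intro o _
    have : (Measure.pi (fun _ : J => (Measure.count : Measure O))) {o} = 1 := by
      rw [Measure.pi_singleton]
      simp
    rw [this, mul_one]
    rfl
  · apply Measurable.aemeasurable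
    exact (hmW.mul hF).comp hmp2.measurable


theorem rowMap_apply {J V : Type} [Fintype J] [NormedAddCommGroup V] [NormedSpace ℝ V]
    (f : J → Fin 2 → (V →L[ℝ] ℝ)) (v : V) (s : J × Fin 2) : rowMap f v s = f s.1 s.2 v := rfl

theorem rowMap_comp {J V V' : Type} [Fintype J] [NormedAddCommGroup V] [NormedSpace ℝ V]
    [NormedAddCommGroup V'] [NormedSpace ℝ V']
    (f : J → Fin 2 → (V →L[ℝ] ℝ)) (S : V' →L[ℝ] V) :
    (rowMap f).comp S = rowMap (fun j i => (f j i).comp S) := by
  ext v s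
  simp only [ContinuousLinearMap.comp_apply, rowMap_apply]

theorem rowMap_eq_sum {J V : Type} [Fintype J] [DecidableEq J] [NormedAddCommGroup V] [NormedSpace ℝ V]
    (f : J → Fin 2 → (V →L[ℝ] ℝ)) :
    rowMap f = ∑ s : J × Fin 2, (f s.1 s.2).smulRight (EuclideanSpace.single s (1:ℝ)) := by
  ext v t
  rw [rowMap_apply]
  simp only [sum_apply, ContinuousLinearMap.smulRight_apply]
  rw [WithLp.ofLp_sum, Finset.sum_apply, Finset.sum_eq_single t]
  · simp
  · intro b _ hb
    simp [hb.symm]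
  · simp

theorem assemble {O X J V : Type} [Fintype O] [Fintype J] [DecidableEq J] [MeasurableSpace X]
    [NormedAddCommGroup V] [InnerProductSpace ℝ V] [FiniteDimensional ℝ V]
    (P : Measure X) [SigmaFinite P]
    (W : O → X → ℝ≥0∞) (hW : ∀ o, Measurable (W o)) (hWt : ∀ o x, W o x ≠ ⊤)
    (a b : O → X → (V →L[ℝ] ℝ)) (ha : ∀ o, Measurable (a o)) (hb : ∀ o, Measurable (b o))
    (M : ℕ → ℝ≥0∞)
    (hM : ∀ d, d < Fintype.card J → ∀ U : EuclideanSpace ℝ (Fin (2 * (d + 1))) →ₗᵢ[ℝ] V,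
      ∑ o, ∫⁻ x, W o x * (‖(a o x).comp U.toContinuousLinearMap‖ₑ * ‖(b o x).comp U.toContinuousLinearMap‖ₑ) ∂P ≤ M d)
    (U : Cx J →ₗᵢ[ℝ] V) :
    ∑ o : J → O, ∫⁻ x : J → X, (∏ j, W (o j) (x j)) * ENNReal.ofReal
        |((rowMap fun j => ![a (o j) (x j), b (o j) (x j)]).comp U.toContinuousLinearMap).det|
        ∂Measure.pi (fun _ : J => P) ≤
      ∏ d ∈ Finset.range (Fintype.card J), M d := by
  letI : MeasurableSpace O := ⊤
  haveI : DiscreteMeasurableSpace O := ⟨fun _ => trivial⟩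
  have hfin : IsFiniteMeasure (Measure.count : Measure O) := by infer_instance
  let W' : O × X → ℝ≥0∞ := fun q => W q.1 q.2
  let a' : O × X → (V →L[ℝ] ℝ) := fun q => a q.1 q.2
  let b' : O × X → (V →L[ℝ] ℝ) := fun q => b q.1 q.2
  have hW' : Measurable W' := measurable_from_prod_countable_right fun o => hW o
  have ha' : Measurable a' := measurable_from_prod_countable_right fun o => ha o
  have hb' : Measurable b' := measurable_from_prod_countable_right fun o => hb o
  have hWt' : ∀ q, W' q ≠ ⊤ := fun q => hWt q.1 q.2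
  let ν : Measure (O × X) := ((Measure.count : Measure O).prod P).withDensity W'
  haveI : SigmaFinite ν := SigmaFinite.withDensity_of_ne_top' hWt'
  have hcomp : ∀ {d : ℕ} (U : EuclideanSpace ℝ (Fin d) →ₗᵢ[ℝ] V), Continuous
      (fun A : V →L[ℝ] ℝ => ‖A.comp U.toContinuousLinearMap‖ₑ) := by
    intro d U
    exact (continuous_id.clm_comp continuous_const).enorm
  have h1 := seq_det ν a' b' ha' hb' M (by
    intro d hd U
    refine le_trans (le_of_eq ?_) (hM d hd U)
    have hm : Measurable (fun ω : O × X => ‖(a' ω).comp U.toContinuousLinearMap‖ₑ * ‖(b' ω).comp U.toContinuousLinearMap‖ₑ) := by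
      exact ((hcomp U).measurable.comp ha').mul ((hcomp U).measurable.comp hb')
    show ∫⁻ ω, _ ∂(((Measure.count : Measure O).prod P).withDensity W') = _
    rw [lintegral_withDensity_eq_lintegral_mul _ hW' hm, lintegral_prod, lintegral_count, tsum_fintype]
    · rfl
    · exact (hW'.mul hm).aemeasurable) U
  refine le_trans (le_of_eq ?_) h1
  have hF : Measurable (fun ω : J → O × X => ENNReal.ofReal
        |((rowMap fun j => ![a' (ω j), b' (ω j)]).comp U.toContinuousLinearMap).det|) := by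
    apply ENNReal.measurable_ofReal.comp
    apply Measurable.abs
    have h2 : Continuous (fun f : J × Fin 2 → (V →L[ℝ] ℝ) => ((∑ s : J × Fin 2, (f s).smulRight (EuclideanSpace.single s (1:ℝ))).comp U.toContinuousLinearMap).det) := by
      apply ContinuousLinearMap.continuous_det.comp
      apply Continuous.clm_comp _ continuous_const
      apply continuous_finsetSum
      intro s _
      have : Continuous (fun A : V →L[ℝ] ℝ => A.smulRight (EuclideanSpace.single s (1:ℝ))) :=
        (ContinuousLinearMap.smulRightL ℝ V (Cx J)).flip (EuclideanSpace.single s (1:ℝ)) |>.continuous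
      exact this.comp (continuous_apply s)
    have h3 : Measurable (fun ω : J → O × X => (fun s : J × Fin 2 => (![a' (ω s.1), b' (ω s.1)] : Fin 2 → (V →L[ℝ] ℝ)) s.2)) := by
      apply measurable_pi_lambda
      rintro ⟨j, i⟩
      fin_cases i
      · exact ha'.comp (measurable_pi_apply j)
      · exact hb'.comp (measurable_pi_apply j)
    have h4 := h2.measurable.comp h3
    refine (Eq.mp ?_ h4)
    congr 1
    funext ω
    simp only [Function.comp]
    rw [rowMap_eq_sum]
  show _ = ∫⁻ ω : J → O × X, _ ∂Measure.pi (fun _ : J => ((Measure.count : Measure O).prod P).withDensity W')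
  rw [opt_integral P W' hW' hWt' _ hF]


theorem na_sum {p : ℕ} [NeZero p] {I : Type} [Fintype I] (κ : I → ZMod p)
    (hκ : ∀ i, κ i ≠ 0) (v : Cx I) : ∑ a : Ty p, na κ a v = ‖v‖ ^ 2 := by
  unfold na
  rw [Finset.sum_comm, EuclideanSpace.norm_sq_eq, Fintype.sum_prod_type]
  apply Finset.sum_congr rfl
  intro i _
  rw [Finset.sum_eq_single (⟨κ i, hκ i⟩ : Ty p)]
  · rw [if_pos rfl, Complex.sq_norm, Complex.normSq_apply, Fin.sum_univ_two]
    simp only [cx, Real.norm_eq_abs, sq_abs]
    ring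
  · intro a _ ha
    rw [if_neg]
    intro h
    apply ha
    exact Subtype.ext h.symm
  · intro h; exact absurd (Finset.mem_univ _) h

theorem na_nonneg {p : ℕ} [NeZero p] {I : Type} [Fintype I] (κ : I → ZMod p) (a : Ty p)
    (v : Cx I) : 0 ≤ na κ a v := by
  unfold na
  apply Finset.sum_nonneg
  intro i _
  split_ifs
  · positivity
  · exact le_rfl

theorem trA_nonneg {p : ℕ} [NeZero p] {I : Type} [Fintype I] (κ : I → ZMod p) (a : Ty p)
    {d : ℕ} (U : EuclideanSpace ℝ (Fin d) →ₗᵢ[ℝ] Cx I) : 0 ≤ trA κ a U :=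
  Finset.sum_nonneg fun _ _ => na_nonneg _ _ _

theorem trA_sum {p : ℕ} [NeZero p] {I : Type} [Fintype I] (κ : I → ZMod p)
    (hκ : ∀ i, κ i ≠ 0) {d : ℕ} (U : EuclideanSpace ℝ (Fin d) →ₗᵢ[ℝ] Cx I) :
    ∑ a : Ty p, trA κ a U = d := by
  unfold trA
  rw [Finset.sum_comm]
  simp only [na_sum κ hκ, LinearIsometry.norm_map, EuclideanSpace.norm_single]
  simp

theorem card_Ty {p : ℕ} [NeZero p] : (Fintype.card (Ty p) : ℝ) = p - 1 := by
  have h1 : Fintype.card (Ty p) + 1 = p := by
    have h2 := Fintype.card_subtype_compl (fun a : ZMod p => a = 0)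
    have h3 : Fintype.card {a : ZMod p // a = 0} = 1 := Fintype.card_subtype_eq 0
    rw [h3, ZMod.card] at h2
    have h4 : Fintype.card (Ty p) = Fintype.card {a : ZMod p // ¬ a = 0} := by
      apply Fintype.card_congr
      exact Equiv.refl _
    have := NeZero.pos p
    omega
  have h5 : ((Fintype.card (Ty p) + 1 : ℕ) : ℝ) = p := by rw [h1]
  push_cast at h5
  linarith

theorem SS_pos {p : ℕ} [Fact p.Prime] {I : Type} [Fintype I] (w : Cx I) : 0 < SS p w := by
  unfold SS
  have h1 : (2 : ℝ) ≤ p := by exact_mod_cast (Fact.out : p.Prime).two_le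
  have : 0 ≤ ‖w‖ ^ 2 := by positivity
  linarith

theorem sum_ofReal_le {A : Type} [Fintype A] (f : A → ℝ≥0∞) (c : ℝ) (hc : 0 ≤ c)
    (h : ∀ a, f a ≤ ENNReal.ofReal c) : ∑ a, f a ≤ ENNReal.ofReal (Fintype.card A * c) := by
  calc ∑ a, f a ≤ ∑ _a : A, ENNReal.ofReal c := Finset.sum_le_sum fun a _ => h a
    _ = ENNReal.ofReal (Fintype.card A * c) := by
      rw [Finset.sum_const, Finset.card_univ, nsmul_eq_mul, ENNReal.ofReal_mul (by positivity),
        ENNReal.ofReal_natCast]

theorem field_sum {p : ℕ} [Fact p.Prime] (hp : p ≠ 2) {I : Type} [Fintype I] (κ : I → ZMod p)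
    (hκ : ∀ i, κ i ≠ 0) (w : Cx I) {d : ℕ} (U : EuclideanSpace ℝ (Fin d) →ₗᵢ[ℝ] Cx I) :
    ∑ o : Opt p, ∫⁻ θ, Wt κ θ w o *
      ((‖(GG κ θ w o 0).comp U.toContinuousLinearMap‖ₑ + ‖GG κ θ w o 0 w‖ₑ) *
       (‖(GG κ θ w o 1).comp U.toContinuousLinearMap‖ₑ + ‖GG κ θ w o 1 w‖ₑ))
      ∂muF p I ≤ ENNReal.ofReal ((d + 1000 * (p : ℝ) ^ 3 * Real.sqrt d + 1000 * (p : ℝ) ^ 3)
        / (2 * Real.pi * SS p w)) := by
  have hSg0 := SS_pos (p := p) w
  set Sg : ℝ := SS p w with hSg
  have hp1 : (1 : ℝ) ≤ p := by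
    have : (2 : ℝ) ≤ p := by exact_mod_cast (Fact.out : p.Prime).two_le
    linarith
  have hcard := card_Ty (p := p)
  set t : Ty p → ℝ := fun a => trA κ a U with ht
  have ht0 : ∀ a, 0 ≤ t a := fun a => trA_nonneg κ a U
  have hts : ∑ a, t a = d := trA_sum κ hκ U
  have htd : ∀ a, t a ≤ d := by
    intro a
    rw [← hts]
    exact Finset.single_le_sum (f := t) (fun b _ => ht0 b) (Finset.mem_univ a)
  have hsq : ∀ a, Real.sqrt (t a) ≤ Real.sqrt d := fun a => Real.sqrt_le_sqrt (htd a)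
  have hd0 : 0 ≤ Real.sqrt d := Real.sqrt_nonneg _
  have hpi := Real.pi_pos
  rw [Fintype.sum_sum_type, Fintype.sum_sum_type]
  have hN : ∑ a : Ty p, ∫⁻ θ, Wt κ θ w (Sum.inl a) *
      ((‖(GG κ θ w (Sum.inl a) 0).comp U.toContinuousLinearMap‖ₑ + ‖GG κ θ w (Sum.inl a) 0 w‖ₑ) *
       (‖(GG κ θ w (Sum.inl a) 1).comp U.toContinuousLinearMap‖ₑ + ‖GG κ θ w (Sum.inl a) 1 w‖ₑ))
      ∂muF p I ≤ ENNReal.ofReal ((d + (p - 1) * (2 * Real.sqrt d + 1)) / (2 * Real.pi * Sg)) := by
    calc _ ≤ ∑ a : Ty p, ENNReal.ofReal ((t a + (2 * Real.sqrt d + 1)) / (2 * Real.pi * Sg)) := by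
          apply Finset.sum_le_sum
          intro a _
          refine le_trans (field_N hp κ hκ w U a) ?_
          apply ENNReal.ofReal_le_ofReal
          apply div_le_div_of_nonneg_right _ (by positivity)
          have := hsq a
          show t a + 2 * Real.sqrt (t a) + 1 ≤ _
          linarith
      _ = ENNReal.ofReal (∑ a : Ty p, (t a + (2 * Real.sqrt d + 1)) / (2 * Real.pi * Sg)) := by
          rw [ENNReal.ofReal_sum_of_nonneg]
          intro a _
          have := ht0 a
          positivity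
      _ = _ := by
          congr 1
          rw [← Finset.sum_div, Finset.sum_add_distrib, hts, Finset.sum_const, Finset.card_univ,
            nsmul_eq_mul, hcard]
  have hW : ∑ x : Ty p × Ty p × ZMod p, ∫⁻ θ, Wt κ θ w (Sum.inr (Sum.inl x)) *
      ((‖(GG κ θ w (Sum.inr (Sum.inl x)) 0).comp U.toContinuousLinearMap‖ₑ + ‖GG κ θ w (Sum.inr (Sum.inl x)) 0 w‖ₑ) *
       (‖(GG κ θ w (Sum.inr (Sum.inl x)) 1).comp U.toContinuousLinearMap‖ₑ + ‖GG κ θ w (Sum.inr (Sum.inl x)) 1 w‖ₑ))
      ∂muF p I ≤ ENNReal.ofReal (((p - 1) * ((p - 1) * p)) * (2 * (Real.sqrt d + 2) / Sg)) := by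
    refine le_trans (sum_ofReal_le _ (2 * (Real.sqrt d + 2) / Sg) (by positivity) ?_) ?_
    · rintro ⟨a, b, l⟩
      refine le_trans (field_W hp κ hκ w U a b l) ?_
      apply ENNReal.ofReal_le_ofReal
      apply div_le_div_of_nonneg_right _ hSg0.le
      have := hsq a
      show 2 * (Real.sqrt (t a) + 2) ≤ _
      linarith
    · apply le_of_eq
      rw [Fintype.card_prod, Fintype.card_prod, ZMod.card, Nat.cast_mul, Nat.cast_mul, hcard]
  have hT : ∑ x : Ty p × Ty p × Ty p, ∫⁻ θ, Wt κ θ w (Sum.inr (Sum.inr x)) *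
      ((‖(GG κ θ w (Sum.inr (Sum.inr x)) 0).comp U.toContinuousLinearMap‖ₑ + ‖GG κ θ w (Sum.inr (Sum.inr x)) 0 w‖ₑ) *
       (‖(GG κ θ w (Sum.inr (Sum.inr x)) 1).comp U.toContinuousLinearMap‖ₑ + ‖GG κ θ w (Sum.inr (Sum.inr x)) 1 w‖ₑ))
      ∂muF p I ≤ ENNReal.ofReal (((p - 1) * ((p - 1) * (p - 1))) * (50 / Sg)) := by
    refine le_trans (sum_ofReal_le _ (50 / Sg) (by positivity) ?_) ?_
    · rintro ⟨a, b, c⟩
      exact field_T hp κ hκ w U a b c
    · apply le_of_eq
      rw [Fintype.card_prod, Fintype.card_prod, Nat.cast_mul, Nat.cast_mul, hcard]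
  have hp0 : (0 : ℝ) ≤ p - 1 := by linarith
  refine le_trans (add_le_add hN (add_le_add hW hT)) ?_
  rw [← ENNReal.ofReal_add (by positivity) (by positivity), ← ENNReal.ofReal_add (by positivity) (by positivity)]
  apply ENNReal.ofReal_le_ofReal
  have hpi4 : Real.pi ≤ 4 := Real.pi_le_four
  have e1 : ((p : ℝ) - 1) * ((p - 1) * p) * (2 * (Real.sqrt d + 2) / Sg) =
      (2 * Real.pi * (((p : ℝ) - 1) * ((p - 1) * p) * (2 * (Real.sqrt d + 2)))) / (2 * Real.pi * Sg) := by
    field_simp
  have e2 : ((p : ℝ) - 1) * ((p - 1) * (p - 1)) * (50 / Sg) =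
      (2 * Real.pi * (((p : ℝ) - 1) * ((p - 1) * (p - 1)) * 50)) / (2 * Real.pi * Sg) := by
    field_simp
  rw [e1, e2, ← add_div, ← add_div]
  apply div_le_div_of_nonneg_right _ (by positivity)
  have hq : ((p : ℝ) - 1) ≤ p := by linarith
  have h2 : ((p : ℝ) - 1) * ((p - 1) * p) ≤ p * (p * p) := by gcongr
  have h3 : ((p : ℝ) - 1) * ((p - 1) * (p - 1)) ≤ p * (p * p) := by gcongr
  have h3' : 0 ≤ ((p : ℝ) - 1) * ((p - 1) * (p - 1)) := by positivity
  have h2' : 0 ≤ ((p : ℝ) - 1) * ((p - 1) * p) := by positivity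
  have h4 : (p : ℝ) ≤ p * (p * p) := by
    have : (1 : ℝ) ≤ p * p := by nlinarith
    nlinarith
  have h5 : 2 * Real.pi * (((p : ℝ) - 1) * ((p - 1) * p) * (2 * (Real.sqrt d + 2)))
      ≤ 2 * 4 * ((p * (p * p)) * (2 * (Real.sqrt d + 2))) := by gcongr
  have h6 : 2 * Real.pi * (((p : ℝ) - 1) * ((p - 1) * (p - 1)) * 50)
      ≤ 2 * 4 * ((p * (p * p)) * 50) := by gcongr
  have h7 : ((p : ℝ) - 1) * (2 * Real.sqrt d + 1) ≤ (p * (p * p)) * (2 * Real.sqrt d + 1) := by
    have : (p : ℝ) - 1 ≤ p * (p * p) := by linarith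
    gcongr
  have h8 : 0 ≤ (p : ℝ) * (p * p) * Real.sqrt d := by positivity
  have h9 : 0 ≤ (p : ℝ) * (p * p) := by positivity
  have e3 : (p : ℝ) ^ 3 = p * (p * p) := by ring
  rw [e3]
  nlinarith


theorem hd_meas {p : ℕ} {I : Type} (k : Par p I) : Measurable (hd k) := by
  rcases k with k | k
  · show Measurable hE
    unfold hE
    apply ENNReal.measurable_ofReal.comp
    exact Measurable.ite measurableSet_Ioi (by fun_prop) measurable_const
  · show Measurable hG
    unfold hG
    apply ENNReal.measurable_ofReal.comp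
    fun_prop

theorem hd_ne_top {p : ℕ} {I : Type} (k : Par p I) (t : ℝ) : hd k t ≠ ⊤ := by
  rcases k with k | k
  · show hE t ≠ ⊤
    exact ENNReal.ofReal_ne_top
  · show hG t ≠ ⊤
    exact ENNReal.ofReal_ne_top

theorem muF_sigmaFinite {p : ℕ} [NeZero p] {I : Type} [Fintype I] : SigmaFinite (muF p I) := by
  unfold muF
  haveI : ∀ k : Par p I, SigmaFinite ((volume : Measure ℝ).withDensity (hd k)) := fun k =>
    SigmaFinite.withDensity_of_ne_top' (hd_ne_top k)
  infer_instance

theorem ms_forall {α ι : Type} [MeasurableSpace α] [Countable ι] (Q : ι → α → Prop)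
    (h : ∀ d, MeasurableSet {x | Q d x}) : MeasurableSet {x | ∀ d, Q d x} := by
  have : {x | ∀ d, Q d x} = ⋂ d, {x | Q d x} := by
    ext x
    rw [Set.mem_iInter]
    rfl
  rw [this]
  exact MeasurableSet.iInter h

section cont
variable {p : ℕ} [NeZero p] {I : Type} [Fintype I]

theorem pe_cont (a : Ty p) : Continuous (fun θ : Par p I → ℝ => pe θ a) := continuous_apply _

theorem py_re_cont (a : Ty p) : Continuous (fun θ : Par p I → ℝ => (py θ a).re) := continuous_apply _

theorem pc_re_cont (i : I) : Continuous (fun θ : Par p I → ℝ => (pc θ i).re) := continuous_apply _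
theorem pc_im_cont (i : I) : Continuous (fun θ : Par p I → ℝ => (pc θ i).im) := continuous_apply _

theorem xi_re_cont (κ : I → ZMod p) (a : Ty p) (w : Cx I) :
    Continuous (fun θ : Par p I → ℝ => (xi κ θ a w).re) := by
  have h : (fun θ : Par p I → ℝ => (xi κ θ a w).re) = fun θ =>
      ∑ i, if κ i = a.1 then ((pc θ i).re * (cx w i).re - (pc θ i).im * (cx w i).im) else 0 := by
    funext θ
    unfold xi
    rw [Complex.re_sum]
    apply Finset.sum_congr rfl
    intro i _
    split_ifs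
    · rw [Complex.mul_re]
    · rfl
  rw [h]
  apply continuous_finsetSum
  intro i _
  split_ifs
  · exact ((pc_re_cont i).mul continuous_const).sub ((pc_im_cont i).mul continuous_const)
  · exact continuous_const

theorem xi_im_cont (κ : I → ZMod p) (a : Ty p) (w : Cx I) :
    Continuous (fun θ : Par p I → ℝ => (xi κ θ a w).im) := by
  have h : (fun θ : Par p I → ℝ => (xi κ θ a w).im) = fun θ =>
      ∑ i, if κ i = a.1 then ((pc θ i).re * (cx w i).im + (pc θ i).im * (cx w i).re) else 0 := by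
    funext θ
    unfold xi
    rw [Complex.im_sum]
    apply Finset.sum_congr rfl
    intro i _
    split_ifs
    · rw [Complex.mul_im]
    · rfl
  rw [h]
  apply continuous_finsetSum
  intro i _
  split_ifs
  · exact ((pc_re_cont i).mul continuous_const).add ((pc_im_cont i).mul continuous_const)
  · exact continuous_const

theorem xire_cont (κ : I → ZMod p) (a : Ty p) :
    Continuous (fun θ : Par p I → ℝ => xire κ θ a) := by
  unfold xire
  apply continuous_finsetSum
  intro i _
  split_ifs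
  · exact ((pc_re_cont i).smul continuous_const).sub ((pc_im_cont i).smul continuous_const)
  · exact continuous_const

theorem xiim_cont (κ : I → ZMod p) (a : Ty p) :
    Continuous (fun θ : Par p I → ℝ => xiim κ θ a) := by
  unfold xiim
  apply continuous_finsetSum
  intro i _
  split_ifs
  · exact ((pc_re_cont i).smul continuous_const).add ((pc_im_cont i).smul continuous_const)
  · exact continuous_const

theorem dE_cont (κ : I → ZMod p) (a b : Ty p) (w : Cx I) :
    Continuous (fun θ : Par p I → ℝ => dE κ θ a b w) := by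
  unfold dE
  exact (pe_cont a).smul continuous_const

theorem GG_cont (κ : I → ZMod p) (w : Cx I) (o : Opt p) (i : Fin 2) :
    Continuous (fun θ : Par p I → ℝ => GG κ θ w o i) := by
  rcases o with a | ⟨a, b, l⟩ | ⟨a, b, c⟩
  · fin_cases i
    · exact xire_cont κ a
    · exact xiim_cont κ a
  · fin_cases i
    · exact dE_cont κ a b w
    · exact (xiim_cont κ a).sub ((xire_cont κ a).const_smul (tl p l))
  · fin_cases i
    · exact dE_cont κ a b w
    · exact dE_cont κ a c w

theorem FF_cont (κ : I → ZMod p) (w : Cx I) (o : Opt p) (i : Fin 2) :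
    Continuous (fun θ : Par p I → ℝ => FF κ θ w o i) := by
  have hdE : ∀ a b : Ty p, Continuous (fun θ : Par p I → ℝ => pe θ a * mm κ 1 b w / mm κ 1 a w) :=
    fun a b => ((pe_cont a).mul continuous_const).div_const _
  rcases o with a | ⟨a, b, l⟩ | ⟨a, b, c⟩
  · fin_cases i
    · exact xi_re_cont κ a w
    · exact xi_im_cont κ a w
  · fin_cases i
    · exact hdE a b
    · exact (xi_im_cont κ a w).sub (continuous_const.mul ((xi_re_cont κ a w).sub (py_re_cont a)))
  · fin_cases i
    · exact hdE a b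
    · exact hdE a c

theorem Rg_meas (κ : I → ZMod p) (w : Cx I) (o : Opt p) :
    MeasurableSet {θ : Par p I → ℝ | Rg κ θ w o} := by
  have h1 : ∀ a : Ty p, MeasurableSet {θ : Par p I → ℝ | 0 < pe θ a} := fun a =>
    measurableSet_lt measurable_const (pe_cont a).measurable
  have h2 : ∀ a d : Ty p, MeasurableSet {θ : Par p I → ℝ | mm κ 1 d w * pe θ a ≤ mm κ 1 a w * pe θ d} :=
    fun a d => measurableSet_le ((continuous_const.mul (pe_cont a)).measurable)
      ((continuous_const.mul (pe_cont d)).measurable)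
  rcases o with a | ⟨a, b, l⟩ | ⟨a, b, c⟩
  · show MeasurableSet {θ : Par p I → ℝ | 0 < pe θ a ∧ ∀ d, mm κ 1 d w * pe θ a ≤ mm κ 1 a w * pe θ d}
    exact (h1 a).inter (ms_forall _ fun d => h2 a d)
  · show MeasurableSet {θ : Par p I → ℝ | a ≠ b ∧ 0 < pe θ a ∧
      ∀ d, d ≠ b → mm κ 1 d w * pe θ a ≤ mm κ 1 a w * pe θ d}
    exact (MeasurableSet.const _).inter ((h1 a).inter (ms_forall _ fun d =>
      MeasurableSet.imp (MeasurableSet.const _) (h2 a d)))
  · show MeasurableSet {θ : Par p I → ℝ | a ≠ b ∧ a ≠ c ∧ b ≠ c ∧ 0 < pe θ a ∧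
      ∀ d, d ≠ b → d ≠ c → mm κ 1 d w * pe θ a ≤ mm κ 1 a w * pe θ d}
    exact (MeasurableSet.const _).inter ((MeasurableSet.const _).inter ((MeasurableSet.const _).inter
      ((h1 a).inter (ms_forall _ fun d =>
      MeasurableSet.imp (MeasurableSet.const _) (MeasurableSet.imp (MeasurableSet.const _) (h2 a d))))))

theorem Wt_meas (κ : I → ZMod p) (w : Cx I) (o : Opt p) :
    Measurable (fun θ : Par p I → ℝ => Wt κ θ w o) := by
  classical
  unfold Wt
  apply Measurable.ite (Rg_meas κ w o)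
  · exact ((hd_meas _).comp (FF_cont κ w o 0).measurable).mul ((hd_meas _).comp (FF_cont κ w o 1).measurable)
  · exact measurable_const

theorem Wt_ne_top (κ : I → ZMod p) (w : Cx I) (o : Opt p) (θ : Par p I → ℝ) :
    Wt κ θ w o ≠ ⊤ := by
  unfold Wt
  split_ifs
  · exact ENNReal.mul_ne_top (hd_ne_top _ _) (hd_ne_top _ _)
  · exact ENNReal.zero_ne_top

end cont


theorem exists_decomp {J I : Type} [Fintype J] [Fintype I] (T : Cx J →L[ℝ] Cx I)
    (hT : (T : Cx J →ₗ[ℝ] Cx I).normDet ≠ 0) :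
    ∃ (U : Cx J →ₗᵢ[ℝ] Cx I) (S : Cx J →L[ℝ] Cx J), T = U.toContinuousLinearMap.comp S ∧
      |S.det| = (T : Cx J →ₗ[ℝ] Cx I).normDet := by
  obtain ⟨b⟩ := ((T : Cx J →ₗ[ℝ] Cx I).normDet_ne_zero_tfae.out 0 3).mp hT
  let g : Cx J ≃ₗᵢ[ℝ] (LinearMap.range (T : Cx J →ₗ[ℝ] Cx I)) := (stdOrthonormalBasis ℝ (Cx J)).equiv b (Equiv.refl _)
  let U : Cx J →ₗᵢ[ℝ] Cx I := (LinearMap.range (T : Cx J →ₗ[ℝ] Cx I)).subtypeₗᵢ.comp g.toLinearIsometry
  let S₀ : Cx J →ₗ[ℝ] Cx J := g.symm.toLinearIsometry.toLinearMap ∘ₗ (T : Cx J →ₗ[ℝ] Cx I).rangeRestrict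
  have h1 : (T : Cx J →ₗ[ℝ] Cx I) = U.toLinearMap ∘ₗ S₀ := by
    ext v
    simp [U, S₀]
  refine ⟨U, LinearMap.toContinuousLinearMap S₀, ?_, ?_⟩
  · ext v : 1
    exact congrArg (fun q : Cx J →ₗ[ℝ] Cx I => q v) h1
  · have h2 : |(LinearMap.toContinuousLinearMap S₀).det| = S₀.normDet := by
      rw [LinearMap.normDet_eq_abs_det]; rfl
    rw [h2, h1, LinearMap.normDet_comp S₀ U.toLinearMap]
    have h3 : (U.toLinearMap.domRestrict (LinearMap.range S₀)).normDet = 1 :=
      (U.comp (LinearMap.range S₀).subtypeₗᵢ).normDet_eq_one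
    rw [h3, one_mul]

/-- stretching by the factor `max 1 ‖w‖` in the direction of `w` -/
noncomputable def SM {J : Type} [Fintype J] (w : Cx J) : Cx J →L[ℝ] Cx J :=
  ContinuousLinearMap.id ℝ _ + ((max 1 ‖w‖ - 1) / ‖w‖ ^ 2) • (innerSL ℝ w).smulRight w

theorem SM_apply {J : Type} [Fintype J] (w v : Cx J) :
    SM w v = v + ((max 1 ‖w‖ - 1) / ‖w‖ ^ 2) • (inner ℝ w v • w) := by
  unfold SM
  simp only [add_apply, ContinuousLinearMap.id_apply,
    smul_apply, ContinuousLinearMap.smulRight_apply, innerSL_apply_apply]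

theorem SM_det {J : Type} [Fintype J] (w : Cx J) : (SM w).det = max 1 ‖w‖ := by
  have h1 : ((SM w : Cx J →L[ℝ] Cx J) : Cx J →ₗ[ℝ] Cx J) =
      LinearMap.transvection ((((max 1 ‖w‖ - 1) / ‖w‖ ^ 2) • (innerSL ℝ w : Cx J →L[ℝ] ℝ) : Cx J →L[ℝ] ℝ) : Cx J →ₗ[ℝ] ℝ) w := by
    ext v
    rw [ContinuousLinearMap.coe_coe, SM_apply, LinearMap.transvection.apply]
    simp only [ContinuousLinearMap.coe_coe, smul_apply, innerSL_apply_apply,
      smul_eq_mul, smul_smul]
  rw [ContinuousLinearMap.det, h1, LinearMap.transvection.det]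
  simp only [ContinuousLinearMap.coe_coe, smul_apply, innerSL_apply_apply,
      smul_eq_mul, real_inner_self_eq_norm_sq]
  by_cases hw : ‖w‖ = 0
  · rw [hw]; simp
  · field_simp
    ring

theorem SM_isom {J I : Type} [Fintype J] [Fintype I] (U : Cx J →ₗᵢ[ℝ] Cx I) (u : Cx J) :
    (SM (U u)).comp U.toContinuousLinearMap = U.toContinuousLinearMap.comp (SM u) := by
  ext v : 1
  rw [ContinuousLinearMap.comp_apply, ContinuousLinearMap.comp_apply]
  rw [LinearIsometry.coe_toContinuousLinearMap, SM_apply, SM_apply, U.norm_map, U.inner_map_map,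
    map_add, map_smul, map_smul]

theorem SM_bound {I : Type} [Fintype I] (w : Cx I) (g : Cx I →L[ℝ] ℝ) {d : ℕ}
    (U : EuclideanSpace ℝ (Fin d) →ₗᵢ[ℝ] Cx I) :
    ‖(g.comp (SM w)).comp U.toContinuousLinearMap‖ₑ ≤
      ‖g.comp U.toContinuousLinearMap‖ₑ + ‖g w‖ₑ := by
  have h1 : ‖(g.comp (SM w)).comp U.toContinuousLinearMap‖ ≤
      ‖g.comp U.toContinuousLinearMap‖ + ‖g w‖ := by
    apply ContinuousLinearMap.opNorm_le_bound _ (by positivity)
    intro v
    rw [ContinuousLinearMap.comp_apply, ContinuousLinearMap.comp_apply, SM_apply, map_add, map_smul,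
      map_smul, add_mul]
    refine le_trans (norm_add_le _ _) ?_
    apply add_le_add
    · exact (g.comp U.toContinuousLinearMap).le_opNorm v
    · rw [smul_smul, norm_smul]
      rw [mul_comm ‖g w‖]
      gcongr
      rw [norm_mul]
      have h2 : ‖(inner ℝ w (U.toContinuousLinearMap v) : ℝ)‖ ≤ ‖w‖ * ‖v‖ := by
        refine le_trans (norm_inner_le_norm _ _) ?_
        rw [LinearIsometry.coe_toContinuousLinearMap, U.norm_map]
      have h0 : 0 ≤ (max 1 ‖w‖ - 1) / ‖w‖ ^ 2 := by
        have : (1 : ℝ) ≤ max 1 ‖w‖ := le_max_left _ _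
        apply div_nonneg (by linarith) (by positivity)
      rw [Real.norm_of_nonneg h0]
      calc (max 1 ‖w‖ - 1) / ‖w‖ ^ 2 * ‖(inner ℝ w (U.toContinuousLinearMap v) : ℝ)‖
          ≤ (max 1 ‖w‖ - 1) / ‖w‖ ^ 2 * (‖w‖ * ‖v‖) := by gcongr
        _ = ((max 1 ‖w‖ - 1) / ‖w‖) * ‖v‖ := by
          by_cases hw : ‖w‖ = 0
          · rw [hw]; simp
          · field_simp
        _ ≤ 1 * ‖v‖ := by
          gcongr
          by_cases hw : ‖w‖ = 0
          · rw [hw]; simp
          · have hw' : 0 < ‖w‖ := lt_of_le_of_ne (norm_nonneg _) (Ne.symm hw)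
            rw [div_le_one hw']
            rcases le_total 1 ‖w‖ with h | h
            · rw [max_eq_right h]; linarith
            · rw [max_eq_left h]; linarith
        _ = ‖v‖ := one_mul _
  rw [← ofReal_norm, ← ofReal_norm, ← ofReal_norm, ← ENNReal.ofReal_add (norm_nonneg _) (norm_nonneg _)]
  exact ENNReal.ofReal_le_ofReal h1

theorem det_comp_zero {J I : Type} [Fintype J] [Fintype I] (A : Cx I →L[ℝ] Cx J)
    (D : Cx J →L[ℝ] Cx I) (h : (D : Cx J →ₗ[ℝ] Cx I).normDet = 0) : (A.comp D).det = 0 := by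
  have h2 := ((D : Cx J →ₗ[ℝ] Cx I).normDet_eq_zero_iff_ker_ne_bot).mp h
  rw [ContinuousLinearMap.det, LinearMap.det_eq_zero_iff_ker_ne_bot]
  intro h3
  apply h2
  rw [eq_bot_iff] at h3 ⊢
  refine le_trans ?_ h3
  intro v hv
  rw [LinearMap.mem_ker] at hv ⊢
  show A (D v) = 0
  have : D v = 0 := hv
  rw [this, map_zero]

/-- JOB: pointwise bound -/
theorem point_bound {p : ℕ} [Fact p.Prime] (hp : p ≠ 2) {J I : Type} [Fintype J] [DecidableEq J]
    [Fintype I] [DecidableEq I] (κ : I → ZMod p) (hκ : ∀ i, κ i ≠ 0) (w : Cx I)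
    (D : Cx J →L[ℝ] Cx I) (hD : ∃ v, D v = w) :
    ∑ o : J → Opt p, ∫⁻ θ, (∏ j, Wt κ (θ j) w (o j)) *
        ENNReal.ofReal |((rowMap fun j => ![GG κ (θ j) w (o j) 0, GG κ (θ j) w (o j) 1]).comp D).det|
          ∂Measure.pi (fun _ : J => muF p I) ≤
      ENNReal.ofReal ((D : Cx J →ₗ[ℝ] Cx I).normDet / max 1 ‖w‖ *
        ∏ d ∈ Finset.range (Fintype.card J), (2 * (d + 1) + 1000 * (p : ℝ) ^ 3 *
          Real.sqrt (2 * (d + 1)) + 1000 * (p : ℝ) ^ 3) / (2 * Real.pi * SS p w)) := by
  classical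
  by_cases hT : (D : Cx J →ₗ[ℝ] Cx I).normDet = 0
  · have h0 : ∀ (o : J → Opt p) (θ : J → (Par p I → ℝ)),
        ((rowMap fun j => ![GG κ (θ j) w (o j) 0, GG κ (θ j) w (o j) 1]).comp D).det = 0 :=
      fun o θ => det_comp_zero _ D hT
    simp only [h0, abs_zero, ENNReal.ofReal_zero, mul_zero, lintegral_const, zero_mul,
      Finset.sum_const_zero]
    exact bot_le
  obtain ⟨U, T, hUT, hdetT⟩ := exists_decomp D hT
  obtain ⟨v, hv⟩ := hD
  have hw : U (T v) = w := by
    rw [← hv, hUT]; rfl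
  have hc0 : (0 : ℝ) < max 1 ‖w‖ := lt_of_lt_of_le one_pos (le_max_left _ _)
  haveI := muF_sigmaFinite (p := p) (I := I)
  have hdet : ∀ rows : J → Fin 2 → (Cx I →L[ℝ] ℝ),
      |((rowMap rows).comp D).det| = ((D : Cx J →ₗ[ℝ] Cx I).normDet / max 1 ‖w‖) *
        |((rowMap fun j i => (rows j i).comp (SM w)).comp U.toContinuousLinearMap).det| := by
    intro rows
    have e1 : (rowMap fun j i => (rows j i).comp (SM w)).comp U.toContinuousLinearMap =
        ((rowMap rows).comp U.toContinuousLinearMap).comp (SM (T v)) := by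
      rw [← rowMap_comp, ContinuousLinearMap.comp_assoc, ContinuousLinearMap.comp_assoc]
      congr 1
      rw [← hw]
      exact SM_isom U (T v)
    have e2 : (rowMap rows).comp D = ((rowMap rows).comp U.toContinuousLinearMap).comp T := by
      rw [ContinuousLinearMap.comp_assoc, ← hUT]
    have hmul : ∀ A B : Cx J →L[ℝ] Cx J, (A.comp B).det = A.det * B.det := by
      intro A B
      simp only [ContinuousLinearMap.det, ContinuousLinearMap.toLinearMap_comp, LinearMap.det_comp]
    have hn : ‖T v‖ = ‖w‖ := by rw [← hw, U.norm_map]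
    rw [e1, e2, hmul, hmul, SM_det, hn, abs_mul, abs_mul, hdetT, abs_of_pos hc0]
    field_simp
  set K : ℝ := (D : Cx J →ₗ[ℝ] Cx I).normDet / max 1 ‖w‖ with hK
  have hK0 : 0 ≤ K := div_nonneg (LinearMap.normDet_nonneg _) hc0.le
  have hSS := SS_pos (p := p) w
  have hpi := Real.pi_pos
  have hterm : ∀ d : ℕ, 0 ≤ (2 * ((d : ℝ) + 1) + 1000 * (p : ℝ) ^ 3 *
          Real.sqrt (2 * (d + 1)) + 1000 * (p : ℝ) ^ 3) / (2 * Real.pi * SS p w) := by
    intro d
    positivity
  have hmain := assemble (J := J) (V := Cx I) (muF p I) (fun (o : Opt p) (θ : Par p I → ℝ) => Wt κ θ w o)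
    (fun o => Wt_meas κ w o) (fun o θ => Wt_ne_top κ w o θ)
    (fun o θ => (GG κ θ w o 0).comp (SM w)) (fun o θ => (GG κ θ w o 1).comp (SM w))
    (fun o => ((GG_cont κ w o 0).clm_comp continuous_const).measurable)
    (fun o => ((GG_cont κ w o 1).clm_comp continuous_const).measurable)
    (fun d => ENNReal.ofReal ((2 * ((d : ℝ) + 1) + 1000 * (p : ℝ) ^ 3 *
          Real.sqrt (2 * (d + 1)) + 1000 * (p : ℝ) ^ 3) / (2 * Real.pi * SS p w)))
    (by
      intro d _ U'
      have h1 := field_sum hp κ hκ w U'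
      push_cast at h1
      refine le_trans ?_ h1
      apply Finset.sum_le_sum
      intro o _
      apply lintegral_mono
      intro θ
      dsimp only
      gcongr
      · exact SM_bound w _ U'
      · exact SM_bound w _ U') U
  calc _ = ∑ o : J → Opt p, ENNReal.ofReal K * ∫⁻ θ, (∏ j, Wt κ (θ j) w (o j)) *
        ENNReal.ofReal |((rowMap fun j => ![(GG κ (θ j) w (o j) 0).comp (SM w),
          (GG κ (θ j) w (o j) 1).comp (SM w)]).comp U.toContinuousLinearMap).det|
          ∂Measure.pi (fun _ : J => muF p I) := by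
        apply Finset.sum_congr rfl
        intro o _
        rw [← lintegral_const_mul' _ _ ENNReal.ofReal_ne_top]
        apply lintegral_congr
        intro θ
        rw [hdet, ENNReal.ofReal_mul hK0]
        have e3 : (fun (j : J) (i : Fin 2) => ((![GG κ (θ j) w (o j) 0, GG κ (θ j) w (o j) 1] : Fin 2 → (Cx I →L[ℝ] ℝ)) i).comp (SM w))
            = fun j => ![(GG κ (θ j) w (o j) 0).comp (SM w), (GG κ (θ j) w (o j) 1).comp (SM w)] := by
          funext j i
          fin_cases i <;> rfl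
        rw [e3]
        ring
    _ = ENNReal.ofReal K * ∑ o : J → Opt p, ∫⁻ θ, (∏ j, Wt κ (θ j) w (o j)) *
        ENNReal.ofReal |((rowMap fun j => ![(GG κ (θ j) w (o j) 0).comp (SM w),
          (GG κ (θ j) w (o j) 1).comp (SM w)]).comp U.toContinuousLinearMap).det|
          ∂Measure.pi (fun _ : J => muF p I) := by
        rw [Finset.mul_sum]
    _ ≤ ENNReal.ofReal K * ∏ d ∈ Finset.range (Fintype.card J),
        ENNReal.ofReal ((2 * ((d : ℝ) + 1) + 1000 * (p : ℝ) ^ 3 *
          Real.sqrt (2 * (d + 1)) + 1000 * (p : ℝ) ^ 3) / (2 * Real.pi * SS p w)) := by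
        gcongr
    _ = _ := by
        rw [← ENNReal.ofReal_prod_of_nonneg (fun d _ => hterm d), ← ENNReal.ofReal_mul hK0]

end PX

end Pool.Agent.Helper954.Hopf
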