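import Pool.Agent.Helper954.Hopf.AF

set_option autoImplicit false

namespace Pool.Agent.Helper954.Hopf

open MeasureTheory Set
open scoped BigOperators
open scoped ENNReal
open AF (area_fubini)

namespace Z0




open MeasureTheory Set
open scoped BigOperators ENNReal

/-! ### densities -/

lemma z_meas_hE : Measurable hE := by
  unfold hE
  apply Measurable.ennreal_ofReal
  exact Measurable.ite measurableSet_Ioi (by fun_prop) measurable_const

lemma z_meas_hG : Measurable hG := by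
  unfold hG
  apply Measurable.ennreal_ofReal
  fun_prop

lemma z_meas_hd {p : ℕ} {I : Type} (k : Par p I) : Measurable (hd k) := by
  rcases k with k | k
  · exact z_meas_hE
  · exact z_meas_hG

lemma z_int_hE : ∫⁻ t, hE t = 1 := by
  have h1 : ∫⁻ t, hE t = ∫⁻ t in Ioi (0 : ℝ), ENNReal.ofReal (Real.exp (-t)) := by
    rw [← lintegral_indicator measurableSet_Ioi]
    apply lintegral_congr
    intro t
    unfold hE
    by_cases ht : 0 < t
    · rw [if_pos ht, indicator_of_mem (by exact ht)]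
    · rw [if_neg ht, indicator_of_notMem (by exact ht)]; simp
  rw [h1, ← ofReal_integral_eq_lintegral_ofReal]
  · rw [integral_exp_neg_Ioi_zero]; simp
  · have h2 : IntegrableOn (fun x => Real.exp (-x)) (Ioi 0) volume := by
      simpa using exp_neg_integrableOn_Ioi 0 (zero_lt_one)
    exact h2
  · exact Filter.Eventually.of_forall fun t => (Real.exp_pos _).le

lemma z_int_hG : ∫⁻ t, hG t = 1 := by
  have h := ProbabilityTheory.lintegral_gaussianPDFReal_eq_one 0 (v := 1) one_ne_zero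
  rw [← h]
  apply lintegral_congr
  intro t
  unfold hG ProbabilityTheory.gaussianPDFReal
  congr 1
  simp only [NNReal.coe_one, mul_one, sub_zero]
  rw [div_eq_mul_inv, mul_comm]

lemma z_prob_hd {p : ℕ} {I : Type} (k : Par p I) :
    IsProbabilityMeasure ((volume : Measure ℝ).withDensity (hd k)) := by
  constructor
  rw [withDensity_apply _ MeasurableSet.univ, Measure.restrict_univ]
  rcases k with k | k
  · exact z_int_hE
  · exact z_int_hG

/-! ### measurability of the projection -/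

lemma z_proj {X E : Type*} [MetricSpace X] [MetricSpace E] [MeasurableSpace X] [BorelSpace X]
    [SigmaCompactSpace (X × E)] {ι : Type*} (A : Set E) (hA : IsOpen A)
    (f g : ι → X × E → ℝ) (hf : ∀ i, ContinuousOn (f i) (univ ×ˢ A))
    (hg : ∀ i, ContinuousOn (g i) (univ ×ˢ A)) :
    MeasurableSet {x : X | ∃ y ∈ A, ∀ i, f i (x, y) = g i (x, y)} := by
  obtain ⟨F, hF1, hF2, hF3, -⟩ := (isOpen_univ.prod hA : IsOpen ((univ : Set X) ×ˢ A)).exists_iUnion_isClosed
  have h1 : {x : X | ∃ y ∈ A, ∀ i, f i (x, y) = g i (x, y)} =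
      ⋃ n : ℕ, ⋃ m : ℕ, Prod.fst '' (compactCovering (X × E) m ∩
        (F n ∩ ⋂ i, {q | f i q = g i q})) := by
    ext x
    simp only [mem_iUnion, mem_image, mem_inter_iff, mem_iInter]
    constructor
    · rintro ⟨y, hy, hxy⟩
      have h2 : (x, y) ∈ ⋃ n, F n := by rw [hF3]; exact ⟨mem_univ _, hy⟩
      obtain ⟨n, hn⟩ := mem_iUnion.1 h2
      have h3 : (x, y) ∈ ⋃ m, compactCovering (X × E) m := by
        rw [iUnion_compactCovering]; exact mem_univ _
      obtain ⟨m, hm⟩ := mem_iUnion.1 h3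
      exact ⟨n, m, (x, y), ⟨hm, hn, hxy⟩, rfl⟩
    · rintro ⟨n, m, ⟨x', y⟩, ⟨hm, hn, hxy⟩, rfl⟩
      exact ⟨y, (hF2 n hn).2, hxy⟩
  rw [h1]
  refine MeasurableSet.iUnion fun n => MeasurableSet.iUnion fun m => ?_
  have hcl : IsClosed (F n ∩ ⋂ i, {q | f i q = g i q}) := by
    rcases isEmpty_or_nonempty ι with hι | hι
    · rw [iInter_of_empty, inter_univ]; exact hF1 n
    · rw [inter_iInter]
      refine isClosed_iInter fun i => ?_
      have h2 : F n ∩ {q | f i q = g i q} = F n ∩ (fun q => f i q - g i q) ⁻¹' {0} := by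
        ext q
        simp [sub_eq_zero]
      rw [h2]
      exact (((hf i).mono (hF2 n)).sub ((hg i).mono (hF2 n))).preimage_isClosed_of_isClosed
        (hF1 n) isClosed_singleton
  exact (((isCompact_compactCovering (X × E) m).inter_right hcl).image continuous_fst).measurableSet



open MeasureTheory Set
open scoped BigOperators ENNReal

section alg
variable {p : ℕ} {I : Type} [Fintype I] [DecidableEq I]

/-- sum over the other indices of the same type -/
noncomputable def oth (κ : I → ZMod p) (θ : Par p I → ℝ) (i : I) (w : Cx I) : ℂ :=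
  ∑ i', if κ i' = κ i ∧ i' ≠ i then pc θ i' * cx w i' else 0

lemma xi_eq (κ : I → ZMod p) (θ : Par p I → ℝ) (a : Ty p) (w : Cx I) (i : I) (hi : κ i = a.1) :
    xi κ θ a w = pc θ i * cx w i + oth κ θ i w := by
  unfold xi oth
  have h1 : pc θ i * cx w i = ∑ i', if i' = i then pc θ i' * cx w i' else 0 := by
    rw [Finset.sum_ite_eq']; simp
  rw [h1, ← Finset.sum_add_distrib]
  apply Finset.sum_congr rfl
  intro i' _
  by_cases h2 : i' = i
  · subst h2
    simp [hi]
  · simp [h2, hi]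

/-- rotated coordinate -/
noncomputable def rot (l : ZMod p) (u : ℂ) : ℂ := (starRingEnd ℂ) (om p ^ l.val) * u

lemma rot_add (l : ZMod p) (u v : ℂ) : rot l (u + v) = rot l u + rot l v := by
  unfold rot; ring

lemma rot_mul (l : ZMod p) (u v : ℂ) : rot l (u * v) = u * rot l v := by
  unfold rot; ring

lemma rot_ne_zero (hp : p ≠ 0) (l : ZMod p) (u : ℂ) (hu : u ≠ 0) : rot l u ≠ 0 := by
  unfold rot
  apply mul_ne_zero _ hu
  rw [Ne, map_eq_zero]
  apply pow_ne_zero
  unfold om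
  exact Complex.exp_ne_zero _

/-- targets -/
def tg : Opt p → I × Fin 2 → Fin 2 → Par p I
  | Sum.inl _, c => ![Sum.inr (Sum.inr (c.1, 0)), Sum.inr (Sum.inr (c.1, 1))]
  | Sum.inr (Sum.inl (_, b, _)), c => ![Sum.inl b, Sum.inr (Sum.inr (c.1, c.2))]
  | Sum.inr (Sum.inr (_, b, c')), _ => ![Sum.inl b, Sum.inl c']

/-- values -/
noncomputable def vl (κ : I → ZMod p) (θ : Par p I → ℝ) (w : Cx I) :
    Opt p → I × Fin 2 → Fin 2 → ℝ
  | Sum.inl _, c => ![(-(oth κ θ c.1 w) * (cx w c.1)⁻¹).re, (-(oth κ θ c.1 w) * (cx w c.1)⁻¹).im]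
  | Sum.inr (Sum.inl (a, b, l)), c => ![pe θ a * mm κ 0 b w * (mm κ 0 a w)⁻¹,
      if c.2 = 0 then -((rot l (cx w c.1)).re * (pc θ c.1).im + (rot l (oth κ θ c.1 w)).im) *
        ((rot l (cx w c.1)).im)⁻¹
      else -((rot l (cx w c.1)).im * (pc θ c.1).re + (rot l (oth κ θ c.1 w)).im) *
        ((rot l (cx w c.1)).re)⁻¹]
  | Sum.inr (Sum.inr (a, b, c')), _ => ![pe θ a * mm κ 0 b w * (mm κ 0 a w)⁻¹,
      pe θ a * mm κ 0 c' w * (mm κ 0 a w)⁻¹]

/-- conditions -/
def cd (κ : I → ZMod p) (w : Cx I) : Opt p → I × Fin 2 → Prop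
  | Sum.inl a, c => κ c.1 = a.1 ∧ cx w c.1 ≠ 0
  | Sum.inr (Sum.inl (a, _, l)), c => κ c.1 = a.1 ∧ cx w c.1 ≠ 0 ∧
      (if c.2 = 0 then (rot l (cx w c.1)).im ≠ 0 else (rot l (cx w c.1)).re ≠ 0)
  | Sum.inr (Sum.inr (a, _, _)), c => κ c.1 = a.1 ∧ cx w c.1 ≠ 0

/-- nondegenerate options -/
def nd : Opt p → Prop
  | Sum.inl _ => True
  | Sum.inr (Sum.inl (a, b, _)) => a ≠ b
  | Sum.inr (Sum.inr (a, b, c)) => a ≠ b ∧ a ≠ c ∧ b ≠ c

lemma sat_nd (κ : I → ZMod p) (θ : Par p I → ℝ) (w : Cx I) (z : ℝ) (o : Opt p)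
    (h : Sat κ θ w z o) : nd o := by
  rcases o with a | ⟨a, b, l⟩ | ⟨a, b, c⟩
  · trivial
  · exact h.1
  · exact ⟨h.1, h.2.1, h.2.2.1⟩

lemma tg_inj (o : Opt p) (ho : nd o) (c : I × Fin 2) : Function.Injective (tg (I := I) o c) := by
  rcases o with a | ⟨a, b, l⟩ | ⟨a, b, c'⟩
  · intro x y h
    fin_cases x <;> fin_cases y <;> simp [tg] at h ⊢
  · intro x y h
    fin_cases x <;> fin_cases y <;> simp [tg] at h ⊢
  · obtain ⟨h1, h2, h3⟩ := ho
    intro x y h
    fin_cases x <;> fin_cases y <;> simp [tg] at h ⊢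
    · exact h3 (by simpa using h)
    · exact h3 (by simpa using h.symm)

lemma mm_zero (κ : I → ZMod p) (a : Ty p) (w : Cx I) :
    mm κ 0 a w = ∑ i, if κ i = a.1 then ‖cx w i‖ ^ 2 else 0 := by
  unfold mm; simp

lemma mm_nonneg (κ : I → ZMod p) (a : Ty p) (w : Cx I) : 0 ≤ mm κ 0 a w := by
  rw [mm_zero]
  apply Finset.sum_nonneg
  intro i _
  split_ifs <;> positivity

lemma mm_pos_iff (κ : I → ZMod p) (a : Ty p) (w : Cx I) :
    0 < mm κ 0 a w ↔ ∃ i, κ i = a.1 ∧ cx w i ≠ 0 := by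
  constructor
  · intro h
    by_contra hcon
    push Not at hcon
    have : mm κ 0 a w = 0 := by
      rw [mm_zero]
      apply Finset.sum_eq_zero
      intro i _
      split_ifs with h1
      · rw [hcon i h1]; simp
      · rfl
    linarith
  · rintro ⟨i, h1, h2⟩
    rw [mm_zero]
    apply Finset.sum_pos' (fun i _ => by split_ifs <;> positivity)
    refine ⟨i, Finset.mem_univ _, ?_⟩
    rw [if_pos h1]
    have := norm_pos_iff.2 h2
    positivity

lemma exists_i [NeZero p] (κ : I → ZMod p) (hκ : ∀ i, κ i ≠ 0) (θ : Par p I → ℝ)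
    (hθ : ∀ a, 0 < pe θ a) (w : Cx I) (hw : w ≠ 0) (a : Ty p) (h : Top κ θ w 0 a) :
    ∃ i, κ i = a.1 ∧ cx w i ≠ 0 := by
  rw [← mm_pos_iff]
  have h1 : ∃ i0, cx w i0 ≠ 0 := by
    by_contra hcon
    push Not at hcon
    apply hw
    ext ⟨i, s⟩
    have := hcon i
    have h2 : (cx w i).re = 0 := by rw [this]; rfl
    have h3 : (cx w i).im = 0 := by rw [this]; rfl
    fin_cases s
    · exact h2
    · exact h3
  obtain ⟨i0, hi0⟩ := h1
  have h2 : 0 < mm κ 0 ⟨κ i0, hκ i0⟩ w := (mm_pos_iff _ _ _).2 ⟨i0, rfl, hi0⟩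
  have h3 := h ⟨κ i0, hκ i0⟩
  have h4 : 0 < mm κ 0 a w * pe θ ⟨κ i0, hκ i0⟩ := lt_of_lt_of_le (mul_pos h2 (hθ a)) h3
  exact (mul_pos_iff_of_pos_right (hθ _)).1 h4

lemma sat_choice (hp : p ≠ 0) (κ : I → ZMod p) (hκ : ∀ i, κ i ≠ 0) (θ : Par p I → ℝ)
    (hθ : ∀ a, 0 < pe θ a) (w : Cx I) (hw : w ≠ 0) (o : Opt p) (h : Sat κ θ w 0 o) :
    ∃ c : I × Fin 2, cd κ w o c ∧ ∀ k, θ (tg o c k) = vl κ θ w o c k := by
  haveI : NeZero p := ⟨hp⟩
  rcases o with a | ⟨a, b, l⟩ | ⟨a, b, c'⟩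
  · obtain ⟨h1, h2⟩ := h
    obtain ⟨i, hi1, hi2⟩ := exists_i κ hκ θ hθ w hw a h1
    rw [xi_eq κ θ a w i hi1] at h2
    have h3 : pc θ i = -(oth κ θ i w) * (cx w i)⁻¹ := by
      rw [eq_mul_inv_iff_mul_eq₀ hi2]
      have : (((0 : ℝ) : ℂ)) * py θ a = 0 := by simp
      rw [this] at h2
      exact eq_neg_of_add_eq_zero_left h2
    refine ⟨(i, 0), ⟨hi1, hi2⟩, ?_⟩
    intro k
    fin_cases k
    · show θ (Sum.inr (Sum.inr (i, 0))) = (-(oth κ θ i w) * (cx w i)⁻¹).re
      rw [← h3]; rfl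
    · show θ (Sum.inr (Sum.inr (i, 1))) = (-(oth κ θ i w) * (cx w i)⁻¹).im
      rw [← h3]; rfl
  · obtain ⟨h0, h1, h2, h3⟩ := h
    obtain ⟨i, hi1, hi2⟩ := exists_i κ hκ θ hθ w hw a h1
    have hm : 0 < mm κ 0 a w := (mm_pos_iff _ _ _).2 ⟨i, hi1, hi2⟩
    have h4 : pe θ b = pe θ a * mm κ 0 b w * (mm κ 0 a w)⁻¹ := by
      rw [eq_mul_inv_iff_mul_eq₀ hm.ne']
      unfold Tie at h2
      linarith
    have h5 : (rot l (pc θ i * cx w i + oth κ θ i w)).im = 0 := by
      rw [← xi_eq κ θ a w i hi1]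
      unfold rot
      have : (((0 : ℝ) : ℂ)) * py θ a = 0 := by simp
      rw [this, sub_zero] at h3
      exact h3
    rw [rot_add, rot_mul, Complex.add_im, Complex.mul_im] at h5
    by_cases hq : (rot l (cx w i)).im = 0
    · have hq2 : (rot l (cx w i)).re ≠ 0 := by
        intro h6
        exact rot_ne_zero hp l _ hi2 (Complex.ext h6 hq)
      refine ⟨(i, 1), ⟨hi1, hi2, ?_⟩, ?_⟩
      · rw [if_neg (by simp)]; exact hq2
      · intro k
        fin_cases k
        · exact h4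
        · show θ (Sum.inr (Sum.inr (i, 1))) = if (1 : Fin 2) = 0 then
            -((rot l (cx w i)).re * (pc θ i).im + (rot l (oth κ θ i w)).im) *
            ((rot l (cx w i)).im)⁻¹
            else -((rot l (cx w i)).im * (pc θ i).re + (rot l (oth κ θ i w)).im) *
            ((rot l (cx w i)).re)⁻¹
          rw [if_neg (by decide), eq_mul_inv_iff_mul_eq₀ hq2]
          have : θ (Sum.inr (Sum.inr (i, 1))) = (pc θ i).im := rfl
          rw [this]
          linarith
    · refine ⟨(i, 0), ⟨hi1, hi2, ?_⟩, ?_⟩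
      · rw [if_pos rfl]; exact hq
      · intro k
        fin_cases k
        · exact h4
        · show θ (Sum.inr (Sum.inr (i, 0))) = if (0 : Fin 2) = 0 then
            -((rot l (cx w i)).re * (pc θ i).im + (rot l (oth κ θ i w)).im) *
            ((rot l (cx w i)).im)⁻¹
            else -((rot l (cx w i)).im * (pc θ i).re + (rot l (oth κ θ i w)).im) *
            ((rot l (cx w i)).re)⁻¹
          rw [if_pos rfl, eq_mul_inv_iff_mul_eq₀ hq]
          have : θ (Sum.inr (Sum.inr (i, 0))) = (pc θ i).re := rfl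
          rw [this]
          linarith
  · obtain ⟨g1, g2, g3, h1, h2, h3⟩ := h
    obtain ⟨i, hi1, hi2⟩ := exists_i κ hκ θ hθ w hw a h1
    have hm : 0 < mm κ 0 a w := (mm_pos_iff _ _ _).2 ⟨i, hi1, hi2⟩
    refine ⟨(i, 0), ⟨hi1, hi2⟩, ?_⟩
    intro k
    fin_cases k
    · show pe θ b = pe θ a * mm κ 0 b w * (mm κ 0 a w)⁻¹
      rw [eq_mul_inv_iff_mul_eq₀ hm.ne']
      unfold Tie at h2
      linarith
    · show pe θ c' = pe θ a * mm κ 0 c' w * (mm κ 0 a w)⁻¹
      rw [eq_mul_inv_iff_mul_eq₀ hm.ne']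
      unfold Tie at h3
      linarith

/-! independence -/

lemma oth_congr (κ : I → ZMod p) (θ θ' : Par p I → ℝ) (i : I) (w : Cx I)
    (h : ∀ i' k, i' ≠ i → θ (Sum.inr (Sum.inr (i', k))) = θ' (Sum.inr (Sum.inr (i', k)))) :
    oth κ θ i w = oth κ θ' i w := by
  unfold oth
  apply Finset.sum_congr rfl
  intro i' _
  by_cases h1 : κ i' = κ i ∧ i' ≠ i
  · rw [if_pos h1, if_pos h1]
    have : pc θ i' = pc θ' i' := by
      unfold pc
      rw [h i' 0 h1.2, h i' 1 h1.2]
    rw [this]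
  · rw [if_neg h1, if_neg h1]

lemma vl_congr (κ : I → ZMod p) (θ θ' : Par p I → ℝ) (w : Cx I) (o : Opt p) (ho : nd o)
    (c : I × Fin 2) (h : ∀ k, k ∉ Set.range (tg o c) → θ k = θ' k) :
    vl κ θ w o c = vl κ θ' w o c := by
  obtain ⟨i, s⟩ := c
  rcases o with a | ⟨a, b, l⟩ | ⟨a, b, c'⟩
  · have h1 : oth κ θ i w = oth κ θ' i w := by
      apply oth_congr
      intro i' k hi'
      apply h
      rintro ⟨x, hx⟩
      fin_cases x
      · simp [tg] at hx; exact hi' hx.1.symm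
      · simp [tg] at hx; exact hi' hx.1.symm
    simp only [vl, h1]
  · have h1 : oth κ θ i w = oth κ θ' i w := by
      apply oth_congr
      intro i' k hi'
      apply h
      rintro ⟨x, hx⟩
      fin_cases x
      · simp [tg] at hx
      · simp [tg] at hx; exact hi' hx.1.symm
    have h2 : pe θ a = pe θ' a := by
      apply h
      rintro ⟨x, hx⟩
      fin_cases x
      · simp [tg] at hx; exact ho hx.symm
      · simp [tg] at hx
    simp only [vl, h1, h2]
    by_cases hs : s = 0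
    · subst hs
      have h3 : (pc θ i).im = (pc θ' i).im := by
        apply h
        rintro ⟨x, hx⟩
        fin_cases x
        · simp [tg] at hx
        · simp [tg] at hx
      simp only [h3, if_true]
    · have hs1 : s = 1 := by omega
      subst hs1
      have h3 : (pc θ i).re = (pc θ' i).re := by
        apply h
        rintro ⟨x, hx⟩
        fin_cases x
        · simp [tg] at hx
        · simp [tg] at hx
      simp only [h3]
      simp
  · obtain ⟨g1, g2, g3⟩ := ho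
    have h2 : pe θ a = pe θ' a := by
      apply h
      rintro ⟨x, hx⟩
      fin_cases x
      · simp [tg] at hx; exact g1 hx.symm
      · simp [tg] at hx; exact g2 hx.symm
    simp only [vl, h2]

/-! homogeneity -/

lemma cx_smul (t : ℝ) (w : Cx I) (i : I) : cx (t • w) i = (t : ℂ) * cx w i := by
  unfold cx
  apply Complex.ext <;> simp

lemma oth_smul (κ : I → ZMod p) (θ : Par p I → ℝ) (i : I) (t : ℝ) (w : Cx I) :
    oth κ θ i (t • w) = (t : ℂ) * oth κ θ i w := by
  unfold oth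
  rw [Finset.mul_sum]
  apply Finset.sum_congr rfl
  intro i' _
  split_ifs
  · rw [cx_smul]; ring
  · simp

lemma mm_smul (κ : I → ZMod p) (a : Ty p) (t : ℝ) (w : Cx I) :
    mm κ 0 a (t • w) = t ^ 2 * mm κ 0 a w := by
  rw [mm_zero, mm_zero, Finset.mul_sum]
  apply Finset.sum_congr rfl
  intro i' _
  split_ifs
  · rw [cx_smul, norm_mul, mul_pow, Complex.norm_real, Real.norm_eq_abs, sq_abs]
  · simp

lemma rot_smul (l : ZMod p) (t : ℝ) (u : ℂ) : rot l ((t : ℂ) * u) = (t : ℂ) * rot l u := by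
  unfold rot; ring

lemma vl_smul (κ : I → ZMod p) (θ : Par p I → ℝ) (w : Cx I) (o : Opt p) (c : I × Fin 2)
    (t : ℝ) (ht : 0 < t) : vl κ θ (t • w) o c = vl κ θ w o c := by
  have htc : (t : ℂ) ≠ 0 := by exact_mod_cast ht.ne'
  have htr : t ≠ 0 := ht.ne'
  obtain ⟨i, s⟩ := c
  have hm : ∀ a b : Ty p, pe θ a * mm κ 0 b (t • w) * (mm κ 0 a (t • w))⁻¹ =
      pe θ a * mm κ 0 b w * (mm κ 0 a w)⁻¹ := by
    intro a b
    rw [mm_smul, mm_smul, mul_inv]
    field_simp
  rcases o with a | ⟨a, b, l⟩ | ⟨a, b, c'⟩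
  · have h1 : -(oth κ θ i (t • w)) * (cx (t • w) i)⁻¹ = -(oth κ θ i w) * (cx w i)⁻¹ := by
      rw [oth_smul, cx_smul, mul_inv]
      field_simp
    simp only [vl, h1]
  · simp only [vl, hm]
    have h1 : -((rot l (cx (t • w) i)).re * (pc θ i).im + (rot l (oth κ θ i (t • w))).im) *
        ((rot l (cx (t • w) i)).im)⁻¹ = -((rot l (cx w i)).re * (pc θ i).im +
        (rot l (oth κ θ i w)).im) * ((rot l (cx w i)).im)⁻¹ := by
      rw [cx_smul, oth_smul, rot_smul, rot_smul, Complex.re_ofReal_mul, Complex.im_ofReal_mul,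
        Complex.im_ofReal_mul, mul_inv]
      field_simp
    have h2 : -((rot l (cx (t • w) i)).im * (pc θ i).re + (rot l (oth κ θ i (t • w))).im) *
        ((rot l (cx (t • w) i)).re)⁻¹ = -((rot l (cx w i)).im * (pc θ i).re +
        (rot l (oth κ θ i w)).im) * ((rot l (cx w i)).re)⁻¹ := by
      rw [cx_smul, oth_smul, rot_smul, rot_smul, Complex.re_ofReal_mul, Complex.im_ofReal_mul,
        Complex.im_ofReal_mul, mul_inv]
      field_simp
    rw [h1, h2]
  · simp only [vl, hm]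

end alg



open MeasureTheory Set
open scoped BigOperators ENNReal

section diff
variable {p : ℕ} [NeZero p] {I : Type} [Fintype I] [DecidableEq I]

lemma d_re {E : Type*} [NormedAddCommGroup E] [NormedSpace ℝ E] {f : E → ℂ} {x : E}
    (hf : DifferentiableAt ℝ f x) : DifferentiableAt ℝ (fun q => (f q).re) x :=
  Complex.reCLM.differentiableAt.comp x hf

lemma d_im {E : Type*} [NormedAddCommGroup E] [NormedSpace ℝ E] {f : E → ℂ} {x : E}
    (hf : DifferentiableAt ℝ f x) : DifferentiableAt ℝ (fun q => (f q).im) x :=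
  Complex.imCLM.differentiableAt.comp x hf

lemma d_mk {E : Type*} [NormedAddCommGroup E] [NormedSpace ℝ E] {f g : E → ℝ} {x : E}
    (hf : DifferentiableAt ℝ f x) (hg : DifferentiableAt ℝ g x) :
    DifferentiableAt ℝ (fun q => (⟨f q, g q⟩ : ℂ)) x := by
  have : (fun q => (⟨f q, g q⟩ : ℂ)) = fun q => ((f q : ℝ) : ℂ) + ((g q : ℝ) : ℂ) * Complex.I := by
    funext q
    apply Complex.ext <;> simp
  rw [this]
  have h1 : DifferentiableAt ℝ (fun q => ((f q : ℝ) : ℂ)) x :=
    Complex.ofRealCLM.differentiableAt.comp x hf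
  have h2 : DifferentiableAt ℝ (fun q => ((g q : ℝ) : ℂ)) x :=
    Complex.ofRealCLM.differentiableAt.comp x hg
  exact h1.add (h2.mul (differentiableAt_const _))

lemma d_ev (s : I × Fin 2) (x : (Par p I → ℝ) × Cx I) :
    DifferentiableAt ℝ (fun q : (Par p I → ℝ) × Cx I => q.2 s) x :=
  ((EuclideanSpace.proj s : Cx I →L[ℝ] ℝ).comp
    (ContinuousLinearMap.snd ℝ (Par p I → ℝ) (Cx I))).differentiableAt

lemma d_par (k : Par p I) (x : (Par p I → ℝ) × Cx I) :
    DifferentiableAt ℝ (fun q : (Par p I → ℝ) × Cx I => q.1 k) x :=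
  ((ContinuousLinearMap.proj (R := ℝ) (φ := fun _ : Par p I => ℝ) k).comp
    (ContinuousLinearMap.fst ℝ (Par p I → ℝ) (Cx I))).differentiableAt

lemma d_pc (i : I) (x : (Par p I → ℝ) × Cx I) :
    DifferentiableAt ℝ (fun q : (Par p I → ℝ) × Cx I => pc q.1 i) x := by
  unfold pc
  exact d_mk (d_par _ x) (d_par _ x)

lemma d_cx (i : I) (x : (Par p I → ℝ) × Cx I) :
    DifferentiableAt ℝ (fun q : (Par p I → ℝ) × Cx I => cx q.2 i) x := by
  unfold cx
  exact d_mk (d_ev _ x) (d_ev _ x)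

lemma d_oth (κ : I → ZMod p) (i : I) (x : (Par p I → ℝ) × Cx I) :
    DifferentiableAt ℝ (fun q : (Par p I → ℝ) × Cx I => oth κ q.1 i q.2) x := by
  unfold oth
  apply DifferentiableAt.fun_sum
  intro i' _
  by_cases h : κ i' = κ i ∧ i' ≠ i
  · simp only [if_pos h]
    exact (d_pc i' x).mul (d_cx i' x)
  · simp only [if_neg h]
    exact differentiableAt_const _

lemma d_mm (κ : I → ZMod p) (a : Ty p) (x : (Par p I → ℝ) × Cx I) :
    DifferentiableAt ℝ (fun q : (Par p I → ℝ) × Cx I => mm κ 0 a q.2) x := by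
  have : (fun q : (Par p I → ℝ) × Cx I => mm κ 0 a q.2) =
      fun q => ∑ i, if κ i = a.1 then q.2 (i, 0) ^ 2 + q.2 (i, 1) ^ 2 else 0 := by
    funext q
    rw [mm_zero]
    apply Finset.sum_congr rfl
    intro i _
    split_ifs
    · rw [← Complex.normSq_eq_norm_sq, Complex.normSq_apply]
      unfold cx
      simp only
      ring
    · rfl
  rw [this]
  apply DifferentiableAt.fun_sum
  intro i _
  by_cases h : κ i = a.1
  · simp only [if_pos h]
    exact ((d_ev _ x).pow 2).add ((d_ev _ x).pow 2)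
  · simp only [if_neg h]
    exact differentiableAt_const _

lemma d_rot {E : Type*} [NormedAddCommGroup E] [NormedSpace ℝ E] (l : ZMod p) {f : E → ℂ} {x : E}
    (hf : DifferentiableAt ℝ f x) : DifferentiableAt ℝ (fun q => rot l (f q)) x := by
  unfold rot
  exact (differentiableAt_const _).mul hf

lemma d_vl (κ : I → ZMod p) (o : Opt p) (c : I × Fin 2) (k : Fin 2)
    (x : (Par p I → ℝ) × Cx I) (hx : cd κ x.2 o c) :
    DifferentiableAt ℝ (fun q : (Par p I → ℝ) × Cx I => vl κ q.1 q.2 o c k) x := by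
  obtain ⟨i, s⟩ := c
  have hE : ∀ a b : Ty p, κ i = a.1 → cx x.2 i ≠ 0 →
      DifferentiableAt ℝ (fun q : (Par p I → ℝ) × Cx I =>
        pe q.1 a * mm κ 0 b q.2 * (mm κ 0 a q.2)⁻¹) x := by
    intro a b h1 h2
    have hm : mm κ 0 a x.2 ≠ 0 := ((mm_pos_iff κ a x.2).2 ⟨i, h1, h2⟩).ne'
    exact ((d_par _ x).mul (d_mm κ b x)).mul ((d_mm κ a x).fun_inv hm)
  rcases o with a | ⟨a, b, l⟩ | ⟨a, b, c'⟩
  · obtain ⟨h1, h2⟩ := hx
    have h3 : DifferentiableAt ℝ (fun q : (Par p I → ℝ) × Cx I =>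
        -(oth κ q.1 i q.2) * (cx q.2 i)⁻¹) x :=
      ((d_oth κ i x).fun_neg).mul ((d_cx i x).fun_inv h2)
    fin_cases k
    · exact d_re h3
    · exact d_im h3
  · obtain ⟨h1, h2, h3⟩ := hx
    fin_cases k
    · exact hE a b h1 h2
    · show DifferentiableAt ℝ (fun q : (Par p I → ℝ) × Cx I => if s = 0 then
          -((rot l (cx q.2 i)).re * (pc q.1 i).im + (rot l (oth κ q.1 i q.2)).im) *
            ((rot l (cx q.2 i)).im)⁻¹
        else -((rot l (cx q.2 i)).im * (pc q.1 i).re + (rot l (oth κ q.1 i q.2)).im) *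
            ((rot l (cx q.2 i)).re)⁻¹) x
      have g1 := d_re (d_rot l (d_cx i x))
      have g2 := d_im (d_rot l (d_cx i x))
      have g3 := d_im (d_rot l (d_oth κ i x))
      have g4 := d_re (d_pc i x)
      have g5 := d_im (d_pc i x)
      by_cases hs : s = 0
      · simp only [if_pos hs]
        rw [if_pos hs] at h3
        exact ((g1.mul g5).add g3).fun_neg.mul (g2.fun_inv h3)
      · simp only [if_neg hs]
        rw [if_neg hs] at h3
        exact ((g2.mul g4).add g3).fun_neg.mul (g1.fun_inv h3)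
  · obtain ⟨h1, h2⟩ := hx
    fin_cases k
    · exact hE a b h1 h2
    · exact hE a c' h1 h2

lemma cx_cont (i : I) : Continuous (fun w : Cx I => cx w i) := by
  have : (fun w : Cx I => cx w i) =
      fun w => ((w (i, 0) : ℝ) : ℂ) + ((w (i, 1) : ℝ) : ℂ) * Complex.I := by
    funext q
    unfold cx
    apply Complex.ext <;> simp
  rw [this]
  have h1 : ∀ s : I × Fin 2, Continuous (fun w : Cx I => ((w s : ℝ) : ℂ)) := fun s =>
    Complex.continuous_ofReal.comp (EuclideanSpace.proj s : Cx I →L[ℝ] ℝ).continuous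
  exact (h1 _).add ((h1 _).mul continuous_const)

lemma cd_open (κ : I → ZMod p) (o : Opt p) (c : I × Fin 2) : IsOpen {w : Cx I | cd κ w o c} := by
  obtain ⟨i, s⟩ := c
  have h0 := cx_cont i
  have h1 : IsOpen {w : Cx I | cx w i ≠ 0} := isOpen_ne_fun h0 continuous_const
  have hr : ∀ l : ZMod p, Continuous (fun w : Cx I => rot l (cx w i)) := by
    intro l; unfold rot; exact continuous_const.mul h0
  rcases o with a | ⟨a, b, l⟩ | ⟨a, b, c'⟩
  · exact isOpen_const.and h1
  · refine isOpen_const.and (h1.and ?_)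
    by_cases hs : s = 0
    · simp only [if_pos hs]
      exact isOpen_ne_fun (Complex.continuous_im.comp (hr l)) continuous_const
    · simp only [if_neg hs]
      exact isOpen_ne_fun (Complex.continuous_re.comp (hr l)) continuous_const
  · exact isOpen_const.and h1

end diff



open MeasureTheory Set
open scoped BigOperators ENNReal

section main
variable {p : ℕ} [NeZero p] {J I : Type} [Fintype J] [DecidableEq J] [Fintype I] [DecidableEq I]

/-- the vector of values -/
noncomputable def VV (κ : I → ZMod p) (θ : J → Par p I → ℝ) (o : J → Opt p)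
    (c : J → I × Fin 2) (w : Cx I) : Cx J :=
  WithLp.toLp 2 (fun s : J × Fin 2 => vl κ (θ s.1) w (o s.1) (c s.1) s.2)

lemma VV_apply (κ : I → ZMod p) (θ : J → Par p I → ℝ) (o : J → Opt p)
    (c : J → I × Fin 2) (w : Cx I) (s : J × Fin 2) :
    VV κ θ o c w s = vl κ (θ s.1) w (o s.1) (c s.1) s.2 := rfl

lemma VV_diff (κ : I → ZMod p) (θ : J → Par p I → ℝ) (o : J → Opt p)
    (c : J → I × Fin 2) (w : Cx I) (hw : ∀ j, cd κ w (o j) (c j)) :
    DifferentiableAt ℝ (VV κ θ o c) w := by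
  rw [differentiableAt_euclidean]
  intro s
  have h1 := d_vl κ (o s.1) (c s.1) s.2 (θ s.1, w) (hw s.1)
  have h2 : DifferentiableAt ℝ (fun w : Cx I => (θ s.1, w)) w :=
    (differentiableAt_const _).prodMk differentiableAt_id
  exact h1.comp w h2

lemma VV_smul (κ : I → ZMod p) (θ : J → Par p I → ℝ) (o : J → Opt p)
    (c : J → I × Fin 2) (w : Cx I) (t : ℝ) (ht : 0 < t) :
    VV κ θ o c (t • w) = VV κ θ o c w := by
  ext s
  rw [VV_apply, VV_apply, vl_smul κ _ w _ _ t ht]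

lemma VV_fderiv_self (κ : I → ZMod p) (θ : J → Par p I → ℝ) (o : J → Opt p)
    (c : J → I × Fin 2) (w : Cx I) (hw : ∀ j, cd κ w (o j) (c j)) :
    fderiv ℝ (VV κ θ o c) w w = 0 := by
  have h1 : HasDerivAt (fun t : ℝ => t • w) w 1 := by
    have := (hasDerivAt_id (1 : ℝ)).smul_const w
    simpa using this
  have h2 : HasFDerivAt (VV κ θ o c) (fderiv ℝ (VV κ θ o c) w) ((1 : ℝ) • w) := by
    rw [one_smul]
    exact (VV_diff κ θ o c w hw).hasFDerivAt
  have h3 := h2.comp_hasDerivAt (1 : ℝ) h1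
  have h4 : HasDerivAt ((VV κ θ o c) ∘ fun t : ℝ => t • w) 0 1 := by
    apply (hasDerivAt_const (1 : ℝ) (VV κ θ o c w)).congr_of_eventuallyEq
    filter_upwards [Ioi_mem_nhds (zero_lt_one : (0 : ℝ) < 1)] with t ht
    exact VV_smul κ θ o c w t ht
  exact h3.unique h4

lemma det_zero_of_ker {E : Type*} [NormedAddCommGroup E] [NormedSpace ℝ E] [FiniteDimensional ℝ E]
    (f : E →L[ℝ] E) (v : E) (hv : v ≠ 0) (hf : f v = 0) : f.det = 0 := by
  by_contra h
  have h1 : IsUnit (LinearMap.det (f : E →ₗ[ℝ] E)) := isUnit_iff_ne_zero.2 h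
  have h2 := (LinearEquiv.ofIsUnitDet (f := (f : E →ₗ[ℝ] E)) (v := Module.finBasis ℝ E)
    (v' := Module.finBasis ℝ E) (by rw [LinearMap.det_toMatrix]; exact h1)).injective
  apply hv
  apply h2
  rw [map_zero]
  exact hf

end main



open MeasureTheory Set
open scoped BigOperators ENNReal

/-- the hit set for fixed choices is null -/
theorem zero_null_aux {p : ℕ} [NeZero p] {J I : Type} [Fintype J] [DecidableEq J]
    [Fintype I] [DecidableEq I] (κ : I → ZMod p) (Y : Cx J → Cx I)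
    (G : Set (Cx J)) (hG : IsOpen G) (hY : ContDiffOn ℝ 1 Y G)
    (hker : ∀ x ∈ G, ∃ v : Cx J, v ≠ 0 ∧ ∃ c : ℝ, fderiv ℝ Y x v = c • Y x) (o : J → Opt p)
    (ho : ∀ j, nd (o j)) (c : J → I × Fin 2) :
    Measure.pi (fun _ : J => muF p I)
        {θ | ∃ x ∈ {x | x ∈ G ∧ ∀ j, cd κ (Y x) (o j) (c j)},
          ∀ j i, θ j (tg (o j) (c j) i) = VV κ θ o c (Y x) (j, i)} = 0 := by
  classical
  set A : Set (Cx J) := {x | x ∈ G ∧ ∀ j, cd κ (Y x) (o j) (c j)} with hA
  have hAo : IsOpen A := by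
    have h1 : IsOpen {w : Cx I | ∀ j, cd κ w (o j) (c j)} := by
      have : {w : Cx I | ∀ j, cd κ w (o j) (c j)} = ⋂ j, {w | cd κ w (o j) (c j)} := by
        ext w; simp
      rw [this]
      exact isOpen_iInter_of_finite fun j => cd_open κ (o j) (c j)
    exact hY.continuousOn.isOpen_inter_preimage hG h1
  have hYd : ∀ x ∈ A, DifferentiableAt ℝ Y x := fun x hx =>
    (hY.differentiableOn (by norm_num)).differentiableAt (hG.mem_nhds hx.1)
  have hFd : ∀ θ : J → Par p I → ℝ, ∀ x ∈ A,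
      DifferentiableAt ℝ (fun x => VV κ θ o c (Y x)) x := fun θ x hx =>
    (VV_diff κ θ o c (Y x) hx.2).comp x (hYd x hx)
  have key := area_fubini (J := J) (K := Par p I) hd z_meas_hd z_prob_hd
    (fun j => tg (o j) (c j)) (fun j => tg_inj (o j) (ho j) (c j)) (fun _ => A)
    (fun θ x => VV κ θ o c (Y x)) (fun θ x => fderiv ℝ (fun x => VV κ θ o c (Y x)) x)
    (by
      intro θ θ' h
      refine ⟨rfl, fun x _ => ?_⟩
      ext s
      rw [VV_apply, VV_apply, vl_congr κ (θ s.1) (θ' s.1) (Y x) (o s.1) (ho s.1) (c s.1) (h s.1)])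
    (fun _ => hAo.measurableSet)
    (fun θ x hx => (hFd θ x hx).hasFDerivAt.hasFDerivWithinAt)
    (by
      have h1 := z_proj (X := J → Par p I → ℝ) (E := Cx J) (ι := J × Fin 2) A hAo
        (fun s q => q.1 s.1 (tg (o s.1) (c s.1) s.2)) (fun s q => VV κ q.1 o c (Y q.2) s)
        (by
          intro s
          apply Continuous.continuousOn
          exact (continuous_apply _).comp ((continuous_apply _).comp continuous_fst))
        (by
          intro s q hq
          have hq2 : q.2 ∈ A := hq.2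
          have h2 := (d_vl κ (o s.1) (c s.1) s.2 (q.1 s.1, Y q.2) (hq2.2 s.1)).continuousAt
          have h3 : ContinuousWithinAt (fun q : (J → Par p I → ℝ) × Cx J => (q.1 s.1, Y q.2))
              (univ ×ˢ A) q := by
            apply ContinuousWithinAt.prodMk
            · exact ((continuous_apply s.1).comp continuous_fst).continuousWithinAt
            · exact ((hYd q.2 hq2).continuousAt.comp continuousAt_snd).continuousWithinAt
          exact ContinuousAt.comp_continuousWithinAt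
            (f := fun q : (J → Par p I → ℝ) × Cx J => (q.1 s.1, Y q.2))
            (g := fun q : (Par p I → ℝ) × Cx I => vl κ q.1 q.2 (o s.1) (c s.1) s.2) h2 h3)
      have h4 : {x : J → Par p I → ℝ | ∃ y ∈ A, ∀ s : J × Fin 2,
          x s.1 (tg (o s.1) (c s.1) s.2) = VV κ x o c (Y y) s} =
          {θ : J → Par p I → ℝ | ∃ x ∈ A, ∀ j i, θ j (tg (o j) (c j) i) =
            VV κ θ o c (Y x) (j, i)} := by
        ext θ
        constructor
        · rintro ⟨y, hy, h⟩
          exact ⟨y, hy, fun j i => h (j, i)⟩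
        · rintro ⟨y, hy, h⟩
          exact ⟨y, hy, fun s => h s.1 s.2⟩
      rw [← h4]
      exact h1)
  have hdet : ∀ θ : J → Par p I → ℝ, ∀ x ∈ A,
      (fderiv ℝ (fun x => VV κ θ o c (Y x)) x).det = 0 := by
    intro θ x hx
    obtain ⟨v, hv, r, hr⟩ := hker x hx.1
    apply det_zero_of_ker _ v hv
    have h1 : fderiv ℝ (fun x => VV κ θ o c (Y x)) x =
        (fderiv ℝ (VV κ θ o c) (Y x)).comp (fderiv ℝ Y x) :=
      fderiv_comp x (VV_diff κ θ o c (Y x) hx.2) (hYd x hx)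
    rw [h1, ContinuousLinearMap.comp_apply, hr, map_smul, VV_fderiv_self κ θ o c (Y x) hx.2,
      smul_zero]
  have hzero : ∀ θ : J → Par p I → ℝ,
      (∫⁻ x in A, (∏ j, ∏ i, hd (tg (o j) (c j) i) (VV κ θ o c (Y x) (j, i))) *
          ENNReal.ofReal |(fderiv ℝ (fun x => VV κ θ o c (Y x)) x).det|) = 0 := by
    intro θ
    rw [setLIntegral_congr_fun hAo.measurableSet (g := fun _ => 0)]
    · simp
    · intro x hx
      simp only
      rw [hdet θ x hx]; simp
  refine le_antisymm (le_trans key ?_) bot_le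
  rw [lintegral_congr hzero]
  simp

/-- JOB: almost surely there is no solution with `z = 0` -/
theorem zero_null {p : ℕ} [Fact p.Prime] (hp : p ≠ 2) {J I : Type} [Fintype J] [DecidableEq J]
    [Fintype I] [DecidableEq I] (κ : I → ZMod p) (hκ : ∀ i, κ i ≠ 0) (Y : Cx J → Cx I)
    (G : Set (Cx J)) (hG : IsOpen G) (hY : ContDiffOn ℝ 1 Y G) (hne : ∀ x ∈ G, Y x ≠ 0)
    (hker : ∀ x ∈ G, ∃ v : Cx J, v ≠ 0 ∧ ∃ c : ℝ, fderiv ℝ Y x v = c • Y x) (o : J → Opt p) :
    Measure.pi (fun _ : J => muF p I)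
        {θ | (∀ j a, 0 < pe (θ j) a) ∧ ∃ x ∈ G, ∀ j, Sat κ (θ j) (Y x) 0 (o j)} = 0 := by
  by_cases ho : ∀ j, nd (o j)
  · have hp0 : p ≠ 0 := (Fact.out : p.Prime).ne_zero
    refine measure_mono_null (t := ⋃ c : J → I × Fin 2,
      {θ | ∃ x ∈ {x | x ∈ G ∧ ∀ j, cd κ (Y x) (o j) (c j)},
          ∀ j i, θ j (tg (o j) (c j) i) = VV κ θ o c (Y x) (j, i)}) ?_ ?_
    · rintro θ ⟨h1, x, hx, h2⟩
      have h3 : ∀ j, ∃ c : I × Fin 2, cd κ (Y x) (o j) c ∧
          ∀ k, θ j (tg (o j) c k) = vl κ (θ j) (Y x) (o j) c k := fun j =>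
        sat_choice hp0 κ hκ (θ j) (h1 j) (Y x) (hne x hx) (o j) (h2 j)
      choose c hc1 hc2 using h3
      exact mem_iUnion.2 ⟨c, x, ⟨hx, hc1⟩, fun j i => hc2 j i⟩
    · exact measure_iUnion_null fun c => zero_null_aux κ Y G hG hY hker o ho c
  · have : {θ : J → Par p I → ℝ | (∀ j a, 0 < pe (θ j) a) ∧
        ∃ x ∈ G, ∀ j, Sat κ (θ j) (Y x) 0 (o j)} = ∅ := by
      apply eq_empty_of_forall_notMem
      rintro θ ⟨_, x, _, h2⟩
      exact ho fun j => sat_nd κ (θ j) (Y x) 0 (o j) (h2 j)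
    rw [this]
    exact measure_empty

end Z0

end Pool.Agent.Helper954.Hopf
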