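import Pool.Agent.Helper954.Hopf.T2
import Pool.Agent.Helper954.Hopf.H1
import Pool.Agent.Helper954.Hopf.Z0
import Pool.Agent.Helper954.Hopf.PX

set_option autoImplicit false

namespace Pool.Agent.Helper954.Hopf

open MeasureTheory Set
open scoped BigOperators
open scoped ENNReal
open T2 (hit)
open H1 (hit_measure)
open Z0 (zero_null)
open PX (point_bound)

namespace KR


theorem kr_lint_hE : ∫⁻ t, hE t = 1 := by
  rw [← ProbabilityTheory.lintegral_exponentialPDF_eq_one (r := 1) one_pos]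
  refine lintegral_congr_ae ?_
  have h0 : ∀ᵐ t : ℝ ∂volume, t ≠ 0 := by
    have : (volume : Measure ℝ) {0} = 0 := by simp
    exact measure_eq_zero_iff_ae_notMem.1 this
  filter_upwards [h0] with t ht
  rw [ProbabilityTheory.exponentialPDF_eq, hE]
  congr 1
  by_cases h : 0 < t
  · rw [if_pos h, if_pos h.le]; simp
  · rw [if_neg h, if_neg]
    intro h'
    exact h (lt_of_le_of_ne h' (Ne.symm ht))

theorem kr_lint_hG : ∫⁻ t, hG t = 1 := by
  rw [← ProbabilityTheory.lintegral_gaussianPDF_eq_one 0 (v := 1) one_ne_zero]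
  refine lintegral_congr fun t => ?_
  rw [ProbabilityTheory.gaussianPDF_def, hG]
  congr 1
  simp [ProbabilityTheory.gaussianPDFReal, div_eq_mul_inv, mul_comm]

instance kr_probHd {p : ℕ} {I : Type} (k : Par p I) :
    IsProbabilityMeasure ((volume : Measure ℝ).withDensity (hd k)) := by
  refine ⟨?_⟩
  rw [withDensity_apply _ MeasurableSet.univ, Measure.restrict_univ]
  rcases k with k | k
  · exact kr_lint_hE
  · exact kr_lint_hG

instance kr_probMuF {p : ℕ} [NeZero p] {I : Type} [Fintype I] : IsProbabilityMeasure (muF p I) := by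
  unfold muF
  infer_instance

theorem kr_pos_null {p : ℕ} [NeZero p] {J I : Type} [Fintype J] [Fintype I] :
    Measure.pi (fun _ : J => muF p I) {θ | ¬ ∀ j a, 0 < pe (θ j) a} = 0 := by
  have hsub : {θ : J → Par p I → ℝ | ¬ ∀ j a, 0 < pe (θ j) a} ⊆
      ⋃ j : J, ⋃ a : Ty p, {θ | pe (θ j) a ≤ 0} := by
    intro θ hθ
    simp only [mem_ofPred_eq, not_forall, not_lt] at hθ
    obtain ⟨j, a, h⟩ := hθ
    exact mem_iUnion.2 ⟨j, mem_iUnion.2 ⟨a, h⟩⟩
  refine measure_mono_null hsub (measure_iUnion_null fun j => measure_iUnion_null fun a => ?_)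
  have h1 : MeasurePreserving (Function.eval j) (Measure.pi (fun _ : J => muF p I)) (muF p I) :=
    measurePreserving_eval (fun _ : J => muF p I) j
  have h2 : MeasurePreserving (Function.eval (Sum.inl a : Par p I)) (muF p I)
      ((volume : Measure ℝ).withDensity (hd (Sum.inl a : Par p I))) :=
    measurePreserving_eval (fun k : Par p I => (volume : Measure ℝ).withDensity (hd k)) (Sum.inl a)
  have h3 := (h2.comp h1).measure_preimage (s := Set.Iic 0) measurableSet_Iic.nullMeasurableSet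
  have h4 : {θ : J → Par p I → ℝ | pe (θ j) a ≤ 0} =
      (Function.eval (Sum.inl a : Par p I) ∘ Function.eval j) ⁻¹' Set.Iic 0 := by
    ext θ
    simp [pe]
  rw [h4, h3, withDensity_apply _ measurableSet_Iic]
  refine (setLIntegral_congr_fun measurableSet_Iic (fun t ht => ?_)).trans (lintegral_zero)
  show hE t = 0
  simp only [mem_Iic] at ht
  simp [hE, not_lt.2 ht]

/-- Euler's identity -/
theorem kr_euler {V W : Type} [NormedAddCommGroup V] [NormedSpace ℝ V] [NormedAddCommGroup W]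
    [NormedSpace ℝ W] (Y : V → W) (hhom : ∀ t : ℝ, 0 < t → ∀ x, Y (t • x) = t • Y x)
    (x : V) (hd : DifferentiableAt ℝ Y x) : fderiv ℝ Y x x = Y x := by
  have h1 : HasDerivAt (fun t : ℝ => t • x) x 1 := by
    simpa using (hasDerivAt_id (1 : ℝ)).smul_const x
  have hd' : HasFDerivAt Y (fderiv ℝ Y x) ((fun t : ℝ => t • x) 1) := by
    simpa using hd.hasFDerivAt
  have h2 : HasDerivAt (Y ∘ fun t : ℝ => t • x) (fderiv ℝ Y x x) 1 :=
    hd'.comp_hasDerivAt (1 : ℝ) h1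
  have h3 : HasDerivAt (fun t : ℝ => t • Y x) (Y x) 1 := by
    simpa using (hasDerivAt_id (1 : ℝ)).smul_const (Y x)
  have h4 : (Y ∘ fun t : ℝ => t • x) =ᶠ[nhds 1] (fun t : ℝ => t • Y x) := by
    filter_upwards [lt_mem_nhds (zero_lt_one : (0 : ℝ) < 1)] with t ht
    exact hhom t ht x
  exact (h2.unique (h3.congr_of_eventuallyEq h4))

theorem kr_sum_lintegral_le {α ι : Type} [MeasurableSpace α] (μ : Measure α) (s : Finset ι)
    (f : ι → α → ℝ≥0∞) : ∑ i ∈ s, ∫⁻ x, f i x ∂μ ≤ ∫⁻ x, ∑ i ∈ s, f i x ∂μ := by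
  classical
  induction s using Finset.induction_on with
  | empty => simp
  | insert a s ha ih =>
    rw [Finset.sum_insert ha]
    simp_rw [Finset.sum_insert ha]
    exact (add_le_add le_rfl ih).trans (le_lintegral_add _ _)

theorem kr_det_comp_zero {U V : Type} [NormedAddCommGroup U] [NormedSpace ℝ U] [NormedAddCommGroup V]
    [NormedSpace ℝ V] [FiniteDimensional ℝ U] (A : V →L[ℝ] U) (D : U →L[ℝ] V) (v : U) (hv : v ≠ 0)
    (h : D v = 0) : (A.comp D).det = 0 := by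
  have : (((A.comp D : U →L[ℝ] U)) : U →ₗ[ℝ] U).det = 0 := by
    rw [LinearMap.det_eq_zero_iff_ker_ne_bot]
    intro hb
    apply hv
    have : v ∈ LinearMap.ker ((A.comp D : U →L[ℝ] U) : U →ₗ[ℝ] U) := by
      rw [LinearMap.mem_ker]
      simp [h]
    rw [hb] at this
    simpa using this
  exact this

/-- the event at `z = 1` has measure zero when the derivative is singular -/
theorem kr_hit_null {p : ℕ} [Fact p.Prime] (hp : p ≠ 2) {J I : Type} [Fintype J] [DecidableEq J]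
    [Fintype I] [DecidableEq I] (κ : I → ZMod p) (Y : Cx J → Cx I) (G : Set (Cx J))
    (hG : IsOpen G) (hY : ContDiffOn ℝ 1 Y G)
    (hker : ∀ x ∈ G, ∃ v : Cx J, v ≠ 0 ∧ fderiv ℝ Y x v = 0) (o : J → Opt p) :
    Measure.pi (fun _ : J => muF p I)
        {θ | (∀ j a, 0 < pe (θ j) a) ∧ ∃ x ∈ G, ∀ j, Sat κ (θ j) (Y x) 1 (o j)} = 0 := by
  refine le_antisymm ((hit_measure hp κ Y G hG hY o).trans ?_) zero_le
  refine ((setLIntegral_congr_fun (g := fun _ => (0 : ℝ≥0∞)) hG.measurableSet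
    (fun x hx => ?_)).trans lintegral_zero).le
  obtain ⟨v, hv, h⟩ := hker x hx
  refine (lintegral_congr fun θ => ?_).trans lintegral_zero
  rw [kr_det_comp_zero _ _ v hv h]
  simp

theorem kr_alg_bound {p : ℕ} (hp : 3 ≤ p) {J I : Type} [Fintype J] [Fintype I] (w : Cx I)
    (D : Cx J →L[ℝ] Cx I) :
    ENNReal.ofReal ((2 * Real.pi) ^ Fintype.card J) *
      ENNReal.ofReal ((D : Cx J →ₗ[ℝ] Cx I).normDet / max 1 ‖w‖ *
        ∏ d ∈ Finset.range (Fintype.card J), (2 * (d + 1) + 1000 * (p : ℝ) ^ 3 *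
          Real.sqrt (2 * (d + 1)) + 1000 * (p : ℝ) ^ 3) / (2 * Real.pi * SS p w)) ≤
      ENNReal.ofReal (∏ d ∈ Finset.range (Fintype.card J), (2 * (d + 1) + 1000 * (p : ℝ) ^ 3 *
          Real.sqrt (2 * (d + 1)) + 1000 * (p : ℝ) ^ 3)) *
      ENNReal.ofReal ((D : Cx J →ₗ[ℝ] Cx I).normDet * (2 /
        ((1 + ‖w‖ ^ 2) ^ Fintype.card J * Real.sqrt (1 + ‖w‖ ^ 2)))) := by
  have hpR : (3 : ℝ) ≤ p := by exact_mod_cast hp
  have hpi : 0 < 2 * Real.pi := by positivity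
  have hnd : 0 ≤ (D : Cx J →ₗ[ℝ] Cx I).normDet := LinearMap.normDet_nonneg _
  have hN : 0 ≤ ∏ d ∈ Finset.range (Fintype.card J), (2 * ((d : ℝ) + 1) + 1000 * (p : ℝ) ^ 3 *
          Real.sqrt (2 * (d + 1)) + 1000 * (p : ℝ) ^ 3) :=
    Finset.prod_nonneg fun d _ => by positivity
  rw [← ENNReal.ofReal_mul (by positivity), ← ENNReal.ofReal_mul hN]
  apply ENNReal.ofReal_le_ofReal
  rw [Finset.prod_div_distrib, Finset.prod_const, Finset.card_range]
  set N := ∏ d ∈ Finset.range (Fintype.card J), (2 * ((d : ℝ) + 1) + 1000 * (p : ℝ) ^ 3 *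
          Real.sqrt (2 * (d + 1)) + 1000 * (p : ℝ) ^ 3) with hNdef
  set n := Fintype.card J
  set r := ‖w‖ with hr
  have hr0 : 0 ≤ r := norm_nonneg w
  set nd := (D : Cx J →ₗ[ℝ] Cx I).normDet
  have hSS : 1 + r ^ 2 ≤ SS p w := by
    unfold SS
    rw [← hr]
    linarith
  have h1r : 0 < 1 + r ^ 2 := by positivity
  have hmax : 0 < max 1 r := lt_max_of_lt_left one_pos
  have hsq : Real.sqrt (1 + r ^ 2) ≤ 2 * max 1 r := by
    rw [Real.sqrt_le_left (by positivity)]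
    rcases le_total 1 r with h | h
    · rw [max_eq_right h]; nlinarith
    · rw [max_eq_left h]; nlinarith
  have hsp : 0 < Real.sqrt (1 + r ^ 2) := Real.sqrt_pos.2 h1r
  have e1 : (2 * Real.pi) ^ n * (nd / max 1 r * (N / (2 * Real.pi * SS p w) ^ n)) =
      nd * N * (1 / max 1 r) * (1 / (SS p w) ^ n) := by
    rw [mul_pow (2 * Real.pi) (SS p w) n]
    have h2 : (2 * Real.pi) ^ n ≠ 0 := pow_ne_zero _ hpi.ne'
    have h3 : (SS p w) ^ n ≠ 0 := pow_ne_zero _ (lt_of_lt_of_le h1r hSS).ne'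
    generalize (2 * Real.pi) ^ n = A at *
    generalize (SS p w) ^ n = B at *
    field_simp
  have hSn : (1 + r ^ 2) ^ n ≤ (SS p w) ^ n := pow_le_pow_left₀ h1r.le hSS n
  have e2 : N * (nd * (2 / ((1 + r ^ 2) ^ n * Real.sqrt (1 + r ^ 2)))) =
      nd * N * (2 / Real.sqrt (1 + r ^ 2)) * (1 / (1 + r ^ 2) ^ n) := by
    field_simp
  rw [e1, e2]
  have a1 : 1 / max 1 r ≤ 2 / Real.sqrt (1 + r ^ 2) := by
    rw [div_le_div_iff₀ hmax hsp]
    linarith
  have a2 : 1 / (SS p w) ^ n ≤ 1 / (1 + r ^ 2) ^ n :=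
    one_div_le_one_div_of_le (by positivity) hSn
  have a3 : 0 ≤ 1 / (SS p w) ^ n := by
    have : 0 < SS p w := lt_of_lt_of_le h1r hSS
    positivity
  have a4 : 0 ≤ nd * N := mul_nonneg hnd hN
  exact mul_le_mul (mul_le_mul_of_nonneg_left a1 a4) a2 a3 (by positivity)

/-- JOB: the Kac-Rice type inequality -/
theorem KR {p : ℕ} [Fact p.Prime] (hp : p ≠ 2) {J I : Type} [Fintype J] [DecidableEq J]
    [Fintype I] [DecidableEq I] (κJ : J → ZMod p) (hκJ : ∀ j, κJ j ≠ 0) (κ : I → ZMod p)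
    (hκ : ∀ i, κ i ≠ 0) (Y : Cx J → Cx I) (hcont : Continuous Y)
    (hhom : ∀ t : ℝ, 0 < t → ∀ x, Y (t • x) = t • Y x)
    (hequi : ∀ x x', IsRot p κJ x x' → IsRot p κ (Y x) (Y x')) (hne : ∀ x, x ≠ 0 → Y x ≠ 0)
    (G : Set (Cx J)) {B : Type} [Finite B] (YB : B → Cx J → Cx I) (GB : B → Set (Cx J))
    (hreg : Reg Y G YB GB) :
    ENNReal.ofReal ((2 * Real.pi) ^ Fintype.card J) ≤
      ENNReal.ofReal (∏ d ∈ Finset.range (Fintype.card J), (2 * (d + 1) + 1000 * (p : ℝ) ^ 3 *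
          Real.sqrt (2 * (d + 1)) + 1000 * (p : ℝ) ^ 3)) *
      ∫⁻ x in G, ENNReal.ofReal ((fderiv ℝ Y x : Cx J →ₗ[ℝ] Cx I).normDet * (2 /
        ((1 + ‖Y x‖ ^ 2) ^ Fintype.card J * Real.sqrt (1 + ‖Y x‖ ^ 2)))) := by
  classical
  set P := Measure.pi (fun _ : J => muF p I) with hP
  have hY0 : Y 0 = 0 := by
    have h := hhom 2 two_pos 0
    rw [smul_zero, two_smul] at h
    simpa using h
  have hdiff : ∀ x ∈ G, DifferentiableAt ℝ Y x := fun x hx =>
    ((hreg.diffG.differentiableOn one_ne_zero) x hx).differentiableAt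
      (hreg.openG.mem_nhds hx)
  have heul : ∀ x ∈ G, fderiv ℝ Y x x = Y x := fun x hx => kr_euler Y hhom x (hdiff x hx)
  -- events
  set E1 : (Cx J → Cx I) → Set (Cx J) → (J → Opt p) → Set (J → Par p I → ℝ) := fun Z G o =>
    {θ | (∀ j a, 0 < pe (θ j) a) ∧ ∃ x ∈ G, ∀ j, Sat κ (θ j) (Z x) 1 (o j)} with hE1
  set E0 : (Cx J → Cx I) → Set (Cx J) → (J → Opt p) → Set (J → Par p I → ℝ) := fun Z G o =>
    {θ | (∀ j a, 0 < pe (θ j) a) ∧ ∃ x ∈ G, ∀ j, Sat κ (θ j) (Z x) 0 (o j)} with hE0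
  have n1 : ∀ b o, P (E1 (YB b) (GB b) o) = 0 := fun b o =>
    kr_hit_null hp κ (YB b) (GB b) (hreg.openB b) (hreg.diffB b) (hreg.kerB b) o
  have n2 : ∀ o, P (E0 Y (G \ {0}) o) = 0 := fun o =>
    zero_null hp κ hκ Y (G \ {0}) (hreg.openG.sdiff isClosed_singleton)
      (hreg.diffG.mono sdiff_subset) (fun x hx => hne x (by simpa using hx.2))
      (fun x hx => ⟨x, by simpa using hx.2, 1, by rw [one_smul]; exact heul x hx.1⟩) o
  have hopen : ∀ b, IsOpen (GB b ∩ {x' | YB b x' ≠ 0}) := fun b => by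
    have := (hreg.diffB b).continuousOn.isOpen_inter_preimage (hreg.openB b)
      (t := {y : Cx I | y ≠ 0}) isOpen_ne
    exact this
  have n3 : ∀ b o, P (E0 (YB b) (GB b ∩ {x' | YB b x' ≠ 0}) o) = 0 := fun b o =>
    zero_null hp κ hκ (YB b) _ (hopen b) ((hreg.diffB b).mono inter_subset_left)
      (fun x hx => hx.2)
      (fun x hx => by
        obtain ⟨v, hv, h⟩ := hreg.kerB b x hx.1
        exact ⟨v, hv, 0, by rw [zero_smul]; exact h⟩) o
  -- covering
  have hcov : (univ : Set (J → Par p I → ℝ)) ⊆ {θ | ¬ ∀ j a, 0 < pe (θ j) a} ∪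
      ((⋃ o, E1 Y G o) ∪ ((⋃ b, ⋃ o, E1 (YB b) (GB b) o) ∪ ((⋃ o, E0 Y (G \ {0}) o) ∪
        (⋃ b, ⋃ o, E0 (YB b) (GB b ∩ {x' | YB b x' ≠ 0}) o)))) := by
    intro θ _
    by_cases hθ : ∀ j a, 0 < pe (θ j) a
    swap
    · exact Or.inl hθ
    right
    obtain ⟨x, z, hz, hxz, hs⟩ := hit p hp κJ hκJ κ Y hcont hhom hequi θ hθ
    choose o ho using hs
    rcases hz with hz | hz
    · subst hz
      have hx : x ≠ 0 := by
        rcases hxz with h | h
        · exact h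
        · exact absurd h zero_ne_one
      right; right
      by_cases hxG : x ∈ G
      · left
        exact mem_iUnion.2 ⟨o, hθ, x, ⟨hxG, by simpa using hx⟩, ho⟩
      · right
        obtain ⟨b, x', hx', e⟩ := hreg.cover x hxG
        refine mem_iUnion.2 ⟨b, mem_iUnion.2 ⟨o, hθ, x', ⟨hx', ?_⟩, ?_⟩⟩
        · show YB b x' ≠ 0
          rw [← e]; exact hne x hx
        · rw [← e]; exact ho
    · subst hz
      by_cases hxG : x ∈ G
      · left
        exact mem_iUnion.2 ⟨o, hθ, x, hxG, ho⟩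
      · right; left
        obtain ⟨b, x', hx', e⟩ := hreg.cover x hxG
        refine mem_iUnion.2 ⟨b, mem_iUnion.2 ⟨o, hθ, x', hx', ?_⟩⟩
        rw [← e]; exact ho
  have hone : (1 : ℝ≥0∞) ≤ ∑ o : J → Opt p, P (E1 Y G o) := by
    have h1 : P univ = 1 := measure_univ
    have z0 : P {θ | ¬ ∀ j a, 0 < pe (θ j) a} = 0 := kr_pos_null
    have z1 : P (⋃ b, ⋃ o, E1 (YB b) (GB b) o) = 0 :=
      measure_iUnion_null fun b => measure_iUnion_null fun o => n1 b o
    have z2 : P (⋃ o, E0 Y (G \ {0}) o) = 0 := measure_iUnion_null fun o => n2 o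
    have z3 : P (⋃ b, ⋃ o, E0 (YB b) (GB b ∩ {x' | YB b x' ≠ 0}) o) = 0 :=
      measure_iUnion_null fun b => measure_iUnion_null fun o => n3 b o
    calc (1 : ℝ≥0∞) = P univ := h1.symm
      _ ≤ _ := measure_mono hcov
      _ ≤ _ := measure_union_le _ _
      _ ≤ P {θ | ¬ ∀ j a, 0 < pe (θ j) a} + (P (⋃ o, E1 Y G o) +
          (P (⋃ b, ⋃ o, E1 (YB b) (GB b) o) + (P (⋃ o, E0 Y (G \ {0}) o) +
          P (⋃ b, ⋃ o, E0 (YB b) (GB b ∩ {x' | YB b x' ≠ 0}) o)))) := by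
        refine add_le_add le_rfl ((measure_union_le _ _).trans (add_le_add le_rfl
          ((measure_union_le _ _).trans (add_le_add le_rfl (measure_union_le _ _)))))
      _ = P (⋃ o, E1 Y G o) := by rw [z0, z1, z2, z3]; simp
      _ ≤ ∑' o, P (E1 Y G o) := measure_iUnion_le _
      _ = ∑ o, P (E1 Y G o) := tsum_fintype _
  have hp3 : 3 ≤ p := by
    have h2 := (Fact.out : p.Prime).two_le
    omega
  calc ENNReal.ofReal ((2 * Real.pi) ^ Fintype.card J)
      = ENNReal.ofReal ((2 * Real.pi) ^ Fintype.card J) * 1 := (mul_one _).symm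
    _ ≤ ENNReal.ofReal ((2 * Real.pi) ^ Fintype.card J) * ∑ o : J → Opt p, P (E1 Y G o) :=
        mul_le_mul_right hone _
    _ ≤ ENNReal.ofReal ((2 * Real.pi) ^ Fintype.card J) * ∑ o : J → Opt p,
        ∫⁻ x in G, ∫⁻ θ, (∏ j, Wt κ (θ j) (Y x) (o j)) *
        ENNReal.ofReal |((rowMap fun j => ![GG κ (θ j) (Y x) (o j) 0, GG κ (θ j) (Y x) (o j) 1]).comp
          (fderiv ℝ Y x)).det| ∂P :=
        mul_le_mul_right (Finset.sum_le_sum fun o _ =>
          hit_measure hp κ Y G hreg.openG hreg.diffG o) _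
    _ ≤ ENNReal.ofReal ((2 * Real.pi) ^ Fintype.card J) * ∫⁻ x in G, ∑ o : J → Opt p,
        ∫⁻ θ, (∏ j, Wt κ (θ j) (Y x) (o j)) *
        ENNReal.ofReal |((rowMap fun j => ![GG κ (θ j) (Y x) (o j) 0, GG κ (θ j) (Y x) (o j) 1]).comp
          (fderiv ℝ Y x)).det| ∂P :=
        mul_le_mul_right (kr_sum_lintegral_le _ _ _) _
    _ ≤ ENNReal.ofReal ((2 * Real.pi) ^ Fintype.card J) * ∫⁻ x in G,
        ENNReal.ofReal ((fderiv ℝ Y x : Cx J →ₗ[ℝ] Cx I).normDet / max 1 ‖Y x‖ *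
        ∏ d ∈ Finset.range (Fintype.card J), (2 * (d + 1) + 1000 * (p : ℝ) ^ 3 *
          Real.sqrt (2 * (d + 1)) + 1000 * (p : ℝ) ^ 3) / (2 * Real.pi * SS p (Y x))) := by
        refine mul_le_mul_right (setLIntegral_mono' hreg.openG.measurableSet fun x hx => ?_) _
        exact point_bound hp κ hκ (Y x) (fderiv ℝ Y x) ⟨x, heul x hx⟩
    _ = ∫⁻ x in G, ENNReal.ofReal ((2 * Real.pi) ^ Fintype.card J) *
        ENNReal.ofReal ((fderiv ℝ Y x : Cx J →ₗ[ℝ] Cx I).normDet / max 1 ‖Y x‖ *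
        ∏ d ∈ Finset.range (Fintype.card J), (2 * (d + 1) + 1000 * (p : ℝ) ^ 3 *
          Real.sqrt (2 * (d + 1)) + 1000 * (p : ℝ) ^ 3) / (2 * Real.pi * SS p (Y x))) :=
        (lintegral_const_mul' _ _ ENNReal.ofReal_ne_top).symm
    _ ≤ ∫⁻ x in G, ENNReal.ofReal (∏ d ∈ Finset.range (Fintype.card J), (2 * (d + 1) +
          1000 * (p : ℝ) ^ 3 * Real.sqrt (2 * (d + 1)) + 1000 * (p : ℝ) ^ 3)) *
        ENNReal.ofReal ((fderiv ℝ Y x : Cx J →ₗ[ℝ] Cx I).normDet * (2 /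
        ((1 + ‖Y x‖ ^ 2) ^ Fintype.card J * Real.sqrt (1 + ‖Y x‖ ^ 2)))) :=
        lintegral_mono fun x => kr_alg_bound hp3 (Y x) (fderiv ℝ Y x)
    _ = _ := lintegral_const_mul' _ _ ENNReal.ofReal_ne_top

end KR

end Pool.Agent.Helper954.Hopf
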