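import Pool.Agent.Helper954.Hopf.Defs

set_option autoImplicit false

namespace Pool.Agent.Helper954.Hopf

open MeasureTheory Set
open scoped BigOperators ENNReal

namespace SEQ


theorem abs_det_basis {T E : Type} [Fintype T] [DecidableEq T] [NormedAddCommGroup E]
    [InnerProductSpace ℝ E] (b b' : OrthonormalBasis T ℝ E) (σ : T → (E →L[ℝ] ℝ)) :
    |(Matrix.of fun s t => σ s (b' t)).det| = |(Matrix.of fun s t => σ s (b t)).det| := by
  have h : (Matrix.of fun s t => σ s (b' t)) =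
      (Matrix.of fun s t => σ s (b t)) * b.toBasis.toMatrix b' := by
    ext s t
    rw [Matrix.mul_apply]
    conv_lhs => rw [Matrix.of_apply, ← b.toBasis.sum_repr (b' t)]
    rw [map_sum]
    apply Finset.sum_congr rfl
    intro i _
    rw [map_smul, Matrix.of_apply, Module.Basis.toMatrix_apply, smul_eq_mul, mul_comm,
      OrthonormalBasis.coe_toBasis]
  rw [h, Matrix.det_mul, abs_mul, ← Module.Basis.det_apply]
  rcases b.det_to_matrix_orthonormalBasis_real b' with h | h
  · rw [h]; simp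
  · rw [h]; simp

theorem abs_two {E : Type} [NormedAddCommGroup E] [InnerProductSpace ℝ E] [CompleteSpace E]
    (α β : E →L[ℝ] ℝ) (u : Fin 2 → E) (hu : Orthonormal ℝ u) :
    |α (u 0) * β (u 1) - α (u 1) * β (u 0)| ≤ ‖α‖ * ‖β‖ := by
  have key : ∀ γ : E →L[ℝ] ℝ, γ (u 0) ^ 2 + γ (u 1) ^ 2 ≤ ‖γ‖ ^ 2 := by
    intro γ
    have h := hu.sum_inner_products_le (x := (InnerProductSpace.toDual ℝ E).symm γ)
      (s := Finset.univ)
    have e : ∀ i, inner ℝ (u i) ((InnerProductSpace.toDual ℝ E).symm γ) = γ (u i) := fun i => by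
      rw [real_inner_comm, InnerProductSpace.toDual_symm_apply]
    rw [Fin.sum_univ_two, LinearIsometryEquiv.norm_map, e, e,
      Real.norm_eq_abs, Real.norm_eq_abs, sq_abs, sq_abs] at h
    exact h
  have h1 := key α
  have h2 := key β
  apply abs_le_of_sq_le_sq _ (by positivity)
  calc (α (u 0) * β (u 1) - α (u 1) * β (u 0)) ^ 2
      ≤ (α (u 0) ^ 2 + α (u 1) ^ 2) * (β (u 0) ^ 2 + β (u 1) ^ 2) := by
        nlinarith [sq_nonneg (α (u 0) * β (u 0) + α (u 1) * β (u 1))]
    _ ≤ ‖α‖ ^ 2 * ‖β‖ ^ 2 := by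
        apply mul_le_mul h1 h2 (by positivity) (by positivity)
    _ = (‖α‖ * ‖β‖) ^ 2 := by ring

/-- splitting off the first pair -/
def eqv (n : ℕ) : Fin 2 ⊕ (Fin n × Fin 2) ≃ Fin (n + 1) × Fin 2 where
  toFun := Sum.elim (fun i => (0, i)) (fun t => (t.1.succ, t.2))
  invFun := fun s => Fin.cases (Sum.inl s.2) (fun j => Sum.inr (j, s.2)) s.1
  left_inv := by rintro (i | ⟨j, i⟩) <;> rfl
  right_inv := by
    rintro ⟨s, i⟩
    refine Fin.cases ?_ ?_ s
    · rfl
    · intro j; rfl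

theorem claim {n : ℕ} (α β : EuclideanSpace ℝ (Fin (n + 1) × Fin 2) →L[ℝ] ℝ) :
    ∃ U' : EuclideanSpace ℝ (Fin n × Fin 2) →ₗᵢ[ℝ] EuclideanSpace ℝ (Fin (n + 1) × Fin 2),
      ∀ σ : Fin (n + 1) × Fin 2 → (EuclideanSpace ℝ (Fin (n + 1) × Fin 2) →L[ℝ] ℝ),
        σ (0, 0) = α → σ (0, 1) = β →
        |(Matrix.of fun s t => σ s (EuclideanSpace.single t 1)).det| ≤ ‖α‖ * ‖β‖ *
          |(Matrix.of fun s t : Fin n × Fin 2 =>
            σ (s.1.succ, s.2) (U' (EuclideanSpace.single t 1))).det| := by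
  let L : Submodule ℝ (EuclideanSpace ℝ (Fin (n + 1) × Fin 2)) :=
    LinearMap.ker ((α : EuclideanSpace ℝ (Fin (n + 1) × Fin 2) →ₗ[ℝ] ℝ).prod
      (β : EuclideanSpace ℝ (Fin (n + 1) × Fin 2) →ₗ[ℝ] ℝ))
  have hfin : n * 2 ≤ Module.finrank ℝ L := by
    have h1 := LinearMap.finrank_range_add_finrank_ker
      ((α : EuclideanSpace ℝ (Fin (n + 1) × Fin 2) →ₗ[ℝ] ℝ).prod
      (β : EuclideanSpace ℝ (Fin (n + 1) × Fin 2) →ₗ[ℝ] ℝ))
    have h2 := Submodule.finrank_le (LinearMap.range
      ((α : EuclideanSpace ℝ (Fin (n + 1) × Fin 2) →ₗ[ℝ] ℝ).prod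
      (β : EuclideanSpace ℝ (Fin (n + 1) × Fin 2) →ₗ[ℝ] ℝ)))
    have h3 : Module.finrank ℝ (ℝ × ℝ) = 2 := by simp
    have h4 : Module.finrank ℝ (EuclideanSpace ℝ (Fin (n + 1) × Fin 2)) = (n + 1) * 2 := by simp
    rw [h3] at h2
    rw [h4] at h1
    show n * 2 ≤ Module.finrank ℝ (LinearMap.ker
      ((α : EuclideanSpace ℝ (Fin (n + 1) × Fin 2) →ₗ[ℝ] ℝ).prod
      (β : EuclideanSpace ℝ (Fin (n + 1) × Fin 2) →ₗ[ℝ] ℝ)))
    omega
  obtain ⟨inj⟩ : Nonempty ((Fin n × Fin 2) ↪ Fin (Module.finrank ℝ L)) :=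
    Function.Embedding.nonempty_of_card_le (by simpa using hfin)
  let kb := stdOrthonormalBasis ℝ L
  let k : Fin n × Fin 2 → EuclideanSpace ℝ (Fin (n + 1) × Fin 2) := fun t => (kb (inj t) : _)
  have hk : Orthonormal ℝ k :=
    (kb.orthonormal.comp_linearIsometry L.subtypeₗᵢ).comp inj inj.injective
  have hkα : ∀ t, α (k t) = 0 ∧ β (k t) = 0 := by
    intro t
    have h : (kb (inj t) : EuclideanSpace ℝ (Fin (n + 1) × Fin 2)) ∈ L := (kb (inj t)).2
    have h2 := LinearMap.mem_ker.1 h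
    rw [LinearMap.prod_apply] at h2
    exact Prod.mk.inj h2
  obtain ⟨b, hb⟩ := Orthonormal.exists_orthonormalBasis_extension_of_card_eq (𝕜 := ℝ)
    (ι := Fin 2 ⊕ (Fin n × Fin 2)) (E := EuclideanSpace ℝ (Fin (n + 1) × Fin 2))
    (by simp; ring) (v := Sum.elim (fun _ => 0) k) (s := Set.range Sum.inr) (by
      have h1 : (Set.range Sum.inr).domRestrict (Sum.elim (fun _ : Fin 2 => 0) k) =
          k ∘ (Equiv.ofInjective (Sum.inr : Fin n × Fin 2 → Fin 2 ⊕ (Fin n × Fin 2))
            Sum.inr_injective).symm := by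
        funext ⟨x, t, ht⟩
        subst ht
        have h2 : (Equiv.ofInjective (Sum.inr : Fin n × Fin 2 → Fin 2 ⊕ (Fin n × Fin 2))
            Sum.inr_injective).symm ⟨Sum.inr t, t, rfl⟩ = t :=
          Equiv.ofInjective_symm_apply _ t
        simp only [Function.comp_apply, h2, Set.domRestrict_apply, Sum.elim_inr]
      rw [h1]
      exact hk.comp _ (Equiv.injective _))
  have hbk : ∀ t, b (Sum.inr t) = k t := fun t => hb (Sum.inr t) ⟨t, rfl⟩
  let f : EuclideanSpace ℝ (Fin n × Fin 2) →ₗ[ℝ] EuclideanSpace ℝ (Fin (n + 1) × Fin 2) :=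
    (EuclideanSpace.basisFun (Fin n × Fin 2) ℝ).toBasis.constr ℝ k
  have hfb : (f ∘ (EuclideanSpace.basisFun (Fin n × Fin 2) ℝ).toBasis) = k := by
    funext t
    exact Module.Basis.constr_basis _ _ _ _
  let U' : EuclideanSpace ℝ (Fin n × Fin 2) →ₗᵢ[ℝ] EuclideanSpace ℝ (Fin (n + 1) × Fin 2) :=
    f.isometryOfOrthonormal (v := (EuclideanSpace.basisFun (Fin n × Fin 2) ℝ).toBasis)
      (by rw [OrthonormalBasis.coe_toBasis]; exact (EuclideanSpace.basisFun _ ℝ).orthonormal)
      (by rw [hfb]; exact hk)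
  have hU' : ∀ t, U' (EuclideanSpace.single t 1) = k t := by
    intro t
    have h1 := congrFun hfb t
    simp only [Function.comp_apply, OrthonormalBasis.coe_toBasis,
      EuclideanSpace.basisFun_apply] at h1
    exact h1
  refine ⟨U', ?_⟩
  intro σ hσ0 hσ1
  have h1 := abs_det_basis (b.reindex (eqv n)) (EuclideanSpace.basisFun _ ℝ) σ
  simp only [EuclideanSpace.basisFun_apply] at h1
  rw [h1, ← Matrix.det_submatrix_equiv_self (eqv n)]
  have h2 : (Matrix.of fun s t => σ s ((b.reindex (eqv n)) t)).submatrix (eqv n) (eqv n) =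
      Matrix.fromBlocks (Matrix.of fun i j : Fin 2 => σ (0, i) (b (Sum.inl j))) 0
        (Matrix.of fun (s : Fin n × Fin 2) (j : Fin 2) => σ (s.1.succ, s.2) (b (Sum.inl j)))
        (Matrix.of fun s t : Fin n × Fin 2 => σ (s.1.succ, s.2) (k t)) := by
    ext s t
    rcases s with i | s <;> rcases t with j | t
    · simp [eqv]
    · simp only [Matrix.submatrix_apply, Matrix.of_apply, Matrix.fromBlocks_apply₁₂,
        Matrix.zero_apply, OrthonormalBasis.reindex_apply, Equiv.symm_apply_apply]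
      rw [hbk]
      show σ (0, i) (k t) = 0
      fin_cases i
      · show σ (0, 0) (k t) = 0
        rw [hσ0]; exact (hkα t).1
      · show σ (0, 1) (k t) = 0
        rw [hσ1]; exact (hkα t).2
    · simp [eqv]
    · simp only [Matrix.submatrix_apply, Matrix.of_apply, Matrix.fromBlocks_apply₂₂,
        OrthonormalBasis.reindex_apply, Equiv.symm_apply_apply]
      rw [hbk]
      rfl
  rw [h2, Matrix.det_fromBlocks_zero₁₂, abs_mul]
  simp only [hU']
  gcongr
  rw [Matrix.det_fin_two]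
  simp only [Matrix.of_apply]
  rw [hσ0, hσ1]
  have h3 := abs_two α β (fun i => b (Sum.inl i)) (b.orthonormal.comp _ Sum.inl_injective)
  exact h3

theorem seq_fin {V Ω : Type} [NormedAddCommGroup V]
    [InnerProductSpace ℝ V] [FiniteDimensional ℝ V] [MeasurableSpace Ω] (ν : Measure Ω)
    [SigmaFinite ν] (a b : Ω → (V →L[ℝ] ℝ)) (ha : Measurable a) (hb : Measurable b)
    (M : ℕ → ℝ≥0∞) (n : ℕ)
    (hM : ∀ d, d < n → ∀ U : EuclideanSpace ℝ (Fin (2 * (d + 1))) →ₗᵢ[ℝ] V,
      ∫⁻ ω, ‖(a ω).comp U.toContinuousLinearMap‖ₑ * ‖(b ω).comp U.toContinuousLinearMap‖ₑ ∂ν ≤ M d)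
    (U : EuclideanSpace ℝ (Fin n × Fin 2) →ₗᵢ[ℝ] V) :
    ∫⁻ ω : Fin n → Ω, ENNReal.ofReal
        |(Matrix.of fun s t : Fin n × Fin 2 =>
          (![a (ω s.1), b (ω s.1)] s.2) (U (EuclideanSpace.single t 1))).det|
        ∂Measure.pi (fun _ : Fin n => ν) ≤ ∏ d ∈ Finset.range n, M d := by
  induction n with
  | zero =>
    simp [Matrix.det_isEmpty, Measure.pi_univ]
  | succ n ih =>
    have hmp := (measurePreserving_piFinSuccAbove (fun _ : Fin (n + 1) => ν) 0).symm
    rw [hmp.lintegral_map_equiv]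
    refine (lintegral_prod_le _).trans ?_
    have hinner : ∀ x : Ω, ∫⁻ y : Fin n → Ω, ENNReal.ofReal
        |(Matrix.of fun s t : Fin (n + 1) × Fin 2 =>
          (![a ((MeasurableEquiv.piFinSuccAbove (fun _ : Fin (n + 1) => Ω) 0).symm (x, y) s.1),
            b ((MeasurableEquiv.piFinSuccAbove (fun _ : Fin (n + 1) => Ω) 0).symm (x, y) s.1)]
              s.2) (U (EuclideanSpace.single t 1))).det| ∂Measure.pi (fun _ : Fin n => ν) ≤
        (‖(a x).comp U.toContinuousLinearMap‖ₑ * ‖(b x).comp U.toContinuousLinearMap‖ₑ) *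
          ∏ d ∈ Finset.range n, M d := by
      intro x
      obtain ⟨U', hU'⟩ := claim ((a x).comp U.toContinuousLinearMap)
        ((b x).comp U.toContinuousLinearMap)
      have hih := ih (fun d hd => hM d (by omega)) (U.comp U')
      calc _ ≤ ∫⁻ y : Fin n → Ω, (‖(a x).comp U.toContinuousLinearMap‖ₑ *
              ‖(b x).comp U.toContinuousLinearMap‖ₑ) * ENNReal.ofReal
              |(Matrix.of fun s t : Fin n × Fin 2 =>
          (![a (y s.1), b (y s.1)] s.2) ((U.comp U') (EuclideanSpace.single t 1))).det|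
              ∂Measure.pi (fun _ : Fin n => ν) := by
            apply lintegral_mono
            intro y
            have h1 := hU' (fun s => (![a ((MeasurableEquiv.piFinSuccAbove
              (fun _ : Fin (n + 1) => Ω) 0).symm (x, y) s.1),
              b ((MeasurableEquiv.piFinSuccAbove (fun _ : Fin (n + 1) => Ω) 0).symm (x, y) s.1)]
              s.2).comp U.toContinuousLinearMap) rfl rfl
            refine (ENNReal.ofReal_le_ofReal h1).trans (le_of_eq ?_)
            rw [ENNReal.ofReal_mul (by positivity), ENNReal.ofReal_mul (by positivity),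
              ofReal_norm, ofReal_norm]
            rfl
        _ = (‖(a x).comp U.toContinuousLinearMap‖ₑ *
              ‖(b x).comp U.toContinuousLinearMap‖ₑ) * ∫⁻ y : Fin n → Ω, ENNReal.ofReal
              |(Matrix.of fun s t : Fin n × Fin 2 =>
          (![a (y s.1), b (y s.1)] s.2) ((U.comp U') (EuclideanSpace.single t 1))).det|
              ∂Measure.pi (fun _ : Fin n => ν) := by
            apply lintegral_const_mul'
            exact ENNReal.mul_ne_top enorm_ne_top enorm_ne_top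
        _ ≤ _ := by gcongr
    refine (lintegral_mono hinner).trans ?_
    have hmeas : ∀ c : Ω → (V →L[ℝ] ℝ), Measurable c →
        Measurable fun x => ‖(c x).comp U.toContinuousLinearMap‖ₑ := by
      intro c hc
      have h1 : Continuous fun g : V →L[ℝ] ℝ => g.comp U.toContinuousLinearMap :=
        continuous_id.clm_comp continuous_const
      exact (h1.measurable.comp hc).enorm
    have hm : Measurable fun x => ‖(a x).comp U.toContinuousLinearMap‖ₑ *
        ‖(b x).comp U.toContinuousLinearMap‖ₑ := (hmeas a ha).mul (hmeas b hb)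
    rw [lintegral_mul_const _ hm, Finset.prod_range_succ, mul_comm]
    gcongr
    let e : Fin (2 * (n + 1)) ≃ Fin (n + 1) × Fin 2 :=
      (finCongr (by ring)).trans finProdFinEquiv.symm
    let W := LinearIsometryEquiv.piLpCongrLeft 2 ℝ ℝ e
    have h := hM n (by omega) (U.comp W.toLinearIsometry)
    refine le_trans (le_of_eq ?_) h
    apply lintegral_congr
    intro x
    have hn : ∀ g : V →L[ℝ] ℝ, ‖g.comp (U.comp W.toLinearIsometry).toContinuousLinearMap‖ₑ =
        ‖g.comp U.toContinuousLinearMap‖ₑ := by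
      intro g
      have h1 : g.comp (U.comp W.toLinearIsometry).toContinuousLinearMap =
          (g.comp U.toContinuousLinearMap).comp W.toLinearIsometry.toContinuousLinearMap := rfl
      rw [h1, ← ofReal_norm, ← ofReal_norm]
      congr 1
      exact ContinuousLinearMap.opNorm_comp_linearIsometryEquiv _ W
    rw [hn, hn]

/-- JOB: integral of a determinant whose rows come in independent pairs -/
theorem seq_det {J V Ω : Type} [Fintype J] [DecidableEq J] [NormedAddCommGroup V]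
    [InnerProductSpace ℝ V] [FiniteDimensional ℝ V] [MeasurableSpace Ω] (ν : Measure Ω)
    [SigmaFinite ν] (a b : Ω → (V →L[ℝ] ℝ)) (ha : Measurable a) (hb : Measurable b)
    (M : ℕ → ℝ≥0∞)
    (hM : ∀ d, d < Fintype.card J → ∀ U : EuclideanSpace ℝ (Fin (2 * (d + 1))) →ₗᵢ[ℝ] V,
      ∫⁻ ω, ‖(a ω).comp U.toContinuousLinearMap‖ₑ * ‖(b ω).comp U.toContinuousLinearMap‖ₑ ∂ν ≤ M d)
    (U : Cx J →ₗᵢ[ℝ] V) :
    ∫⁻ ω : J → Ω, ENNReal.ofReal
        |((rowMap fun j => ![a (ω j), b (ω j)]).comp U.toContinuousLinearMap).det|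
        ∂Measure.pi (fun _ : J => ν) ≤
      ∏ d ∈ Finset.range (Fintype.card J), M d := by
  let e : Fin (Fintype.card J) ≃ J := (Fintype.equivFin J).symm
  let e' : Fin (Fintype.card J) × Fin 2 ≃ J × Fin 2 := Equiv.prodCongr e (Equiv.refl _)
  let W := LinearIsometryEquiv.piLpCongrLeft 2 ℝ ℝ e'
  have h := seq_fin ν a b ha hb M (Fintype.card J) hM (U.comp W.toLinearIsometry)
  refine le_trans (le_of_eq ?_) h
  have hmp := measurePreserving_piCongrLeft (fun _ : J => ν) e
  rw [hmp.lintegral_map_equiv]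
  apply lintegral_congr
  intro ω
  congr 2
  have hdet : ∀ ω : J → Ω,
      ((rowMap fun j => ![a (ω j), b (ω j)]).comp U.toContinuousLinearMap).det =
      (Matrix.of fun s t : J × Fin 2 => (![a (ω s.1), b (ω s.1)] s.2)
        (U (EuclideanSpace.single t 1))).det := by
    intro ω
    unfold ContinuousLinearMap.det
    rw [← LinearMap.det_toMatrix (EuclideanSpace.basisFun (J × Fin 2) ℝ).toBasis]
    congr 1
  rw [hdet, ← Matrix.det_submatrix_equiv_self e']
  congr 1
  ext s t
  simp only [Matrix.submatrix_apply, Matrix.of_apply]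
  have h1 : (MeasurableEquiv.piCongrLeft (fun _ : J => Ω) e) ω (e' s).1 = ω s.1 := by
    show (Equiv.piCongrLeft (fun _ : J => Ω) e) ω (e s.1) = ω s.1
    exact Equiv.piCongrLeft_apply_apply (fun _ : J => Ω) e ω s.1
  have h2 : (U.comp W.toLinearIsometry) (EuclideanSpace.single t 1) =
      U (EuclideanSpace.single (e' t) 1) := by
    show U (W (EuclideanSpace.single t 1)) = _
    congr 1
    exact EuclideanSpace.piLpCongrLeft_single e' t 1
  rw [h1, h2]
  rfl

end SEQ

end Pool.Agent.Helper954.Hopf
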