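import Pool.Agent.Helper954.Hopf.Defs
import Pool.Agent.Helper954.Hopf.D1c

set_option autoImplicit false

namespace Pool.Agent.Helper954.Hopf

open MeasureTheory Set
open scoped BigOperators
open Dold.D1c (dold_cover)

namespace T2


section sectors

variable {p : ℕ}

noncomputable def ee (p : ℕ) (t : ZMod p) : ℂ := om p ^ t.val

lemma om_prim [Fact p.Prime] : IsPrimitiveRoot (om p) p :=
  Complex.isPrimitiveRoot_exp p (Fact.out : p.Prime).ne_zero

lemma om_norm : ‖om p‖ = 1 := by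
  have h : om p = Complex.exp (((2 * Real.pi / p : ℝ) : ℂ) * Complex.I) := by
    unfold om; congr 1; push_cast; ring
  rw [h, Complex.norm_exp_ofReal_mul_I]

lemma ee_norm (t : ZMod p) : ‖ee p t‖ = 1 := by
  rw [ee, norm_pow, om_norm, one_pow]

lemma ee_ne (t : ZMod p) : ee p t ≠ 0 := by
  intro h
  have := ee_norm t
  rw [h, norm_zero] at this
  exact zero_ne_one this

lemma ee_zero [Fact p.Prime] : ee p 0 = 1 := by simp [ee]

lemma ee_one [Fact p.Prime] : ee p 1 = om p := by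
  rw [ee, ZMod.val_one_eq_one_mod, Nat.mod_eq_of_lt (Fact.out : p.Prime).one_lt, pow_one]

lemma ee_add [Fact p.Prime] (s t : ZMod p) : ee p (s + t) = ee p s * ee p t := by
  rw [ee, ee, ee, ZMod.val_add, ← pow_add, ← pow_eq_pow_mod _ om_prim.pow_eq_one]

lemma ee_natCast [Fact p.Prime] (n : ℕ) : ee p (n : ZMod p) = om p ^ n := by
  rw [ee, ZMod.val_natCast, ← pow_eq_pow_mod _ om_prim.pow_eq_one]

lemma ee_eq_one [Fact p.Prime] {t : ZMod p} (h : ee p t = 1) : t = 0 := by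
  have h1 := (om_prim (p := p)).dvd_of_pow_eq_one t.val h
  have h2 := ZMod.val_lt t
  have h3 : t.val = 0 := Nat.eq_zero_of_dvd_of_lt h1 h2
  exact (ZMod.val_eq_zero t).mp h3

lemma conj_mul_ee (t : ZMod p) : (starRingEnd ℂ) (ee p t) * ee p t = 1 := by
  rw [mul_comm, Complex.mul_conj, Complex.normSq_eq_norm_sq, ee_norm]; simp

lemma conj_ee [Fact p.Prime] (t : ZMod p) : (starRingEnd ℂ) (ee p t) = ee p (-t) := by
  have h1 : ee p (-t) * ee p t = 1 := by rw [← ee_add, neg_add_cancel, ee_zero]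
  exact mul_right_cancel₀ (ee_ne t) ((conj_mul_ee t).trans h1.symm)

/-- the real functional -/
noncomputable def RR (p : ℕ) (s : ZMod p) (v : ℂ) : ℝ := ((starRingEnd ℂ) (ee p s) * v).re

def Sec (p : ℕ) (s : ZMod p) : Set ℂ := {v | ∀ t, t ≠ s → RR p t v < RR p s v}

def QQ (p : ℕ) : Set ℂ := ⋃ s, Sec p s

lemma RR_cont (s : ZMod p) : Continuous (RR p s) := by
  unfold RR; fun_prop

lemma Sec_open [Fact p.Prime] (s : ZMod p) : IsOpen (Sec p s) := by
  unfold Sec
  simp only [Set.ofPred_forall]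
  exact isOpen_iInter_of_finite fun t => isOpen_iInter_of_finite fun _ =>
    isOpen_lt (RR_cont t) (RR_cont s)

lemma QQ_open [Fact p.Prime] : IsOpen (QQ p) := isOpen_iUnion Sec_open

lemma Sec_disj {s t : ZMod p} {v : ℂ} (h1 : v ∈ Sec p s) (h2 : v ∈ Sec p t) : s = t := by
  by_contra h
  have a1 := h1 t (fun e => h e.symm)
  have a2 := h2 s h
  exact lt_asymm a1 a2

lemma RR_rot [Fact p.Prime] (s a : ZMod p) (v : ℂ) : RR p (s + a) (ee p a * v) = RR p s v := by
  unfold RR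
  congr 1
  rw [ee_add, map_mul]
  have := conj_mul_ee a
  calc (starRingEnd ℂ) (ee p s) * (starRingEnd ℂ) (ee p a) * (ee p a * v)
      = (starRingEnd ℂ) (ee p s) * ((starRingEnd ℂ) (ee p a) * ee p a) * v := by ring
    _ = _ := by rw [this, mul_one]

lemma Sec_rot [Fact p.Prime] {s : ZMod p} (a : ZMod p) {v : ℂ} (h : v ∈ Sec p s) :
    ee p a * v ∈ Sec p (s + a) := by
  intro t ht
  have h1 := h (t - a) (fun e => ht (by rw [← e, sub_add_cancel]))
  rw [RR_rot]
  have h2 := RR_rot (t - a) a v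
  rw [sub_add_cancel] at h2
  rw [h2]; exact h1

lemma QQ_rot [Fact p.Prime] (a : ZMod p) {v : ℂ} : ee p a * v ∈ QQ p ↔ v ∈ QQ p := by
  constructor
  · intro h
    obtain ⟨s, hs⟩ := mem_iUnion.mp h
    have := Sec_rot (-a) hs
    rw [← mul_assoc, ← ee_add, neg_add_cancel, ee_zero, one_mul] at this
    exact mem_iUnion.mpr ⟨_, this⟩
  · intro h
    obtain ⟨s, hs⟩ := mem_iUnion.mp h
    exact mem_iUnion.mpr ⟨_, Sec_rot a hs⟩

lemma zero_notMem [Fact p.Prime] : (0 : ℂ) ∉ QQ p := by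
  intro h
  obtain ⟨s, hs⟩ := mem_iUnion.mp h
  have : s + 1 ≠ s := by simp
  have h1 := hs (s + 1) this
  unfold RR at h1
  simp at h1

lemma two_ne [Fact p.Prime] (hp : p ≠ 2) : (2 : ZMod p) ≠ 0 := by
  intro h
  have h2 : ((2 : ℕ) : ZMod p) = 0 := by exact_mod_cast h
  rw [ZMod.natCast_eq_zero_iff] at h2
  exact hp ((Nat.prime_dvd_prime_iff_eq Fact.out Nat.prime_two).mp h2)

lemma fact2 [Fact p.Prime] (hp : p ≠ 2) {v : ℂ} (h : v ∉ QQ p) :
    ∃ (l : ZMod p) (r : ℝ), 0 ≤ r ∧ v = -((r : ℂ) * ee p l) := by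
  obtain ⟨s, hs⟩ := Finite.exists_max (fun s => RR p s v)
  have h1 : v ∉ Sec p s := fun h2 => h (mem_iUnion.mpr ⟨s, h2⟩)
  unfold Sec at h1
  simp only [Set.mem_ofPred_eq, not_forall, not_lt] at h1
  obtain ⟨t, hts, ht⟩ := h1
  have heq : RR p t v = RR p s v := le_antisymm (hs t) ht
  set u : ZMod p := (s + t) / 2 with hu
  set d : ZMod p := (s - t) / 2 with hd
  have h2 := two_ne (p := p) hp
  have hsu : s = u + d := by rw [hu, hd]; field_simp; ring
  have htu : t = u + (-d) := by rw [hu, hd]; field_simp; ring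
  have hd0 : d ≠ 0 := by
    intro h0
    apply hts
    rw [hsu, htu, h0]; simp
  set y : ℂ := (starRingEnd ℂ) (ee p u) * v with hy
  have hRs : RR p s v = (ee p d).re * y.re + (ee p d).im * y.im := by
    have : (starRingEnd ℂ) (ee p s) * v = (starRingEnd ℂ) (ee p d) * y := by
      rw [hsu, ee_add, map_mul, hy]; ring
    rw [RR, this, Complex.mul_re]; simp
  have hRt : RR p t v = (ee p d).re * y.re - (ee p d).im * y.im := by
    have : (starRingEnd ℂ) (ee p t) * v = ee p d * y := by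
      rw [htu, ee_add, map_mul, conj_ee (-d), neg_neg, hy]; ring
    rw [RR, this, Complex.mul_re]
  have hn : (ee p d).re ^ 2 + (ee p d).im ^ 2 = 1 := by
    have := ee_norm d
    have h3 : Complex.normSq (ee p d) = 1 := by
      rw [Complex.normSq_eq_norm_sq, this]; norm_num
    rw [Complex.normSq_apply] at h3
    nlinarith
  have him : (ee p d).im ≠ 0 := by
    intro h0
    have h3 : (ee p d).re ^ 2 = 1 := by rw [h0] at hn; linarith
    have h4 : ee p d * ee p d = 1 := by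
      apply Complex.ext
      · rw [Complex.mul_re, h0]; simp; nlinarith
      · rw [Complex.mul_im, h0]; simp
    rw [← ee_add] at h4
    have h5 := ee_eq_one h4
    have h6 : (2 : ZMod p) * d = 0 := by rw [two_mul]; exact h5
    rcases mul_eq_zero.mp h6 with h7 | h7
    · exact h2 h7
    · exact hd0 h7
  have hyim : y.im = 0 := by
    have : (ee p d).im * y.im = 0 := by rw [hRs, hRt] at heq; linarith
    rcases mul_eq_zero.mp this with h7 | h7
    · exact absurd h7 him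
    · exact h7
  have hv : v = ee p u * y := by
    rw [hy, ← mul_assoc, mul_comm (ee p u), conj_mul_ee, one_mul]
  have hyr : y = (y.re : ℂ) := by
    apply Complex.ext <;> simp [hyim]
  have hneg : y.re ≤ 0 := by
    by_contra hpos
    push Not at hpos
    have h3 := hs u
    have h4 : RR p u v = y.re := by rw [RR]
    rw [h4, hRs, hyim, mul_zero, add_zero] at h3
    have h5 : 1 ≤ (ee p d).re := by
      by_contra h6
      push Not at h6
      nlinarith
    have h7 : (ee p d).im ^ 2 ≤ 0 := by nlinarith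
    exact him (pow_eq_zero_iff (two_ne_zero) |>.mp (le_antisymm h7 (sq_nonneg _)))
  refine ⟨u, -y.re, by linarith, ?_⟩
  rw [hv, hyr]
  simp
  ring

lemma fact1 [Fact p.Prime] (hp : p ≠ 2) {v : ℂ} (h : v ∉ QQ p) (h' : -v ∉ QQ p) : v = 0 := by
  obtain ⟨l, r, hr, hv⟩ := fact2 hp h
  obtain ⟨l', r', hr', hv'⟩ := fact2 hp h'
  have h1 : v = (r' : ℂ) * ee p l' := by
    have := congrArg Neg.neg hv'
    simpa using this
  have hn1 : ‖v‖ = r := by
    rw [hv, norm_neg, norm_mul, ee_norm, mul_one, Complex.norm_real, Real.norm_of_nonneg hr]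
  have hn2 : ‖v‖ = r' := by
    rw [h1, norm_mul, ee_norm, mul_one, Complex.norm_real, Real.norm_of_nonneg hr']
  by_contra hv0
  have hr0 : r ≠ 0 := by
    rw [← hn1]; exact norm_ne_zero_iff.mpr hv0
  have hrr : r' = r := hn2.symm.trans hn1
  rw [hrr] at h1
  have h2 : ee p l' = -ee p l := by
    have h3 : (r : ℂ) * ee p l' = (r : ℂ) * (-ee p l) := by rw [← h1, hv]; ring
    exact mul_left_cancel₀ (by exact_mod_cast hr0) h3
  have h3 : ee p (l' + (-l)) = -1 := by
    rw [ee_add, h2, neg_mul, ← ee_add, add_neg_cancel, ee_zero]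
  have h4 : ee p ((l' + (-l)) + (l' + (-l))) = 1 := by rw [ee_add, h3]; norm_num
  have h5 := ee_eq_one h4
  have h6 : (2 : ZMod p) * (l' + (-l)) = 0 := by rw [two_mul]; exact h5
  rcases mul_eq_zero.mp h6 with h7 | h7
  · exact two_ne hp h7
  · rw [h7, ee_zero] at h3
    norm_num at h3

end sectors

section zeta

noncomputable def zt (m : ℕ) (z : ℂ) : ℂ := z ^ (m + 1) / (‖z‖ : ℂ) ^ m

lemma zt_norm (m : ℕ) (z : ℂ) : ‖zt m z‖ = ‖z‖ := by
  unfold zt
  by_cases hz : z = 0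
  · simp [hz]
  · have : ‖z‖ ≠ 0 := norm_ne_zero_iff.mpr hz
    rw [norm_div, norm_pow, norm_pow, Complex.norm_real, norm_norm, pow_succ]
    field_simp

lemma zt_cont (m : ℕ) : Continuous (zt m) := by
  rw [continuous_iff_continuousAt]
  intro z
  by_cases hz : z = 0
  · subst hz
    have h0 : zt m 0 = 0 := by unfold zt; simp
    rw [ContinuousAt, h0, tendsto_zero_iff_norm_tendsto_zero]
    simp only [zt_norm]
    have := (continuous_norm (E := ℂ)).tendsto 0
    simpa using this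
  · unfold zt
    have h1 : ((‖z‖ : ℂ)) ^ m ≠ 0 := pow_ne_zero _ (by exact_mod_cast norm_ne_zero_iff.mpr hz)
    exact ContinuousAt.div (by fun_prop) (by fun_prop) h1

lemma zt_rot (m : ℕ) {c : ℂ} (hc : ‖c‖ = 1) (z : ℂ) : zt m (c * z) = c ^ (m + 1) * zt m z := by
  unfold zt
  rw [norm_mul, hc, one_mul, mul_pow, mul_div_assoc]

lemma zt_real (m : ℕ) {r : ℝ} (hr : 0 ≤ r) : zt m (r : ℂ) = r := by
  unfold zt
  rw [Complex.norm_real, Real.norm_of_nonneg hr]
  by_cases h : r = 0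
  · simp [h]
  · have : (r : ℂ) ≠ 0 := by exact_mod_cast h
    rw [pow_succ]; field_simp

end zeta

lemma pieces {X K : Type} [TopologicalSpace X] {p : ℕ} (T : X → X) (piece : K → Set X)
    (ho : ∀ q, IsOpen (piece q)) (lb : K → ZMod p)
    (hcons : ∀ q q' v, v ∈ piece q → v ∈ piece q' → lb q = lb q')
    (hT : ∀ q v, v ∈ piece q → ∃ q', T v ∈ piece q' ∧ lb q' = lb q + 1) :
    ∃ (O : Set X) (lab : X → ZMod p), IsOpen O ∧ (∀ x, x ∈ O ↔ ∃ q, x ∈ piece q) ∧
      (∀ x ∈ O, ∀ᶠ y in nhds x, lab y = lab x) ∧ (∀ x ∈ O, T x ∈ O) ∧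
      (∀ x ∈ O, lab (T x) = lab x + 1) := by
  classical
  let lab : X → ZMod p := fun x => if h : ∃ q, x ∈ piece q then lb h.choose else 0
  have key : ∀ q x, x ∈ piece q → lab x = lb q := by
    intro q x hx
    have h : ∃ q, x ∈ piece q := ⟨q, hx⟩
    show (if h : ∃ q, x ∈ piece q then lb h.choose else 0) = lb q
    rw [dif_pos h]
    exact hcons _ _ x h.choose_spec hx
  refine ⟨⋃ q, piece q, lab, isOpen_iUnion ho, fun x => mem_iUnion, ?_, ?_, ?_⟩
  · intro x hx
    obtain ⟨q, hq⟩ := mem_iUnion.mp hx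
    filter_upwards [(ho q).mem_nhds hq] with y hy
    rw [key q y hy, key q x hq]
  · intro x hx
    obtain ⟨q, hq⟩ := mem_iUnion.mp hx
    obtain ⟨q', hq', _⟩ := hT q x hq
    exact mem_iUnion.mpr ⟨q', hq'⟩
  · intro x hx
    obtain ⟨q, hq⟩ := mem_iUnion.mp hx
    obtain ⟨q', hq', hl⟩ := hT q x hq
    rw [key q' _ hq', key q x hq, hl]


section build

variable {p : ℕ} {J I : Type}

noncomputable def xv (v : Option J → ℂ) : Cx J :=
  WithLp.toLp 2 (fun q : J × Fin 2 => if q.2 = 0 then (v (some q.1)).re else (v (some q.1)).im)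

lemma cx_xv (v : Option J → ℂ) (j : J) : cx (xv v) j = v (some j) := by
  apply Complex.ext <;> simp [cx, xv]

lemma xv_cont [Fintype J] : Continuous (xv : (Option J → ℂ) → Cx J) := by
  unfold xv
  refine (PiLp.continuous_toLp 2 _).comp (continuous_pi fun q => ?_)
  by_cases h : q.2 = 0
  · simp only [h, if_true]
    exact Complex.continuous_re.comp (continuous_apply _)
  · simp only [h, if_false]
    exact Complex.continuous_im.comp (continuous_apply _)

lemma cx_eq (x : Cx I) (i : I) : cx x i = (x (i, 0) : ℂ) + (x (i, 1) : ℂ) * Complex.I := by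
  apply Complex.ext <;> simp [cx]

lemma cx_cont [Fintype I] (i : I) : Continuous (fun x : Cx I => cx x i) := by
  simp only [cx_eq]
  fun_prop

lemma cx_smul (t : ℝ) (x : Cx I) (i : I) : cx (t • x) i = (t : ℂ) * cx x i := by
  apply Complex.ext <;> simp [cx]

noncomputable def mu [Fintype I] (κ : I → ZMod p) (Y : Cx J → Cx I) (θ : Par p I → ℝ)
    (v : Option J → ℂ) (a : Ty p) : ℝ := mm κ ‖v none‖ a (Y (xv v)) / pe θ a

noncomputable def gg [Fintype I] (κ : I → ZMod p) (Y : Cx J → Cx I) (θ : Par p I → ℝ)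
    (v : Option J → ℂ) (a : Ty p) : ℂ :=
  xi κ θ a (Y (xv v)) - zt (a.1.val - 1) (v none) * py θ a

lemma mu_cont [Fintype J] [Fintype I] (κ : I → ZMod p) (Y : Cx J → Cx I) (hY : Continuous Y)
    (θ : Par p I → ℝ) (a : Ty p) : Continuous (fun v => mu κ Y θ v a) := by
  unfold mu mm
  apply Continuous.div_const
  apply Continuous.add
  · fun_prop
  · apply continuous_finsetSum
    intro i _
    split_ifs
    · exact ((cx_cont i).comp (hY.comp xv_cont)).norm.pow 2
    · exact continuous_const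

lemma gg_cont [Fintype J] [Fintype I] (κ : I → ZMod p) (Y : Cx J → Cx I) (hY : Continuous Y)
    (θ : Par p I → ℝ) (a : Ty p) : Continuous (fun v => gg κ Y θ v a) := by
  unfold gg xi
  apply Continuous.sub
  · apply continuous_finsetSum
    intro i _
    split_ifs
    · exact continuous_const.mul ((cx_cont i).comp (hY.comp xv_cont))
    · exact continuous_const
  · exact ((zt_cont _).comp (continuous_apply none)).mul continuous_const

/-- weights including the auxiliary coordinate -/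
def kk (κJ : J → ZMod p) (o : Option J) : ZMod p := o.elim 1 κJ

noncomputable def TT (κJ : J → ZMod p) (v : Option J → ℂ) : Option J → ℂ :=
  fun i => ee p (kk κJ i) * v i

lemma W_rot (κJ : J → ZMod p) (κ : I → ZMod p) (Y : Cx J → Cx I)
    (hequi : ∀ x x', IsRot p κJ x x' → IsRot p κ (Y x) (Y x')) (v : Option J → ℂ) (i : I) :
    cx (Y (xv (TT κJ v))) i = ee p (κ i) * cx (Y (xv v)) i := by
  apply hequi (xv v) (xv (TT κJ v))
  intro j
  rw [cx_xv, cx_xv]
  rfl

lemma mu_rot [Fintype I] (κJ : J → ZMod p) (κ : I → ZMod p) (Y : Cx J → Cx I)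
    (hequi : ∀ x x', IsRot p κJ x x' → IsRot p κ (Y x) (Y x')) (θ : Par p I → ℝ)
    (v : Option J → ℂ) (a : Ty p) : mu κ Y θ (TT κJ v) a = mu κ Y θ v a := by
  unfold mu mm
  congr 1
  congr 1
  · rw [TT, norm_mul, ee_norm, one_mul]
  · apply Finset.sum_congr rfl
    intro i _
    rw [W_rot κJ κ Y hequi, norm_mul, ee_norm, one_mul]

lemma gg_rot [Fact p.Prime] [Fintype I] (κJ : J → ZMod p) (κ : I → ZMod p) (Y : Cx J → Cx I)
    (hequi : ∀ x x', IsRot p κJ x x' → IsRot p κ (Y x) (Y x')) (θ : Par p I → ℝ)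
    (v : Option J → ℂ) (a : Ty p) :
    gg κ Y θ (TT κJ v) a = ee p a.1 * gg κ Y θ v a := by
  unfold gg
  rw [mul_sub]
  congr 1
  · unfold xi
    rw [Finset.mul_sum]
    apply Finset.sum_congr rfl
    intro i _
    split_ifs with h
    · rw [W_rot κJ κ Y hequi, h]; ring
    · rw [mul_zero]
  · have h1 : TT κJ v none = om p * v none := by
      rw [TT, kk]; simp only [Option.elim]; rw [ee_one]
    rw [h1, zt_rot _ om_norm]
    have h2 : a.1.val - 1 + 1 = a.1.val := by
      have : a.1.val ≠ 0 := by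
        rw [Ne, ZMod.val_eq_zero]; exact a.2
      omega
    rw [h2, ee]; ring

/-- the gap function -/
noncomputable def dlt [Fact p.Prime] [Fintype I] (κ : I → ZMod p) (Y : Cx J → Cx I)
    (θ : Par p I → ℝ) (v : Option J → ℂ) : ℝ :=
  ∏ a : Ty p, (Metric.infDist (gg κ Y θ v a) (QQ p)ᶜ + ∑ b : Ty p, max (mu κ Y θ v b - mu κ Y θ v a) 0)

lemma dlt_nonneg [Fact p.Prime] [Fintype I] (κ : I → ZMod p) (Y : Cx J → Cx I)
    (θ : Par p I → ℝ) (v : Option J → ℂ) : 0 ≤ dlt κ Y θ v := by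
  unfold dlt
  apply Finset.prod_nonneg
  intro a _
  exact add_nonneg Metric.infDist_nonneg (Finset.sum_nonneg fun b _ => le_max_right _ _)

lemma dlt_cont [Fact p.Prime] [Fintype J] [Fintype I] (κ : I → ZMod p) (Y : Cx J → Cx I)
    (hY : Continuous Y) (θ : Par p I → ℝ) : Continuous (fun v => dlt κ Y θ v) := by
  unfold dlt
  apply continuous_finsetProd
  intro a _
  apply Continuous.add
  · exact (Metric.continuous_infDist_pt _).comp (gg_cont κ Y hY θ a)
  · apply continuous_finsetSum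
    intro b _
    exact ((mu_cont κ Y hY θ b).sub (mu_cont κ Y hY θ a)).max continuous_const

lemma infDist_rot [Fact p.Prime] (a : ZMod p) (x : ℂ) :
    Metric.infDist (ee p a * x) (QQ p)ᶜ = Metric.infDist x (QQ p)ᶜ := by
  have hiso : Isometry (fun x : ℂ => ee p a * x) := by
    apply Isometry.of_dist_eq
    intro x y
    rw [dist_eq_norm, dist_eq_norm, ← mul_sub, norm_mul, ee_norm, one_mul]
  have himg : (fun x : ℂ => ee p a * x) '' (QQ p)ᶜ = (QQ p)ᶜ := by
    ext y
    constructor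
    · rintro ⟨x, hx, rfl⟩
      intro h
      exact hx ((QQ_rot a).mp h)
    · intro hy
      refine ⟨ee p (-a) * y, fun h => hy ((QQ_rot (-a)).mp h), ?_⟩
      show ee p a * (ee p (-a) * y) = y
      rw [← mul_assoc, ← ee_add, add_neg_cancel, ee_zero, one_mul]
  have h := Metric.infDist_image hiso (x := x) (t := (QQ p)ᶜ)
  rw [himg] at h
  exact h

lemma dlt_rot [Fact p.Prime] [Fintype I] (κJ : J → ZMod p) (κ : I → ZMod p) (Y : Cx J → Cx I)
    (hequi : ∀ x x', IsRot p κJ x x' → IsRot p κ (Y x) (Y x')) (θ : Par p I → ℝ)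
    (v : Option J → ℂ) : dlt κ Y θ (TT κJ v) = dlt κ Y θ v := by
  unfold dlt
  apply Finset.prod_congr rfl
  intro a _
  rw [gg_rot κJ κ Y hequi, infDist_rot]
  congr 1
  apply Finset.sum_congr rfl
  intro b _
  rw [mu_rot κJ κ Y hequi, mu_rot κJ κ Y hequi]

lemma dlt_zero [Fact p.Prime] [Fintype I] (κ : I → ZMod p) (Y : Cx J → Cx I)
    (θ : Par p I → ℝ) (v : Option J → ℂ) : dlt κ Y θ v = 0 ↔
      ∃ a, gg κ Y θ v a ∉ QQ p ∧ ∀ b, mu κ Y θ v b ≤ mu κ Y θ v a := by
  unfold dlt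
  rw [Finset.prod_eq_zero_iff]
  have hcl : IsClosed (QQ p)ᶜ := QQ_open.isClosed_compl
  have hne : ((QQ p)ᶜ).Nonempty := ⟨0, zero_notMem⟩
  constructor
  · rintro ⟨a, _, ha⟩
    have h1 : 0 ≤ Metric.infDist (gg κ Y θ v a) (QQ p)ᶜ := Metric.infDist_nonneg
    have h2 : 0 ≤ ∑ b : Ty p, max (mu κ Y θ v b - mu κ Y θ v a) 0 :=
      Finset.sum_nonneg fun b _ => le_max_right _ _
    have h3 : Metric.infDist (gg κ Y θ v a) (QQ p)ᶜ = 0 := by linarith
    have h4 : ∑ b : Ty p, max (mu κ Y θ v b - mu κ Y θ v a) 0 = 0 := by linarith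
    refine ⟨a, (hcl.mem_iff_infDist_zero hne).mpr h3, fun b => ?_⟩
    rw [Finset.sum_eq_zero_iff_of_nonneg (fun b _ => le_max_right _ _)] at h4
    have h5 := h4 b (Finset.mem_univ b)
    have h6 := le_max_left (mu κ Y θ v b - mu κ Y θ v a) 0
    rw [h5] at h6
    linarith
  · rintro ⟨a, ha, hb⟩
    refine ⟨a, Finset.mem_univ a, ?_⟩
    rw [(hcl.mem_iff_infDist_zero hne).mp ha, zero_add]
    apply Finset.sum_eq_zero
    intro b _
    exact max_eq_right (by linarith [hb b])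

end build

lemma isOpen_all {X K : Type} [TopologicalSpace X] [Finite K] (P : K → X → Prop)
    (h : ∀ b, IsOpen {v | P b v}) : IsOpen {v | ∀ b, P b v} := by
  have : {v | ∀ b, P b v} = ⋂ b, {v | P b v} := by
    ext v; simp
  rw [this]
  exact isOpen_iInter_of_finite h

lemma isOpen_imp {X : Type} [TopologicalSpace X] (c : Prop) (P : X → Prop)
    (h : IsOpen {v | P v}) : IsOpen {v | c → P v} := by
  by_cases hc : c
  · simpa [hc] using h
  · simp [hc]

section cover

variable {p : ℕ} [Fact p.Prime] {J I : Type} [Fintype J] [Fintype I]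

lemma lb_rot (a : Ty p) (s : ZMod p) : a.1⁻¹ * (s + a.1) = a.1⁻¹ * s + 1 := by
  rw [mul_add, inv_mul_cancel₀ a.2]

lemma cover1 (κJ : J → ZMod p) (κ : I → ZMod p) (Y : Cx J → Cx I) (hY : Continuous Y)
    (hequi : ∀ x x', IsRot p κJ x x' → IsRot p κ (Y x) (Y x')) (θ : Par p I → ℝ) :
    ∃ (O : Set (Option J → ℂ)) (lab : (Option J → ℂ) → ZMod p), IsOpen O ∧
      (∀ v, v ∈ O ↔ ∃ (a : Ty p) (s : ZMod p), (∀ b, b ≠ a → mu κ Y θ v b < mu κ Y θ v a) ∧
        gg κ Y θ v a ∈ Sec p s) ∧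
      (∀ x ∈ O, ∀ᶠ y in nhds x, lab y = lab x) ∧ (∀ x ∈ O, TT κJ x ∈ O) ∧
      (∀ x ∈ O, lab (TT κJ x) = lab x + 1) := by
  obtain ⟨O, lab, h1, h2, h3, h4, h5⟩ := pieces (K := Ty p × ZMod p) (TT κJ)
    (fun q => {v | (∀ b, b ≠ q.1 → mu κ Y θ v b < mu κ Y θ v q.1) ∧ gg κ Y θ v q.1 ∈ Sec p q.2})
    (by
      rintro ⟨a, s⟩
      have hA : IsOpen {v | ∀ b, b ≠ a → mu κ Y θ v b < mu κ Y θ v a} :=
        isOpen_all _ fun b => isOpen_imp _ _ (isOpen_lt (mu_cont κ Y hY θ b) (mu_cont κ Y hY θ a))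
      exact hA.inter ((Sec_open s).preimage (gg_cont κ Y hY θ a)))
    (fun q => q.1.1⁻¹ * q.2)
    (by
      rintro ⟨a, s⟩ ⟨a', s'⟩ v ⟨h1, h2⟩ ⟨h3, h4⟩
      simp only at h1 h2 h3 h4 ⊢
      have ha : a = a' := by
        by_contra hne
        exact lt_asymm (h3 a hne) (h1 a' (fun e => hne e.symm))
      subst ha
      rw [Sec_disj h2 h4])
    (by
      rintro ⟨a, s⟩ v ⟨h1, h2⟩
      refine ⟨(a, s + a.1), ⟨?_, ?_⟩, lb_rot a s⟩
      · intro b hb
        rw [mu_rot κJ κ Y hequi, mu_rot κJ κ Y hequi]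
        exact h1 b hb
      · show gg κ Y θ (TT κJ v) a ∈ Sec p (s + a.1)
        rw [gg_rot κJ κ Y hequi]
        exact Sec_rot _ h2)
  refine ⟨O, lab, h1, fun v => ?_, h3, h4, h5⟩
  rw [h2]
  constructor
  · rintro ⟨⟨a, s⟩, h⟩; exact ⟨a, s, h⟩
  · rintro ⟨a, s, h⟩; exact ⟨⟨a, s⟩, h⟩

lemma cover2 (κJ : J → ZMod p) (κ : I → ZMod p) (Y : Cx J → Cx I) (hY : Continuous Y)
    (hequi : ∀ x x', IsRot p κJ x x' → IsRot p κ (Y x) (Y x')) (θ : Par p I → ℝ) :
    ∃ (O : Set (Option J → ℂ)) (lab : (Option J → ℂ) → ZMod p), IsOpen O ∧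
      (∀ v, v ∈ O ↔ (∃ (a : Ty p) (s : ZMod p),
        (∀ b, b ≠ a → mu κ Y θ v b + dlt κ Y θ v < mu κ Y θ v a) ∧ -gg κ Y θ v a ∈ Sec p s) ∨
        (∃ (a b : Ty p) (s : ZMod p), (a.1.val < b.1.val ∧ |mu κ Y θ v a - mu κ Y θ v b| < dlt κ Y θ v ∧
          ∀ c, c ≠ a → c ≠ b → mu κ Y θ v c < mu κ Y θ v a ∧ mu κ Y θ v c < mu κ Y θ v b) ∧
          gg κ Y θ v a ∈ Sec p s)) ∧
      (∀ x ∈ O, ∀ᶠ y in nhds x, lab y = lab x) ∧ (∀ x ∈ O, TT κJ x ∈ O) ∧
      (∀ x ∈ O, lab (TT κJ x) = lab x + 1) := by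
  obtain ⟨O, lab, h1, h2, h3, h4, h5⟩ := pieces
    (K := (Ty p × ZMod p) ⊕ (Ty p × Ty p × ZMod p)) (TT κJ)
    (fun q => match q with
      | Sum.inl (a, s) => {v | (∀ b, b ≠ a → mu κ Y θ v b + dlt κ Y θ v < mu κ Y θ v a) ∧
          -gg κ Y θ v a ∈ Sec p s}
      | Sum.inr (a, b, s) => {v | (a.1.val < b.1.val ∧ |mu κ Y θ v a - mu κ Y θ v b| < dlt κ Y θ v ∧
          ∀ c, c ≠ a → c ≠ b → mu κ Y θ v c < mu κ Y θ v a ∧ mu κ Y θ v c < mu κ Y θ v b) ∧
          gg κ Y θ v a ∈ Sec p s})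
    (by
      rintro (⟨a, s⟩ | ⟨a, b, s⟩)
      · have hA : IsOpen {v | ∀ b, b ≠ a → mu κ Y θ v b + dlt κ Y θ v < mu κ Y θ v a} :=
          isOpen_all _ fun b => isOpen_imp _ _
            (isOpen_lt ((mu_cont κ Y hY θ b).add (dlt_cont κ Y hY θ)) (mu_cont κ Y hY θ a))
        exact hA.inter ((Sec_open s).preimage (gg_cont κ Y hY θ a).neg)
      · have h1 : IsOpen {v : Option J → ℂ | a.1.val < b.1.val} := isOpen_const
        have h2 : IsOpen {v | |mu κ Y θ v a - mu κ Y θ v b| < dlt κ Y θ v} :=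
          isOpen_lt ((mu_cont κ Y hY θ a).sub (mu_cont κ Y hY θ b)).abs (dlt_cont κ Y hY θ)
        have h3 : IsOpen {v | ∀ c, c ≠ a → c ≠ b → mu κ Y θ v c < mu κ Y θ v a ∧
            mu κ Y θ v c < mu κ Y θ v b} :=
          isOpen_all _ fun c => isOpen_imp _ _ (isOpen_imp _ _
            ((isOpen_lt (mu_cont κ Y hY θ c) (mu_cont κ Y hY θ a)).inter
              (isOpen_lt (mu_cont κ Y hY θ c) (mu_cont κ Y hY θ b))))
        exact (h1.inter (h2.inter h3)).inter ((Sec_open s).preimage (gg_cont κ Y hY θ a)))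
    (fun q => match q with
      | Sum.inl (a, s) => a.1⁻¹ * s
      | Sum.inr (a, _, s) => a.1⁻¹ * s)
    (by
      have mixed : ∀ (a : Ty p) (s : ZMod p) (a' b' : Ty p) (v : Option J → ℂ),
          (∀ b, b ≠ a → mu κ Y θ v b + dlt κ Y θ v < mu κ Y θ v a) →
          (a'.1.val < b'.1.val ∧ |mu κ Y θ v a' - mu κ Y θ v b'| < dlt κ Y θ v ∧
          ∀ c, c ≠ a' → c ≠ b' → mu κ Y θ v c < mu κ Y θ v a' ∧ mu κ Y θ v c < mu κ Y θ v b') →
          False := by
        intro a s a' b' v h1 ⟨h2, h3, h4⟩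
        have hd := dlt_nonneg κ Y θ v
        have hab : a' ≠ b' := by rintro rfl; exact lt_irrefl _ h2
        rw [abs_lt] at h3
        by_cases e1 : a = a'
        · subst e1
          have := h1 b' (fun e => hab e.symm)
          linarith [h3.2]
        · by_cases e2 : a = b'
          · subst e2
            have := h1 a' hab
            linarith [h3.1]
          · have := (h4 a e1 e2).1
            have := h1 a' (fun e => e1 e.symm)
            linarith
      rintro (⟨a, s⟩ | ⟨a, b, s⟩) (⟨a', s'⟩ | ⟨a', b', s'⟩) v ⟨h1, h2⟩ ⟨h3, h4⟩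
      · have hd := dlt_nonneg κ Y θ v
        have ha : a = a' := by
          by_contra hne
          have := h3 a hne
          have := h1 a' (fun e => hne e.symm)
          linarith
        subst ha
        show a.1⁻¹ * s = a.1⁻¹ * s'
        rw [Sec_disj h2 h4]
      · exact (mixed a s a' b' v h1 h3).elim
      · exact (mixed a' s' a b v h3 h1).elim
      · obtain ⟨h1a, h1b, h1c⟩ := h1
        obtain ⟨h3a, h3b, h3c⟩ := h3
        have hab : a ≠ b := by rintro rfl; exact lt_irrefl _ h1a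
        have hab' : a' ≠ b' := by rintro rfl; exact lt_irrefl _ h3a
        have ha : a = a' := by
          by_contra hne
          by_cases e1 : a' = b
          · -- then b' is not a, b
            have e2 : b' ≠ a := by
              intro e
              have h5 : b'.1.val = a.1.val := by rw [e]
              have h6 : a'.1.val = b.1.val := by rw [e1]
              omega
            have e3 : b' ≠ b := by
              intro e
              exact hab' (e1.trans e.symm)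
            have h5 := (h1c b' e2 e3).1
            have h6 := (h3c a hne (fun e => e2 e.symm)).2
            exact lt_asymm h5 h6
          · have e0 : a' ≠ a := fun e => hne e.symm
            have h5 := h1c a' e0 e1
            by_cases e2 : a = b'
            · have e3 : b ≠ b' := fun e => hab (e2.trans e.symm)
              have h6 := h3c b (fun e => e1 e.symm) e3
              exact lt_asymm h5.2 h6.1
            · have h6 := h3c a hne e2
              exact lt_asymm h5.1 h6.1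
        subst ha
        show a.1⁻¹ * s = a.1⁻¹ * s'
        rw [Sec_disj h2 h4])
    (by
      rintro (⟨a, s⟩ | ⟨a, b, s⟩) v ⟨h1, h2⟩
      · refine ⟨Sum.inl (a, s + a.1), ⟨?_, ?_⟩, lb_rot a s⟩
        · intro b hb
          rw [mu_rot κJ κ Y hequi, mu_rot κJ κ Y hequi, dlt_rot κJ κ Y hequi]
          exact h1 b hb
        · show -gg κ Y θ (TT κJ v) a ∈ Sec p (s + a.1)
          rw [gg_rot κJ κ Y hequi, ← mul_neg]
          exact Sec_rot _ h2
      · refine ⟨Sum.inr (a, b, s + a.1), ⟨?_, ?_⟩, lb_rot a s⟩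
        · simp only [mu_rot κJ κ Y hequi, dlt_rot κJ κ Y hequi]
          exact h1
        · show gg κ Y θ (TT κJ v) a ∈ Sec p (s + a.1)
          rw [gg_rot κJ κ Y hequi]
          exact Sec_rot _ h2)
  refine ⟨O, lab, h1, fun v => ?_, h3, h4, h5⟩
  rw [h2]
  constructor
  · rintro ⟨(⟨a, s⟩ | ⟨a, b, s⟩), h⟩
    · exact Or.inl ⟨a, s, h⟩
    · exact Or.inr ⟨a, b, s, h⟩
  · rintro (⟨a, s, h⟩ | ⟨a, b, s, h⟩)
    · exact ⟨Sum.inl (a, s), h⟩
    · exact ⟨Sum.inr (a, b, s), h⟩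

lemma coverz (κJ : J → ZMod p) :
    ∃ (O : Set (Option J → ℂ)) (lab : (Option J → ℂ) → ZMod p), IsOpen O ∧
      (∀ v, v ∈ O ↔ ∃ s : ZMod p, -(v none) ∈ Sec p s) ∧
      (∀ x ∈ O, ∀ᶠ y in nhds x, lab y = lab x) ∧ (∀ x ∈ O, TT κJ x ∈ O) ∧
      (∀ x ∈ O, lab (TT κJ x) = lab x + 1) := by
  apply pieces (K := ZMod p) (TT κJ) (fun s => {v | -(v none) ∈ Sec p s})
    (by
      intro s
      exact (Sec_open s).preimage (continuous_apply none).neg)
    (fun s => s)
    (by
      intro s s' v h1 h2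
      exact Sec_disj h1 h2)
    (by
      intro s v h
      refine ⟨s + 1, ?_, rfl⟩
      show -(TT κJ v none) ∈ Sec p (s + 1)
      have : TT κJ v none = ee p 1 * v none := rfl
      rw [this, ← mul_neg]
      exact Sec_rot _ h)

end cover

section final

lemma mm_scale {p : ℕ} {I : Type} [Fintype I] (κ : I → ZMod p) {r : ℝ} (hr : 0 < r) (a : Ty p)
    (w : Cx I) : mm κ 1 a (r⁻¹ • w) = mm κ r a w / r ^ 2 := by
  unfold mm
  rw [add_div, Finset.sum_div]
  congr 1
  · field_simp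
  · apply Finset.sum_congr rfl
    intro i _
    split_ifs
    · rw [cx_smul, norm_mul, Complex.norm_real, Real.norm_of_nonneg (inv_nonneg.mpr hr.le), mul_pow]
      field_simp
    · simp

lemma xi_scale {p : ℕ} {I : Type} [Fintype I] (κ : I → ZMod p) (θ : Par p I → ℝ) (r : ℝ) (a : Ty p)
    (w : Cx I) : xi κ θ a (r⁻¹ • w) = ((r⁻¹ : ℝ) : ℂ) * xi κ θ a w := by
  unfold xi
  rw [Finset.mul_sum]
  apply Finset.sum_congr rfl
  intro i _
  split_ifs
  · rw [cx_smul]; ring
  · rw [mul_zero]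

lemma sat_scale {p : ℕ} {I : Type} [Fintype I] (κ : I → ZMod p) (θ : Par p I → ℝ) {r : ℝ}
    (hr : 0 < r) (w : Cx I) (o : Opt p) (h : Sat κ θ w r o) : Sat κ θ (r⁻¹ • w) 1 o := by
  have hr2 : 0 < r ^ 2 := by positivity
  have htop : ∀ a, Top κ θ w r a → Top κ θ (r⁻¹ • w) 1 a := by
    intro a h b
    rw [mm_scale κ hr, mm_scale κ hr, div_mul_eq_mul_div, div_mul_eq_mul_div]
    exact div_le_div_of_nonneg_right (h b) hr2.le
  have htie : ∀ a b, Tie κ θ w r a b → Tie κ θ (r⁻¹ • w) 1 a b := by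
    intro a b h
    unfold Tie
    rw [mm_scale κ hr, mm_scale κ hr, div_mul_eq_mul_div, div_mul_eq_mul_div]
    unfold Tie at h
    rw [h]
  have hrc : (r : ℂ) ≠ 0 := by exact_mod_cast hr.ne'
  rcases o with a | ⟨a, b, l⟩ | ⟨a, b, c⟩
  · obtain ⟨h1, h2⟩ := h
    refine ⟨htop a h1, ?_⟩
    rw [xi_scale, h2]
    push_cast
    field_simp
  · obtain ⟨h1, h2, h3, h4⟩ := h
    refine ⟨h1, htop a h2, htie a b h3, ?_⟩
    rw [xi_scale]
    have : (starRingEnd ℂ) (om p ^ l.val) * (((r⁻¹ : ℝ) : ℂ) * xi κ θ a w - ((1 : ℝ) : ℂ) * py θ a)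
        = ((r⁻¹ : ℝ) : ℂ) * ((starRingEnd ℂ) (om p ^ l.val) * (xi κ θ a w - r * py θ a)) := by
      push_cast
      field_simp
    rw [this, Complex.im_ofReal_mul, h4, mul_zero]
  · obtain ⟨h1, h2, h3, h4, h5, h6⟩ := h
    exact ⟨h1, h2, h3, htop a h4, htie a b h5, htie a c h6⟩

lemma option_of {p : ℕ} [Fact p.Prime] (hp : p ≠ 2) {J I : Type} [Fintype J] [Fintype I]
    (κ : I → ZMod p) (Y : Cx J → Cx I) (θ : Par p I → ℝ) (hθ : ∀ a, 0 < pe θ a)
    (v : Option J → ℂ) (r : ℝ) (hr : 0 ≤ r) (hz : v none = r)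
    (h1 : ¬ ∃ (a : Ty p) (s : ZMod p), (∀ b, b ≠ a → mu κ Y θ v b < mu κ Y θ v a) ∧
        gg κ Y θ v a ∈ Sec p s)
    (h2 : ¬ ((∃ (a : Ty p) (s : ZMod p),
        (∀ b, b ≠ a → mu κ Y θ v b + dlt κ Y θ v < mu κ Y θ v a) ∧ -gg κ Y θ v a ∈ Sec p s) ∨
        (∃ (a b : Ty p) (s : ZMod p), (a.1.val < b.1.val ∧ |mu κ Y θ v a - mu κ Y θ v b| < dlt κ Y θ v ∧
          ∀ c, c ≠ a → c ≠ b → mu κ Y θ v c < mu κ Y θ v a ∧ mu κ Y θ v c < mu κ Y θ v b) ∧
          gg κ Y θ v a ∈ Sec p s))) :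
    ∃ o, Sat κ θ (Y (xv v)) r o := by
  have hnorm : ‖v none‖ = r := by rw [hz, Complex.norm_real, Real.norm_of_nonneg hr]
  have hmu : ∀ a, mu κ Y θ v a = mm κ r a (Y (xv v)) / pe θ a := by
    intro a; rw [mu, hnorm]
  have hgg : ∀ a, gg κ Y θ v a = xi κ θ a (Y (xv v)) - r * py θ a := by
    intro a; rw [gg, hz, zt_real _ hr]
  have htop : ∀ a, (∀ b, mu κ Y θ v b ≤ mu κ Y θ v a) → Top κ θ (Y (xv v)) r a := by
    intro a h b
    have := h b
    rw [hmu, hmu, div_le_div_iff₀ (hθ b) (hθ a)] at this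
    exact this
  have htie : ∀ a b, mu κ Y θ v b = mu κ Y θ v a → Tie κ θ (Y (xv v)) r a b := by
    intro a b h
    rw [hmu, hmu, div_eq_div_iff (hθ b).ne' (hθ a).ne'] at h
    exact h
  have : Nonempty (Ty p) := ⟨⟨1, one_ne_zero⟩⟩
  obtain ⟨a, ha⟩ := Finite.exists_max (fun a : Ty p => mu κ Y θ v a)
  by_cases hs : ∀ b, b ≠ a → mu κ Y θ v b < mu κ Y θ v a
  · have gQ : gg κ Y θ v a ∉ QQ p := by
      intro h
      obtain ⟨s, hs'⟩ := mem_iUnion.mp h
      exact h1 ⟨a, s, hs, hs'⟩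
    have hd : dlt κ Y θ v = 0 := (dlt_zero κ Y θ v).mpr ⟨a, gQ, ha⟩
    have gQ' : -gg κ Y θ v a ∉ QQ p := by
      intro h
      obtain ⟨s, hs'⟩ := mem_iUnion.mp h
      exact h2 (Or.inl ⟨a, s, fun b hb => by rw [hd, add_zero]; exact hs b hb, hs'⟩)
    have h0 := fact1 hp gQ gQ'
    rw [hgg, sub_eq_zero] at h0
    exact ⟨Sum.inl a, htop a ha, h0⟩
  · push Not at hs
    obtain ⟨b, hba, hb⟩ := hs
    have hbe : mu κ Y θ v b = mu κ Y θ v a := le_antisymm (ha b) hb
    by_cases h3 : ∃ c, c ≠ a ∧ c ≠ b ∧ mu κ Y θ v c = mu κ Y θ v a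
    · obtain ⟨c, hca, hcb, hc⟩ := h3
      exact ⟨Sum.inr (Sum.inr (a, b, c)), fun e => hba e.symm, fun e => hca e.symm,
        fun e => hcb e.symm, htop a ha, htie a b hbe, htie a c hc⟩
    · push Not at h3
      have h4 : ∀ c, c ≠ a → c ≠ b → mu κ Y θ v c < mu κ Y θ v a :=
        fun c hca hcb => lt_of_le_of_ne (ha c) (h3 c hca hcb)
      have claim : ∃ c c', c ≠ c' ∧ mu κ Y θ v c = mu κ Y θ v a ∧ mu κ Y θ v c' = mu κ Y θ v a ∧
          gg κ Y θ v c ∉ QQ p := by
        by_cases hd : dlt κ Y θ v = 0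
        · obtain ⟨c, hcQ, hc⟩ := (dlt_zero κ Y θ v).mp hd
          by_cases e1 : c = a
          · subst e1
            exact ⟨c, b, fun e => hba e.symm, rfl, hbe, hcQ⟩
          · by_cases e2 : c = b
            · subst e2
              exact ⟨c, a, e1, hbe, rfl, hcQ⟩
            · exact absurd (hc a) (not_le.mpr (h4 c e1 e2))
        · have hd' : 0 < dlt κ Y θ v := lt_of_le_of_ne (dlt_nonneg κ Y θ v) (Ne.symm hd)
          rcases lt_trichotomy a.1.val b.1.val with hlt | heq | hlt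
          · refine ⟨a, b, fun e => hba e.symm, rfl, hbe, ?_⟩
            intro h
            obtain ⟨s, hs'⟩ := mem_iUnion.mp h
            refine h2 (Or.inr ⟨a, b, s, ⟨hlt, by rw [hbe, sub_self, abs_zero]; exact hd', ?_⟩, hs'⟩)
            intro c hca hcb
            exact ⟨h4 c hca hcb, by rw [hbe]; exact h4 c hca hcb⟩
          · exact absurd (Subtype.ext (ZMod.val_injective p heq.symm)) hba
          · refine ⟨b, a, hba, hbe, rfl, ?_⟩
            intro h
            obtain ⟨s, hs'⟩ := mem_iUnion.mp h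
            refine h2 (Or.inr ⟨b, a, s, ⟨hlt, by rw [hbe, sub_self, abs_zero]; exact hd', ?_⟩, hs'⟩)
            intro c hcb hca
            exact ⟨by rw [hbe]; exact h4 c hca hcb, h4 c hca hcb⟩
      obtain ⟨c, c', hcc, hc, hc', hcQ⟩ := claim
      obtain ⟨l, ρ, hρ, hv⟩ := fact2 hp hcQ
      refine ⟨Sum.inr (Sum.inl (c, c', l)), hcc, htop c fun b => by rw [hc]; exact ha b,
        htie c c' (hc'.trans hc.symm), ?_⟩
      rw [← hgg, hv]
      have : (starRingEnd ℂ) (om p ^ l.val) * -((ρ : ℂ) * ee p l) = ((-ρ : ℝ) : ℂ) := by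
        have h5 := conj_mul_ee (p := p) l
        rw [ee] at h5 ⊢
        calc (starRingEnd ℂ) (om p ^ l.val) * -((ρ : ℂ) * om p ^ l.val)
            = -(ρ : ℂ) * ((starRingEnd ℂ) (om p ^ l.val) * om p ^ l.val) := by ring
          _ = _ := by rw [h5, mul_one]; push_cast; rfl
      rw [this, Complex.ofReal_im]

lemma TT_iter {p : ℕ} {J : Type} (κJ : J → ZMod p) (v : Option J → ℂ) (n : ℕ) :
    (TT κJ)^[n] v = fun i => ee p (kk κJ i) ^ n * v i := by
  induction n with
  | zero => simp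
  | succ n ih =>
    rw [Function.iterate_succ_apply', ih]
    funext i
    rw [TT, pow_succ]; ring

lemma ee_pow_p {p : ℕ} [Fact p.Prime] (t : ZMod p) : ee p t ^ p = 1 := by
  rw [ee, ← pow_mul, mul_comm, pow_mul, om_prim.pow_eq_one, one_pow]

end final

/-- JOB: for all parameters the system of equations has a solution `(x, z)` with `z = 0` or `z = 1` -/
theorem hit (p : ℕ) [Fact p.Prime] (hp : p ≠ 2) {J I : Type} [Fintype J] [Fintype I]
    (κJ : J → ZMod p) (hκJ : ∀ j, κJ j ≠ 0) (κ : I → ZMod p)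
    (Y : Cx J → Cx I) (hY : Continuous Y) (hhom : ∀ t : ℝ, 0 < t → ∀ x, Y (t • x) = t • Y x)
    (hequi : ∀ x x', IsRot p κJ x x' → IsRot p κ (Y x) (Y x'))
    (θ : J → Par p I → ℝ) (hθ : ∀ j a, 0 < pe (θ j) a) :
    ∃ (x : Cx J) (z : ℝ), (z = 0 ∨ z = 1) ∧ (x ≠ 0 ∨ z = 1) ∧ ∀ j, ∃ o, Sat κ (θ j) (Y x) z o := by
  classical
  choose O1 lab1 o1 m1 c1 i1 e1 using fun j => cover1 κJ κ Y hY hequi (θ j)
  choose O2 lab2 o2 m2 c2 i2 e2 using fun j => cover2 κJ κ Y hY hequi (θ j)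
  obtain ⟨Oz, labz, oz, mz, cz, iz, ez⟩ := coverz (p := p) κJ
  let O : (J × Bool) ⊕ Unit → Set (Option J → ℂ) := fun q => match q with
    | Sum.inl (j, true) => O1 j
    | Sum.inl (j, false) => O2 j
    | Sum.inr _ => Oz
  let lab : (J × Bool) ⊕ Unit → (Option J → ℂ) → ZMod p := fun q => match q with
    | Sum.inl (j, true) => lab1 j
    | Sum.inl (j, false) => lab2 j
    | Sum.inr _ => labz
  have hκ' : ∀ i, kk κJ i ≠ 0 := by
    rintro (_ | j)
    · exact one_ne_zero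
    · exact hκJ j
  have hinv : ∀ q, ∀ x ∈ O q, TT κJ x ∈ O q := by
    rintro (⟨j, _ | _⟩ | _) x hx
    · exact i2 j x hx
    · exact i1 j x hx
    · exact iz x hx
  obtain ⟨v, hv0, hv⟩ := dold_cover p hp (kk κJ) hκ' (J := (J × Bool) ⊕ Unit)
    (by
      rw [Fintype.card_sum, Fintype.card_prod, Fintype.card_option, Fintype.card_bool,
        Fintype.card_unit]
      omega) O
    (by
      rintro (⟨j, _ | _⟩ | _)
      · exact o2 j
      · exact o1 j
      · exact oz) lab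
    (by
      rintro (⟨j, _ | _⟩ | _) x hx
      · exact c2 j x hx
      · exact c1 j x hx
      · exact cz x hx)
    hinv
    (by
      rintro (⟨j, _ | _⟩ | _) x hx
      · exact e2 j x hx
      · exact e1 j x hx
      · exact ez x hx)
  have hnot : ∀ n q, (TT κJ)^[n] v ∉ O q := by
    intro n q hmem
    have h1 : ∀ m, (TT κJ)^[m] ((TT κJ)^[n] v) ∈ O q := by
      intro m
      induction m with
      | zero => exact hmem
      | succ m ih =>
        rw [Function.iterate_succ_apply']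
        exact hinv q _ ih
    have h2 := h1 ((p - 1) * n)
    rw [← Function.iterate_add_apply] at h2
    have h3 : (p - 1) * n + n = p * n := by
      have := (Fact.out : p.Prime).one_lt
      obtain ⟨k, rfl⟩ : ∃ k, p = k + 1 := ⟨p - 1, by omega⟩
      simp; ring
    rw [h3, TT_iter] at h2
    have h4 : (fun i => ee p (kk κJ i) ^ (p * n) * v i) = v := by
      funext i
      rw [pow_mul, ee_pow_p, one_pow, one_mul]
    rw [h4] at h2
    exact hv q h2
  have hz : -(v none) ∉ QQ p := by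
    intro h
    obtain ⟨s, hs⟩ := mem_iUnion.mp h
    exact hv (Sum.inr ()) ((mz v).mpr ⟨s, hs⟩)
  obtain ⟨l, r, hr, hl⟩ := fact2 hp hz
  have hl' : v none = r * ee p l := by
    have := congrArg Neg.neg hl
    simpa using this
  set v' := (TT κJ)^[(-l).val] v with hv'
  have hv'i : ∀ i, v' i = ee p (kk κJ i) ^ (-l).val * v i := by
    intro i; rw [hv', TT_iter]
  have hnone : v' none = r := by
    rw [hv'i]
    have h1 : ee p (kk κJ none) = om p := by rw [kk]; exact ee_one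
    rw [h1, hl']
    have h2 : om p ^ (-l).val = ee p (-l) := rfl
    rw [h2]
    calc ee p (-l) * (r * ee p l) = r * (ee p (-l) * ee p l) := by ring
      _ = r := by rw [← ee_add, neg_add_cancel, ee_zero, mul_one]
  have hv'0 : v' ≠ 0 := by
    intro h
    apply hv0
    funext i
    have h1 := hv'i i
    rw [h] at h1
    have h2 : ee p (kk κJ i) ^ (-l).val ≠ 0 := pow_ne_zero _ (ee_ne _)
    rcases mul_eq_zero.mp h1.symm with h3 | h3
    · exact absurd h3 h2
    · exact h3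
  have hsat : ∀ j, ∃ o, Sat κ (θ j) (Y (xv v')) r o := by
    intro j
    apply option_of hp κ Y (θ j) (hθ j) v' r hr hnone
    · intro h
      exact hnot _ (Sum.inl (j, true)) ((m1 j v').mpr h)
    · intro h
      exact hnot _ (Sum.inl (j, false)) ((m2 j v').mpr h)
  by_cases hr0 : r = 0
  · refine ⟨xv v', 0, Or.inl rfl, Or.inl ?_, ?_⟩
    · intro h
      apply hv'0
      funext i
      rcases i with _ | j
      · rw [hnone, hr0]; simp
      · have h1 := cx_xv v' j
        rw [h] at h1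
        rw [← h1]
        apply Complex.ext <;> simp [cx]
    · intro j
      have := hsat j
      rw [hr0] at this
      exact this
  · have hrp : 0 < r := lt_of_le_of_ne hr (Ne.symm hr0)
    refine ⟨r⁻¹ • xv v', 1, Or.inr rfl, Or.inr rfl, ?_⟩
    intro j
    obtain ⟨o, ho⟩ := hsat j
    refine ⟨o, ?_⟩
    rw [hhom _ (inv_pos.mpr hrp)]
    exact sat_scale κ (θ j) hrp _ o ho

end T2

end Pool.Agent.Helper954.Hopf
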